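import Pool.Agent.GD.Cls

/-!
# General d, numerical block: the virtual dimension, one more ordinary point
-/

set_option autoImplicit false

namespace Pool.Agent.GD

open Finset

/-- The summand of `vd`. -/
private noncomputable def nvd (D : ℕ) (I' : Finset ℕ) (c : ℕ → ℕ) (n : ℕ) (ms : Multiset Kd) : ℤ :=
  (-1) ^ I'.card * PowerSeries.coeff D ((ms.map (Kd.P I')).prod * hs (n - ∑ i ∈ I', c i))

private theorem nvd_cons (D : ℕ) (I' : Finset ℕ) (c : ℕ → ℕ) (n : ℕ) (ms : Multiset Kd) (x : ℕ)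
    (A : Finset ℕ) (h : x ≤ D) : nvd D I' c n (.ord x A ::ₘ ms) =
      nvd D I' c n ms - if I' ⊆ A then nvd (D - x) I' c n ms else 0 := by
  unfold nvd
  rw [Multiset.map_cons, Multiset.prod_cons]
  by_cases hA : I' ⊆ A
  · have h1 : Kd.P I' (.ord x A) = 1 - PowerSeries.X ^ x := if_pos hA
    rw [h1, if_pos hA, mul_assoc, sub_mul, one_mul, map_sub, PowerSeries.coeff_X_pow_mul',
      if_pos h]
    ring
  · have h1 : Kd.P I' (.ord x A) = 1 := if_neg hA
    rw [h1, if_neg hA, one_mul, sub_zero]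

private theorem nvd_cons_lt (D : ℕ) (I' : Finset ℕ) (c : ℕ → ℕ) (n : ℕ) (ms : Multiset Kd) (x : ℕ)
    (A : Finset ℕ) (h : D < x) : nvd D I' c n (.ord x A ::ₘ ms) = nvd D I' c n ms := by
  unfold nvd
  rw [Multiset.map_cons, Multiset.prod_cons]
  by_cases hA : I' ⊆ A
  · have h1 : Kd.P I' (.ord x A) = 1 - PowerSeries.X ^ x := if_pos hA
    rw [h1, mul_assoc, sub_mul, one_mul, map_sub, PowerSeries.coeff_X_pow_mul',
      if_neg (not_le.2 h), sub_zero]
  · have h1 : Kd.P I' (.ord x A) = 1 := if_neg hA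
    rw [h1, one_mul]

/-- One more ordinary point of exponent `x ≤ D`. -/
theorem vd_cons (D : ℕ) (I : Finset ℕ) (c : ℕ → ℕ) (n : ℕ) (ms : Multiset Kd) (x : ℕ) (A : Finset ℕ)
    (h : x ≤ D) : vd D I c n (.ord x A ::ₘ ms) = vd D I c n ms - vd (D - x) (I ∩ A) c n ms := by
  show ∑ I' ∈ I.powerset, nvd D I' c n (.ord x A ::ₘ ms) =
    ∑ I' ∈ I.powerset, nvd D I' c n ms - ∑ I' ∈ (I ∩ A).powerset, nvd (D - x) I' c n ms
  rw [sum_congr rfl fun I' _ => nvd_cons D I' c n ms x A h, sum_sub_distrib, ← sum_filter]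
  congr 2
  ext I'
  rw [mem_filter, mem_powerset, mem_powerset, subset_inter_iff]

/-- One more ordinary point of exponent `x > D`. -/
theorem vd_cons_lt (D : ℕ) (I : Finset ℕ) (c : ℕ → ℕ) (n : ℕ) (ms : Multiset Kd) (x : ℕ) (A : Finset ℕ)
    (h : D < x) : vd D I c n (.ord x A ::ₘ ms) = vd D I c n ms :=
  sum_congr rfl fun I' _ => nvd_cons_lt D I' c n ms x A h

private theorem nvd_P0 (I' : Finset ℕ) (k : Kd) (h : 1 ≤ k.ex) :
    PowerSeries.constantCoeff (Kd.P I' k) = 1 := by
  have h0 : ∀ e : ℕ, 1 ≤ e → PowerSeries.constantCoeff (1 - PowerSeries.X ^ e : PowerSeries ℤ) = 1 := by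
    intro e he
    rw [map_sub, map_one, map_pow, PowerSeries.constantCoeff_X, zero_pow (by omega), sub_zero]
  cases k with
  | ord e A =>
    show PowerSeries.constantCoeff (if I' ⊆ A then 1 - PowerSeries.X ^ e else 1 : PowerSeries ℤ) = 1
    split_ifs with h1
    · exact h0 e h
    · exact map_one _
  | cl e dl i As =>
    show PowerSeries.constantCoeff (if i ∈ I' then
        (if I'.erase i ⊆ inter As then 1 - PowerSeries.X ^ trx e dl As.length else 1)
      else (As.map fun A => if I' ⊆ A then 1 - PowerSeries.X ^ e else (1 : PowerSeries ℤ)).prod :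
        PowerSeries ℤ) = 1
    split_ifs with h1 h2
    · exact h0 _ (by unfold trx; omega)
    · exact map_one _
    · rw [map_list_prod, List.map_map]
      apply List.prod_eq_one
      intro y hy
      obtain ⟨A, -, rfl⟩ := List.mem_map.1 hy
      show PowerSeries.constantCoeff (if I' ⊆ A then 1 - PowerSeries.X ^ e else (1 : PowerSeries ℤ)) = 1
      split_ifs with h3
      · exact h0 e h
      · exact map_one _

/-- Degree `0`. -/
theorem vd_zero (I : Finset ℕ) (c : ℕ → ℕ) (n : ℕ) (ms : Multiset Kd) (h : ∀ k ∈ ms, 1 ≤ k.ex) :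
    vd 0 I c n ms = if I = ∅ then 1 else 0 := by
  rw [← sum_powerset_neg_one_pow_card]
  unfold vd
  refine sum_congr rfl fun I' _ => ?_
  have h1 : PowerSeries.coeff 0 ((ms.map (Kd.P I')).prod * hs (n - ∑ i ∈ I', c i)) = 1 := by
    rw [PowerSeries.coeff_zero_eq_constantCoeff, map_mul, map_multiset_prod, Multiset.map_map]
    have h2 : (ms.map (PowerSeries.constantCoeff ∘ Kd.P I')).prod = 1 := by
      apply Multiset.prod_eq_one
      intro y hy
      obtain ⟨k, hk, rfl⟩ := Multiset.mem_map.1 hy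
      exact nvd_P0 I' k (h k hk)
    rw [h2, one_mul, ← PowerSeries.coeff_zero_eq_constantCoeff_apply]
    unfold hs
    rw [PowerSeries.coeff_mk]
    simp
  rw [h1, mul_one]

/-- Simple points. -/
theorem vd_sm (d : ℕ) (I : Finset ℕ) (c : ℕ → ℕ) (n : ℕ) (ms : Multiset Kd) (h : ∀ k ∈ ms, 1 ≤ k.ex)
    (hd : 1 ≤ d) (r : ℕ) : vd d I c n (ms + Multiset.replicate r (sm d)) = vd d I c n ms - r := by
  induction r with
  | zero => simp
  | succ r ih =>
    rw [Multiset.replicate_succ, Multiset.add_cons, vd_cons d I c n _ d ∅ le_rfl, ih, Nat.sub_self,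
      inter_empty, vd_zero, if_pos rfl]
    · push_cast
      ring
    · intro k hk
      rcases Multiset.mem_add.1 hk with hk | hk
      · exact h k hk
      · rw [Multiset.eq_of_mem_replicate hk]
        exact hd

end Pool.Agent.GD
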