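import Pool.Agent.GD.N.Kd

/-!
# General d, numerical block: the combinatorics of the step

CONSTRUCTION.  `ms` = ordinary points + old clusters.  `ms'` consists of
* ordinary points: of the kind `(x, B)` (`B ⊆ range j`), `T x B - mo x B - mn x B` are put off `L_j` (`ord x B`), `mn x B` are
  members of new clusters, the remaining `count - (T x B - mo x B)` are put on `L_j` (`ord x (insert j B)`);
* old clusters of the type `(i, τ)`: `oc i τ` of them `offK`, the others `onK`;
* `nw τ` new clusters of the type `τ ∈ newT`.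
`un` sends them back (`un_onK`, `un_offK`, `un_new`); the traces (`tr_onK`, `tr_offK`, `tr_new`): the ordinary points
on `L_j`, the unmoved clusters, one point `(e, range j \ {i})` for every moved cluster with at least two members,
and the points `(E, A)` of the new clusters (simple points if `E = d`).
-/

set_option autoImplicit false

namespace Pool.Agent.GD

open Finset

/-- The data of a step from the level `j`: `T x A` = number of the points (members included) of the kind
`(x, A)` which are put off `L_j`, `oc i τ` = number of the clusters which are moved off, `nw τ` = number of the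
new clusters. -/
structure Stp where
  T : ℕ → Finset ℕ → ℕ
  oc : ℕ → CT → ℕ
  nw : CT → ℕ

/-- The members of an object which are put off `L_j` when it is moved off. -/
def offMem (j : ℕ) (k : Kd) (x : ℕ) (A : Finset ℕ) : ℕ :=
  if A ⊆ range j then ((offK j k).pts).count (x, A) else 0

/-- All allowed old types. -/
noncomputable def oldT (d e j : ℕ) : Finset (ℕ × CT) := by
  classical
  exact ((range j) ×ˢ (((range (d + 1)) ×ˢ (range j).powerset).image (fun p => CT.pl p.1 p.2) ∪
    (range j).powerset.image CT.b0 ∪ (range (j + 1)).image CT.br)).filter fun p => p.2.Ok d e p.1 j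

theorem mem_oldT {d e j i : ℕ} {τ : CT} (hd : j ≤ d) : (i, τ) ∈ oldT d e j ↔ i < j ∧ τ.Ok d e i j := by
  classical
  unfold oldT
  rw [mem_filter, mem_product, mem_range]
  constructor
  · rintro ⟨⟨h1, -⟩, h2⟩
    exact ⟨h1, h2⟩
  · rintro ⟨h1, h2⟩
    refine ⟨⟨h1, ?_⟩, h2⟩
    have hI : ∀ S : Finset ℕ, S ⊆ Ico (i + 1) j → S ∈ (range j).powerset := by
      intro S hS
      refine mem_powerset.2 fun s hs => mem_range.2 ?_
      exact (mem_Ico.1 (hS hs)).2
    cases τ with
    | pl k S =>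
      obtain ⟨h3, h4, h5, h6⟩ := h2
      refine mem_union_left _ (mem_union_left _ (mem_image.2 ⟨(k, S), ?_, rfl⟩))
      refine mem_product.2 ⟨mem_range.2 ?_, hI S h5⟩
      have h7 : (d - i - 1) / (e - 1) ≤ d - i - 1 := Nat.div_le_self _ _
      show k < d + 1
      omega
    | b0 S =>
      obtain ⟨h3, h4, h5⟩ := h2
      exact mem_union_left _ (mem_union_right _ (mem_image.2 ⟨S, hI S h4, rfl⟩))
    | br r =>
      obtain ⟨h3, h4⟩ := h2
      refine mem_union_right _ (mem_image.2 ⟨r, mem_range.2 ?_, rfl⟩)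
      omega

/-- The members of the clusters which are moved off. -/
noncomputable def Stp.mo (s : Stp) (d e j : ℕ) (x : ℕ) (A : Finset ℕ) : ℕ :=
  ∑ p ∈ oldT d e j, s.oc p.1 p.2 * offMem j (p.2.kd d e p.1 j) x A

/-- The members of the new clusters. -/
def Stp.mn (s : Stp) (d e j : ℕ) (x : ℕ) (A : Finset ℕ) : ℕ :=
  ∑ τ ∈ newT d e j, s.nw τ * ((τ.kd d e j (j + 1)).pts).count (x, A)

/-- The conditions for the existence of the step. -/
structure Stp.Ok (s : Stp) (d e j : ℕ) (ms : Multiset Kd) : Prop where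
  oc : ∀ i < j, ∀ τ : CT, τ.Ok d e i j → s.oc i τ ≤ ms.count (τ.kd d e i j)
  oc0 : ∀ i < j, ∀ τ : CT, τ.Ok d e i j → τ.w e = 0 → s.oc i τ = 0
  lo : ∀ x A, A ⊆ range j → s.mo d e j x A + s.mn d e j x A ≤ s.T x A
  hi : ∀ x A, A ⊆ range j → s.T x A ≤ s.mo d e j x A + ms.count (.ord x A)

/-- The trace points of the new clusters with the exponent `x` and the set `A`, without the simple points. -/
def Stp.np (s : Stp) (d e j : ℕ) (x : ℕ) (A : Finset ℕ) : ℕ :=
  if x = d then 0 else ∑ τ ∈ newT d e j, if τ.E d e j = x ∧ τ.A j = A then s.nw τ else 0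

/-- The number of the simple points on the trace. -/
def Stp.r (s : Stp) (d e j : ℕ) : ℕ := ∑ τ ∈ newT d e j, if τ.E d e j = d then s.nw τ else 0

/-- The configurations of the step. -/
structure Stp.Res (s : Stp) (d e j : ℕ) (ms ms' A : Multiset Kd) : Prop where
  un : ms'.bind (un j) = ms
  tr : ms'.bind (tr j) = A + Multiset.replicate (s.r d e j) (sm d)
  mem' : ∀ k ∈ ms', (∃ x B, k = .ord x B ∧ (.ord x (B.erase j)) ∈ ms) ∨
    ∃ i < j + 1, ∃ τ : CT, τ.Ok d e i (j + 1) ∧ k = τ.kd d e i (j + 1)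
  memA : ∀ k ∈ A, (∃ x B, k = .ord x B ∧ (npt ms x B ≠ 0 ∨ (x ≠ d ∧ ∃ τ ∈ newT d e j, τ.E d e j = x ∧ τ.A j = B))) ∨
    ∃ i < j, ∃ τ : CT, τ.Ok d e i j ∧ k = τ.kd d e i j
  off : ∀ x B, B ⊆ range j → npt ms' x B = s.T x B
  on : ∀ x B, B ⊆ range j → npt ms' x (insert j B) + s.T x B = npt ms x B
  nA : ∀ x B, B ⊆ range j → npt A x B + s.T x B = npt ms x B + s.np d e j x B
  cOn : ∀ i < j, ∀ τ : CT, τ.Ok d e i j → ms'.count (τ.kd d e i (j + 1)) + s.oc i τ = ms.count (τ.kd d e i j)
  cPl : ∀ i < j, ∀ k S, (CT.pl k S).Ok d e i j → S.card + 1 ≤ e - 1 →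
    ms'.count ((CT.pl k (insert j S)).kd d e i (j + 1)) = s.oc i (.pl k S)
  cB0 : ∀ i < j, ∀ S, (CT.b0 S).Ok d e i j → S.card + 1 ≤ e - 2 →
    ms'.count ((CT.b0 (insert j S)).kd d e i (j + 1)) = s.oc i (.b0 S)
  cNew : ∀ τ : CT, τ.Ok d e j (j + 1) → ms'.count (τ.kd d e j (j + 1)) = s.nw τ
  cA : ∀ i < j, ∀ τ : CT, τ.Ok d e i j → A.count (τ.kd d e i j) + s.oc i τ = ms.count (τ.kd d e i j)
  uA : A.count (.ord e (range j)) + s.T e (range j) = ms.count (.ord e (range j))

/-! ### Multisets -/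

private def cb_hom {α β : Type} (f : α → Multiset β) : Multiset α →+ Multiset β where
  toFun s := s.bind f
  map_zero' := Multiset.zero_bind f
  map_add' s t := Multiset.add_bind s t f

private theorem cb_bind_sum {α β γ : Type} (s : Finset γ) (g : γ → Multiset α) (f : α → Multiset β) :
    (∑ x ∈ s, g x).bind f = ∑ x ∈ s, (g x).bind f :=
  map_sum (cb_hom f) g s

private theorem cb_bind_nsmul {α β : Type} (n : ℕ) (x : α) (f : α → Multiset β) :
    (n • ({x} : Multiset α)).bind f = n • f x := by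
  have h := map_nsmul (cb_hom f) n ({x} : Multiset α)
  have h1 : cb_hom f {x} = f x := Multiset.singleton_bind x f
  rw [h1] at h
  exact h

/-- the bind of a sum of multiples of singletons -/
private theorem cb_bind {α β γ : Type} (s : Finset γ) (n : γ → ℕ) (g : γ → α) (f : α → Multiset β) :
    (∑ x ∈ s, n x • ({g x} : Multiset α)).bind f = ∑ x ∈ s, n x • f (g x) := by
  rw [cb_bind_sum]
  exact sum_congr rfl fun x _ => cb_bind_nsmul _ _ _

/-- the count of a sum of multiples of singletons -/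
private theorem cb_cnt {α γ : Type} [DecidableEq α] (s : Finset γ) (n : γ → ℕ) (g : γ → α) (k : α) :
    (∑ x ∈ s, n x • ({g x} : Multiset α)).count k = ∑ x ∈ s, if k = g x then n x else 0 := by
  rw [Multiset.count_sum']
  refine sum_congr rfl fun x _ => ?_
  rw [Multiset.count_nsmul, Multiset.count_singleton]
  split_ifs <;> simp

private theorem cb_cnt_eq {α γ : Type} [DecidableEq α] (s : Finset γ) (n : γ → ℕ) (g : γ → α) (a : γ) (ha : a ∈ s)
    (h : ∀ x ∈ s, n x ≠ 0 → g a = g x → x = a) :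
    (∑ x ∈ s, n x • ({g x} : Multiset α)).count (g a) = n a := by
  rw [cb_cnt, sum_eq_single a, if_pos rfl]
  · intro x hx hxa
    by_cases h0 : n x = 0
    · rw [h0]; simp
    · exact if_neg fun h1 => hxa (h x hx h0 h1)
  · intro h1
    exact absurd ha h1

private theorem cb_cnt_zero {α γ : Type} [DecidableEq α] (s : Finset γ) (n : γ → ℕ) (g : γ → α) (k : α)
    (h : ∀ x ∈ s, n x ≠ 0 → k ≠ g x) : (∑ x ∈ s, n x • ({g x} : Multiset α)).count k = 0 := by
  rw [cb_cnt]
  refine sum_eq_zero fun x hx => ?_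
  by_cases h0 : n x = 0
  · rw [h0]; simp
  · exact if_neg (h x hx h0)

private theorem cb_mem {α γ : Type} (s : Finset γ) (n : γ → ℕ) (g : γ → α) (k : α) :
    k ∈ (∑ x ∈ s, n x • ({g x} : Multiset α)) → ∃ x ∈ s, n x ≠ 0 ∧ k = g x := by
  intro h
  obtain ⟨x, hx, h1⟩ := Multiset.mem_sum.1 h
  obtain ⟨h2, h3⟩ := Multiset.mem_nsmul.1 h1
  exact ⟨x, hx, h2, Multiset.mem_singleton.1 h3⟩

private theorem cb_swap {α β γ : Type} (s : Finset α) (t : Finset β) (n : α → ℕ) (c : α → β → ℕ) (g : β → γ) :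
    (∑ x ∈ s, n x • ∑ y ∈ t, c x y • ({g y} : Multiset γ)) = ∑ y ∈ t, (∑ x ∈ s, n x * c x y) • ({g y} : Multiset γ) := by
  simp only [Finset.smul_sum, smul_smul]
  rw [sum_comm]
  refine sum_congr rfl fun y _ => ?_
  rw [Finset.sum_smul]

/-! ### The kinds -/

/-- the kinds of the ordinary points -/
private def Qs (d j : ℕ) : Finset (ℕ × Finset ℕ) := (range d) ×ˢ (range j).powerset

private theorem mem_Qs {d j x : ℕ} {B : Finset ℕ} : (x, B) ∈ Qs d j ↔ x < d ∧ B ⊆ range j := by
  unfold Qs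
  rw [mem_product, mem_range, mem_powerset]

private abbrev og (q : ℕ × Finset ℕ) : Kd := Kd.ord q.1 q.2

private abbrev kk (d e j : ℕ) (p : ℕ × CT) : Kd := p.2.kd d e p.1 j

private theorem og_inj {q q' : ℕ × Finset ℕ} (h : og q = og q') : q = q' := by
  injection h with h1 h2
  exact Prod.ext h1 h2

private theorem og_ne {d e j i x : ℕ} {B : Finset ℕ} (τ : CT) : Kd.ord x B ≠ τ.kd d e i j := by
  cases τ <;> simp [CT.kd]

private theorem not_mem_range {j : ℕ} {B : Finset ℕ} (h : B ⊆ range j) : j ∉ B := fun h1 => by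
  have := mem_range.1 (h h1)
  omega

/-- the decomposition of a configuration -/
private theorem ms_eq {d e j : ℕ} (he : 2 ≤ e) (hj : j ≤ d - e) (hd : j ≤ d) {ms : Multiset Kd}
    (hms : ∀ k ∈ ms, (∃ x B, k = .ord x B ∧ x < d ∧ B ⊆ range j) ∨
      ∃ i < j, ∃ τ : CT, τ.Ok d e i j ∧ k = τ.kd d e i j) :
    ms = ∑ q ∈ Qs d j, ms.count (og q) • ({og q} : Multiset Kd) +
      ∑ p ∈ oldT d e j, ms.count (kk d e j p) • ({kk d e j p} : Multiset Kd) := by
  ext k
  rw [Multiset.count_add]
  by_cases hk : k ∈ ms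
  · rcases hms k hk with ⟨x, B, rfl, hx, hB⟩ | ⟨i, hi, τ, hτ, rfl⟩
    · have h1 := cb_cnt_eq (Qs d j) (fun q => ms.count (og q)) og (x, B) (mem_Qs.2 ⟨hx, hB⟩)
        fun q _ _ h => (og_inj h).symm
      have h2 := cb_cnt_zero (oldT d e j) (fun p => ms.count (kk d e j p)) (kk d e j) (Kd.ord x B)
        fun p _ _ => og_ne p.2
      have h3 : og (x, B) = Kd.ord x B := rfl
      rw [h3] at h1
      rw [h1, h2]
      rfl
    · have h1 := cb_cnt_zero (Qs d j) (fun q => ms.count (og q)) og (τ.kd d e i j)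
        fun q _ _ => (og_ne τ).symm
      have h2 := cb_cnt_eq (oldT d e j) (fun p => ms.count (kk d e j p)) (kk d e j) (i, τ) ((mem_oldT hd).2 ⟨hi, hτ⟩)
        fun p hp _ h => by
          obtain ⟨i', τ'⟩ := p
          obtain ⟨hi', hτ'⟩ := (mem_oldT hd).1 hp
          obtain ⟨h3, h4⟩ := kd_inj he hj hi hi' hτ hτ' h
          rw [h3, h4]
      have h3 : kk d e j (i, τ) = τ.kd d e i j := rfl
      rw [h3] at h2
      rw [h1, h2]
      simp
  · rw [Multiset.count_eq_zero.2 hk, cb_cnt_zero, cb_cnt_zero]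
    · rintro p _ h0 rfl
      exact hk (Multiset.count_ne_zero.1 h0)
    · rintro q _ h0 rfl
      exact hk (Multiset.count_ne_zero.1 h0)

/-- the members of new clusters as ordinary points -/
private theorem map_og {d j : ℕ} (m : Multiset (ℕ × Finset ℕ)) (h : ∀ q ∈ m, q ∈ Qs d j) :
    m.map (fun p => Kd.ord p.1 p.2) = ∑ q ∈ Qs d j, m.count q • ({og q} : Multiset Kd) := by
  have h1 : m = ∑ q ∈ Qs d j, m.count q • ({q} : Multiset (ℕ × Finset ℕ)) := by
    conv_lhs => rw [← Multiset.toFinset_sum_count_nsmul_eq m]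
    refine sum_subset (fun q hq => h q (Multiset.mem_toFinset.1 hq)) fun q _ hq => ?_
    rw [Multiset.count_eq_zero.2 fun h2 => hq (Multiset.mem_toFinset.2 h2), zero_nsmul]
  have h2 : m.map (fun p => Kd.ord p.1 p.2) = m.bind fun p => {Kd.ord p.1 p.2} :=
    (Multiset.bind_singleton _ _).symm
  rw [h2]
  conv_lhs => rw [h1]
  exact cb_bind _ _ _ _

/-! ### Points -/

private theorem pts_og (q : ℕ × Finset ℕ) : (og q).pts = {q} := rfl

private theorem cnt_og (s : Finset (ℕ × Finset ℕ)) (n : ℕ × Finset ℕ → ℕ) (q : ℕ × Finset ℕ) :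
    ((∑ x ∈ s, n x • ({og x} : Multiset Kd)).bind Kd.pts).count q = if q ∈ s then n q else 0 := by
  rw [cb_bind]
  have h1 : (∑ x ∈ s, n x • (og x).pts) = ∑ x ∈ s, n x • ({x} : Multiset (ℕ × Finset ℕ)) := rfl
  rw [h1]
  by_cases hq : q ∈ s
  · rw [if_pos hq]
    exact cb_cnt_eq s n (fun x => x) q hq fun x _ _ h => h.symm
  · rw [if_neg hq]
    exact cb_cnt_zero s n (fun x => x) q fun x hx _ h => hq (h ▸ hx)

private theorem cnt_oi0 {j : ℕ} (s : Finset (ℕ × Finset ℕ)) (n : ℕ × Finset ℕ → ℕ) (x : ℕ) {B : Finset ℕ}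
    (hB : B ⊆ range j) :
    ((∑ q ∈ s, n q • ({Kd.ord q.1 (insert j q.2)} : Multiset Kd)).bind Kd.pts).count (x, B) = 0 := by
  rw [cb_bind]
  refine cb_cnt_zero s n (fun q : ℕ × Finset ℕ => (q.1, insert j q.2)) (x, B) fun q _ _ h => ?_
  have h1 : B = insert j q.2 := congrArg Prod.snd h
  exact not_mem_range hB (h1 ▸ mem_insert_self _ _)

private theorem cnt_oi1 {d j x : ℕ} (n : ℕ × Finset ℕ → ℕ) {B : Finset ℕ} (hB : B ⊆ range j) :
    ((∑ q ∈ Qs d j, n q • ({Kd.ord q.1 (insert j q.2)} : Multiset Kd)).bind Kd.pts).count (x, insert j B) =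
      if (x, B) ∈ Qs d j then n (x, B) else 0 := by
  rw [cb_bind]
  have hkey : ∀ q ∈ Qs d j, (x, insert j B) = (q.1, insert j q.2) → q = (x, B) := by
    intro q hq h
    obtain ⟨y, C⟩ := q
    have hC := (mem_Qs.1 hq).2
    have h1 : x = y := congrArg Prod.fst h
    have h2 : insert j B = insert j C := congrArg Prod.snd h
    have h3 : (insert j B).erase j = (insert j C).erase j := by rw [h2]
    rw [erase_insert (not_mem_range hB), erase_insert (not_mem_range hC)] at h3
    rw [h1, h3]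
  by_cases hq : (x, B) ∈ Qs d j
  · rw [if_pos hq]
    exact cb_cnt_eq (Qs d j) n (fun q : ℕ × Finset ℕ => (q.1, insert j q.2)) (x, B) hq fun q hq' _ h => hkey q hq' h
  · rw [if_neg hq]
    refine cb_cnt_zero (Qs d j) n (fun q : ℕ × Finset ℕ => (q.1, insert j q.2)) (x, insert j B) fun q hq' _ h => ?_
    exact hq (hkey q hq' h ▸ hq')

/-- the points of clusters -/
private theorem cnt_bind {γ : Type} (s : Finset γ) (n : γ → ℕ) (g : γ → Kd) (q : ℕ × Finset ℕ) :
    ((∑ p ∈ s, n p • ({g p} : Multiset Kd)).bind Kd.pts).count q = ∑ p ∈ s, n p * (g p).pts.count q := by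
  rw [cb_bind, Multiset.count_sum']
  exact sum_congr rfl fun p _ => Multiset.count_nsmul _ _ _

/-- the multiplicity of a point on `L_j` of a cluster -/
private theorem cnt_filter {j e x : ℕ} {B : Finset ℕ} (hB : j ∉ B) (As : List (Finset ℕ)) :
    ((As.map fun A => (e, A) : List (ℕ × Finset ℕ)) : Multiset (ℕ × Finset ℕ)).count (x, insert j B) =
      (((As.filter fun A => j ∈ A).map fun A => Kd.ord e (A.erase j) : List Kd) : Multiset Kd).count
        (.ord x B) := by
  induction As with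
  | nil => simp
  | cons A As ih =>
    rw [List.map_cons, ← Multiset.cons_coe, Multiset.count_cons, ih]
    by_cases hA : j ∈ A
    · rw [List.filter_cons_of_pos (by simpa using hA), List.map_cons, ← Multiset.cons_coe, Multiset.count_cons]
      congr 1
      refine if_congr ?_ rfl rfl
      constructor
      · intro h
        injection h with h2 h3
        rw [h2, ← h3, erase_insert hB]
      · intro h
        injection h with h2 h3
        rw [h2, h3, insert_erase hA]
    · rw [List.filter_cons_of_neg (by simpa using hA)]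
      have h1 : ¬ ((x, insert j B) = (e, A)) := by
        intro h
        have h2 : insert j B = A := congrArg Prod.snd h
        exact hA (h2 ▸ mem_insert_self _ _)
      rw [if_neg h1, add_zero]

/-- `offK` of a cluster is a cluster. -/
private theorem offK_cl (j e dl i : ℕ) (As : List (Finset ℕ)) : ∃ As', offK j (.cl e dl i As) = .cl e dl i As' := by
  cases As with
  | nil => exact ⟨_, rfl⟩
  | cons A As =>
    cases As with
    | nil => exact ⟨_, rfl⟩
    | cons B As => exact ⟨_, rfl⟩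

private theorem kd_cl (d e i j : ℕ) (τ : CT) : ∃ dl As, τ.kd d e i j = .cl e dl i As := by
  cases τ
  · exact ⟨_, _, rfl⟩
  · exact ⟨_, _, rfl⟩
  · exact ⟨_, _, rfl⟩

/-- the points on `L_j` of a cluster which is moved off -/
private theorem cnt_on {d e j i : ℕ} (he : 2 ≤ e) (hj : j ≤ d - e) (hi : i < j) {τ : CT} (h : τ.Ok d e i j)
    (hw : τ.w e ≠ 0) (x : ℕ) {B : Finset ℕ} (hB : B ⊆ range j) :
    (offK j (τ.kd d e i j)).pts.count (x, insert j B) =
      if 2 ≤ (τ.kd d e i j).nm ∧ (x, B) = (e, (range j).erase i) then 1 else 0 := by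
  have h1 := tr_offK he hj hi h hw
  obtain ⟨dl, As, hk⟩ := kd_cl d e i j τ
  obtain ⟨As', hk'⟩ := offK_cl j e dl i As
  rw [hk] at h1 ⊢
  rw [hk'] at h1 ⊢
  have hij : i ≠ j := hi.ne
  unfold tr at h1
  simp only [if_neg hij] at h1
  by_cases hall : ∀ A ∈ As', j ∈ A
  · rw [if_pos hall] at h1
    split_ifs at h1 with h2
    · exact absurd h1 (by simp)
    · exact absurd h1 (by simp)
  · rw [if_neg hall] at h1
    have h3 := cnt_filter (e := e) (x := x) (not_mem_range hB) As'
    have h4 : (Kd.cl e dl i As').pts = ((As'.map fun A => (e, A) : List (ℕ × Finset ℕ)) : Multiset (ℕ × Finset ℕ)) :=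
      rfl
    rw [h4, h3, h1]
    by_cases h5 : 2 ≤ (Kd.cl e dl i As).nm
    · rw [if_pos h5, Multiset.count_singleton]
      have e1 : (Kd.ord x B = Kd.ord e ((range j).erase i)) ↔
          (2 ≤ (Kd.cl e dl i As).nm ∧ (x, B) = (e, (range j).erase i)) := by
        constructor
        · intro h7
          injection h7 with h8 h9
          exact ⟨h5, by rw [h8, h9]⟩
        · rintro ⟨-, h7⟩
          injection h7 with h8 h9
          rw [h8, h9]
      exact if_congr e1 rfl rfl
    · rw [if_neg h5, if_neg fun h7 => h5 h7.1]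
      simp

/-- a point is on `L_j` or off `L_j` -/
private theorem cnt_split {d e j i : ℕ} (hi : i < j) {τ : CT} (h : τ.Ok d e i j) (x : ℕ) {B : Finset ℕ}
    (hB : B ⊆ range j) :
    (offK j (τ.kd d e i j)).pts.count (x, insert j B) + offMem j (τ.kd d e i j) x B =
      (τ.kd d e i j).pts.count (x, B) := by
  rw [offMem, if_pos hB]
  conv_rhs => rw [← pts_offK hi h]
  generalize (offK j (τ.kd d e i j)).pts = m
  induction m using Multiset.induction_on with
  | empty => simp
  | cons p m ih =>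
    rw [Multiset.map_cons, Multiset.count_cons, Multiset.count_cons, Multiset.count_cons, ← ih]
    obtain ⟨y, C⟩ := p
    have hjB := not_mem_range hB
    by_cases h1 : x = y
    · subst h1
      by_cases hC : j ∈ C
      · have h2 : ¬ ((x, B) = (x, C)) := by
          intro h3
          have h4 : B = C := congrArg Prod.snd h3
          exact hjB (h4 ▸ hC)
        have h3 : ((x, insert j B) = (x, C)) ↔ ((x, B) = (x, C.erase j)) := by
          constructor
          · intro h4
            have h5 : insert j B = C := congrArg Prod.snd h4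
            rw [← h5, erase_insert hjB]
          · intro h4
            have h5 : B = C.erase j := congrArg Prod.snd h4
            rw [h5, insert_erase hC]
        rw [if_neg h2]
        by_cases h4 : (x, B) = (x, C.erase j)
        · rw [if_pos h4, if_pos (h3.2 h4)]
          omega
        · rw [if_neg h4, if_neg fun h5 => h4 (h3.1 h5)]
          omega
      · have h2 : ¬ ((x, insert j B) = (x, C)) := by
          intro h3
          have h4 : insert j B = C := congrArg Prod.snd h3
          exact hC (h4 ▸ mem_insert_self _ _)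
        have h3 : C.erase j = C := erase_eq_of_notMem hC
        rw [if_neg h2]
        show _ + 0 + (_ + if (x, B) = (x, C) then 1 else 0) = _ + _ + (if (x, B) = (x, C.erase j) then 1 else 0)
        rw [h3]
        omega
    · have h2 : ¬ ((x, B) = (y, C)) := fun h3 => h1 (congrArg Prod.fst h3)
      have h3 : ¬ ((x, insert j B) = (y, C)) := fun h3 => h1 (congrArg Prod.fst h3)
      have h4 : ¬ ((x, B) = (y, C.erase j)) := fun h3 => h1 (congrArg Prod.fst h3)
      rw [if_neg h2, if_neg h3, if_neg h4]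
      omega

/-- the points of a cluster which stays on `L_j` -/
private theorem cnt_onK {d e j i : ℕ} (he : 2 ≤ e) (hi : i < j) {τ : CT} (h : τ.Ok d e i j) (x : ℕ) {B : Finset ℕ}
    (hB : B ⊆ range j) :
    (onK j (τ.kd d e i j)).pts.count (x, insert j B) = (τ.kd d e i j).pts.count (x, B) ∧
      (onK j (τ.kd d e i j)).pts.count (x, B) = 0 := by
  rw [pts_onK hi h]
  have h0 := pts_kd he hi h
  have hjB := not_mem_range hB
  have h1 : ∀ p ∈ (τ.kd d e i j).pts, j ∉ p.2 := by
    intro p hp h2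
    have h3 := (h0 p hp).2.1 h2
    have h4 := mem_range.1 (mem_of_mem_erase h3)
    omega
  constructor
  · rw [Multiset.count_map, Multiset.count]
    rw [Multiset.countP_eq_card_filter]
    congr 1
    refine Multiset.filter_congr fun p hp => ?_
    obtain ⟨y, C⟩ := p
    have hC : j ∉ C := h1 _ hp
    constructor
    · intro h2
      have h3 : x = y := congrArg Prod.fst h2
      have h4 : insert j B = insert j C := congrArg Prod.snd h2
      have h5 : (insert j B).erase j = (insert j C).erase j := by rw [h4]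
      rw [erase_insert hjB, erase_insert hC] at h5
      rw [h3, h5]
    · intro h2
      have h3 : x = y := congrArg Prod.fst h2
      have h4 : B = C := congrArg Prod.snd h2
      rw [h3, h4]
  · rw [Multiset.count_eq_zero]
    intro h2
    obtain ⟨p, _, hp2⟩ := Multiset.mem_map.1 h2
    have h3 : insert j p.2 = B := congrArg Prod.snd hp2
    exact hjB (h3 ▸ mem_insert_self _ _)

/-- the moved clusters have no member of the kind `(e, range j)` -/
private theorem offMem_top {d e j i : ℕ} (he : 2 ≤ e) (hi : i < j) {τ : CT} (h : τ.Ok d e i j) (x : ℕ) :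
    offMem j (τ.kd d e i j) x (range j) = 0 := by
  have h1 := cnt_split hi h x (Subset.refl (range j))
  have h2 : (τ.kd d e i j).pts.count (x, range j) = 0 := by
    rw [Multiset.count_eq_zero]
    intro h3
    have h4 := (pts_kd he hi h _ h3).2.1 (mem_range.2 hi)
    exact absurd h4 (notMem_erase _ _)
  omega

/-- the type of a cluster which is moved off -/
private def offT (j : ℕ) : CT → CT
  | .pl k S => .pl k (insert j S)
  | .b0 S => .b0 (insert j S)
  | .br r => .br r

private theorem offK_kd {d e j i : ℕ} (he : 2 ≤ e) (hj : j ≤ d - e) (hi : i < j) {τ : CT} (h : τ.Ok d e i j)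
    (hw : τ.w e ≠ 0) :
    offK j (τ.kd d e i j) = (offT j τ).kd d e i (j + 1) ∧ (offT j τ).Ok d e i (j + 1) := by
  have hI : ∀ S : Finset ℕ, S ⊆ Ico (i + 1) j → insert j S ⊆ Ico (i + 1) (j + 1) := by
    intro S hS s hs
    rcases mem_insert.1 hs with rfl | hs
    · exact mem_Ico.2 ⟨by omega, by omega⟩
    · have := mem_Ico.1 (hS hs)
      exact mem_Ico.2 ⟨this.1, by omega⟩
  cases τ with
  | pl k S =>
    refine ⟨offK_pl hi h, ?_⟩
    obtain ⟨h1, h2, h3, h4⟩ := h
    refine ⟨h1, h2, hI S h3, ?_⟩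
    have h5 := card_insert_le j S
    have h6 : e - 1 - S.card ≠ 0 := hw
    omega
  | b0 S =>
    refine ⟨offK_b0 he hj hi h, ?_⟩
    obtain ⟨h1, h2, h3⟩ := h
    refine ⟨h1, hI S h2, ?_⟩
    have h5 := card_insert_le j S
    have h6 : e - 2 - S.card ≠ 0 := hw
    omega
  | br r => exact absurd rfl hw

/-- a moved type is not a type of the level `j` -/
private theorem offT_ne {d e j i' : ℕ} {τ τ' : CT} (hw : τ.w e ≠ 0) (h' : τ'.Ok d e i' j) :
    offT j τ ≠ τ' := by
  intro h
  subst h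
  cases τ with
  | pl k S =>
    have h1 := h'.2.2.1 (mem_insert_self j S)
    have := mem_Ico.1 h1
    omega
  | b0 S =>
    have h1 := h'.2.1 (mem_insert_self j S)
    have := mem_Ico.1 h1
    omega
  | br r => exact hw rfl

private theorem offT_inj {d e j i i' : ℕ} {τ τ' : CT} (h : τ.Ok d e i j) (h' : τ'.Ok d e i' j)
    (hk : offT j τ = offT j τ') : τ = τ' := by
  have hI : ∀ {S S' : Finset ℕ} {a b : ℕ}, S ⊆ Ico a j → S' ⊆ Ico b j → insert j S = insert j S' → S = S' := by
    intro S S' a b hS hS' hSS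
    have h1 : j ∉ S := fun h2 => by have := mem_Ico.1 (hS h2); omega
    have h1' : j ∉ S' := fun h2 => by have := mem_Ico.1 (hS' h2); omega
    have h2 : (insert j S).erase j = (insert j S').erase j := by rw [hSS]
    rwa [erase_insert h1, erase_insert h1'] at h2
  cases τ with
  | pl k S =>
    cases τ' with
    | pl k' S' =>
      injection hk with h1 h2
      rw [h1, hI h.2.2.1 h'.2.2.1 h2]
    | b0 S' => exact absurd hk (by simp [offT])
    | br r => exact absurd hk (by simp [offT])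
  | b0 S =>
    cases τ' with
    | pl k' S' => exact absurd hk (by simp [offT])
    | b0 S' =>
      injection hk with h1
      rw [hI h.2.1 h'.2.1 h1]
    | br r => exact absurd hk (by simp [offT])
  | br r =>
    cases τ' with
    | pl k' S' => exact absurd hk (by simp [offT])
    | b0 S' => exact absurd hk (by simp [offT])
    | br r' => exact hk

/-- The step exists; and the number `T e (range j)` and the numbers `nw` enter the trace in the obvious way. -/
theorem exists_step (d e j : ℕ) (he : 2 ≤ e) (hj : j < d - e) (ms : Multiset Kd)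
    (hms : ∀ k ∈ ms, (∃ x B, k = .ord x B ∧ 2 ≤ x ∧ x < d ∧ B ⊆ range j) ∨
      ∃ i < j, ∃ τ : CT, τ.Ok d e i j ∧ k = τ.kd d e i j) :
    ∃ A₀ : (ℕ → Finset ℕ → ℕ) → (ℕ → CT → ℕ) → Multiset Kd,
      (∀ T oc k, (∀ x B, B ⊆ range j → (x ≠ e ∨ B ≠ range j) → T x B = k x B) → A₀ T oc = A₀ k oc) ∧
      ∀ s : Stp, s.Ok d e j ms → ∃ ms' : Multiset Kd,
        s.Res d e j ms ms' (A₀ s.T s.oc +
          Multiset.replicate (ms.count (.ord e (range j)) - s.T e (range j)) (.ord e (range j)) +
          ∑ τ ∈ newT d e j, if τ.E d e j = d then 0 else s.nw τ • {Kd.ord (τ.E d e j) (τ.A j)}) := by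
  classical
  have hjd : j ≤ d := by omega
  have hj' : j ≤ d - e := hj.le
  have hj1 : j + 1 ≤ d - e := hj
  have hed : e < d := by omega
  have hms' : ∀ k ∈ ms, (∃ x B, k = .ord x B ∧ x < d ∧ B ⊆ range j) ∨
      ∃ i < j, ∃ τ : CT, τ.Ok d e i j ∧ k = τ.kd d e i j := by
    intro k hk
    rcases hms k hk with ⟨x, B, h1, -, h2, h3⟩ | h1
    · exact Or.inl ⟨x, B, h1, h2, h3⟩
    · exact Or.inr h1
  have hdec := ms_eq he hj' hjd hms'
  set u : ℕ × Finset ℕ := (e, range j) with hu
  -- the members of the clusters which are moved off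
  let moO : (ℕ → CT → ℕ) → ℕ → Finset ℕ → ℕ := fun oc x A =>
    ∑ p ∈ oldT d e j, oc p.1 p.2 * offMem j (p.2.kd d e p.1 j) x A
  let onN : (ℕ → Finset ℕ → ℕ) → (ℕ → CT → ℕ) → ℕ × Finset ℕ → ℕ := fun T oc q =>
    ms.count (og q) - (T q.1 q.2 - moO oc q.1 q.2)
  let A₀ : (ℕ → Finset ℕ → ℕ) → (ℕ → CT → ℕ) → Multiset Kd := fun T oc =>
    ∑ q ∈ (Qs d j).erase u, onN T oc q • ({og q} : Multiset Kd) +
      (∑ p ∈ oldT d e j, (ms.count (kk d e j p) - oc p.1 p.2) • ({kk d e j p} : Multiset Kd) +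
        ∑ p ∈ oldT d e j, (if 2 ≤ (kk d e j p).nm then oc p.1 p.2 else 0) •
          ({Kd.ord e ((range j).erase p.1)} : Multiset Kd))
  refine ⟨A₀, ?_, ?_⟩
  · intro T oc k h
    show _ + _ = _ + _
    congr 1
    refine sum_congr rfl fun q hq => ?_
    obtain ⟨x, B⟩ := q
    have h1 := mem_of_mem_erase hq
    have h2 := ne_of_mem_erase hq
    have h3 : T x B = k x B := by
      refine h x B (mem_Qs.1 h1).2 ?_
      by_contra h4
      push Not at h4
      exact h2 (by rw [hu, h4.1, h4.2])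
    show (ms.count (og (x, B)) - (T x B - moO oc x B)) • _ = (ms.count (og (x, B)) - (k x B - moO oc x B)) • _
    rw [h3]
  intro s hs
  -- the numbers
  have hmo : ∀ x A, s.mo d e j x A = moO s.oc x A := fun _ _ => rfl
  let mn : ℕ → Finset ℕ → ℕ := s.mn d e j
  let offN : ℕ × Finset ℕ → ℕ := fun q => s.T q.1 q.2 - moO s.oc q.1 q.2 - mn q.1 q.2
  have hoc : ∀ p ∈ oldT d e j, s.oc p.1 p.2 ≤ ms.count (kk d e j p) := by
    rintro ⟨i, τ⟩ hp
    obtain ⟨h1, h2⟩ := (mem_oldT hjd).1 hp
    exact hs.oc i h1 τ h2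
  have hocw : ∀ p ∈ oldT d e j, s.oc p.1 p.2 ≠ 0 → p.2.w e ≠ 0 := by
    rintro ⟨i, τ⟩ hp h3 h4
    obtain ⟨h1, h2⟩ := (mem_oldT hjd).1 hp
    exact h3 (hs.oc0 i h1 τ h2 h4)
  have hlo : ∀ x A, A ⊆ range j → moO s.oc x A + mn x A ≤ s.T x A := hs.lo
  have hhi : ∀ x A, A ⊆ range j → s.T x A ≤ moO s.oc x A + ms.count (.ord x A) := hs.hi
  have hnew : ∀ τ ∈ newT d e j, τ.Ok d e j (j + 1) := fun τ h => (mem_newT he).1 h
  -- the configuration
  let ms' : Multiset Kd :=
    (∑ q ∈ Qs d j, offN q • ({og q} : Multiset Kd) +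
      ∑ q ∈ Qs d j, onN s.T s.oc q • ({Kd.ord q.1 (insert j q.2)} : Multiset Kd)) +
    (∑ p ∈ oldT d e j, s.oc p.1 p.2 • ({offK j (kk d e j p)} : Multiset Kd) +
      ∑ p ∈ oldT d e j, (ms.count (kk d e j p) - s.oc p.1 p.2) • ({onK j (kk d e j p)} : Multiset Kd)) +
    ∑ τ ∈ newT d e j, s.nw τ • ({τ.kd d e j (j + 1)} : Multiset Kd)
  refine ⟨ms', ?_⟩
  -- outside Qs
  have hzero : ∀ x B, B ⊆ range j → (x, B) ∉ Qs d j → ms.count (.ord x B) = 0 := by
    intro x B hB h1
    by_contra h2
    rcases hms' _ (Multiset.count_ne_zero.1 h2) with ⟨x', B', h3, h4, h5⟩ | ⟨i, -, τ, -, h3⟩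
    · injection h3 with h6 h7
      exact h1 (mem_Qs.2 ⟨h6 ▸ h4, hB⟩)
    · exact og_ne τ h3
  have hoffN : ∀ x B, B ⊆ range j → (if (x, B) ∈ Qs d j then offN (x, B) else 0) = offN (x, B) := by
    intro x B hB
    split_ifs with h1
    · rfl
    · have h2 := hzero x B hB h1
      have h3 := hhi x B hB
      show 0 = s.T x B - moO s.oc x B - mn x B
      omega
  have honN : ∀ x B, B ⊆ range j → (if (x, B) ∈ Qs d j then onN s.T s.oc (x, B) else 0) = onN s.T s.oc (x, B) := by
    intro x B hB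
    split_ifs with h1
    · rfl
    · have h2 := hzero x B hB h1
      show 0 = ms.count (Kd.ord x B) - (s.T x B - moO s.oc x B)
      omega
  have hmo0 : moO s.oc e (range j) = 0 := by
    refine sum_eq_zero ?_
    rintro ⟨i, τ⟩ hp
    obtain ⟨h1, h2⟩ := (mem_oldT hjd).1 hp
    have h3 := offMem_top he h1 h2 e
    show s.oc i τ * offMem j (τ.kd d e i j) e (range j) = 0
    rw [h3, mul_zero]
  have huQ : u ∈ Qs d j := mem_Qs.2 ⟨hed, Subset.refl _⟩
  have hptsnew : ∀ τ ∈ newT d e j, ∀ q ∈ (τ.kd d e j (j + 1)).pts, q ∈ Qs d j := by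
    intro τ hτ q hq
    obtain ⟨h1, h2, -⟩ := pts_kd he (Nat.lt_succ_self j) (hnew τ hτ) q hq
    refine mem_Qs.2 ⟨h1 ▸ hed, fun y hy => ?_⟩
    have h3 := h2 hy
    have h4 := mem_range.1 (mem_of_mem_erase h3)
    have h5 := ne_of_mem_erase h3
    exact mem_range.2 (by omega)
  -- the projection
  have hun : ms'.bind (un j) = ms := by
    have e1 : (∑ q ∈ Qs d j, offN q • ({og q} : Multiset Kd)).bind (un j) =
        ∑ q ∈ Qs d j, offN q • ({og q} : Multiset Kd) := by
      rw [cb_bind]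
      refine sum_congr rfl fun q hq => ?_
      have h1 : j ∉ q.2 := not_mem_range (mem_Qs.1 hq).2
      show offN q • ({Kd.ord q.1 (q.2.erase j)} : Multiset Kd) = _
      rw [erase_eq_of_notMem h1]
    have e2 : (∑ q ∈ Qs d j, onN s.T s.oc q • ({Kd.ord q.1 (insert j q.2)} : Multiset Kd)).bind (un j) =
        ∑ q ∈ Qs d j, onN s.T s.oc q • ({og q} : Multiset Kd) := by
      rw [cb_bind]
      refine sum_congr rfl fun q hq => ?_
      have h1 : j ∉ q.2 := not_mem_range (mem_Qs.1 hq).2
      show onN s.T s.oc q • ({Kd.ord q.1 ((insert j q.2).erase j)} : Multiset Kd) = _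
      rw [erase_insert h1]
    have e3 : (∑ p ∈ oldT d e j, s.oc p.1 p.2 • ({offK j (kk d e j p)} : Multiset Kd)).bind (un j) =
        ∑ p ∈ oldT d e j, s.oc p.1 p.2 • ({kk d e j p} : Multiset Kd) := by
      rw [cb_bind]
      refine sum_congr rfl ?_
      rintro ⟨i, τ⟩ hp
      obtain ⟨h1, h2⟩ := (mem_oldT hjd).1 hp
      show s.oc i τ • un j (offK j (τ.kd d e i j)) = _
      rw [un_offK h1 h2]
    have e4 : (∑ p ∈ oldT d e j, (ms.count (kk d e j p) - s.oc p.1 p.2) •
        ({onK j (kk d e j p)} : Multiset Kd)).bind (un j) =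
        ∑ p ∈ oldT d e j, (ms.count (kk d e j p) - s.oc p.1 p.2) • ({kk d e j p} : Multiset Kd) := by
      rw [cb_bind]
      refine sum_congr rfl ?_
      rintro ⟨i, τ⟩ hp
      obtain ⟨h1, h2⟩ := (mem_oldT hjd).1 hp
      show (ms.count (kk d e j (i, τ)) - s.oc i τ) • un j (onK j (τ.kd d e i j)) = _
      rw [un_onK h1 h2]
    have e5 : (∑ τ ∈ newT d e j, s.nw τ • ({τ.kd d e j (j + 1)} : Multiset Kd)).bind (un j) =
        ∑ q ∈ Qs d j, mn q.1 q.2 • ({og q} : Multiset Kd) := by
      rw [cb_bind]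
      have h1 : ∀ τ ∈ newT d e j, s.nw τ • un j (τ.kd d e j (j + 1)) =
          s.nw τ • ∑ q ∈ Qs d j, (τ.kd d e j (j + 1)).pts.count q • ({og q} : Multiset Kd) := by
        intro τ hτ
        rw [un_new (hnew τ hτ), map_og _ (hptsnew τ hτ)]
      rw [sum_congr rfl h1, cb_swap]
      rfl
    have e6 : ∑ q ∈ Qs d j, ms.count (og q) • ({og q} : Multiset Kd) =
        ∑ q ∈ Qs d j, offN q • ({og q} : Multiset Kd) + ∑ q ∈ Qs d j, onN s.T s.oc q • ({og q} : Multiset Kd) +
          ∑ q ∈ Qs d j, mn q.1 q.2 • ({og q} : Multiset Kd) := by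
      rw [← sum_add_distrib, ← sum_add_distrib]
      refine sum_congr rfl fun q hq => ?_
      rw [← add_nsmul, ← add_nsmul]
      congr 1
      have h1 := hlo q.1 q.2 (mem_Qs.1 hq).2
      have h2 := hhi q.1 q.2 (mem_Qs.1 hq).2
      show ms.count (Kd.ord q.1 q.2) = (s.T q.1 q.2 - moO s.oc q.1 q.2 - mn q.1 q.2) +
        (ms.count (Kd.ord q.1 q.2) - (s.T q.1 q.2 - moO s.oc q.1 q.2)) + mn q.1 q.2
      omega
    have e7 : ∑ p ∈ oldT d e j, ms.count (kk d e j p) • ({kk d e j p} : Multiset Kd) =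
        ∑ p ∈ oldT d e j, s.oc p.1 p.2 • ({kk d e j p} : Multiset Kd) +
          ∑ p ∈ oldT d e j, (ms.count (kk d e j p) - s.oc p.1 p.2) • ({kk d e j p} : Multiset Kd) := by
      rw [← sum_add_distrib]
      refine sum_congr rfl fun p hp => ?_
      rw [← add_nsmul]
      congr 1
      have h1 := hoc p hp
      omega
    show ((_ + _) + (_ + _) + _ : Multiset Kd).bind (un j) = ms
    rw [Multiset.add_bind, Multiset.add_bind, Multiset.add_bind, Multiset.add_bind, e1, e2, e3, e4, e5]
    conv_rhs => rw [hdec]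
    rw [e6, e7]
    abel
  -- the trace
  set A : Multiset Kd := A₀ s.T s.oc +
    Multiset.replicate (ms.count (.ord e (range j)) - s.T e (range j)) (.ord e (range j)) +
    ∑ τ ∈ newT d e j, (if τ.E d e j = d then 0 else s.nw τ • ({Kd.ord (τ.E d e j) (τ.A j)} : Multiset Kd)) with hA
  let oldA : Multiset Kd :=
    ∑ p ∈ oldT d e j, (ms.count (kk d e j p) - s.oc p.1 p.2) • ({kk d e j p} : Multiset Kd) +
      ∑ p ∈ oldT d e j, (if 2 ≤ (kk d e j p).nm then s.oc p.1 p.2 else 0) •
        ({Kd.ord e ((range j).erase p.1)} : Multiset Kd)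
  let nwc : CT → ℕ := fun τ => if τ.E d e j = d then 0 else s.nw τ
  have hA1 : A = (∑ q ∈ Qs d j, onN s.T s.oc q • ({og q} : Multiset Kd) + oldA) +
      ∑ τ ∈ newT d e j, nwc τ • ({Kd.ord (τ.E d e j) (τ.A j)} : Multiset Kd) := by
    have e1 : ∑ q ∈ Qs d j, onN s.T s.oc q • ({og q} : Multiset Kd) =
        ∑ q ∈ (Qs d j).erase u, onN s.T s.oc q • ({og q} : Multiset Kd) +
          Multiset.replicate (ms.count (.ord e (range j)) - s.T e (range j)) (.ord e (range j)) := by
      rw [← sum_erase_add (Qs d j) _ huQ]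
      congr 1
      have h1 : onN s.T s.oc u = ms.count (.ord e (range j)) - s.T e (range j) := by
        show ms.count (.ord e (range j)) - (s.T e (range j) - moO s.oc e (range j)) = _
        rw [hmo0, Nat.sub_zero]
      rw [h1]
      exact Multiset.nsmul_singleton _ _
    have e2 : ∑ τ ∈ newT d e j, (if τ.E d e j = d then 0 else s.nw τ • ({Kd.ord (τ.E d e j) (τ.A j)} : Multiset Kd)) =
        ∑ τ ∈ newT d e j, nwc τ • ({Kd.ord (τ.E d e j) (τ.A j)} : Multiset Kd) := by
      refine sum_congr rfl fun τ _ => ?_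
      by_cases h1 : τ.E d e j = d
      · rw [if_pos h1]
        have h2 : nwc τ = 0 := if_pos h1
        rw [h2, zero_nsmul]
      · rw [if_neg h1]
        have h2 : nwc τ = s.nw τ := if_neg h1
        rw [h2]
    rw [hA, e1, e2]
    show (∑ q ∈ (Qs d j).erase u, onN s.T s.oc q • ({og q} : Multiset Kd) + oldA) + _ + _ = _
    abel
  have htr : ms'.bind (tr j) = A + Multiset.replicate (s.r d e j) (sm d) := by
    have e1 : (∑ q ∈ Qs d j, offN q • ({og q} : Multiset Kd)).bind (tr j) = 0 := by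
      rw [cb_bind]
      refine sum_eq_zero fun q hq => ?_
      have h1 : j ∉ q.2 := not_mem_range (mem_Qs.1 hq).2
      have h2 : tr j (og q) = 0 := if_neg h1
      rw [h2, nsmul_zero]
    have e2 : (∑ q ∈ Qs d j, onN s.T s.oc q • ({Kd.ord q.1 (insert j q.2)} : Multiset Kd)).bind (tr j) =
        ∑ q ∈ Qs d j, onN s.T s.oc q • ({og q} : Multiset Kd) := by
      rw [cb_bind]
      refine sum_congr rfl fun q hq => ?_
      have h1 : j ∉ q.2 := not_mem_range (mem_Qs.1 hq).2
      have h2 : tr j (Kd.ord q.1 (insert j q.2)) = {Kd.ord q.1 ((insert j q.2).erase j)} :=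
        if_pos (mem_insert_self _ _)
      rw [h2, erase_insert h1]
    have e3 : (∑ p ∈ oldT d e j, s.oc p.1 p.2 • ({offK j (kk d e j p)} : Multiset Kd)).bind (tr j) =
        ∑ p ∈ oldT d e j, (if 2 ≤ (kk d e j p).nm then s.oc p.1 p.2 else 0) •
          ({Kd.ord e ((range j).erase p.1)} : Multiset Kd) := by
      rw [cb_bind]
      refine sum_congr rfl ?_
      rintro ⟨i, τ⟩ hp
      obtain ⟨h1, h2⟩ := (mem_oldT hjd).1 hp
      show s.oc i τ • tr j (offK j (τ.kd d e i j)) =
        (if 2 ≤ (τ.kd d e i j).nm then s.oc i τ else 0) • ({Kd.ord e ((range j).erase i)} : Multiset Kd)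
      by_cases h3 : s.oc i τ = 0
      · rw [h3]
        simp
      · rw [tr_offK he hj' h1 h2 (hocw (i, τ) hp h3)]
        split_ifs
        · rfl
        · simp
    have e4 : (∑ p ∈ oldT d e j, (ms.count (kk d e j p) - s.oc p.1 p.2) •
        ({onK j (kk d e j p)} : Multiset Kd)).bind (tr j) =
        ∑ p ∈ oldT d e j, (ms.count (kk d e j p) - s.oc p.1 p.2) • ({kk d e j p} : Multiset Kd) := by
      rw [cb_bind]
      refine sum_congr rfl ?_
      rintro ⟨i, τ⟩ hp
      obtain ⟨h1, h2⟩ := (mem_oldT hjd).1 hp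
      show (ms.count (kk d e j (i, τ)) - s.oc i τ) • tr j (onK j (τ.kd d e i j)) = _
      rw [tr_onK he hj' h1 h2]
    have e5 : (∑ τ ∈ newT d e j, s.nw τ • ({τ.kd d e j (j + 1)} : Multiset Kd)).bind (tr j) =
        ∑ τ ∈ newT d e j, nwc τ • ({Kd.ord (τ.E d e j) (τ.A j)} : Multiset Kd) +
          Multiset.replicate (s.r d e j) (sm d) := by
      rw [cb_bind]
      have h1 : Multiset.replicate (s.r d e j) (sm d) =
          ∑ τ ∈ newT d e j, (if τ.E d e j = d then s.nw τ else 0) • ({sm d} : Multiset Kd) := by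
        rw [← Finset.sum_smul]
        exact (Multiset.nsmul_singleton _ _).symm
      rw [h1, ← sum_add_distrib]
      refine sum_congr rfl fun τ hτ => ?_
      rw [tr_new he hj (hnew τ hτ)]
      by_cases h2 : τ.E d e j = d
      · have h3 : nwc τ = 0 := if_pos h2
        obtain ⟨-, -, -, -, h4⟩ := E_new he hj (hnew τ hτ)
        have h5 : τ.A j = ∅ := by
          rw [← card_eq_zero]
          omega
        rw [h3, if_pos h2, h2, h5, zero_nsmul, zero_add]
      · have h3 : nwc τ = s.nw τ := if_neg h2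
        rw [h3, if_neg h2, zero_nsmul, add_zero]
    show ((_ + _) + (_ + _) + _ : Multiset Kd).bind (tr j) = _
    rw [Multiset.add_bind, Multiset.add_bind, Multiset.add_bind, Multiset.add_bind, e1, e2, e3, e4, e5, hA1]
    show _ = (∑ q ∈ Qs d j, onN s.T s.oc q • ({og q} : Multiset Kd) + (_ + _)) + _ + _
    abel
  -- the points
  have hpts' : ∀ q, (ms'.bind Kd.pts).count q =
      ((∑ q ∈ Qs d j, offN q • ({og q} : Multiset Kd)).bind Kd.pts).count q +
      ((∑ q ∈ Qs d j, onN s.T s.oc q • ({Kd.ord q.1 (insert j q.2)} : Multiset Kd)).bind Kd.pts).count q +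
      (∑ p ∈ oldT d e j, s.oc p.1 p.2 * (offK j (kk d e j p)).pts.count q +
        ∑ p ∈ oldT d e j, (ms.count (kk d e j p) - s.oc p.1 p.2) * (onK j (kk d e j p)).pts.count q) +
      ∑ τ ∈ newT d e j, s.nw τ * (τ.kd d e j (j + 1)).pts.count q := by
    intro q
    show (((_ + _) + (_ + _) + _ : Multiset Kd).bind Kd.pts).count q = _
    rw [Multiset.add_bind, Multiset.add_bind, Multiset.add_bind, Multiset.add_bind, Multiset.count_add,
      Multiset.count_add, Multiset.count_add, Multiset.count_add, cnt_bind (oldT d e j), cnt_bind (oldT d e j),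
      cnt_bind (newT d e j)]
  have hnpt : ∀ x B, B ⊆ range j → npt ms x B = ms.count (.ord x B) +
      ∑ p ∈ oldT d e j, ms.count (kk d e j p) * (kk d e j p).pts.count (x, B) := by
    intro x B hB
    unfold npt
    conv_lhs => rw [hdec]
    rw [Multiset.add_bind, Multiset.count_add, cnt_og, cnt_bind]
    congr 1
    split_ifs with h1
    · rfl
    · exact (hzero x B hB h1).symm
  have honu : onN s.T s.oc u = ms.count (.ord e (range j)) - s.T e (range j) := by
    show ms.count (.ord e (range j)) - (s.T e (range j) - moO s.oc e (range j)) = _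
    rw [hmo0, Nat.sub_zero]
  -- counts of clusters in `ms'`
  have hcl : ∀ (i : ℕ) (τ : CT), ms'.count (τ.kd d e i (j + 1)) =
      (∑ p ∈ oldT d e j, s.oc p.1 p.2 • ({offK j (kk d e j p)} : Multiset Kd)).count (τ.kd d e i (j + 1)) +
      (∑ p ∈ oldT d e j, (ms.count (kk d e j p) - s.oc p.1 p.2) •
        ({onK j (kk d e j p)} : Multiset Kd)).count (τ.kd d e i (j + 1)) +
      (∑ τ ∈ newT d e j, s.nw τ • ({τ.kd d e j (j + 1)} : Multiset Kd)).count (τ.kd d e i (j + 1)) := by
    intro i τ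
    have e1 := cb_cnt_zero (Qs d j) offN og (τ.kd d e i (j + 1)) fun q _ _ => (og_ne τ).symm
    have e2 := cb_cnt_zero (Qs d j) (onN s.T s.oc) (fun q => Kd.ord q.1 (insert j q.2)) (τ.kd d e i (j + 1))
      fun q _ _ => (og_ne τ).symm
    show ((_ + _) + (_ + _) + _ : Multiset Kd).count _ = _
    rw [Multiset.count_add, Multiset.count_add, Multiset.count_add, Multiset.count_add, e1, e2]
    omega
  have hoffcnt : ∀ i < j, ∀ τ : CT, τ.Ok d e i j → τ.w e ≠ 0 →
      ms'.count ((offT j τ).kd d e i (j + 1)) = s.oc i τ := by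
    intro i hi τ hτ hw
    obtain ⟨h1, h2⟩ := offK_kd he hj' hi hτ hw
    have e1 := cb_cnt_eq (oldT d e j) (fun p => s.oc p.1 p.2) (fun p => offK j (kk d e j p)) (i, τ)
      ((mem_oldT hjd).2 ⟨hi, hτ⟩) (by
        rintro ⟨i', τ'⟩ hp h0 h
        obtain ⟨hi', hτ'⟩ := (mem_oldT hjd).1 hp
        obtain ⟨h1', h2'⟩ := offK_kd he hj' hi' hτ' (hocw _ hp h0)
        have h3 : (offT j τ).kd d e i (j + 1) = (offT j τ').kd d e i' (j + 1) := h1.symm.trans (h.trans h1')
        obtain ⟨h4, h5⟩ := kd_inj he hj1 (by omega) (by omega) h2 h2' h3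
        rw [h4, offT_inj hτ hτ' h5])
    have e2 := cb_cnt_zero (oldT d e j) (fun p => ms.count (kk d e j p) - s.oc p.1 p.2)
      (fun p => onK j (kk d e j p)) ((offT j τ).kd d e i (j + 1)) (by
        rintro ⟨i', τ'⟩ hp _ h
        obtain ⟨hi', hτ'⟩ := (mem_oldT hjd).1 hp
        have h3 : (offT j τ).kd d e i (j + 1) = τ'.kd d e i' (j + 1) := h.trans (onK_kd hi' hτ')
        obtain ⟨h4, h5⟩ := kd_inj he hj1 (by omega) (by omega) h2 (ok_succ hτ') h3
        exact offT_ne hw hτ' h5)
    have e3 := cb_cnt_zero (newT d e j) s.nw (fun τ => τ.kd d e j (j + 1)) ((offT j τ).kd d e i (j + 1)) (by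
        intro τ' hτ' _ h
        obtain ⟨h4, h5⟩ := kd_inj he hj1 (by omega) (by omega) h2 (hnew τ' hτ') h
        omega)
    have e4 : offK j (kk d e j (i, τ)) = (offT j τ).kd d e i (j + 1) := h1
    rw [e4] at e1
    rw [hcl, e1, e2, e3]
    rfl
  refine
    { un := hun
      tr := htr
      mem' := ?_
      memA := ?_
      off := ?_
      on := ?_
      nA := ?_
      cOn := ?_
      cPl := fun i hi k S hS hc => hoffcnt i hi (.pl k S) hS (by show e - 1 - S.card ≠ 0; omega)
      cB0 := fun i hi S hS hc => hoffcnt i hi (.b0 S) hS (by show e - 2 - S.card ≠ 0; omega)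
      cNew := ?_
      cA := ?_
      uA := ?_ }
  · -- mem'
    intro k hk
    have hk' : k ∈ ((_ + _) + (_ + _) + _ : Multiset Kd) := hk
    rcases Multiset.mem_add.1 hk' with h1 | h1
    · rcases Multiset.mem_add.1 h1 with h2 | h2
      · rcases Multiset.mem_add.1 h2 with h3 | h3
        · obtain ⟨q, hq, h4, rfl⟩ := cb_mem _ _ _ _ h3
          have hB := (mem_Qs.1 hq).2
          refine Or.inl ⟨q.1, q.2, rfl, ?_⟩
          rw [erase_eq_of_notMem (not_mem_range hB)]
          have h5 := hhi q.1 q.2 hB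
          have h6 : s.T q.1 q.2 - moO s.oc q.1 q.2 - mn q.1 q.2 ≠ 0 := h4
          exact Multiset.count_ne_zero.1 (by omega)
        · obtain ⟨q, hq, h4, rfl⟩ := cb_mem _ _ _ _ h3
          have hB := (mem_Qs.1 hq).2
          refine Or.inl ⟨q.1, insert j q.2, rfl, ?_⟩
          rw [erase_insert (not_mem_range hB)]
          have h6 : ms.count (Kd.ord q.1 q.2) - (s.T q.1 q.2 - moO s.oc q.1 q.2) ≠ 0 := h4
          exact Multiset.count_ne_zero.1 (by omega)
      · rcases Multiset.mem_add.1 h2 with h3 | h3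
        · obtain ⟨⟨i, τ⟩, hp, h4, rfl⟩ := cb_mem _ _ _ _ h3
          obtain ⟨hi, hτ⟩ := (mem_oldT hjd).1 hp
          obtain ⟨h5, h6⟩ := offK_kd he hj' hi hτ (hocw _ hp h4)
          exact Or.inr ⟨i, by omega, offT j τ, h6, h5⟩
        · obtain ⟨⟨i, τ⟩, hp, h4, rfl⟩ := cb_mem _ _ _ _ h3
          obtain ⟨hi, hτ⟩ := (mem_oldT hjd).1 hp
          exact Or.inr ⟨i, by omega, τ, ok_succ hτ, onK_kd hi hτ⟩
    · obtain ⟨τ, hτ, h4, rfl⟩ := cb_mem _ _ _ _ h1
      exact Or.inr ⟨j, by omega, τ, hnew τ hτ, rfl⟩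
  · -- memA
    intro k hk
    rw [hA1] at hk
    have hk' : k ∈ ((_ + (_ + _)) + _ : Multiset Kd) := hk
    rcases Multiset.mem_add.1 hk' with h1 | h1
    · rcases Multiset.mem_add.1 h1 with h2 | h2
      · obtain ⟨q, hq, h4, rfl⟩ := cb_mem _ _ _ _ h2
        have hB := (mem_Qs.1 hq).2
        refine Or.inl ⟨q.1, q.2, rfl, Or.inl ?_⟩
        have h6 : ms.count (Kd.ord q.1 q.2) - (s.T q.1 q.2 - moO s.oc q.1 q.2) ≠ 0 := h4
        rw [hnpt q.1 q.2 hB]
        omega
      · rcases Multiset.mem_add.1 h2 with h3 | h3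
        · obtain ⟨⟨i, τ⟩, hp, h4, rfl⟩ := cb_mem _ _ _ _ h3
          obtain ⟨hi, hτ⟩ := (mem_oldT hjd).1 hp
          exact Or.inr ⟨i, hi, τ, hτ, rfl⟩
        · obtain ⟨⟨i, τ⟩, hp, h4, rfl⟩ := cb_mem _ _ _ _ h3
          obtain ⟨hi, hτ⟩ := (mem_oldT hjd).1 hp
          have hB : (range j).erase i ⊆ range j := erase_subset _ _
          refine Or.inl ⟨e, (range j).erase i, rfl, Or.inl ?_⟩
          have h5 : 2 ≤ (τ.kd d e i j).nm ∧ s.oc i τ ≠ 0 := by
            by_cases h6 : 2 ≤ (kk d e j (i, τ)).nm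
            · rw [if_pos h6] at h4
              exact ⟨h6, h4⟩
            · rw [if_neg h6] at h4
              exact absurd rfl h4
          have h6 := cnt_on he hj' hi hτ (hocw _ hp h5.2) e hB
          rw [if_pos ⟨h5.1, rfl⟩] at h6
          have h7 := cnt_split hi hτ e hB
          have h8 := hoc _ hp
          have h9 := single_le_sum (f := fun p => ms.count (kk d e j p) * (kk d e j p).pts.count (e, (range j).erase i))
            (fun _ _ => Nat.zero_le _) hp
          have h10 : 1 * 1 ≤ ms.count (kk d e j (i, τ)) * (kk d e j (i, τ)).pts.count (e, (range j).erase i) := by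
            refine Nat.mul_le_mul ?_ ?_
            · have h11 : s.oc i τ ≤ ms.count (kk d e j (i, τ)) := h8
              omega
            · show 1 ≤ (τ.kd d e i j).pts.count (e, (range j).erase i)
              omega
          rw [hnpt e _ hB]
          have h12 : ms.count (kk d e j (i, τ)) * (kk d e j (i, τ)).pts.count (e, (range j).erase i) ≤
            ∑ p ∈ oldT d e j, ms.count (kk d e j p) * (kk d e j p).pts.count (e, (range j).erase i) := h9
          omega
    · obtain ⟨τ, hτ, h4, rfl⟩ := cb_mem _ _ _ _ h1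
      refine Or.inl ⟨τ.E d e j, τ.A j, rfl, Or.inr ⟨fun h5 => h4 (if_pos h5), τ, hτ, rfl, rfl⟩⟩
  · -- off
    intro x B hB
    have e1 : ∑ p ∈ oldT d e j, s.oc p.1 p.2 * (offK j (kk d e j p)).pts.count (x, B) = moO s.oc x B := by
      refine sum_congr rfl fun p _ => ?_
      congr 1
      exact (if_pos hB).symm
    have e2 : ∑ p ∈ oldT d e j, (ms.count (kk d e j p) - s.oc p.1 p.2) * (onK j (kk d e j p)).pts.count (x, B) = 0 := by
      refine sum_eq_zero ?_
      rintro ⟨i, τ⟩ hp
      obtain ⟨hi, hτ⟩ := (mem_oldT hjd).1 hp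
      have h1 : (onK j (kk d e j (i, τ))).pts.count (x, B) = 0 := (cnt_onK he hi hτ x hB).2
      rw [h1, mul_zero]
    have e3 : ∑ τ ∈ newT d e j, s.nw τ * (τ.kd d e j (j + 1)).pts.count (x, B) = mn x B := rfl
    unfold npt
    rw [hpts', cnt_og, cnt_oi0 _ _ _ hB, hoffN x B hB, e1, e2, e3]
    have h1 := hlo x B hB
    show s.T x B - moO s.oc x B - mn x B + 0 + (moO s.oc x B + 0) + mn x B = s.T x B
    omega
  · -- on
    intro x B hB
    have hnB : (x, insert j B) ∉ Qs d j := fun h => not_mem_range (mem_Qs.1 h).2 (mem_insert_self _ _)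
    have e1 : ∑ τ ∈ newT d e j, s.nw τ * (τ.kd d e j (j + 1)).pts.count (x, insert j B) = 0 := by
      refine sum_eq_zero fun τ hτ => ?_
      have h1 : (τ.kd d e j (j + 1)).pts.count (x, insert j B) = 0 := by
        rw [Multiset.count_eq_zero]
        exact fun h => hnB (hptsnew τ hτ _ h)
      rw [h1, mul_zero]
    have e2 : ∑ p ∈ oldT d e j, s.oc p.1 p.2 * (offK j (kk d e j p)).pts.count (x, insert j B) +
        ∑ p ∈ oldT d e j, (ms.count (kk d e j p) - s.oc p.1 p.2) * (onK j (kk d e j p)).pts.count (x, insert j B) +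
        moO s.oc x B = ∑ p ∈ oldT d e j, ms.count (kk d e j p) * (kk d e j p).pts.count (x, B) := by
      rw [← sum_add_distrib]
      show _ + ∑ p ∈ oldT d e j, _ = _
      rw [← sum_add_distrib]
      refine sum_congr rfl ?_
      rintro ⟨i, τ⟩ hp
      obtain ⟨hi, hτ⟩ := (mem_oldT hjd).1 hp
      have h1 := cnt_split hi hτ x hB
      have h2 := (cnt_onK he hi hτ x hB).1
      obtain ⟨t, ht⟩ := Nat.exists_eq_add_of_le (hoc _ hp)
      show s.oc i τ * (offK j (τ.kd d e i j)).pts.count (x, insert j B) +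
        (ms.count (kk d e j (i, τ)) - s.oc i τ) * (onK j (τ.kd d e i j)).pts.count (x, insert j B) +
        s.oc i τ * offMem j (τ.kd d e i j) x B = ms.count (kk d e j (i, τ)) * (τ.kd d e i j).pts.count (x, B)
      have ht' : ms.count (kk d e j (i, τ)) = s.oc i τ + t := ht
      rw [h2, ht', Nat.add_sub_cancel_left, ← h1]
      ring
    show (ms'.bind Kd.pts).count (x, insert j B) + s.T x B = npt ms x B
    rw [hpts', cnt_og, cnt_oi1 _ hB, honN x B hB, hnpt x B hB, e1, if_neg hnB]
    have h1 := hlo x B hB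
    have h2 := hhi x B hB
    show 0 + (ms.count (Kd.ord x B) - (s.T x B - moO s.oc x B)) + _ + 0 + s.T x B = _
    omega
  · -- nA
    intro x B hB
    have e1 : ∑ p ∈ oldT d e j, (ms.count (kk d e j p) - s.oc p.1 p.2) * (kk d e j p).pts.count (x, B) +
        ∑ p ∈ oldT d e j, (if 2 ≤ (kk d e j p).nm then s.oc p.1 p.2 else 0) *
          (Kd.ord e ((range j).erase p.1)).pts.count (x, B) +
        moO s.oc x B = ∑ p ∈ oldT d e j, ms.count (kk d e j p) * (kk d e j p).pts.count (x, B) := by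
      rw [← sum_add_distrib]
      show _ + ∑ p ∈ oldT d e j, _ = _
      rw [← sum_add_distrib]
      refine sum_congr rfl ?_
      rintro ⟨i, τ⟩ hp
      obtain ⟨hi, hτ⟩ := (mem_oldT hjd).1 hp
      have h1 := cnt_split hi hτ x hB
      obtain ⟨t, ht⟩ := Nat.exists_eq_add_of_le (hoc _ hp)
      have ht' : ms.count (kk d e j (i, τ)) = s.oc i τ + t := ht
      show (ms.count (kk d e j (i, τ)) - s.oc i τ) * (τ.kd d e i j).pts.count (x, B) +
        (if 2 ≤ (τ.kd d e i j).nm then s.oc i τ else 0) * (Kd.ord e ((range j).erase i)).pts.count (x, B) +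
        s.oc i τ * offMem j (τ.kd d e i j) x B = ms.count (kk d e j (i, τ)) * (τ.kd d e i j).pts.count (x, B)
      rw [ht', Nat.add_sub_cancel_left]
      have h3 : (Kd.ord e ((range j).erase i)).pts.count (x, B) =
          if (x, B) = (e, (range j).erase i) then 1 else 0 := Multiset.count_singleton _ _
      by_cases h0 : s.oc i τ = 0
      · rw [h0]
        simp
      · have h4 := cnt_on he hj' hi hτ (hocw _ hp h0) x hB
        rw [h4] at h1
        rw [← h1, h3]
        by_cases h5 : 2 ≤ (τ.kd d e i j).nm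
        · by_cases h6 : (x, B) = (e, (range j).erase i)
          · rw [if_pos h5, if_pos h6, if_pos ⟨h5, h6⟩]
            ring
          · rw [if_pos h5, if_neg h6, if_neg fun h7 => h6 h7.2]
            ring
        · rw [if_neg h5, if_neg fun h7 => h5 h7.1]
          ring
    have e2 : ∑ τ ∈ newT d e j, nwc τ * (Kd.ord (τ.E d e j) (τ.A j)).pts.count (x, B) = s.np d e j x B := by
      have h1 : ∀ τ : CT, (Kd.ord (τ.E d e j) (τ.A j)).pts.count (x, B) =
          if (x, B) = (τ.E d e j, τ.A j) then 1 else 0 := fun τ => Multiset.count_singleton _ _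
      unfold Stp.np
      by_cases hx : x = d
      · rw [if_pos hx]
        refine sum_eq_zero fun τ _ => ?_
        rw [h1]
        by_cases h2 : (x, B) = (τ.E d e j, τ.A j)
        · have h3 : x = τ.E d e j := congrArg Prod.fst h2
          have h4 : nwc τ = 0 := if_pos (h3.symm.trans hx)
          rw [h4, zero_mul]
        · rw [if_neg h2, mul_zero]
      · rw [if_neg hx]
        refine sum_congr rfl fun τ _ => ?_
        rw [h1]
        by_cases h2 : (x, B) = (τ.E d e j, τ.A j)
        · have h3 : x = τ.E d e j := congrArg Prod.fst h2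
          have h3' : B = τ.A j := congrArg Prod.snd h2
          have h4 : nwc τ = s.nw τ := if_neg fun h5 => hx (h3.trans h5)
          rw [if_pos h2, h4, mul_one, if_pos ⟨h3.symm, h3'.symm⟩]
        · rw [if_neg h2, mul_zero, if_neg]
          rintro ⟨h3, h4⟩
          exact h2 (by rw [h3, h4])
    show (A.bind Kd.pts).count (x, B) + s.T x B = npt ms x B + s.np d e j x B
    have e3 : (A.bind Kd.pts).count (x, B) = onN s.T s.oc (x, B) +
        (∑ p ∈ oldT d e j, (ms.count (kk d e j p) - s.oc p.1 p.2) * (kk d e j p).pts.count (x, B) +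
        ∑ p ∈ oldT d e j, (if 2 ≤ (kk d e j p).nm then s.oc p.1 p.2 else 0) *
          (Kd.ord e ((range j).erase p.1)).pts.count (x, B)) +
        ∑ τ ∈ newT d e j, nwc τ * (Kd.ord (τ.E d e j) (τ.A j)).pts.count (x, B) := by
      rw [hA1]
      show (((_ + (_ + _)) + _ : Multiset Kd).bind Kd.pts).count _ = _
      rw [Multiset.add_bind, Multiset.add_bind, Multiset.add_bind, Multiset.count_add, Multiset.count_add,
        Multiset.count_add, cnt_bind (oldT d e j), cnt_bind (oldT d e j), cnt_bind (newT d e j), cnt_og,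
        honN x B hB]
    rw [e3, e2, hnpt x B hB]
    have h1 := hlo x B hB
    have h2 := hhi x B hB
    show ms.count (Kd.ord x B) - (s.T x B - moO s.oc x B) + _ + s.np d e j x B + s.T x B = _
    omega
  · -- cOn
    intro i hi τ hτ
    have e1 := cb_cnt_zero (oldT d e j) (fun p => s.oc p.1 p.2) (fun p => offK j (kk d e j p))
      (τ.kd d e i (j + 1)) (by
        rintro ⟨i', τ'⟩ hp h0 h
        obtain ⟨hi', hτ'⟩ := (mem_oldT hjd).1 hp
        obtain ⟨h1', h2'⟩ := offK_kd he hj' hi' hτ' (hocw _ hp h0)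
        have h3 : τ.kd d e i (j + 1) = (offT j τ').kd d e i' (j + 1) := h.trans h1'
        obtain ⟨h4, h5⟩ := kd_inj he hj1 (by omega) (by omega) (ok_succ hτ) h2' h3
        exact offT_ne (hocw _ hp h0) hτ h5.symm)
    have e2 := cb_cnt_eq (oldT d e j) (fun p => ms.count (kk d e j p) - s.oc p.1 p.2)
      (fun p => onK j (kk d e j p)) (i, τ) ((mem_oldT hjd).2 ⟨hi, hτ⟩) (by
        rintro ⟨i', τ'⟩ hp _ h
        obtain ⟨hi', hτ'⟩ := (mem_oldT hjd).1 hp
        have h3 : τ.kd d e i (j + 1) = τ'.kd d e i' (j + 1) := (onK_kd hi hτ).symm.trans (h.trans (onK_kd hi' hτ'))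
        obtain ⟨h4, h5⟩ := kd_inj he hj1 (by omega) (by omega) (ok_succ hτ) (ok_succ hτ') h3
        rw [h4, h5])
    have e3 := cb_cnt_zero (newT d e j) s.nw (fun τ => τ.kd d e j (j + 1)) (τ.kd d e i (j + 1)) (by
        intro τ' hτ' _ h
        obtain ⟨h4, h5⟩ := kd_inj he hj1 (by omega) (by omega) (ok_succ hτ) (hnew τ' hτ') h
        omega)
    have e4 : onK j (kk d e j (i, τ)) = τ.kd d e i (j + 1) := onK_kd hi hτ
    rw [e4] at e2
    rw [hcl, e1, e2, e3]
    have h1 : s.oc i τ ≤ ms.count (τ.kd d e i j) := hs.oc i hi τ hτ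
    show 0 + (ms.count (τ.kd d e i j) - s.oc i τ) + 0 + s.oc i τ = ms.count (τ.kd d e i j)
    omega
  · -- cNew
    intro τ hτ
    have e1 := cb_cnt_zero (oldT d e j) (fun p => s.oc p.1 p.2) (fun p => offK j (kk d e j p))
      (τ.kd d e j (j + 1)) (by
        rintro ⟨i', τ'⟩ hp h0 h
        obtain ⟨hi', hτ'⟩ := (mem_oldT hjd).1 hp
        obtain ⟨h1', h2'⟩ := offK_kd he hj' hi' hτ' (hocw _ hp h0)
        have h3 : τ.kd d e j (j + 1) = (offT j τ').kd d e i' (j + 1) := h.trans h1'
        obtain ⟨h4, h5⟩ := kd_inj he hj1 (by omega) (by omega) hτ h2' h3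
        omega)
    have e2 := cb_cnt_zero (oldT d e j) (fun p => ms.count (kk d e j p) - s.oc p.1 p.2)
      (fun p => onK j (kk d e j p)) (τ.kd d e j (j + 1)) (by
        rintro ⟨i', τ'⟩ hp _ h
        obtain ⟨hi', hτ'⟩ := (mem_oldT hjd).1 hp
        have h3 : τ.kd d e j (j + 1) = τ'.kd d e i' (j + 1) := h.trans (onK_kd hi' hτ')
        obtain ⟨h4, h5⟩ := kd_inj he hj1 (by omega) (by omega) hτ (ok_succ hτ') h3
        omega)
    have e3 := cb_cnt_eq (newT d e j) s.nw (fun τ => τ.kd d e j (j + 1)) τ ((mem_newT he).2 hτ) (by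
        intro τ' hτ' _ h
        exact (kd_inj he hj1 (by omega) (by omega) hτ (hnew τ' hτ') h).2.symm)
    rw [hcl, e1, e2, e3]
    omega
  · -- cA
    intro i hi τ hτ
    have e1 := cb_cnt_zero (Qs d j) (onN s.T s.oc) og (τ.kd d e i j) fun q _ _ => (og_ne τ).symm
    have e2 := cb_cnt_eq (oldT d e j) (fun p => ms.count (kk d e j p) - s.oc p.1 p.2) (kk d e j) (i, τ)
      ((mem_oldT hjd).2 ⟨hi, hτ⟩) (by
        rintro ⟨i', τ'⟩ hp _ h
        obtain ⟨hi', hτ'⟩ := (mem_oldT hjd).1 hp
        obtain ⟨h4, h5⟩ := kd_inj he hj' hi hi' hτ hτ' h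
        rw [h4, h5])
    have e3 := cb_cnt_zero (oldT d e j) (fun p => if 2 ≤ (kk d e j p).nm then s.oc p.1 p.2 else 0)
      (fun p => Kd.ord e ((range j).erase p.1)) (τ.kd d e i j) fun p _ _ => (og_ne τ).symm
    have e4 := cb_cnt_zero (newT d e j) nwc (fun τ => Kd.ord (τ.E d e j) (τ.A j)) (τ.kd d e i j)
      fun p _ _ => (og_ne τ).symm
    have e5 : kk d e j (i, τ) = τ.kd d e i j := rfl
    rw [e5] at e2
    rw [hA1]
    show ((_ + (_ + _)) + _ : Multiset Kd).count _ + _ = _
    rw [Multiset.count_add, Multiset.count_add, Multiset.count_add, e1, e2, e3, e4]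
    have h1 : s.oc i τ ≤ ms.count (τ.kd d e i j) := hs.oc i hi τ hτ
    show 0 + ((ms.count (τ.kd d e i j) - s.oc i τ) + 0) + 0 + s.oc i τ = ms.count (τ.kd d e i j)
    omega
  · -- uA
    have e1 := cb_cnt_eq (Qs d j) (onN s.T s.oc) og u huQ fun q _ _ h => (og_inj h).symm
    have e2 := cb_cnt_zero (oldT d e j) (fun p => ms.count (kk d e j p) - s.oc p.1 p.2) (kk d e j)
      (Kd.ord e (range j)) fun p _ _ => og_ne p.2
    have e3 := cb_cnt_zero (oldT d e j) (fun p => if 2 ≤ (kk d e j p).nm then s.oc p.1 p.2 else 0)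
      (fun p => Kd.ord e ((range j).erase p.1)) (Kd.ord e (range j)) (by
        rintro ⟨i, τ⟩ hp _ h
        obtain ⟨hi, hτ⟩ := (mem_oldT hjd).1 hp
        injection h with _ h1
        exact notMem_erase i (range j) (h1 ▸ mem_range.2 hi))
    have e4 := cb_cnt_zero (newT d e j) nwc (fun τ => Kd.ord (τ.E d e j) (τ.A j)) (Kd.ord e (range j)) (by
        intro τ hτ _ h
        injection h with h1 _
        obtain ⟨h2, -⟩ := E_new he hj (hnew τ hτ)
        omega)
    have e5 : og u = Kd.ord e (range j) := rfl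
    rw [e5] at e1
    rw [hA1]
    show ((_ + (_ + _)) + _ : Multiset Kd).count _ + _ = _
    rw [Multiset.count_add, Multiset.count_add, Multiset.count_add, e1, e2, e3, e4, honu]
    have h1 := hhi e (range j) (Subset.refl _)
    rw [hmo0] at h1
    omega

end Pool.Agent.GD
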