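import Pool.Agent.GD.N.Vd
import Pool.Agent.GD.NM.VaM

/-!
# General d, numerical block: asymptotics of the virtual dimensions

`vd D I` is the mixed difference (over the blocks of `I`) of the coefficient of `t^D` in
`∏ (1 - t^x) / (1 - t)^N`, as a function of the set of the blocks `T` (`GD/NM/Eul`).  These coefficients satisfy
the Euler relation with the coefficients `N - ∑_{x ∣ l} x M_x`, `M_x` the number of the factors `1 - t^x`.  The class
`Lw` (`GD/NM/Cal`) records the leading coefficients of all mixed differences; it is closed under sums and products;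
the windows of the class give the leading coefficients of `M_x` (`GD/NM/VaM`), the Euler relation those of the
coefficients (`GD/NM/Abs`).
-/

set_option autoImplicit false

namespace Pool.Agent.GD

open Finset

theorem Par.Ok.mono {P : Par} {Cs Cs' E E' : ℝ} (h : P.Ok Cs E) (h1 : Cs' ≤ Cs) (hC : 0 ≤ Cs') (h2 : E ≤ E') :
    P.Ok Cs' E' := by
  have hCs : 0 ≤ Cs := hC.trans h1
  have hpos : ∀ a, (a ≤ P.J → 0 ≤ P.eps a) ∧ (a < P.J → 0 ≤ P.bet (a + 1)) := by
    intro a
    induction a with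
    | zero => exact ⟨fun _ => h.eps0.le, fun h3 => (mul_nonneg hCs h.eps0.le).trans (h.eb 0 h3)⟩
    | succ a ih =>
      have h4 : a + 1 ≤ P.J → 0 ≤ P.eps (a + 1) := fun h3 =>
        (mul_nonneg hCs (ih.2 (by omega))).trans (h.be a (by omega))
      exact ⟨h4, fun h3 => (mul_nonneg hCs (h4 h3.le)).trans (h.eb (a + 1) h3)⟩
  exact
    { toCrit := h.toCrit
      eps0 := h.eps0
      eb := fun j hj => (mul_le_mul_of_nonneg_right h1 ((hpos j).1 hj.le)).trans (h.eb j hj)
      be := fun j hj => (mul_le_mul_of_nonneg_right h1 ((hpos j).2 hj)).trans (h.be j hj)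
      epsJ := h.epsJ.trans h2
      xp := h.xp
      xm := h.xm
      xm0 := h.xm0 }

/-- The windows increase. -/
theorem Par.Ok.eps_mono {P : Par} {E : ℝ} (h : P.Ok 1 E) {i j : ℕ} (hij : i ≤ j) (hj : j ≤ P.J) :
    0 < P.eps i ∧ P.eps i ≤ P.eps j ∧ (i < j → P.bet (i + 1) ≤ P.eps j ∧ 0 < P.bet (i + 1)) :=
  NM.eps_mono h hij hj

/-- The members of a cluster vanish only on other blocks than its own one. -/
theorem kd_sub {d e i j : ℕ} (τ : CT) : ∀ p ∈ (τ.kd d e i j).pts, p.2 ⊆ (range j).erase i := by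
  intro p hp
  cases τ with
  | pl k S =>
    unfold CT.kd Kd.pts at hp
    dsimp only at hp
    rw [Multiset.mem_coe, List.mem_map] at hp
    obtain ⟨A, hA, rfl⟩ := hp
    rcases NM.mem_mbs hA with rfl | rfl
    · exact Subset.rfl
    · exact sdiff_subset
  | b0 S =>
    unfold CT.kd Kd.pts at hp
    dsimp only at hp
    rw [Multiset.mem_coe, List.mem_map] at hp
    obtain ⟨A, hA, rfl⟩ := hp
    rcases NM.mem_mbs hA with rfl | rfl
    · exact Subset.rfl
    · exact sdiff_subset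
  | br r =>
    unfold CT.kd Kd.pts at hp
    dsimp only at hp
    rw [Multiset.mem_coe, List.mem_map] at hp
    obtain ⟨A, hA, rfl⟩ := hp
    unfold mbr at hA
    obtain ⟨t, -, rfl⟩ := List.mem_map.1 hA
    exact sdiff_subset

/-- The points of the main kind are not in clusters. -/
theorem npt_u {P : Par} {j n : ℕ} {ms : Multiset Kd} (h : Cls P j n ms) :
    npt ms P.e (range j) = ms.count (P.u j) := by
  unfold npt
  rw [Multiset.count_bind]
  have h1 : ∀ k ∈ ms, (k.pts.count (P.e, range j)) = if P.u j = k then 1 else 0 := by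
    intro k hk
    rcases h.mem k hk with ⟨x, A, rfl, -⟩ | ⟨i, hi, τ, hτ, rfl⟩
    · unfold Kd.pts
      dsimp only
      rw [Multiset.count_singleton]
      unfold Par.u
      by_cases h2 : P.e = x ∧ range j = A
      · rw [if_pos (by rw [h2.1, h2.2]), if_pos (by rw [h2.1, h2.2])]
      · rw [if_neg fun h => h2 (Prod.mk.inj h), if_neg fun h => h2 (by injection h with h3 h4; exact ⟨h3, h4⟩)]
    · have h3 : P.u j ≠ τ.kd P.d P.e i j := by
        unfold Par.u
        cases τ <;> exact Kd.noConfusion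
      rw [if_neg h3, Multiset.count_eq_zero]
      intro h4
      have h5 := kd_sub τ _ h4
      exact notMem_erase i _ (h5 (mem_range.2 hi))
  rw [Multiset.map_congr rfl h1]
  exact NM.sum_ite_count _ _

namespace NM

theorem Lw_N {I : Finset ℕ} {c : ℕ → ℕ} {n : ℕ} {ε : ℝ} (h : ∑ i ∈ I, c i ≤ n)
    (h' : ((∑ i ∈ I, c i : ℕ) : ℝ) ≤ ε * n) (hε : 0 ≤ ε) :
    Lw I c n 1 (fun s => (1 : ℝ) * ((1 : ℕ).descFactorial s : ℕ)) ε fun T => ((n - ∑ i ∈ T, c i : ℕ) : ℝ) := by
  intro S T hS hT hST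
  beta_reduce
  have hcast : ∀ U ⊆ I, ((n - ∑ i ∈ U, c i : ℕ) : ℝ) = (n : ℝ) - ∑ i ∈ U, (c i : ℝ) := by
    intro U hU
    rw [Nat.cast_sub ((sum_le_sum_of_subset hU).trans h)]
    push_cast
    rfl
  rw [dl_congr (g := fun U => (n : ℝ) - ∑ i ∈ U, (c i : ℝ)) fun U hU => hcast _ (union_subset hT (hU.trans hS))]
  rcases S.eq_empty_or_nonempty with h1 | ⟨i, hi⟩
  · subst h1
    rw [dl_empty, card_empty, pow_zero, mul_one, Nat.descFactorial_zero, Nat.cast_one, mul_one, one_mul]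
    unfold cp
    rw [prod_empty, one_mul, pow_one]
    have h2 : (n : ℝ) - ∑ i ∈ T, (c i : ℝ) - n = -∑ i ∈ T, (c i : ℝ) := by ring
    rw [h2, abs_neg, abs_of_nonneg (sum_nonneg fun _ _ => Nat.cast_nonneg _)]
    refine le_trans ?_ h'
    push_cast
    exact sum_le_sum_of_subset_of_nonneg hT fun _ _ _ => Nat.cast_nonneg _
  · have hiT : i ∉ T := fun h2 => disjoint_left.1 hST hi h2
    have h2 : dl S (fun U => (n : ℝ) - ∑ i ∈ U, (c i : ℝ)) T = dl (S.erase i) (fun _ => (c i : ℝ)) T := by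
      conv_lhs => rw [← insert_erase hi]
      rw [dl_insert (notMem_erase i S)]
      unfold dl
      rw [← sum_sub_distrib]
      refine sum_congr rfl fun U hU => ?_
      have h3 : i ∉ T ∪ U := by
        rw [mem_union, not_or]
        exact ⟨hiT, fun h4 => notMem_erase i S (mem_powerset.1 hU h4)⟩
      rw [insert_union]
      beta_reduce
      rw [sum_insert h3]
      ring
    rw [h2]
    rcases (S.erase i).eq_empty_or_nonempty with h3 | h3
    · have h4 : S = {i} := by rw [← insert_erase hi, h3]; rfl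
      rw [h3, dl_empty, h4, card_singleton, pow_one]
      unfold cp
      rw [prod_singleton]
      have h5 : (c i : ℝ) * n - 1 * ((Nat.descFactorial 1 1 : ℕ) : ℝ) * (c i * n) = 0 := by
        simp
      rw [h5, abs_zero]
      positivity
    · rw [dl_const h3, zero_mul, zero_sub, abs_neg]
      have h4 : 1 < S.card := by
        have h5 := card_pos.2 h3
        rw [card_erase_of_mem hi] at h5
        omega
      have h5 : Nat.descFactorial 1 S.card = 0 := Nat.descFactorial_of_lt h4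
      rw [h5]
      have h6 := cp_nonneg c S
      simp only [Nat.cast_zero, mul_zero, zero_mul, abs_zero]
      positivity

/-- The coefficients of the recursion for the numbers `gg`. -/
noncomputable def be (kap : ℕ → ℝ) (l : ℕ) : ℝ := (if l = 1 then 1 else 0) - l * kap l

theorem gg_rec (kap : ℕ → ℝ) (h1 : kap 1 = 0) (D : ℕ) :
    ((D : ℝ) + 1) * gg kap (D + 1) = ∑ l ∈ range (D + 1), be kap (l + 1) * gg kap (D - l) := by
  have hD : ((D : ℝ) + 1) ≠ 0 := by positivity
  rw [gg, mul_div_cancel₀ _ hD]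
  have h2 : ∑ l ∈ range (D + 1), be kap (l + 1) * gg kap (D - l) =
      gg kap D - ∑ l ∈ range (D + 1), ((l + 1 : ℕ) : ℝ) * kap (l + 1) * gg kap (D - l) := by
    have h3 : ∀ l ∈ range (D + 1), be kap (l + 1) * gg kap (D - l) =
        (if l = 0 then gg kap (D - l) else 0) - ((l + 1 : ℕ) : ℝ) * kap (l + 1) * gg kap (D - l) := by
      intro l _
      unfold be
      by_cases h4 : l = 0
      · subst h4
        simp
        ring
      · rw [if_neg (by omega), if_neg h4]
        ring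
    rw [sum_congr rfl h3, sum_sub_distrib, Finset.sum_ite_eq' (range (D + 1)) 0 fun l => gg kap (D - l), if_pos (mem_range.2 (by omega)),
      Nat.sub_zero]
  rw [h2, sum_range_succ']
  have h5 : ((0 + 1 : ℕ) : ℝ) * kap (0 + 1) * gg kap (D - 0) = 0 := by rw [zero_add, h1, mul_zero, zero_mul]
  rw [h5, add_zero, Fin.sum_univ_eq_sum_range (fun x => ((D + 1 - x : ℕ) : ℝ) * kap (D + 1 - x) * gg kap x) D,
    ← Finset.sum_range_reflect]
  congr 1
  refine sum_congr rfl fun l hl => ?_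
  have h6 := mem_range.1 hl
  have h7 : D + 1 - (D - 1 - l) = l + 1 + 1 := by omega
  have h8 : D - 1 - l = D - (l + 1) := by omega
  rw [h7, h8]

/-- The leading coefficients of the coefficients of the Euler relation. -/
theorem Lw_b {P : Par} {d : ℕ} (hP : P.Ok 1 1) (hd' : P.d = d) (hc : ∀ i < P.J, 1 ≤ P.c i) {j : ℕ} (hj : j ≤ P.J)
    {ε : ℝ} (hε : P.eps j ≤ ε) (hε1 : ε ≤ 1) :
    ∃ n₀ : ℕ, ∀ n, n₀ ≤ n → ∀ ms, Cls P j n ms →
      |(ms.count (P.u j) : ℝ) - P.kap P.e * (n : ℝ) ^ P.e| ≤ ε * (n : ℝ) ^ P.e → ∀ l, 1 ≤ l → l ≤ d →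
        Lw (range j) P.c n l (fun s => be P.kap l * (l.descFactorial s : ℕ)) ((3 * d * d + 1) * ε)
          fun T => ((bl (n - ∑ i ∈ T, P.c i) (exm ms T) l : ℤ) : ℝ) := by
  have heps : 0 < P.eps j := (eps_mono hP (le_refl j) hj).1
  have hε0 : 0 < ε := heps.trans_le hε
  obtain ⟨n₁, hn₁⟩ := Lw_M hP hd' hc hj hε hε1
  obtain ⟨B, hB0, hB⟩ : ∃ B : ℝ, 0 ≤ B ∧ ∀ x ≤ d, P.kap x ≤ B := by
    refine ⟨∑ x ∈ range (d + 1), P.kap x, sum_nonneg fun x _ => hP.nonneg x, fun x hx => ?_⟩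
    exact single_le_sum (f := P.kap) (fun y _ => hP.nonneg y) (mem_range.2 (by omega))
  obtain ⟨n₂, hn₂⟩ := exists_nat_ge (max (((∑ i ∈ range j, P.c i : ℕ) : ℝ) / ε) ((B * d.factorial + 3) / ε))
  refine ⟨max (max n₁ n₂) (max 1 (∑ i ∈ range j, P.c i)), fun n hn ms H hu l hl hld => ?_⟩
  have hn1 : n₁ ≤ n := ((le_max_left _ _).trans (le_max_left _ _)).trans hn
  have hn2 : n₂ ≤ n := ((le_max_right _ _).trans (le_max_left _ _)).trans hn
  have hn3 : 1 ≤ n := ((le_max_left _ _).trans (le_max_right _ _)).trans hn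
  have hn4 : ∑ i ∈ range j, P.c i ≤ n := ((le_max_right _ _).trans (le_max_right _ _)).trans hn
  have hnr : max (((∑ i ∈ range j, P.c i : ℕ) : ℝ) / ε) ((B * d.factorial + 3) / ε) ≤ n := hn₂.trans (by exact_mod_cast hn2)
  have hq1 : ((∑ i ∈ range j, P.c i : ℕ) : ℝ) ≤ ε * n := by
    have := (le_max_left _ _).trans hnr
    rw [div_le_iff₀ hε0] at this
    linarith
  have hq2 : B * d.factorial + 3 ≤ ε * n := by
    have := (le_max_right _ _).trans hnr
    rw [div_le_iff₀ hε0] at this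
    linarith
  have hM := hn₁ n hn1 ms H hu
  have hN := Lw_N hn4 hq1 hε0.le
  have hBd : 0 ≤ B * d.factorial := by positivity
  have hNl : Lw (range j) P.c n l (fun s => (if l = 1 then 1 else 0) * (l.descFactorial s : ℕ)) ε
      fun T => ((n - ∑ i ∈ T, P.c i : ℕ) : ℝ) := by
    by_cases h1 : l = 1
    · subst h1
      refine hN.congr (fun _ _ => rfl) fun s _ => ?_
      rw [if_pos rfl]
    · refine (hN.up (w' := l) (by omega) hε0.le hn3 (A := B * d.factorial + 3) (fun s _ => ?_) hq2).congr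
        (fun _ _ => rfl) fun s _ => ?_
      · have h2 : ((Nat.descFactorial 1 s : ℕ) : ℝ) ≤ 1 := by
          exact_mod_cast (desc_le 1 s).trans (by simp)
        have h3 : (0 : ℝ) ≤ ((Nat.descFactorial 1 s : ℕ) : ℝ) := Nat.cast_nonneg _
        rw [one_mul, abs_of_nonneg h3]
        linarith
      · rw [if_neg h1, zero_mul]
  have hMl : ∀ x ∈ l.divisors, Lw (range j) P.c n l (fun s => if x = l then -(l * P.kap l * (l.descFactorial s : ℕ)) else 0)
      (3 * d * ε) fun T => -(x : ℝ) * (((exm ms T).count x : ℕ) : ℝ) := by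
    intro x hx
    have hxl : x ≤ l := Nat.divisor_le hx
    have hxd : x ≤ d := hxl.trans hld
    have hxr : (x : ℝ) ≤ d := by exact_mod_cast hxd
    by_cases h1 : x = l
    · subst h1
      refine (((hM x hxd).smul (-(x : ℝ))).congr (fun _ _ => rfl) fun s _ => ?_).mono ?_
      · rw [if_pos rfl]
        ring
      · rw [abs_neg, Nat.abs_cast]
        calc (x : ℝ) * (3 * ε) ≤ d * (3 * ε) := mul_le_mul_of_nonneg_right hxr (by positivity)
          _ = _ := by ring
    · have h2 : x < l := lt_of_le_of_ne hxl h1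
      have h3 := (hM x hxd).up h2 hε0.le hn3 (A := B * d.factorial + 3) (fun s _ => by
        have h4 : 0 ≤ P.kap x * (x.descFactorial s : ℕ) := mul_nonneg (hP.nonneg x) (Nat.cast_nonneg _)
        rw [abs_of_nonneg h4]
        have h5 : P.kap x * (x.descFactorial s : ℕ) ≤ B * d.factorial :=
          mul_le_mul (hB x hxd) (desc_le' hxd s) (Nat.cast_nonneg _) hB0
        linarith) hq2
      refine ((h3.smul (-(x : ℝ))).congr (fun _ _ => rfl) fun s _ => ?_).mono ?_
      · rw [if_neg h1, mul_zero]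
      · rw [abs_neg, Nat.abs_cast]
        have hd0 : (0 : ℝ) ≤ d := Nat.cast_nonneg _
        nlinarith
  have hsum := hNl.add (Lw.sum l.divisors hMl)
  refine (hsum.congr (fun T _ => ?_) fun s _ => ?_).mono ?_
  · unfold bl
    push_cast
    rw [sub_eq_add_neg, ← sum_neg_distrib]
    congr 1
    exact sum_congr rfl fun x _ => by ring
  · have h1 : ∑ x ∈ l.divisors, (if x = l then -(l * P.kap l * (l.descFactorial s : ℕ)) else (0 : ℝ)) =
        -(l * P.kap l * (l.descFactorial s : ℕ)) := by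
      rw [Finset.sum_ite_eq' l.divisors l fun _ => -(l * P.kap l * ((l.descFactorial s : ℕ) : ℝ)), if_pos (Nat.mem_divisors_self l (by omega))]
    rw [h1]
    unfold be
    ring
  · rw [sum_const, nsmul_eq_mul]
    have h1 : (l.divisors.card : ℝ) ≤ d := by
      exact_mod_cast (Nat.card_divisors_le_self l).trans hld
    have h2 : (l.divisors.card : ℝ) * (3 * d * ε) ≤ d * (3 * d * ε) := mul_le_mul_of_nonneg_right h1 (by positivity)
    nlinarith

end NM

/-- The asymptotics. -/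
theorem va (d e : ℕ) (kap : ℕ → ℝ) (hk : Crit d e kap) : ∃ C : ℝ, 1 ≤ C ∧
    ∀ P : Par, P.d = d → P.e = e → P.kap = kap → P.Ok 1 1 → (∀ i < P.J, 1 ≤ P.c i) → ∀ j ≤ P.J,
      ∀ ε : ℝ, P.eps j ≤ ε → ε ≤ 1 → ∃ n₀ : ℕ, ∀ n, n₀ ≤ n → ∀ ms, Cls P j n ms →
        |(ms.count (P.u j) : ℝ) - kap e * (n : ℝ) ^ e| ≤ ε * (n : ℝ) ^ e →
          ∀ D ≤ d, ∀ I ⊆ range j, I.card ≤ D →
            |(vd D I P.c n ms : ℝ) -
                (D.descFactorial I.card : ℕ) * gg kap D * P.cc I * (n : ℝ) ^ (D - I.card)| ≤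
              C * ε * P.cc I * (n : ℝ) ^ (D - I.card) := by
  have hk1 : kap 1 = 0 := by
    by_contra h
    have := (hk.supp 1 h).1
    omega
  have hB0 : (0 : ℝ) ≤ ∑ l ∈ range (d + 1), |NM.be kap l| := sum_nonneg fun _ _ => abs_nonneg _
  have hβ : ∀ l ≤ d, |NM.be kap l| ≤ ∑ l ∈ range (d + 1), |NM.be kap l| := fun l hl =>
    single_le_sum (f := fun l => |NM.be kap l|) (fun _ _ => abs_nonneg _) (mem_range.2 (by omega))
  have habs := NM.va_abs d d (∑ l ∈ range (d + 1), |NM.be kap l|) (3 * d * d + 1) hB0 (by positivity)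
  have habs' : ∀ D : Fin (d + 1), _ := fun D => habs D.1 (Nat.lt_succ_iff.1 D.2)
  choose C G hC hG hCG using habs'
  refine ⟨1 + ∑ D : Fin (d + 1), C D, by linarith [sum_nonneg fun (D : Fin (d + 1)) (_ : D ∈ univ) => hC D], ?_⟩
  intro P hPd hPe hPk hP hc j hj ε hε hε1
  have heps : 0 < P.eps j := (hP.eps_mono (le_refl j) hj).1
  have hε0 : 0 < ε := heps.trans_le hε
  obtain ⟨n₁, hn₁⟩ := NM.Lw_b hP hPd hc hj hε hε1
  refine ⟨max n₁ 1, fun n hn ms H hu D hD I hI hID => ?_⟩
  have hn0 : (0 : ℝ) < n := by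
    have : 1 ≤ n := (le_max_right _ _).trans hn
    exact_mod_cast this
  have hu' : |(ms.count (P.u j) : ℝ) - P.kap P.e * (n : ℝ) ^ P.e| ≤ ε * (n : ℝ) ^ P.e := by
    rw [hPk, hPe]
    exact hu
  have hb := hn₁ n ((le_max_left _ _).trans hn) ms H hu'
  rw [hPk] at hb
  have hex := NM.cls_ex (n := n) (ms := ms) hP.two hj H
  have hjd : j ≤ d := by
    have h1 : P.J ≤ P.d := Nat.sub_le _ _
    omega
  have hL := ((hCG ⟨D, Nat.lt_succ_iff.2 hD⟩) (NM.be kap) (gg kap) hβ (by rw [gg]) (NM.gg_rec kap hk1)).2 (range j) P.c n ε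
    (fun D T => ((PowerSeries.coeff D (NM.Fs (n - ∑ i ∈ T, P.c i) (NM.exm ms T)) : ℤ) : ℝ))
    (fun l T => ((NM.bl (n - ∑ i ∈ T, P.c i) (NM.exm ms T) l : ℤ) : ℝ)) (by rw [card_range]; exact hjd) hε0.le hε1
    (fun T _ => by
      rw [NM.coeff_zero_Fs _ _ (NM.exm_pos hex T), Int.cast_one])
    (fun D T _ => by
      have h1 := NM.euler (n - ∑ i ∈ T, P.c i) (NM.exm ms T) (NM.exm_pos hex T) D
      exact_mod_cast h1)
    (fun l h1 h2 => hb l h1 h2)
  have h1 := hL I ∅ hI (empty_subset _) (disjoint_empty_right I)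
  have h2 : NM.dl I (fun T => ((PowerSeries.coeff D (NM.Fs (n - ∑ i ∈ T, P.c i) (NM.exm ms T)) : ℤ) : ℝ)) ∅ =
      (vd D I P.c n ms : ℝ) := by
    rw [NM.vd_eq_Fs]
    unfold NM.dl
    push_cast
    exact sum_congr rfl fun U _ => by rw [empty_union]
  dsimp only at h1
  rw [h2] at h1
  have h3 : (n : ℝ) ^ D = (n : ℝ) ^ (D - I.card) * (n : ℝ) ^ I.card := by rw [← pow_add, Nat.sub_add_cancel hID]
  have h4 : (0 : ℝ) < (n : ℝ) ^ I.card := pow_pos hn0 _
  have h5 : |(vd D I P.c n ms : ℝ) - (D.descFactorial I.card : ℕ) * gg kap D * NM.cp P.c I * (n : ℝ) ^ (D - I.card)| ≤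
      C ⟨D, Nat.lt_succ_iff.2 hD⟩ * ε * NM.cp P.c I * (n : ℝ) ^ (D - I.card) := by
    refine le_of_mul_le_mul_right ?_ h4
    calc _ = |((vd D I P.c n ms : ℝ) - (D.descFactorial I.card : ℕ) * gg kap D * NM.cp P.c I * (n : ℝ) ^ (D - I.card)) *
          (n : ℝ) ^ I.card| := by rw [abs_mul, abs_of_nonneg h4.le]
      _ = |(vd D I P.c n ms : ℝ) * (n : ℝ) ^ I.card - gg kap D * (D.descFactorial I.card : ℕ) * (NM.cp P.c I * (n : ℝ) ^ D)| := by
          rw [h3]
          congr 1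
          ring
      _ ≤ C ⟨D, Nat.lt_succ_iff.2 hD⟩ * ε * (NM.cp P.c I * (n : ℝ) ^ D) := h1
      _ = _ := by
          rw [h3]
          ring
  rw [NM.cc_eq]
  refine h5.trans ?_
  have h6 : C ⟨D, Nat.lt_succ_iff.2 hD⟩ ≤ 1 + ∑ D : Fin (d + 1), C D := by
    have := single_le_sum (f := C) (fun D _ => hC D) (mem_univ (⟨D, Nat.lt_succ_iff.2 hD⟩ : Fin (d + 1)))
    linarith
  have h7 := NM.cp_nonneg P.c I
  refine mul_le_mul_of_nonneg_right (mul_le_mul_of_nonneg_right (mul_le_mul_of_nonneg_right h6 hε0.le) h7) (pow_nonneg hn0.le _)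

end Pool.Agent.GD
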