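import Pool.Agent.GD.N.Defs

/-!
# General d, numerical block: the kinds of the clusters (identities)
-/

set_option autoImplicit false

namespace Pool.Agent.GD

open Finset

private theorem ico_self_sub {j : ℕ} {S : Finset ℕ} (h : S ⊆ Ico (j + 1) (j + 1)) : S = ∅ := by
  rw [Finset.Ico_self] at h
  exact Finset.subset_empty.mp h

/-- The types of the new clusters. -/
theorem mem_newT {d e j : ℕ} (he : 2 ≤ e) {τ : CT} : τ ∈ newT d e j ↔ τ.Ok d e j (j + 1) := by
  unfold newT
  rw [mem_union, mem_union]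
  constructor
  · rintro ((h | h) | h)
    · obtain ⟨k, hk, rfl⟩ := mem_image.mp h
      have := mem_Icc.mp hk
      exact ⟨this.1, this.2, empty_subset _, by simp⟩
    · by_cases h0 : (d - j - 1) % (e - 1) = 0
      · rw [if_pos h0] at h
        exact absurd h (notMem_empty _)
      · rw [if_neg h0] at h
        rw [mem_singleton.mp h]
        exact ⟨h0, empty_subset _, by simp⟩
    · obtain ⟨r, hr, rfl⟩ := mem_image.mp h
      exact mem_Icc.mp hr
  · intro h
    cases τ with
    | pl k S =>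
      obtain ⟨h1, h2, h3, -⟩ := h
      rw [ico_self_sub h3]
      exact Or.inl (Or.inl (mem_image.mpr ⟨k, mem_Icc.mpr ⟨h1, h2⟩, rfl⟩))
    | b0 S =>
      obtain ⟨h1, h3, -⟩ := h
      rw [ico_self_sub h3]
      refine Or.inl (Or.inr ?_)
      rw [if_neg h1]
      exact mem_singleton_self _
    | br r => exact Or.inr (mem_image.mpr ⟨r, mem_Icc.mpr h, rfl⟩)

private theorem mbs_one (i j : ℕ) (S : Finset ℕ) : mbs i j 1 S = [(range j).erase i \ S] := by
  unfold mbs
  rw [if_pos rfl]

private theorem mbs_two (i j k : ℕ) (S : Finset ℕ) : mbs i j (k + 2) S =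
    (range j).erase i :: ((range j).erase i \ S) :: List.replicate k ((range j).erase i \ S) := by
  unfold mbs
  rw [if_neg (by omega)]
  rfl

private theorem mbs_length {i j k : ℕ} (hk : 1 ≤ k) (S : Finset ℕ) : (mbs i j k S).length = k := by
  obtain rfl | ⟨k, rfl⟩ : k = 1 ∨ ∃ m, k = m + 2 := by
    by_cases h : k = 1
    · exact Or.inl h
    · exact Or.inr ⟨k - 2, by omega⟩
  · rw [mbs_one]; rfl
  · rw [mbs_two]; simp

private theorem mem_mbs {i j k : ℕ} {S A : Finset ℕ} (h : A ∈ mbs i j k S) :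
    A = (range j).erase i ∨ A = (range j).erase i \ S := by
  unfold mbs at h
  by_cases hk : k = 1
  · rw [if_pos hk] at h
    exact Or.inr (List.mem_singleton.mp h)
  · rw [if_neg hk] at h
    rcases List.mem_cons.mp h with h | h
    · exact Or.inl h
    · exact Or.inr (List.eq_of_mem_replicate h)

private theorem mbr_length (i j k e r : ℕ) : (mbr i j k e r).length = k := by
  unfold mbr; simp

private theorem mem_mbr {i j k e r : ℕ} {A : Finset ℕ} (h : A ∈ mbr i j k e r) :
    ∃ s < k, A = (range j).erase i \ (Ico (s * (e - 1)) ((s + 1) * (e - 1)) ∩ range r) := by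
  unfold mbr at h
  obtain ⟨s, hs, rfl⟩ := List.mem_map.mp h
  exact ⟨s, List.mem_range.mp hs, rfl⟩

/-- The form of the kinds. -/
private theorem kd_form (d e i j : ℕ) (τ : CT) : ∃ dl As, τ.kd d e i j = .cl e dl i As ∧
    ∀ A ∈ As, A ⊆ (range j).erase i := by
  cases τ with
  | pl k S =>
    refine ⟨_, _, rfl, fun A hA => ?_⟩
    rcases mem_mbs hA with h | h
    · exact h.subset
    · rw [h]; exact sdiff_subset
  | b0 S =>
    refine ⟨_, _, rfl, fun A hA => ?_⟩
    rcases mem_mbs hA with h | h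
    · exact h.subset
    · rw [h]; exact sdiff_subset
  | br r =>
    refine ⟨_, _, rfl, fun A hA => ?_⟩
    obtain ⟨s, -, rfl⟩ := mem_mbr hA
    exact sdiff_subset

private theorem notMem_of {i j : ℕ} {A : Finset ℕ} (h : A ⊆ (range j).erase i) : j ∉ A := by
  intro h1
  have := mem_range.mp (mem_of_mem_erase (h h1))
  omega

private theorem erase_of {i j : ℕ} {A : Finset ℕ} (h : A ⊆ (range j).erase i) : A.erase j = A :=
  erase_eq_of_notMem (notMem_of h)

private theorem insert_erase_of {i j : ℕ} {A : Finset ℕ} (h : A ⊆ (range j).erase i) :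
    (insert j A).erase j = A := erase_insert (notMem_of h)

private theorem range_erase {i j : ℕ} (hi : i < j) :
    (range (j + 1)).erase i = insert j ((range j).erase i) := by
  ext x
  simp only [mem_erase, mem_range, mem_insert]
  omega

private theorem sdiff_insert {i j : ℕ} (hi : i < j) {S : Finset ℕ} (hS : j ∉ S) :
    (range (j + 1)).erase i \ S = insert j ((range j).erase i \ S) := by
  rw [range_erase hi, insert_sdiff_of_notMem _ hS]

private theorem sdiff_insert' {i j : ℕ} (hi : i < j) (S : Finset ℕ) :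
    (range (j + 1)).erase i \ insert j S = (range j).erase i \ S := by
  ext x
  simp only [mem_erase, mem_range, mem_sdiff, mem_insert]
  constructor
  · rintro ⟨⟨h1, h2⟩, h3⟩
    have h4 : x ≠ j := fun h => h3 (Or.inl h)
    exact ⟨⟨h1, by omega⟩, fun h => h3 (Or.inr h)⟩
  · rintro ⟨⟨h1, h2⟩, h3⟩
    exact ⟨⟨h1, by omega⟩, fun h => h.elim (fun h => by omega) h3⟩

private theorem notMem_Ico {i j : ℕ} {S : Finset ℕ} (h : S ⊆ Ico (i + 1) j) : j ∉ S := by
  intro h1
  have := mem_Ico.mp (h h1)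
  omega

private theorem quot_pos {d e i j : ℕ} (he : 2 ≤ e) (hj : j ≤ d - e) (hi : i < j) :
    1 ≤ (d - i - 1) / (e - 1) := by
  rw [Nat.one_le_div_iff (by omega)]
  omega

private theorem quot_pos' {d e i j r : ℕ} (he : 2 ≤ e) (hj : j ≤ d - e) (hi : i < j) :
    1 ≤ (d - i + r - 1) / (e - 1) := by
  rw [Nat.one_le_div_iff (by omega)]
  omega

/-- An allowed type is allowed on the next level. -/
theorem ok_succ {d e j i : ℕ} {τ : CT} (h : τ.Ok d e i j) : τ.Ok d e i (j + 1) := by
  have hI : Ico (i + 1) j ⊆ Ico (i + 1) (j + 1) := Ico_subset_Ico_right (Nat.le_succ j)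
  cases τ with
  | pl k S => exact ⟨h.1, h.2.1, h.2.2.1.trans hI, h.2.2.2⟩
  | b0 S => exact ⟨h.1, h.2.1.trans hI, h.2.2⟩
  | br r => exact h

private theorem onK_mbs {i j k : ℕ} (hi : i < j) {S : Finset ℕ} (h : j ∉ S) :
    (mbs i j k S).map (insert j) = mbs i (j + 1) k S := by
  unfold mbs
  by_cases hk : k = 1
  · rw [if_pos hk, if_pos hk, sdiff_insert hi h]; rfl
  · rw [if_neg hk, if_neg hk, sdiff_insert hi h, range_erase hi]; simp

/-- A cluster which stays on `L_j`. -/
theorem onK_kd {d e j i : ℕ} (hi : i < j) {τ : CT} (h : τ.Ok d e i j) :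
    onK j (τ.kd d e i j) = τ.kd d e i (j + 1) := by
  cases τ with
  | pl k S =>
    show Kd.cl _ _ _ _ = Kd.cl _ _ _ _
    rw [onK_mbs hi (notMem_Ico h.2.2.1)]
  | b0 S =>
    show Kd.cl _ _ _ _ = Kd.cl _ _ _ _
    rw [onK_mbs hi (notMem_Ico h.2.1)]
  | br r =>
    show Kd.cl _ _ _ _ = Kd.cl _ _ _ _
    congr 1
    unfold mbr
    rw [List.map_map]
    refine List.map_congr_left fun s _ => ?_
    have h1 : j ∉ Ico (s * (e - 1)) ((s + 1) * (e - 1)) ∩ range r := by
      intro h2
      have h3 := mem_range.mp (mem_inter.mp h2).2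
      have h4 : r ≤ i := h.2
      omega
    rw [sdiff_insert hi h1]
    rfl

private theorem offK_mbs {i j k e dl : ℕ} (hi : i < j) (hk : 1 ≤ k) (S : Finset ℕ) :
    offK j (.cl e dl i (mbs i j k S)) = .cl e dl i (mbs i (j + 1) k (insert j S)) := by
  obtain rfl | ⟨k, rfl⟩ : k = 1 ∨ ∃ m, k = m + 2 := by
    by_cases h : k = 1
    · exact Or.inl h
    · exact Or.inr ⟨k - 2, by omega⟩
  · rw [mbs_one, mbs_one, sdiff_insert' hi]; rfl
  · rw [mbs_two, mbs_two, sdiff_insert' hi, range_erase hi]; rfl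

/-- A cluster which is moved off `L_j`: type `pl`. -/
theorem offK_pl {d e j i k : ℕ} (hi : i < j) {S : Finset ℕ} (h : (CT.pl k S).Ok d e i j) :
    offK j ((CT.pl k S).kd d e i j) = (CT.pl k (insert j S)).kd d e i (j + 1) :=
  offK_mbs hi (by have := h.1; omega) S

/-- A cluster which is moved off `L_j`: type `b0`. -/
theorem offK_b0 {d e j i : ℕ} (he : 2 ≤ e) (hj : j ≤ d - e) (hi : i < j) {S : Finset ℕ}
    (h : (CT.b0 S).Ok d e i j) :
    offK j ((CT.b0 S).kd d e i j) = (CT.b0 (insert j S)).kd d e i (j + 1) :=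
  offK_mbs hi (quot_pos he hj hi) S

private theorem map_ie {i j : ℕ} {As : List (Finset ℕ)} (h : ∀ A ∈ As, A ⊆ (range j).erase i) :
    (As.map (insert j)).map (fun A => A.erase j) = As := by
  rw [List.map_map]
  conv_rhs => rw [← List.map_id As]
  exact List.map_congr_left fun A hA => insert_erase_of (h A hA)

private theorem map_e {i j : ℕ} {As : List (Finset ℕ)} (h : ∀ A ∈ As, A ⊆ (range j).erase i) :
    As.map (fun A => A.erase j) = As := by
  conv_rhs => rw [← List.map_id As]
  exact List.map_congr_left fun A hA => erase_of (h A hA)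

/-- The projection to the level `j`. -/
theorem un_onK {d e j i : ℕ} (hi : i < j) {τ : CT} (h : τ.Ok d e i j) :
    un j (onK j (τ.kd d e i j)) = {τ.kd d e i j} := by
  obtain ⟨dl, As, h1, h2⟩ := kd_form d e i j τ
  rw [h1]
  show (if i = j then _ else {Kd.cl e dl i ((As.map (insert j)).map fun A => A.erase j)}) = _
  rw [if_neg (by omega), map_ie h2]

private theorem offK_form {j e dl i : ℕ} {As : List (Finset ℕ)}
    (h : ∀ A ∈ As, A ⊆ (range j).erase i) : ∃ As', offK j (.cl e dl i As) = .cl e dl i As' ∧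
      As'.map (fun A => A.erase j) = As := by
  rcases As with _ | ⟨A, _ | ⟨B, As⟩⟩
  · exact ⟨_, rfl, rfl⟩
  · exact ⟨_, rfl, map_e h⟩
  · refine ⟨insert j A :: B :: As, rfl, ?_⟩
    have h1 := map_e (j := j) (As := A :: B :: As) h
    rw [List.map_cons] at h1 ⊢
    rw [insert_erase_of (h A (by simp))]
    rw [(List.cons.inj h1).2]

theorem un_offK {d e j i : ℕ} (hi : i < j) {τ : CT} (h : τ.Ok d e i j) :
    un j (offK j (τ.kd d e i j)) = {τ.kd d e i j} := by
  obtain ⟨dl, As, h1, h2⟩ := kd_form d e i j τ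
  obtain ⟨As', h3, h4⟩ := offK_form (e := e) (dl := dl) h2
  rw [h1, h3]
  show (if i = j then _ else {Kd.cl e dl i (As'.map fun A => A.erase j)}) = _
  rw [if_neg (by omega), h4]

/-- The traces of the old clusters. -/
theorem tr_onK {d e j i : ℕ} (he : 2 ≤ e) (hj : j ≤ d - e) (hi : i < j) {τ : CT} (h : τ.Ok d e i j) :
    tr j (onK j (τ.kd d e i j)) = {τ.kd d e i j} := by
  obtain ⟨dl, As, h1, h2⟩ := kd_form d e i j τ
  rw [h1]
  have h3 : ∀ A ∈ As.map (fun A : Finset ℕ => insert j A), j ∈ A := by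
    intro A hA
    obtain ⟨B, -, rfl⟩ := List.mem_map.mp hA
    exact mem_insert_self _ _
  show (if i = j then _ else if ∀ A ∈ As.map (fun A : Finset ℕ => insert j A), j ∈ A then
    {Kd.cl e dl i ((As.map (fun A : Finset ℕ => insert j A)).map fun A => A.erase j)} else _) = _
  rw [if_neg (by omega), if_pos h3, map_ie h2]

private theorem tr_offK_aux {j e dl i k : ℕ} (hi : i < j) (hk : 1 ≤ k) (S : Finset ℕ) :
    tr j (offK j (.cl e dl i (mbs i j k S))) =
      if 2 ≤ k then {Kd.ord e ((range j).erase i)} else 0 := by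
  have hA : j ∉ (range j).erase i := notMem_of (i := i) (Subset.refl _)
  have hB : j ∉ (range j).erase i \ S := notMem_of (i := i) sdiff_subset
  obtain rfl | ⟨k, rfl⟩ : k = 1 ∨ ∃ m, k = m + 2 := by
    by_cases h : k = 1
    · exact Or.inl h
    · exact Or.inr ⟨k - 2, by omega⟩
  · rw [mbs_one, if_neg (by omega)]
    show (if i = j then _ else if ∀ A ∈ [(range j).erase i \ S], j ∈ A then _ else
      ((([(range j).erase i \ S].filter fun A => j ∈ A).map fun A => Kd.ord e (A.erase j) : List Kd) :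
        Multiset Kd)) = _
    rw [if_neg (by omega), if_neg (fun h => hB (h _ (by simp)))]
    rw [List.filter_cons_of_neg (by simp)]
    rfl
  · rw [mbs_two, if_pos (by omega)]
    show (if i = j then _ else if ∀ A ∈ insert j ((range j).erase i) :: ((range j).erase i \ S) ::
        List.replicate k ((range j).erase i \ S), j ∈ A then _ else
      ((((insert j ((range j).erase i) :: ((range j).erase i \ S) ::
        List.replicate k ((range j).erase i \ S)).filter fun A => j ∈ A).map
          fun A => Kd.ord e (A.erase j) : List Kd) : Multiset Kd)) = _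
    rw [if_neg (by omega), if_neg (fun h => hB (h _ (by simp)))]
    rw [List.filter_cons_of_pos (by simp), List.filter_cons_of_neg (by simp)]
    have h1 : (List.replicate k ((range j).erase i \ S)).filter (fun A => decide (j ∈ A)) = [] := by
      rw [List.filter_eq_nil_iff]
      intro A hA'
      rw [List.eq_of_mem_replicate hA']
      simp
    rw [h1]
    show (((Kd.ord e ((insert j ((range j).erase i)).erase j) :: ([] : List Kd)) : List Kd) :
      Multiset Kd) = _
    rw [erase_insert hA]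
    rfl

/-- The members of a moved cluster which stay on `L_j`: `nOn = 1` if there are at least two members. -/
theorem tr_offK {d e j i : ℕ} (he : 2 ≤ e) (hj : j ≤ d - e) (hi : i < j) {τ : CT} (h : τ.Ok d e i j)
    (hw : τ.w e ≠ 0) :
    tr j (offK j (τ.kd d e i j)) = if 2 ≤ (τ.kd d e i j).nm then {Kd.ord e ((range j).erase i)} else 0 := by
  cases τ with
  | pl k S =>
    have h1 : 1 ≤ k := by have := h.1; omega
    refine (tr_offK_aux hi h1 S).trans ?_
    show _ = if 2 ≤ (mbs i j k S).length then _ else _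
    rw [mbs_length h1]
  | b0 S =>
    have h1 := quot_pos he hj hi
    refine (tr_offK_aux hi h1 S).trans ?_
    show _ = if 2 ≤ (mbs i j ((d - i - 1) / (e - 1)) S).length then _ else _
    rw [mbs_length h1]
  | br r => exact absurd rfl hw

/-- New clusters: the projection and the trace. -/
theorem un_new {d e j : ℕ} {τ : CT} (h : τ.Ok d e j (j + 1)) :
    un j (τ.kd d e j (j + 1)) = (τ.kd d e j (j + 1)).pts.map fun p => Kd.ord p.1 p.2 := by
  obtain ⟨dl, As, h1, h2⟩ := kd_form d e j (j + 1) τ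
  rw [h1]
  show (if j = j then ((As.map fun A => Kd.ord e (A.erase j) : List Kd) : Multiset Kd) else _) =
    Multiset.map _ ((As.map fun A => (e, A) : List (ℕ × Finset ℕ)) : Multiset (ℕ × Finset ℕ))
  rw [if_pos rfl, Multiset.map_coe, List.map_map]
  congr 1
  refine List.map_congr_left fun A hA => ?_
  have h3 : j ∉ A := fun h4 => (mem_erase.mp (h2 A hA h4)).1 rfl
  show Kd.ord e (A.erase j) = Kd.ord e A
  rw [erase_eq_of_notMem h3]

private theorem range_succ_erase (j : ℕ) : (range (j + 1)).erase j = range j := by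
  ext x
  simp only [mem_erase, mem_range]
  omega

private theorem inter_mbs {j k : ℕ} (hk : 1 ≤ k) : inter (mbs j (j + 1) k ∅) = range j := by
  obtain rfl | ⟨k, rfl⟩ : k = 1 ∨ ∃ m, k = m + 2 := by
    by_cases h : k = 1
    · exact Or.inl h
    · exact Or.inr ⟨k - 2, by omega⟩
  · rw [mbs_one, range_succ_erase, sdiff_empty]
    unfold inter
    ext x
    simp
  · rw [mbs_two, range_succ_erase, sdiff_empty]
    unfold inter
    ext x
    simp only [List.headD_cons, mem_filter, List.mem_cons, List.mem_replicate]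
    constructor
    · exact fun h => h.1
    · intro h
      refine ⟨h, fun A hA => ?_⟩
      rcases hA with rfl | rfl | ⟨-, rfl⟩ <;> exact h

private theorem inter_mbr {j k e r : ℕ} (hk : 1 ≤ k) (he : 2 ≤ e) (hr : r ≤ k * (e - 1)) :
    inter (mbr j (j + 1) k e r) = Ico r j := by
  have h0 : ∀ x, x ∈ inter (mbr j (j + 1) k e r) ↔ ∀ A ∈ mbr j (j + 1) k e r, x ∈ A := by
    intro x
    unfold inter
    rw [mem_filter]
    constructor
    · exact fun h => h.2
    · intro h
      refine ⟨?_, h⟩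
      rcases hm : mbr j (j + 1) k e r with _ | ⟨A, As⟩
      · have := mbr_length j (j + 1) k e r
        rw [hm] at this
        simp at this
        omega
      · rw [hm] at h
        exact h A (by simp)
  ext x
  rw [h0, mem_Ico]
  constructor
  · intro h
    have h1 : x < j := by
      have h2 := h _ (List.mem_map.mpr ⟨0, List.mem_range.mpr hk, rfl⟩)
      rw [range_succ_erase] at h2
      exact mem_range.mp (mem_sdiff.mp h2).1
    refine ⟨?_, h1⟩
    by_contra hx
    have hx' : x < r := by omega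
    have h3 : x / (e - 1) < k := by
      rw [Nat.div_lt_iff_lt_mul (by omega)]
      omega
    have h2 := h _ (List.mem_map.mpr ⟨x / (e - 1), List.mem_range.mpr h3, rfl⟩)
    refine (mem_sdiff.mp h2).2 (mem_inter.mpr ⟨mem_Ico.mpr ⟨?_, ?_⟩, mem_range.mpr hx'⟩)
    · exact Nat.div_mul_le_self _ _
    · rw [Nat.add_mul, one_mul, mul_comm]
      have := Nat.lt_div_mul_add (a := x) (b := e - 1) (by omega)
      rw [mul_comm]
      exact this
  · rintro ⟨h1, h2⟩ A hA
    obtain ⟨s, -, rfl⟩ := mem_mbr hA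
    rw [range_succ_erase, mem_sdiff]
    refine ⟨mem_range.mpr h2, fun h3 => ?_⟩
    have := mem_range.mp (mem_inter.mp h3).2
    omega

theorem tr_new {d e j : ℕ} (he : 2 ≤ e) (hj : j < d - e) {τ : CT} (h : τ.Ok d e j (j + 1)) :
    tr j (τ.kd d e j (j + 1)) = {Kd.ord (τ.E d e j) (τ.A j)} := by
  have hq : 1 ≤ (d - j - 1) / (e - 1) := by
    rw [Nat.one_le_div_iff (by omega)]
    omega
  have hm : (e - 1) * ((d - j - 1) / (e - 1)) + (d - j - 1) % (e - 1) = d - j - 1 := Nat.div_add_mod _ _
  cases τ with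
  | pl k S =>
    show (if j = j then {Kd.ord (trx e 0 (mbs j (j + 1) k S).length) (inter (mbs j (j + 1) k S))}
      else _) = ({Kd.ord (k * (e - 1) + 1) (range j)} : Multiset Kd)
    have h1 : 1 ≤ k := by have := h.1; omega
    rw [if_pos rfl, mbs_length h1, ico_self_sub h.2.2.1, inter_mbs h1]
    rfl
  | b0 S =>
    show (if j = j then {Kd.ord (trx e ((d - j - 1) % (e - 1))
      (mbs j (j + 1) ((d - j - 1) / (e - 1)) S).length) (inter (mbs j (j + 1) ((d - j - 1) / (e - 1)) S))}
      else _) = ({Kd.ord (d - j) (range j)} : Multiset Kd)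
    rw [if_pos rfl, mbs_length hq, ico_self_sub h.2.1, inter_mbs hq]
    unfold trx
    rw [mul_comm] at hm
    rw [show (d - j - 1) / (e - 1) * (e - 1) + 1 + (d - j - 1) % (e - 1) = d - j by omega]
  | br r =>
    show (if j = j then {Kd.ord (trx e ((d - j + r - 1) % (e - 1))
      (mbr j (j + 1) ((d - j + r - 1) / (e - 1)) e r).length)
        (inter (mbr j (j + 1) ((d - j + r - 1) / (e - 1)) e r))}
      else _) = ({Kd.ord (d - j + r) (Ico r j)} : Multiset Kd)
    have hm' : (e - 1) * ((d - j + r - 1) / (e - 1)) + (d - j + r - 1) % (e - 1) = d - j + r - 1 :=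
      Nat.div_add_mod _ _
    have hm2 : (d - j + r - 1) % (e - 1) < e - 1 := Nat.mod_lt _ (by omega)
    have hq' : 1 ≤ (d - j + r - 1) / (e - 1) := by
      rw [Nat.one_le_div_iff (by omega)]
      omega
    rw [mul_comm] at hm'
    rw [if_pos rfl, mbr_length, inter_mbr hq' he (by omega)]
    unfold trx
    rw [show (d - j + r - 1) / (e - 1) * (e - 1) + 1 + (d - j + r - 1) % (e - 1) = d - j + r by omega]

/-- The exponents of the traces of the new clusters. -/
theorem E_new {d e j : ℕ} (he : 2 ≤ e) (hj : j < d - e) {τ : CT} (h : τ.Ok d e j (j + 1)) :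
    e < τ.E d e j ∧ τ.E d e j ≤ d ∧ τ.A j ⊆ range j ∧ (range j \ τ.A j).card + e < τ.E d e j ∧
      (τ.A j).card ≤ d - τ.E d e j := by
  cases τ with
  | pl k S =>
    obtain ⟨h1, h2, -, -⟩ := h
    have h3 : k * (e - 1) ≤ d - j - 1 := (Nat.le_div_iff_mul_le (by omega)).mp h2
    have h4 : 2 * (e - 1) ≤ k * (e - 1) := Nat.mul_le_mul_right _ h1
    show e < k * (e - 1) + 1 ∧ k * (e - 1) + 1 ≤ d ∧ range j ⊆ range j ∧
      (range j \ range j).card + e < k * (e - 1) + 1 ∧ (range j).card ≤ d - (k * (e - 1) + 1)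
    rw [sdiff_self, bot_eq_empty, card_empty, card_range]
    refine ⟨by omega, by omega, Subset.refl _, by omega, by omega⟩
  | b0 S =>
    show e < d - j ∧ d - j ≤ d ∧ range j ⊆ range j ∧
      (range j \ range j).card + e < d - j ∧ (range j).card ≤ d - (d - j)
    rw [sdiff_self, bot_eq_empty, card_empty, card_range]
    refine ⟨by omega, by omega, Subset.refl _, by omega, by omega⟩
  | br r =>
    obtain ⟨h1, h2⟩ := h
    show e < d - j + r ∧ d - j + r ≤ d ∧ Ico r j ⊆ range j ∧
      (range j \ Ico r j).card + e < d - j + r ∧ (Ico r j).card ≤ d - (d - j + r)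
    have h3 : range j \ Ico r j = range r := by
      ext x
      simp only [mem_sdiff, mem_range, mem_Ico]
      omega
    rw [h3, card_range, Nat.card_Ico]
    refine ⟨by omega, by omega, fun x hx => mem_range.mpr (mem_Ico.mp hx).2, by omega, by omega⟩

/-- The points of the old clusters on the next level. -/
theorem pts_onK {d e j i : ℕ} (hi : i < j) {τ : CT} (h : τ.Ok d e i j) :
    (onK j (τ.kd d e i j)).pts = (τ.kd d e i j).pts.map fun p => (p.1, insert j p.2) := by
  obtain ⟨dl, As, h1, -⟩ := kd_form d e i j τ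
  rw [h1]
  show (((As.map (insert j)).map fun A => (e, A) : List (ℕ × Finset ℕ)) : Multiset (ℕ × Finset ℕ)) =
    Multiset.map _ ((As.map fun A => (e, A) : List (ℕ × Finset ℕ)) : Multiset (ℕ × Finset ℕ))
  rw [Multiset.map_coe, List.map_map, List.map_map]
  rfl

theorem pts_offK {d e j i : ℕ} (hi : i < j) {τ : CT} (h : τ.Ok d e i j) :
    (offK j (τ.kd d e i j)).pts.map (fun p => (p.1, p.2.erase j)) = (τ.kd d e i j).pts := by
  obtain ⟨dl, As, h1, h2⟩ := kd_form d e i j τ
  obtain ⟨As', h3, h4⟩ := offK_form (e := e) (dl := dl) h2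
  rw [h1, h3]
  show Multiset.map _ ((As'.map fun A => (e, A) : List (ℕ × Finset ℕ)) : Multiset (ℕ × Finset ℕ)) =
    ((As.map fun A => (e, A) : List (ℕ × Finset ℕ)) : Multiset (ℕ × Finset ℕ))
  rw [Multiset.map_coe, List.map_map, ← h4, List.map_map]
  rfl

/-- All members of all clusters have the exponent `e`, vanish on `A ⊆ range j \ {i}`, and on at least
`j - e` blocks. -/
theorem pts_kd {d e j i : ℕ} (he : 2 ≤ e) (hi : i < j) {τ : CT} (h : τ.Ok d e i j) :
    ∀ p ∈ (τ.kd d e i j).pts, p.1 = e ∧ p.2 ⊆ (range j).erase i ∧ (range j \ p.2).card ≤ e := by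
  have key : ∀ S : Finset ℕ, (range j \ ((range j).erase i \ S)).card ≤ 1 + S.card := by
    intro S
    have h1 : range j \ ((range j).erase i \ S) ⊆ insert i S := by
      intro x hx
      rw [mem_sdiff, mem_sdiff, mem_erase] at hx
      rw [mem_insert]
      by_contra hc
      push Not at hc
      exact hx.2 ⟨⟨hc.1, hx.1⟩, hc.2⟩
    have h2 := card_le_card h1
    have h3 := card_insert_le i S
    omega
  have key0 : (range j \ (range j).erase i).card ≤ 1 := by
    have := key ∅
    rwa [sdiff_empty, card_empty] at this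
  have mk : ∀ dl (As : List (Finset ℕ)), (∀ A ∈ As, A ⊆ (range j).erase i ∧ (range j \ A).card ≤ e) →
      ∀ p ∈ (Kd.cl e dl i As).pts, p.1 = e ∧ p.2 ⊆ (range j).erase i ∧ (range j \ p.2).card ≤ e := by
    intro dl As hA p hp
    obtain ⟨A, hA', rfl⟩ := List.mem_map.mp (Multiset.mem_coe.mp hp)
    exact ⟨rfl, hA A hA'⟩
  cases τ with
  | pl k S =>
    refine mk _ _ fun A hA => ?_
    have hS : S.card ≤ e - 1 := h.2.2.2
    rcases mem_mbs hA with rfl | rfl
    · exact ⟨Subset.refl _, by omega⟩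
    · exact ⟨sdiff_subset, (key S).trans (by omega)⟩
  | b0 S =>
    refine mk _ _ fun A hA => ?_
    have hS : S.card ≤ e - 2 := h.2.2
    rcases mem_mbs hA with rfl | rfl
    · exact ⟨Subset.refl _, by omega⟩
    · exact ⟨sdiff_subset, (key S).trans (by omega)⟩
  | br r =>
    refine mk _ _ fun A hA => ?_
    obtain ⟨s, -, rfl⟩ := mem_mbr hA
    refine ⟨sdiff_subset, (key _).trans ?_⟩
    have h1 : (Ico (s * (e - 1)) ((s + 1) * (e - 1)) ∩ range r).card ≤ e - 1 := by
      refine (card_le_card inter_subset_left).trans ?_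
      rw [Nat.card_Ico, add_mul, one_mul]
      omega
    omega

/-- The number of the members. -/
theorem nm_kd {d e j i : ℕ} (he : 2 ≤ e) (hj : j ≤ d - e) (hi : i < j) {τ : CT} (h : τ.Ok d e i j) :
    1 ≤ (τ.kd d e i j).nm ∧ (τ.kd d e i j).nm ≤ d := by
  have hq := quot_pos he hj hi
  have hd : (d - i - 1) / (e - 1) ≤ d := (Nat.div_le_self _ _).trans (by omega)
  cases τ with
  | pl k S =>
    have h1 : 1 ≤ k := by have := h.1; omega
    show 1 ≤ (mbs i j k S).length ∧ (mbs i j k S).length ≤ d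
    rw [mbs_length h1]
    exact ⟨h1, h.2.1.trans hd⟩
  | b0 S =>
    show 1 ≤ (mbs i j _ S).length ∧ (mbs i j _ S).length ≤ d
    rw [mbs_length hq]
    exact ⟨hq, hd⟩
  | br r =>
    show 1 ≤ (mbr i j _ e r).length ∧ (mbr i j _ e r).length ≤ d
    rw [mbr_length]
    refine ⟨quot_pos' he hj hi, (Nat.div_le_self _ _).trans ?_⟩
    have : r ≤ i := h.2
    omega

private theorem sdiff_inj {i j : ℕ} {S S' : Finset ℕ} (h : S ⊆ Ico (i + 1) j) (h' : S' ⊆ Ico (i + 1) j)
    (hh : (range j).erase i \ S = (range j).erase i \ S') : S = S' := by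
  have hI : Ico (i + 1) j ⊆ (range j).erase i := by
    intro x hx
    have := mem_Ico.mp hx
    rw [mem_erase, mem_range]
    omega
  have h1 : (range j).erase i \ ((range j).erase i \ S) = S := by
    rw [sdiff_sdiff_self_left, inter_eq_right.mpr (h.trans hI)]
  have h2 : (range j).erase i \ ((range j).erase i \ S') = S' := by
    rw [sdiff_sdiff_self_left, inter_eq_right.mpr (h'.trans hI)]
  rw [← h1, hh, h2]

private theorem mbs_inj {i j k : ℕ} {S S' : Finset ℕ} (hk : 1 ≤ k) (h : S ⊆ Ico (i + 1) j)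
    (h' : S' ⊆ Ico (i + 1) j) (hh : mbs i j k S = mbs i j k S') : S = S' := by
  obtain rfl | ⟨k, rfl⟩ : k = 1 ∨ ∃ m, k = m + 2 := by
    by_cases h : k = 1
    · exact Or.inl h
    · exact Or.inr ⟨k - 2, by omega⟩
  · rw [mbs_one, mbs_one] at hh
    exact sdiff_inj h h' (List.cons.inj hh).1
  · rw [mbs_two, mbs_two] at hh
    exact sdiff_inj h h' (List.cons.inj (List.cons.inj hh).2).1

private theorem mbs_ne_mbr {i j k e r k' : ℕ} {S : Finset ℕ} (he : 2 ≤ e) (hi : i < j)
    (h : S ⊆ Ico (i + 1) j) (hr : 1 ≤ r) (hri : r ≤ i) (hk : 1 ≤ k) (hh : mbs i j k S = mbr i j k' e r) :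
    False := by
  have h0 : (0 : ℕ) ∈ (range j).erase i := by
    rw [mem_erase, mem_range]
    omega
  have h1 : (0 : ℕ) ∉ S := by
    intro h1
    have := mem_Ico.mp (h h1)
    omega
  have hk' : 1 ≤ k' := by
    have := congrArg List.length hh
    rw [mbs_length hk, mbr_length] at this
    omega
  have h2 : (range j).erase i \ (Ico (0 * (e - 1)) ((0 + 1) * (e - 1)) ∩ range r) ∈ mbs i j k S := by
    rw [hh]
    exact List.mem_map.mpr ⟨0, List.mem_range.mpr hk', rfl⟩
  have h3 : (0 : ℕ) ∈ Ico (0 * (e - 1)) ((0 + 1) * (e - 1)) ∩ range r := by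
    rw [mem_inter, mem_Ico, mem_range]
    omega
  have h4 : (0 : ℕ) ∉ (range j).erase i \ (Ico (0 * (e - 1)) ((0 + 1) * (e - 1)) ∩ range r) := by
    rw [mem_sdiff]
    exact fun h => h.2 h3
  rcases mem_mbs h2 with h5 | h5
  · rw [h5] at h4
    exact h4 h0
  · rw [h5] at h4
    exact h4 (mem_sdiff.mpr ⟨h0, h1⟩)

/-- Different types have different kinds. -/
theorem kd_inj {d e j i i' : ℕ} (he : 2 ≤ e) (hj : j ≤ d - e) (hi : i < j) (hi' : i' < j) {τ τ' : CT}
    (h : τ.Ok d e i j) (h' : τ'.Ok d e i' j) (hk : τ.kd d e i j = τ'.kd d e i' j) : i = i' ∧ τ = τ' := by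
  have hii : i = i' := by
    obtain ⟨dl, As, h1, -⟩ := kd_form d e i j τ
    obtain ⟨dl', As', h1', -⟩ := kd_form d e i' j τ'
    rw [h1, h1'] at hk
    exact (Kd.cl.inj hk).2.2.1
  subst hii
  refine ⟨rfl, ?_⟩
  have hq := quot_pos he hj hi
  cases τ with
  | pl k S =>
    have h1 : 1 ≤ k := by have := h.1; omega
    cases τ' with
    | pl k' S' =>
      have h1' : 1 ≤ k' := by have := h'.1; omega
      have h2 : mbs i j k S = mbs i j k' S' := (Kd.cl.inj hk).2.2.2
      have h3 := congrArg List.length h2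
      rw [mbs_length h1, mbs_length h1'] at h3
      subst h3
      rw [mbs_inj h1 h.2.2.1 h'.2.2.1 h2]
    | b0 S' => exact absurd (Kd.cl.inj hk).2.1.symm h'.1
    | br r' => exact (mbs_ne_mbr he hi h.2.2.1 h'.1 h'.2 h1 (Kd.cl.inj hk).2.2.2).elim
  | b0 S =>
    cases τ' with
    | pl k' S' => exact absurd (Kd.cl.inj hk).2.1 h.1
    | b0 S' => rw [mbs_inj hq h.2.1 h'.2.1 (Kd.cl.inj hk).2.2.2]
    | br r' => exact (mbs_ne_mbr he hi h.2.1 h'.1 h'.2 hq (Kd.cl.inj hk).2.2.2).elim
  | br r =>
    cases τ' with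
    | pl k' S' =>
      have h1' : 1 ≤ k' := by have := h'.1; omega
      exact (mbs_ne_mbr he hi h'.2.2.1 h.1 h.2 h1' (Kd.cl.inj hk).2.2.2.symm).elim
    | b0 S' => exact (mbs_ne_mbr he hi h'.2.1 h.1 h.2 hq (Kd.cl.inj hk).2.2.2.symm).elim
    | br r' =>
      have h2 : (d - i + r - 1) % (e - 1) = (d - i + r' - 1) % (e - 1) := (Kd.cl.inj hk).2.1
      have h3 : mbr i j ((d - i + r - 1) / (e - 1)) e r = mbr i j ((d - i + r' - 1) / (e - 1)) e r' :=
        (Kd.cl.inj hk).2.2.2
      have h4 := congrArg List.length h3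
      rw [mbr_length, mbr_length] at h4
      have h5 := Nat.div_add_mod (d - i + r - 1) (e - 1)
      have h6 := Nat.div_add_mod (d - i + r' - 1) (e - 1)
      rw [h2, h4, h6] at h5
      have h7 : r = r' := by omega
      rw [h7]

end Pool.Agent.GD
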