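import Pool.Agent.GD.N.Va
import Pool.Agent.GD.AL.VdP
import Pool.Agent.GD.N.Kd

/-!
# General d, numerical block: bounds for the costs, dependence on the number of the main points

PROOF of `cost`.  Let `N ≥` the number of the main points be `max` of it and `⌊kap e * n ^ e⌋`.  If `ms` is in the
class then `ms + k u` (`u = P.u j`) is, for all `k` (`Cls` requires nothing of `u`: the conditions `win` exclude it).
For `ms⁺ = ms` with `N` main points `va` (with `ε = max (eps j) ρ` small) gives the bounds with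
`g₀ = min_{D < d} gg kap D / 2`, `g₁ = 2 d! max gg`.  By `vd_cons`, `vd D I (u ::ₘ ms) = vd D I ms - vd (D - e) I ms` for
`e ≤ D`, `= vd D I ms` for `D < e`, so by induction on `D`: `vd D I ms ≥ vd D I ms⁺` and
`vd D I ms ≤ vd D I ms⁺ + (kap e + ρ) n ^ e * sup vd (D - e) I` (for `|I| > D - e` the term `vd (D - e) I` is `0`:
`vd_eq_zero`; for `|I| ≤ D - e` it is at most `hi cc I n ^ (D - e - |I|)`).
PROOF of `targetWin`.  The cost of a main point is `vd (d - e) (range j)`, in `[lo, hi] * cc * n ^ (d - e - j)`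
(`j ≤ J = d - e`).  With the natural number of main points `|v| ≤ C eps j cc n ^ (d - j)` (`va`, `gg kap d = 0`).
-/

set_option autoImplicit false

namespace Pool.Agent.GD

open Finset

private theorem low_kd {d e i j : ℕ} (he : 2 ≤ e) (hj : j ≤ d - e) (hi : i < j) {τ : CT}
    (h : τ.Ok d e i j) : (τ.kd d e i j).Low (range j) := by
  have h1 := pts_kd he hi h
  have h2 := nm_kd he hj hi h
  obtain ⟨dl, As, hk⟩ : ∃ (dl : ℕ) (As : List (Finset ℕ)), τ.kd d e i j = .cl e dl i As := by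
    cases τ <;> exact ⟨_, _, rfl⟩
  rw [hk] at h1 h2 ⊢
  refine ⟨h2.1, fun A hA => ?_⟩
  have h3 := h1 (e, A) (by
    show (e, A) ∈ ((As.map fun A => (e, A) : List (ℕ × Finset ℕ)) : Multiset (ℕ × Finset ℕ))
    rw [Multiset.mem_coe, List.mem_map]
    exact ⟨A, hA, rfl⟩)
  exact ⟨fun hiA => (mem_erase.1 (h3.2.1 hiA)).1 rfl, h3.2.2⟩

/-- The virtual dimension is `0` if the degree is less than the number of the blocks. -/
theorem vd_eq_zero (P : Par) (he : 2 ≤ P.e) (hed : P.e < P.d) {j : ℕ} (hj : j ≤ P.J) (C₁ : ℝ) :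
    ∃ n₀ : ℕ, ∀ n, n₀ ≤ n → ∀ ms, Cls P j n ms → (ms.count (P.u j) : ℝ) ≤ C₁ * (n : ℝ) ^ P.e →
      ∀ I ⊆ range j, ∀ D ≤ P.d, D < I.card → vd D I P.c n ms = 0 := by
  refine ⟨∑ i ∈ range j, P.c i, fun n hn ms hC _ I hI D _ hlt => AL.vd_low hn ms (fun k hk => ?_) I hI D hlt⟩
  rcases hC.mem k hk with ⟨x, A, rfl, _, _, _, h⟩ | ⟨i, hi, τ, hτ, rfl⟩
  · exact h
  · exact low_kd he hj hi hτ

/-! ### Auxiliary statements -/

private theorem low_bd (f : ℕ → ℝ) (d : ℕ) (h : ∀ D < d, 0 < f D) :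
    ∃ g : ℝ, 0 < g ∧ ∀ D < d, g ≤ f D := by
  induction d with
  | zero => exact ⟨1, one_pos, fun D hD => absurd hD (Nat.not_lt_zero _)⟩
  | succ d ih =>
    obtain ⟨g, g0, hg⟩ := ih (fun D hD => h D (by omega))
    refine ⟨min g (f d), lt_min g0 (h d (by omega)), fun D hD => ?_⟩
    rcases Nat.lt_succ_iff_lt_or_eq.1 hD with h1 | rfl
    · exact (min_le_left _ _).trans (hg D h1)
    · exact min_le_right _ _

private theorem up_bd (f : ℕ → ℝ) (d : ℕ) : ∃ g : ℝ, 1 ≤ g ∧ ∀ D < d, f D ≤ g := by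
  induction d with
  | zero => exact ⟨1, le_rfl, fun D hD => absurd hD (Nat.not_lt_zero _)⟩
  | succ d ih =>
    obtain ⟨g, g0, hg⟩ := ih
    refine ⟨max g (f d), g0.trans (le_max_left _ _), fun D hD => ?_⟩
    rcases Nat.lt_succ_iff_lt_or_eq.1 hD with h1 | rfl
    · exact (hg D h1).trans (le_max_left _ _)
    · exact le_max_right _ _

private theorem npt_consC {P : Par} {j : ℕ} (ms : Multiset Kd) {x : ℕ} {A : Finset ℕ}
    (h : x ≠ P.e ∨ A ≠ range j) : npt (P.u j ::ₘ ms) x A = npt ms x A := by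
  unfold npt
  rw [Multiset.cons_bind, Multiset.count_add]
  have h1 : Multiset.count (x, A) (Kd.pts (P.u j)) = 0 := by
    refine Multiset.count_eq_zero.2 ?_
    show (x, A) ∉ ({(P.e, range j)} : Multiset (ℕ × Finset ℕ))
    rw [Multiset.mem_singleton, Prod.mk.injEq, not_and_or]
    exact h
  rw [h1, zero_add]

private theorem kd_ne {P : Par} {i j : ℕ} (τ : CT) : τ.kd P.d P.e i j ≠ P.u j := by
  cases τ <;> simp [CT.kd, Par.u]

private theorem cls_cons {P : Par} (he : 2 ≤ P.e) (hed : P.e < P.d) {j n : ℕ} {ms : Multiset Kd} :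
    Cls P j n (P.u j ::ₘ ms) ↔ Cls P j n ms := by
  have hcnt : ∀ i, ∀ τ : CT, (P.u j ::ₘ ms).count (τ.kd P.d P.e i j) =
      ms.count (τ.kd P.d P.e i j) := fun i τ => Multiset.count_cons_of_ne (kd_ne τ) _
  have hA : ∀ x : ℕ, ∀ A : Finset ℕ, 2 ≤ x → (range j \ A).card = x → A ≠ range j := by
    rintro x A hx h rfl
    rw [sdiff_self] at h
    simp at h
    omega
  constructor
  · intro h
    refine ⟨fun k hk => h.mem k (Multiset.mem_cons_of_mem hk), ?_, ?_, ?_⟩
    · intro x A h1 h2 h3 h4 h5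
      have := h.win x A h1 h2 h3 h4 h5
      rwa [npt_consC ms h5] at this
    · intro x A h1 h2 h3 h4
      have := h.zero x A h1 h2 h3 h4
      rwa [npt_consC ms (Or.inr (hA x A h1 h4))] at this
    · intro i hi τ hτ
      have := h.cnt i hi τ hτ
      rwa [hcnt i τ] at this
  · intro h
    refine ⟨?_, ?_, ?_, ?_⟩
    · intro k hk
      rcases Multiset.mem_cons.1 hk with rfl | hk
      · refine Or.inl ⟨P.e, range j, rfl, he, hed, Finset.Subset.refl _, ?_⟩
        rw [sdiff_self]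
        simp
      · exact h.mem k hk
    · intro x A h1 h2 h3 h4 h5
      rw [npt_consC ms h5]
      exact h.win x A h1 h2 h3 h4 h5
    · intro x A h1 h2 h3 h4
      rw [npt_consC ms (Or.inr (hA x A h1 h4))]
      exact h.zero x A h1 h2 h3 h4
    · intro i hi τ hτ
      rw [hcnt i τ]
      exact h.cnt i hi τ hτ

private theorem add_succ {P : Par} {j : ℕ} (ms : Multiset Kd) (k : ℕ) :
    ms + Multiset.replicate (k + 1) (P.u j) = P.u j ::ₘ (ms + Multiset.replicate k (P.u j)) := by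
  rw [Multiset.replicate_succ, Multiset.add_cons]

private theorem cls_add {P : Par} (he : 2 ≤ P.e) (hed : P.e < P.d) {j n : ℕ} {ms : Multiset Kd}
    (k : ℕ) : Cls P j n (ms + Multiset.replicate k (P.u j)) ↔ Cls P j n ms := by
  induction k with
  | zero => rw [Multiset.replicate_zero, add_zero]
  | succ k ih => rw [add_succ, cls_cons he hed, ih]

private theorem count_add {P : Par} {j : ℕ} (ms : Multiset Kd) (k : ℕ) :
    (ms + Multiset.replicate k (P.u j)).count (P.u j) = ms.count (P.u j) + k := by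
  rw [Multiset.count_add, Multiset.count_replicate_self]

/-- More main points, low degrees. -/
private theorem tele_lt {P : Par} {j n D : ℕ} {I : Finset ℕ} (hD : D < P.e) (ms : Multiset Kd)
    (k : ℕ) : vd D I P.c n (ms + Multiset.replicate k (P.u j)) = vd D I P.c n ms := by
  induction k with
  | zero => rw [Multiset.replicate_zero, add_zero]
  | succ k ih => rw [add_succ, Par.u, vd_cons_lt _ _ _ _ _ _ _ hD, ← ih]

/-- More main points. -/
private theorem tele {P : Par} {j n D : ℕ} {I : Finset ℕ} (hI : I ⊆ range j) (hD : P.e ≤ D)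
    (ms : Multiset Kd) (k : ℕ) :
    vd D I P.c n ms = vd D I P.c n (ms + Multiset.replicate k (P.u j)) +
      ∑ i ∈ range k, vd (D - P.e) I P.c n (ms + Multiset.replicate i (P.u j)) := by
  induction k with
  | zero => rw [Multiset.replicate_zero, add_zero, range_zero, sum_empty, add_zero]
  | succ k ih =>
    have h1 := vd_cons D I P.c n (ms + Multiset.replicate k (P.u j)) P.e (range j) hD
    rw [inter_eq_left.2 hI] at h1
    have h2 : vd D I P.c n (ms + Multiset.replicate (k + 1) (P.u j)) =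
        vd D I P.c n (ms + Multiset.replicate k (P.u j)) -
          vd (D - P.e) I P.c n (ms + Multiset.replicate k (P.u j)) := by
      rw [add_succ, Par.u]
      exact h1
    rw [sum_range_succ, h2]
    linarith

/-- The bounds for fixed `n`. -/
private theorem cost_fix (P : Par) {j n : ℕ} {lo hi ρ : ℝ} (he : 2 ≤ P.e) (hed : P.e < P.d)
    (k0 : 0 ≤ P.kap P.e) (lo0 : 0 < lo) (hi0 : 0 ≤ hi) (hρ : 0 < ρ) (hn : 1 ≤ ρ * (n : ℝ) ^ P.e)
    (hva : ∀ ms, Cls P j n ms →
      |(ms.count (P.u j) : ℝ) - P.kap P.e * (n : ℝ) ^ P.e| ≤ ρ * (n : ℝ) ^ P.e →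
        ∀ D < P.d, ∀ I ⊆ range j, I.card ≤ D →
          lo * P.cc I * (n : ℝ) ^ (D - I.card) ≤ (vd D I P.c n ms : ℝ) ∧
            (vd D I P.c n ms : ℝ) ≤ hi * P.cc I * (n : ℝ) ^ (D - I.card))
    (hz : ∀ ms, Cls P j n ms → (ms.count (P.u j) : ℝ) ≤ (P.kap P.e + ρ) * (n : ℝ) ^ P.e →
      ∀ I ⊆ range j, ∀ D ≤ P.d, D < I.card → vd D I P.c n ms = 0) (D : ℕ) (hD : D < P.d) :
    ∀ ms, Cls P j n ms → (ms.count (P.u j) : ℝ) ≤ (P.kap P.e + ρ) * (n : ℝ) ^ P.e →
      ∀ I ⊆ range j, I.card ≤ D →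
        lo * P.cc I * (n : ℝ) ^ (D - I.card) ≤ (vd D I P.c n ms : ℝ) ∧
          (vd D I P.c n ms : ℝ) ≤
            hi * (1 + (P.kap P.e + ρ)) ^ D * P.cc I * (n : ℝ) ^ (D - I.card) := by
  induction D using Nat.strong_induction_on with
  | _ D ih =>
  intro ms hC hc I hI hID
  set K : ℝ := P.kap P.e + ρ with hK
  have hK0 : 0 ≤ K := by positivity
  have hn0 : 0 ≤ (n : ℝ) ^ P.e := by positivity
  set N := max (ms.count (P.u j)) ⌊P.kap P.e * (n : ℝ) ^ P.e⌋₊ with hN
  have hfl : (⌊P.kap P.e * (n : ℝ) ^ P.e⌋₊ : ℝ) ≤ P.kap P.e * (n : ℝ) ^ P.e :=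
    Nat.floor_le (by positivity)
  have hfl2 := Nat.lt_floor_add_one (P.kap P.e * (n : ℝ) ^ P.e)
  have hN1 : (N : ℝ) ≤ K * (n : ℝ) ^ P.e := by
    rw [hN, Nat.cast_max]
    refine max_le hc (hfl.trans ?_)
    rw [hK, add_mul]
    linarith [mul_nonneg hρ.le hn0]
  have hN2 : P.kap P.e * (n : ℝ) ^ P.e - 1 ≤ N := by
    have : (⌊P.kap P.e * (n : ℝ) ^ P.e⌋₊ : ℝ) ≤ N := Nat.cast_le.2 (le_max_right _ _)
    linarith
  obtain ⟨k, hk⟩ := Nat.exists_eq_add_of_le (le_max_left (ms.count (P.u j))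
    ⌊P.kap P.e * (n : ℝ) ^ P.e⌋₊)
  rw [← hN] at hk
  have hCp := (cls_add he hed (ms := ms) (n := n) (j := j) k).2 hC
  have hcp : ((ms + Multiset.replicate k (P.u j)).count (P.u j) : ℝ) = N := by
    rw [count_add, hk]
  have hp := hva _ hCp (by
    rw [hcp, abs_le]
    rw [hK, add_mul] at hN1
    constructor <;> linarith) D hD I hI hID
  have hcc : (0 : ℝ) ≤ P.cc I := Nat.cast_nonneg _
  have hnD : (0 : ℝ) ≤ (n : ℝ) ^ (D - I.card) := by positivity
  have h1K : 1 ≤ (1 + K) ^ D := one_le_pow₀ (by linarith)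
  rcases lt_or_ge D P.e with hDe | hDe
  · rw [tele_lt hDe] at hp
    refine ⟨hp.1, hp.2.trans ?_⟩
    have : hi * 1 ≤ hi * (1 + K) ^ D := mul_le_mul_of_nonneg_left h1K hi0
    rw [mul_one] at this
    exact mul_le_mul_of_nonneg_right (mul_le_mul_of_nonneg_right this hcc) hnD
  · have ht := congrArg (fun z : ℤ => (z : ℝ)) (tele (n := n) hI hDe ms k)
    push_cast at ht
    -- the terms
    have hterm : ∀ i ∈ range k, 0 ≤ (vd (D - P.e) I P.c n (ms + Multiset.replicate i (P.u j)) : ℝ) ∧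
        (n : ℝ) ^ P.e * (vd (D - P.e) I P.c n (ms + Multiset.replicate i (P.u j)) : ℝ) ≤
          hi * (1 + K) ^ (D - P.e) * P.cc I * (n : ℝ) ^ (D - I.card) := by
      intro i hi'
      have hCi := (cls_add he hed (ms := ms) (n := n) (j := j) i).2 hC
      have hci : ((ms + Multiset.replicate i (P.u j)).count (P.u j) : ℝ) ≤ K * (n : ℝ) ^ P.e := by
        refine le_trans ?_ hN1
        rw [count_add, hk]
        have := mem_range.1 hi'
        exact_mod_cast (by omega : ms.count (P.u j) + i ≤ ms.count (P.u j) + k)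
      rcases lt_or_ge (D - P.e) I.card with hlt | hge
      · rw [hz _ hCi hci I hI (D - P.e) (by omega) hlt]
        constructor
        · simp
        · rw [Int.cast_zero, mul_zero]
          positivity
      · obtain ⟨h1, h2⟩ := ih (D - P.e) (by omega) (by omega) _ hCi hci I hI hge
        refine ⟨le_trans (by positivity) h1, ?_⟩
        have h3 := mul_le_mul_of_nonneg_left h2 hn0
        refine h3.trans (le_of_eq ?_)
        have e : D - I.card = P.e + (D - P.e - I.card) := by omega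
        rw [e, pow_add]
        ring
    have hs0 : 0 ≤ ∑ i ∈ range k,
        (vd (D - P.e) I P.c n (ms + Multiset.replicate i (P.u j)) : ℝ) :=
      sum_nonneg fun i hi' => (hterm i hi').1
    refine ⟨by rw [ht]; linarith [hp.1], ?_⟩
    have hs1 : ∑ i ∈ range k, (vd (D - P.e) I P.c n (ms + Multiset.replicate i (P.u j)) : ℝ) ≤
        K * (hi * (1 + K) ^ (D - P.e) * P.cc I * (n : ℝ) ^ (D - I.card)) := by
      have hnpos : 0 < (n : ℝ) ^ P.e := by
        rcases hn0.eq_or_lt with h0 | h0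
        · rw [← h0, mul_zero] at hn
          linarith
        · exact h0
      have h2 : (n : ℝ) ^ P.e * ∑ i ∈ range k,
          (vd (D - P.e) I P.c n (ms + Multiset.replicate i (P.u j)) : ℝ) ≤
          k * (hi * (1 + K) ^ (D - P.e) * P.cc I * (n : ℝ) ^ (D - I.card)) := by
        rw [mul_sum]
        refine (sum_le_sum fun i hi' => (hterm i hi').2).trans (le_of_eq ?_)
        rw [sum_const, card_range, nsmul_eq_mul]
      have hkN : (k : ℝ) ≤ K * (n : ℝ) ^ P.e := by
        refine le_trans ?_ hN1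
        exact_mod_cast (by omega : k ≤ N)
      have hB : 0 ≤ hi * (1 + K) ^ (D - P.e) * P.cc I * (n : ℝ) ^ (D - I.card) := by positivity
      have h3 := h2.trans (mul_le_mul_of_nonneg_right hkN hB)
      have h4 : (n : ℝ) ^ P.e * ∑ i ∈ range k,
          (vd (D - P.e) I P.c n (ms + Multiset.replicate i (P.u j)) : ℝ) ≤ (n : ℝ) ^ P.e *
          (K * (hi * (1 + K) ^ (D - P.e) * P.cc I * (n : ℝ) ^ (D - I.card))) := by
        refine h3.trans (le_of_eq ?_)
        ring
      exact le_of_mul_le_mul_left h4 hnpos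
    rw [ht]
    have hpow : 1 + K * (1 + K) ^ (D - P.e) ≤ (1 + K) ^ D := by
      have e1 : (1 + K) ^ (D - P.e + 1) ≤ (1 + K) ^ D :=
        pow_le_pow_right₀ (by linarith) (by omega)
      have e2 : 1 ≤ (1 + K) ^ (D - P.e) := one_le_pow₀ (by linarith)
      rw [pow_succ] at e1
      linarith
    have hfin : hi * P.cc I * (n : ℝ) ^ (D - I.card) +
        K * (hi * (1 + K) ^ (D - P.e) * P.cc I * (n : ℝ) ^ (D - I.card)) ≤
        hi * (1 + K) ^ D * P.cc I * (n : ℝ) ^ (D - I.card) := by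
      have hB : 0 ≤ hi * P.cc I * (n : ℝ) ^ (D - I.card) := by positivity
      have := mul_le_mul_of_nonneg_left hpow hB
      linarith
    linarith [hp.2]

/-- `1 ≤ ρ n ^ e` for large `n`. -/
private theorem large {ρ : ℝ} (hρ : 0 < ρ) {e : ℕ} (he : 1 ≤ e) :
    ∃ n₀ : ℕ, ∀ n, n₀ ≤ n → 1 ≤ n ∧ 1 ≤ ρ * (n : ℝ) ^ e ∧ 1 ≤ ρ * n := by
  refine ⟨⌈1 / ρ⌉₊ + 1, fun n hn => ?_⟩
  have h1 : 1 ≤ n := by omega
  have h2 : 1 / ρ ≤ n := by
    refine (Nat.le_ceil _).trans ?_
    exact_mod_cast (by omega : ⌈1 / ρ⌉₊ ≤ n)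
  have h3 : 1 ≤ ρ * n := by
    rw [div_le_iff₀ hρ] at h2
    linarith
  have h4 : (n : ℝ) ≤ (n : ℝ) ^ e := by
    have : (1 : ℝ) ≤ n := by exact_mod_cast h1
    exact le_self_pow₀ this (by omega)
  exact ⟨h1, h3.trans (mul_le_mul_of_nonneg_left h4 hρ.le), h3⟩

/-- In degrees `D < d` the virtual dimensions have their natural size. -/
theorem cost (d e : ℕ) (kap : ℕ → ℝ) (hk : Crit d e kap) : ∃ lo hi ρ E : ℝ, 0 < lo ∧ 1 ≤ hi ∧ 0 < ρ ∧ 0 < E ∧
    ∀ P : Par, P.d = d → P.e = e → P.kap = kap → P.Ok 1 E → (∀ i < P.J, 1 ≤ P.c i) → ∀ j ≤ P.J,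
      ∃ n₀ : ℕ, ∀ n, n₀ ≤ n → ∀ ms, Cls P j n ms → (ms.count (P.u j) : ℝ) ≤ (kap e + ρ) * (n : ℝ) ^ e →
        ∀ D < d, ∀ I ⊆ range j, I.card ≤ D →
          lo * P.cc I * (n : ℝ) ^ (D - I.card) ≤ (vd D I P.c n ms : ℝ) ∧
            (vd D I P.c n ms : ℝ) ≤ hi * P.cc I * (n : ℝ) ^ (D - I.card) := by
  obtain ⟨C, hC1, hva⟩ := va d e kap hk
  obtain ⟨g, g0, hg⟩ := low_bd (gg kap) d hk.gpos
  obtain ⟨G, G1, hG⟩ := up_bd (gg kap) d
  have he2 := hk.two
  have hed := hk.lt
  have hC0 : 0 < C := lt_of_lt_of_le one_pos hC1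
  set ρ : ℝ := min 1 (g / (2 * C)) with hρd
  have hρ0 : 0 < ρ := lt_min one_pos (by positivity)
  have hρ1 : ρ ≤ 1 := min_le_left _ _
  have hCρ : C * ρ ≤ g / 2 := by
    have h1 : ρ ≤ g / (2 * C) := min_le_right _ _
    have h2 := mul_le_mul_of_nonneg_left h1 hC0.le
    refine h2.trans (le_of_eq ?_)
    field_simp
  set K : ℝ := kap e + ρ with hK
  have hk0 := hk.nonneg e
  have hK0 : 0 ≤ K := by positivity
  set hi0 : ℝ := (d : ℝ) ^ d * G + g with hhi
  have hd1 : (1 : ℝ) ≤ (d : ℝ) ^ d := by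
    refine one_le_pow₀ ?_
    exact_mod_cast (by omega : 1 ≤ d)
  have hhi1 : 1 ≤ hi0 := by nlinarith
  have hKd : 1 ≤ (1 + K) ^ d := one_le_pow₀ (by linarith)
  refine ⟨g / 2, hi0 * (1 + K) ^ d, ρ, ρ, by positivity, ?_, hρ0, hρ0, ?_⟩
  · nlinarith
  intro P hPd hPe hPk hOk hc j hj
  subst hPd hPe hPk
  have hOk1 : P.Ok 1 1 := Par.Ok.mono hOk le_rfl zero_le_one hρ1
  have hej : P.eps j ≤ ρ := ((hOk.eps_mono hj le_rfl).2.1).trans hOk.epsJ
  obtain ⟨n₁, h1⟩ := hva P rfl rfl rfl hOk1 hc j hj ρ hej hρ1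
  obtain ⟨n₂, h2⟩ := vd_eq_zero P he2 hed hj K
  obtain ⟨n₃, h3⟩ := large hρ0 (by omega : 1 ≤ P.e)
  refine ⟨max n₁ (max n₂ n₃), fun n hn ms hCl hcn D hD I hI hID => ?_⟩
  have m1 : n₁ ≤ n := (le_max_left _ _).trans hn
  have m2 : n₂ ≤ n := ((le_max_left _ _).trans (le_max_right _ _)).trans hn
  have m3 : n₃ ≤ n := ((le_max_right _ _).trans (le_max_right _ _)).trans hn
  obtain ⟨q1, q2, q3⟩ := h3 n m3
  have key := cost_fix P (j := j) (n := n) (lo := g / 2) (hi := hi0) (ρ := ρ) he2 hed hk0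
    (by positivity) (by linarith) hρ0 q2 ?_ (fun ms' c1 c2 => h2 n m2 ms' c1 c2) D hD ms hCl hcn I
    hI hID
  · refine ⟨key.1, key.2.trans ?_⟩
    have hpw : (1 + K) ^ D ≤ (1 + K) ^ P.d := pow_le_pow_right₀ (by linarith) hD.le
    have hcc : (0 : ℝ) ≤ P.cc I := Nat.cast_nonneg _
    have hnD : (0 : ℝ) ≤ (n : ℝ) ^ (D - I.card) := by positivity
    exact mul_le_mul_of_nonneg_right (mul_le_mul_of_nonneg_right
      (mul_le_mul_of_nonneg_left hpw (by linarith)) hcc) hnD
  · intro ms' c1 c2 D' hD' I' hI' hID'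
    have h4 := abs_le.1 (h1 n m1 ms' c1 c2 D' hD'.le I' hI' hID')
    have hcc : (0 : ℝ) ≤ P.cc I' := Nat.cast_nonneg _
    have hnD : (0 : ℝ) ≤ (n : ℝ) ^ (D' - I'.card) := by positivity
    have hX : 0 ≤ P.cc I' * (n : ℝ) ^ (D' - I'.card) := mul_nonneg hcc hnD
    have hgD := hg D' hD'
    have hGD := hG D' hD'
    have hf1 : (1 : ℝ) ≤ (D'.descFactorial I'.card : ℕ) := by
      have : D'.descFactorial I'.card ≠ 0 := by
        rw [Ne, Nat.descFactorial_eq_zero_iff_lt]
        omega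
      exact_mod_cast Nat.one_le_iff_ne_zero.2 this
    have hf2 : ((D'.descFactorial I'.card : ℕ) : ℝ) ≤ (P.d : ℝ) ^ P.d := by
      have h5 : D'.descFactorial I'.card ≤ P.d ^ P.d :=
        (Nat.descFactorial_le_pow _ _).trans ((Nat.pow_le_pow_left hD'.le _).trans
          (Nat.pow_le_pow_right (by omega) (by omega)))
      exact_mod_cast h5
    have hgp : 0 < gg P.kap D' := hk.gpos D' hD'
    have low : g ≤ ((D'.descFactorial I'.card : ℕ) : ℝ) * gg P.kap D' := by nlinarith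
    have upp : ((D'.descFactorial I'.card : ℕ) : ℝ) * gg P.kap D' ≤ (P.d : ℝ) ^ P.d * G :=
      mul_le_mul hf2 hGD hgp.le (by positivity)
    have l1 := mul_le_mul_of_nonneg_right low hX
    have l2 := mul_le_mul_of_nonneg_right upp hX
    have l3 := mul_le_mul_of_nonneg_right hCρ hX
    have l4 : 0 ≤ g * (P.cc I' * (n : ℝ) ^ (D' - I'.card)) := mul_nonneg g0.le hX
    rw [hhi]
    constructor <;> nlinarith

/-- Bounds for many main points: the sum of `k` costs. -/
private theorem sum_cost {P : Par} {j n : ℕ} {lo : ℝ} {K : ℝ} (he : 2 ≤ P.e) (hed : P.e < P.d)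
    (hco : ∀ ms, Cls P j n ms → (ms.count (P.u j) : ℝ) ≤ K →
      lo * P.cc (range j) * (n : ℝ) ^ (P.d - P.e - j) ≤
        (vd (P.d - P.e) (range j) P.c n ms : ℝ)) (ms : Multiset Kd) (hC : Cls P j n ms) (k : ℕ)
    (hk : (ms.count (P.u j) : ℝ) + k ≤ K) :
    (P.v j n (ms + Multiset.replicate k (P.u j)) : ℝ) +
      k * (lo * P.cc (range j) * (n : ℝ) ^ (P.d - P.e - j)) ≤ (P.v j n ms : ℝ) := by
  have ht := congrArg (fun z : ℤ => (z : ℝ))
    (tele (n := n) (P := P) (Finset.Subset.refl (range j)) hed.le ms k)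
  push_cast at ht
  unfold Par.v
  rw [ht]
  have h1 : (k : ℝ) * (lo * P.cc (range j) * (n : ℝ) ^ (P.d - P.e - j)) =
      ∑ _i ∈ range k, lo * P.cc (range j) * (n : ℝ) ^ (P.d - P.e - j) := by
    rw [sum_const, card_range, nsmul_eq_mul]
  rw [h1]
  have h2 : ∑ _i ∈ range k, lo * P.cc (range j) * (n : ℝ) ^ (P.d - P.e - j) ≤
      ∑ i ∈ range k, (vd (P.d - P.e) (range j) P.c n (ms + Multiset.replicate i (P.u j)) : ℝ) := by
    refine sum_le_sum fun i hi' => hco _ ((cls_add he hed i).2 hC) ?_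
    rw [count_add]
    push_cast
    have : (i : ℝ) ≤ k := by exact_mod_cast (mem_range.1 hi').le
    linarith
  linarith

/-- The last level without points of the main kind (for the block TOP). -/
theorem posJ (d e : ℕ) (kap : ℕ → ℝ) (hk : Crit d e kap) : ∃ η E : ℝ, 0 < η ∧ 0 < E ∧
    ∀ P : Par, P.d = d → P.e = e → P.kap = kap → P.Ok 1 E → (∀ i < P.J, 1 ≤ P.c i) →
      ∃ n₀ : ℕ, ∀ n, n₀ ≤ n → ∀ ms, Cls P P.J n ms → ms.count (P.u P.J) = 0 →
        η * P.cc (range P.J) * (n : ℝ) ^ e ≤ (P.v P.J n ms : ℝ) ∧ 1 ≤ vd P.J (range P.J) P.c n ms := by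
  obtain ⟨lo, hi, ρ, E, lo0, hi1, hρ, hE, hcost⟩ := cost d e kap hk
  obtain ⟨C, hC1, hva⟩ := va d e kap hk
  have he2 := hk.two
  have hed := hk.lt
  have hke := hk.pos
  have hC0 : 0 < C := lt_of_lt_of_le one_pos hC1
  set E' : ℝ := min 1 (min E (kap e * lo / (4 * C))) with hE'
  have hE'0 : 0 < E' := lt_min one_pos (lt_min hE (by positivity))
  have hE'1 : E' ≤ 1 := min_le_left _ _
  have hE'2 : E' ≤ E := (min_le_right _ _).trans (min_le_left _ _)
  have hE'3 : C * E' ≤ kap e * lo / 4 := by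
    have h1 : E' ≤ kap e * lo / (4 * C) := (min_le_right _ _).trans (min_le_right _ _)
    refine (mul_le_mul_of_nonneg_left h1 hC0.le).trans (le_of_eq ?_)
    field_simp
  refine ⟨kap e * lo / 4, E', by positivity, hE'0, ?_⟩
  intro P hPd hPe hPk hOk hc
  subst hPd hPe hPk
  have hOk1 : P.Ok 1 1 := Par.Ok.mono hOk le_rfl zero_le_one hE'1
  have hOkE : P.Ok 1 E := Par.Ok.mono hOk le_rfl zero_le_one hE'2
  obtain ⟨n₁, h1⟩ := hcost P rfl rfl rfl hOkE hc P.J le_rfl
  obtain ⟨n₂, h2⟩ := hva P rfl rfl rfl hOk1 hc P.J le_rfl E' hOk.epsJ hE'1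
  obtain ⟨n₃, h3⟩ := large hE'0 (by omega : 1 ≤ P.e)
  obtain ⟨n₄, h4⟩ := large (by positivity : 0 < P.kap P.e / 2) (by omega : 1 ≤ P.e)
  refine ⟨max (max n₁ n₂) (max n₃ n₄), fun n hn ms hCl hcn => ?_⟩
  have m1 : n₁ ≤ n := ((le_max_left _ _).trans (le_max_left _ _)).trans hn
  have m2 : n₂ ≤ n := ((le_max_right _ _).trans (le_max_left _ _)).trans hn
  have m3 : n₃ ≤ n := ((le_max_left _ _).trans (le_max_right _ _)).trans hn
  have m4 : n₄ ≤ n := ((le_max_right _ _).trans (le_max_right _ _)).trans hn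
  obtain ⟨-, q3, -⟩ := h3 n m3
  obtain ⟨-, q4, -⟩ := h4 n m4
  have hn0 : (0 : ℝ) ≤ (n : ℝ) ^ P.e := by positivity
  have hcc : (1 : ℝ) ≤ P.cc (range P.J) := by
    have : 1 ≤ P.cc (range P.J) := Finset.one_le_prod' fun i hi' => hc i (mem_range.1 hi')
    exact_mod_cast this
  have hJ : P.J = P.d - P.e := rfl
  set k := ⌊P.kap P.e * (n : ℝ) ^ P.e⌋₊ with hkdef
  have hfl : (k : ℝ) ≤ P.kap P.e * (n : ℝ) ^ P.e := Nat.floor_le (by positivity)
  have hfl2 := Nat.lt_floor_add_one (P.kap P.e * (n : ℝ) ^ P.e)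
  rw [← hkdef] at hfl2
  -- the cost
  have hco : ∀ ms', Cls P P.J n ms' → (ms'.count (P.u P.J) : ℝ) ≤ (P.kap P.e + ρ) * (n : ℝ) ^ P.e →
      lo * P.cc (range P.J) * (n : ℝ) ^ (P.d - P.e - P.J) ≤
        (vd (P.d - P.e) (range P.J) P.c n ms' : ℝ) := by
    intro ms' c1 c2
    have := (h1 n m1 ms' c1 c2 (P.d - P.e) (by omega) (range P.J) (Finset.Subset.refl _)
      (by rw [card_range]; exact hJ.le)).1
    rwa [card_range] at this
  have hρn : 0 ≤ ρ * (n : ℝ) ^ P.e := mul_nonneg hρ.le hn0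
  have hc0 : ((ms.count (P.u P.J) : ℕ) : ℝ) = 0 := by rw [hcn]; simp
  constructor
  · have hs := sum_cost he2 hed hco ms hCl k (by rw [hc0, add_mul]; linarith)
    have e0 : P.d - P.e - P.J = 0 := by omega
    rw [e0, pow_zero, mul_one] at hs
    have hCp := (cls_add he2 hed (ms := ms) (n := n) (j := P.J) k).2 hCl
    have h5 := h2 n m2 _ hCp (by
      rw [count_add, hcn, zero_add, abs_le]
      constructor <;> linarith) P.d le_rfl (range P.J) (Finset.Subset.refl _)
      (by rw [card_range]; omega)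
    rw [card_range, hk.crit, mul_zero, zero_mul, zero_mul, sub_zero] at h5
    have e1 : P.d - P.J = P.e := by omega
    rw [e1] at h5
    have h6 := (abs_le.1 h5).1
    have h7 : -(C * E' * P.cc (range P.J) * (n : ℝ) ^ P.e) ≤
        (P.v P.J n (ms + Multiset.replicate k (P.u P.J)) : ℝ) := h6
    have hX : 0 ≤ P.cc (range P.J) * (n : ℝ) ^ P.e := mul_nonneg (by linarith) hn0
    have h8 := mul_le_mul_of_nonneg_right hE'3 hX
    have h9 : P.kap P.e / 2 * (n : ℝ) ^ P.e ≤ k := by linarith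
    have h10 := mul_le_mul_of_nonneg_right h9
      (mul_nonneg lo0.le (by linarith : (0 : ℝ) ≤ P.cc (range P.J)))
    nlinarith
  · have h5 := hco ms hCl (by rw [hc0]; positivity)
    have e0 : P.d - P.e - P.J = 0 := by omega
    rw [e0, pow_zero, mul_one] at h5
    have h6 : (0 : ℝ) < (vd (P.d - P.e) (range P.J) P.c n ms : ℝ) :=
      lt_of_lt_of_le (mul_pos lo0 (by linarith)) h5
    have h7 : 0 < vd (P.d - P.e) (range P.J) P.c n ms := by exact_mod_cast h6
    exact h7

/-- `TargetWin`. -/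
theorem targetWin : TargetWin := by
  intro d e kap hk
  obtain ⟨lo, hi, ρ₀, E, lo0, hi1, hρ₀, hE, hcost⟩ := cost d e kap hk
  obtain ⟨C, hC1, hva⟩ := va d e kap hk
  refine ⟨ρ₀, hρ₀, fun ρ hρ hρle => ?_⟩
  have he2 := hk.two
  have hed := hk.lt
  have hke := hk.pos
  have hC0 : 0 < C := lt_of_lt_of_le one_pos hC1
  set E' : ℝ := min 1 (min E (ρ * lo / (8 * C))) with hE'
  have hE'0 : 0 < E' := lt_min one_pos (lt_min hE (by positivity))
  have hE'1 : E' ≤ 1 := min_le_left _ _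
  have hE'2 : E' ≤ E := (min_le_right _ _).trans (min_le_left _ _)
  have hE'3 : C * E' ≤ ρ * lo / 8 := by
    have h1 : E' ≤ ρ * lo / (8 * C) := (min_le_right _ _).trans (min_le_right _ _)
    refine (mul_le_mul_of_nonneg_left h1 hC0.le).trans (le_of_eq ?_)
    field_simp
  refine ⟨(1 + C) / lo + 1, 1, E', ?_, le_rfl, hE'0, ?_⟩
  · have : 0 ≤ (1 + C) / lo := by positivity
    linarith
  intro P hPd hPe hPk hOk hc j hj η hη hη0
  subst hPd hPe hPk
  have hOk1 : P.Ok 1 1 := Par.Ok.mono hOk le_rfl zero_le_one hE'1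
  have hOkE : P.Ok 1 E := Par.Ok.mono hOk le_rfl zero_le_one hE'2
  obtain ⟨-, hejJ, -⟩ := hOk.eps_mono hj le_rfl
  have hej0 : 0 < P.eps j := (hOk.eps_mono le_rfl hj).1
  have he0j : P.eps 0 ≤ P.eps j := (hOk.eps_mono (Nat.zero_le j) hj).2.1
  have hejE : P.eps j ≤ E' := hejJ.trans hOk.epsJ
  obtain ⟨n₁, h1⟩ := hcost P rfl rfl rfl hOkE (fun i _ => hc i) j hj
  obtain ⟨n₂, h2⟩ := hva P rfl rfl rfl hOk1 (fun i _ => hc i) j hj (P.eps j) le_rfl
    (hejE.trans hE'1)
  obtain ⟨n₃, h3⟩ := large hej0 (by omega : 1 ≤ P.e)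
  obtain ⟨n₄, h4⟩ := large (by positivity : 0 < η / hi) (by omega : 1 ≤ P.e)
  obtain ⟨n₅, h5⟩ := large (by positivity : 0 < ρ / 4) (by omega : 1 ≤ P.e)
  refine ⟨max (max n₁ n₂) (max n₃ (max n₄ n₅)), fun n hn ms hCl hcn => ?_⟩
  have m1 : n₁ ≤ n := ((le_max_left _ _).trans (le_max_left _ _)).trans hn
  have m2 : n₂ ≤ n := ((le_max_right _ _).trans (le_max_left _ _)).trans hn
  have m3 : n₃ ≤ n := ((le_max_left _ _).trans (le_max_right _ _)).trans hn
  have m4 : n₄ ≤ n := (((le_max_left _ _).trans (le_max_right _ _)).trans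
    (le_max_right _ _)).trans hn
  have m5 : n₅ ≤ n := (((le_max_right _ _).trans (le_max_right _ _)).trans
    (le_max_right _ _)).trans hn
  obtain ⟨q0, q3, -⟩ := h3 n m3
  obtain ⟨-, -, q4⟩ := h4 n m4
  obtain ⟨-, q5, -⟩ := h5 n m5
  have hn1 : (1 : ℝ) ≤ n := by exact_mod_cast q0
  have hn0 : (0 : ℝ) < (n : ℝ) ^ P.e := by positivity
  have hcc : (1 : ℝ) ≤ P.cc (range j) := by
    have : 1 ≤ P.cc (range j) := Finset.one_le_prod' fun i _ => hc i
    exact_mod_cast this
  have hJ : P.J = P.d - P.e := rfl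
  have hjd : j ≤ P.d - P.e := hj
  -- the cost
  have hco2 : ∀ ms', Cls P j n ms' → (ms'.count (P.u j) : ℝ) ≤ (P.kap P.e + ρ) * (n : ℝ) ^ P.e →
      lo * P.cc (range j) * (n : ℝ) ^ (P.d - P.e - j) ≤
        (vd (P.d - P.e) (range j) P.c n ms' : ℝ) ∧ (vd (P.d - P.e) (range j) P.c n ms' : ℝ) ≤
        hi * P.cc (range j) * (n : ℝ) ^ (P.d - P.e - j) := by
    intro ms' c1 c2
    have := h1 n m1 ms' c1 (c2.trans (mul_le_mul_of_nonneg_right (by linarith) hn0.le))
      (P.d - P.e) (by omega) (range j) (Finset.Subset.refl _)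
      (by rw [card_range]; exact hjd)
    rwa [card_range] at this
  have hco := fun ms' c1 c2 => (hco2 ms' c1 c2).1
  have hpw : (n : ℝ) ^ (P.d - j) = (n : ℝ) ^ (P.d - P.e - j) * (n : ℝ) ^ P.e := by
    rw [← pow_add]
    congr 1
    omega
  have hY : 0 < P.cc (range j) * (n : ℝ) ^ (P.d - P.e - j) := by positivity
  -- the natural number of main points
  set N := ⌊P.kap P.e * (n : ℝ) ^ P.e⌋₊ with hN
  have hfl : (N : ℝ) ≤ P.kap P.e * (n : ℝ) ^ P.e := Nat.floor_le (by positivity)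
  have hfl2 := Nat.lt_floor_add_one (P.kap P.e * (n : ℝ) ^ P.e)
  rw [← hN] at hfl2
  have hnat : ∀ ms', Cls P j n ms' → ms'.count (P.u j) = N →
      |(P.v j n ms' : ℝ)| ≤ C * P.eps j * (P.cc (range j) * (n : ℝ) ^ (P.d - P.e - j)) *
        (n : ℝ) ^ P.e := by
    intro ms' c1 c2
    have h6 := h2 n m2 ms' c1 (by
      rw [c2, abs_le]
      constructor <;> linarith) P.d le_rfl (range j) (Finset.Subset.refl _)
      (by rw [card_range]; omega)
    rw [card_range, hk.crit, mul_zero, zero_mul, zero_mul, sub_zero, hpw] at h6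
    refine h6.trans (le_of_eq ?_)
    ring
  -- comparison with the natural number
  have hmain : (N ≤ ms.count (P.u j) →
      (P.v j n ms : ℝ) + ((ms.count (P.u j) : ℝ) - N) * (lo * (P.cc (range j) *
        (n : ℝ) ^ (P.d - P.e - j))) ≤ C * P.eps j * (P.cc (range j) *
          (n : ℝ) ^ (P.d - P.e - j)) * (n : ℝ) ^ P.e) ∧
      (ms.count (P.u j) ≤ N → (N - (ms.count (P.u j) : ℝ)) * (lo * (P.cc (range j) *
        (n : ℝ) ^ (P.d - P.e - j))) - C * P.eps j * (P.cc (range j) *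
          (n : ℝ) ^ (P.d - P.e - j)) * (n : ℝ) ^ P.e ≤ (P.v j n ms : ℝ)) := by
    constructor
    · intro hle
      obtain ⟨k, hk'⟩ := Nat.exists_eq_add_of_le hle
      have hsub : Multiset.replicate k (P.u j) ≤ ms := by
        rw [← Multiset.le_count_iff_replicate_le]
        omega
      obtain ⟨ms', hms'⟩ := Multiset.le_iff_exists_add.1 hsub
      rw [add_comm] at hms'
      have hcm : ms'.count (P.u j) = N := by
        have := count_add ms' k (P := P) (j := j)
        rw [← hms'] at this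
        omega
      have hCm : Cls P j n ms' := (cls_add he2 hed k).1 (by rw [← hms']; exact hCl)
      have hs := sum_cost he2 hed hco ms' hCm k (by
        rw [hcm]
        have : ((N : ℝ) + k) = ms.count (P.u j) := by rw [hk']; push_cast; ring
        rw [this]
        exact hcn)
      rw [← hms'] at hs
      have h6 := (abs_le.1 (hnat ms' hCm hcm)).2
      have h7 : (ms.count (P.u j) : ℝ) - N = k := by rw [hk']; push_cast; ring
      rw [h7]
      linarith
    · intro hle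
      obtain ⟨k, hk'⟩ := Nat.exists_eq_add_of_le hle
      have hCp := (cls_add he2 hed (ms := ms) (n := n) (j := j) k).2 hCl
      have hcp : (ms + Multiset.replicate k (P.u j)).count (P.u j) = N := by
        rw [count_add, hk']
      have hs := sum_cost he2 hed hco ms hCl k (by
        have : ((ms.count (P.u j) : ℝ) + k) = N := by rw [hk']; push_cast; ring
        rw [this, add_mul]
        linarith [mul_nonneg hρ.le hn0.le])
      have h6 := (abs_le.1 (hnat _ hCp hcp)).1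
      have h7 : (N : ℝ) - ms.count (P.u j) = k := by rw [hk']; push_cast; ring
      rw [h7]
      linarith
  have hCE : C * P.eps j ≤ ρ * lo / 8 := (mul_le_mul_of_nonneg_left hejE hC0.le).trans hE'3
  set Y : ℝ := P.cc (range j) * (n : ℝ) ^ (P.d - P.e - j) with hYd
  set T : ℝ := (n : ℝ) ^ P.e with hT
  have hYT : 0 < Y * T := mul_pos hY hn0
  have hCET := mul_le_mul_of_nonneg_right hCE hYT.le
  refine ⟨?_, ?_, ?_, ?_⟩
  · -- one more main point
    have h6 := vd_cons P.d (range j) P.c n ms P.e (range j) hed.le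
    rw [inter_self] at h6
    have h7 : P.v j n (P.u j ::ₘ ms) = P.v j n ms - vd (P.d - P.e) (range j) P.c n ms := h6
    obtain ⟨h8, h9⟩ := hco2 ms hCl hcn
    have h10 : (0 : ℝ) < (vd (P.d - P.e) (range j) P.c n ms : ℝ) :=
      lt_of_lt_of_le (by positivity) h8
    have h11 : 0 < vd (P.d - P.e) (range j) P.c n ms := by exact_mod_cast h10
    refine ⟨by rw [h7]; linarith, ?_⟩
    rw [h7, sub_sub_cancel]
    refine h9.trans ?_
    have e1 : P.d - j - 1 = (P.d - P.e - j) + (P.e - 1) := by omega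
    rw [e1, pow_add]
    have h12 : (n : ℝ) ≤ (n : ℝ) ^ (P.e - 1) := le_self_pow₀ hn1 (by omega)
    have h13 : hi ≤ η * (n : ℝ) ^ (P.e - 1) := by
      have h14 : hi ≤ η * n := by
        have : 1 ≤ η * n / hi := by
          refine q4.trans (le_of_eq ?_)
          ring
        rwa [le_div_iff₀ (by linarith), one_mul] at this
      exact h14.trans (mul_le_mul_of_nonneg_left h12 hη.le)
    have h14 := mul_le_mul_of_nonneg_right h13 hY.le
    rw [hYd] at h14
    linarith
  · -- the window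
    intro hv
    have hv' := abs_le.1 hv
    rw [hpw] at hv'
    have hηe : η ≤ P.eps j := hη0.trans he0j
    have hηT := mul_le_mul_of_nonneg_right hηe hYT.le
    have e2 : η * P.cc (range j) * ((n : ℝ) ^ (P.d - P.e - j) * (n : ℝ) ^ P.e) = η * (Y * T) := by
      rw [hYd, hT]; ring
    rw [e2] at hv'
    have hdiff : |(ms.count (P.u j) : ℝ) - N| * lo ≤ (1 + C) * P.eps j * T := by
      rcases le_total N (ms.count (P.u j)) with hle | hle
      · have h6 := hmain.1 hle
        have h7 : (0 : ℝ) ≤ (ms.count (P.u j) : ℝ) - N := by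
          have : (N : ℝ) ≤ ms.count (P.u j) := by exact_mod_cast hle
          linarith
        rw [abs_of_nonneg h7]
        have h8 : ((ms.count (P.u j) : ℝ) - N) * lo * Y ≤ (1 + C) * P.eps j * T * Y := by
          nlinarith
        exact le_of_mul_le_mul_right h8 hY
      · have h6 := hmain.2 hle
        have h7 : (ms.count (P.u j) : ℝ) - N ≤ 0 := by
          have : (ms.count (P.u j) : ℝ) ≤ N := by exact_mod_cast hle
          linarith
        rw [abs_of_nonpos h7]
        have h8 : -((ms.count (P.u j) : ℝ) - N) * lo * Y ≤ (1 + C) * P.eps j * T * Y := by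
          nlinarith
        exact le_of_mul_le_mul_right h8 hY
    have hd2 : |(ms.count (P.u j) : ℝ) - N| ≤ (1 + C) / lo * P.eps j * T := by
      rw [← le_div_iff₀ lo0] at hdiff
      refine hdiff.trans (le_of_eq ?_)
      ring
    have hd3 : |(N : ℝ) - P.kap P.e * T| ≤ P.eps j * T := by
      rw [abs_le]
      constructor <;> linarith
    have hd4 := abs_add_le ((ms.count (P.u j) : ℝ) - N) ((N : ℝ) - P.kap P.e * T)
    rw [sub_add_sub_cancel] at hd4
    refine hd4.trans ?_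
    linarith
  · -- many main points
    intro hmany
    have hle : N ≤ ms.count (P.u j) := by
      have : (N : ℝ) ≤ ms.count (P.u j) := by
        have := mul_nonneg (by positivity : 0 ≤ ρ / 2) hn0.le
        rw [add_mul] at hmany
        linarith
      exact_mod_cast this
    have h6 := hmain.1 hle
    have h7 : ρ / 2 * T ≤ (ms.count (P.u j) : ℝ) - N := by
      rw [add_mul] at hmany
      linarith
    have h8 := mul_le_mul_of_nonneg_right h7 (mul_nonneg lo0.le hY.le)
    have h9 : (P.v j n ms : ℝ) < 0 := by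
      have h10 : 0 < ρ * lo * (Y * T) := by positivity
      nlinarith
    exact_mod_cast h9
  · -- few main points
    intro hfew
    have hle : ms.count (P.u j) ≤ N := by
      have : (ms.count (P.u j) : ℝ) < N + 1 := by
        have := mul_nonneg hρ.le hn0.le
        rw [sub_mul] at hfew
        linarith
      have h' : ms.count (P.u j) < N + 1 := by exact_mod_cast this
      omega
    have h6 := hmain.2 hle
    have h7 : ρ / 2 * T ≤ (N : ℝ) - (ms.count (P.u j) : ℝ) := by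
      rw [sub_mul] at hfew
      linarith
    have h8 := mul_le_mul_of_nonneg_right h7 (mul_nonneg lo0.le hY.le)
    have h9 : 0 < (P.v j n ms : ℝ) := by
      have h10 : 0 < ρ * lo * (Y * T) := by positivity
      nlinarith
    exact_mod_cast h9

end Pool.Agent.GD
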