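import Pool.Agent.GD.N.Close
import Pool.Agent.GD.ST.Eqv

/-!
# General d: the result for a critical vector of densities from the targets of the blocks

Choose `ρ` (`TargetSub`, `TargetWin`), `Cw`, `Cs, E` = the maximum / minimum of the constants of the four targets (`Par.Ok` is
monotone in both), the chain `eps j`, `bet j` (geometric, `Cw * eps J < ρ`), rational `xp`, `xm`, `M`, then `N`, `F`
(product, maximum; `Hier` is monotone), then `c` (`exists_hier`), then `PROP J`, …, `PROP 0` (`close`).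
-/

set_option autoImplicit false

namespace Pool.Agent.GD

open Finset

/-- Sizes exist. -/
theorem exists_hier (N : ℕ) (hN : 0 < N) (F : (ℕ → ℕ) → ℕ) (J : ℕ) : ∃ c : ℕ → ℕ, (∀ i, 1 ≤ c i) ∧
    Hier N F J c := by
  have key : ∀ m ≤ J, ∃ c : ℕ → ℕ, (∀ i, 1 ≤ c i) ∧ ∀ i, J - m ≤ i → i < J →
      N ∣ c i ∧ 1 ≤ c i ∧ F (fun x => if i < x ∧ x < J then c x else 0) ≤ c i := by
    intro m
    induction m with
    | zero => exact fun _ => ⟨fun _ => 1, fun _ => le_rfl, fun i h1 h2 => absurd h1 (by omega)⟩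
    | succ m ih =>
      intro hm
      obtain ⟨c, hc, h⟩ := ih (by omega)
      set i₀ := J - (m + 1) with hi₀
      set F₀ := F (fun x => if i₀ < x ∧ x < J then c x else 0) with hF₀
      refine ⟨Function.update c i₀ (N * (F₀ + 1)), fun i => ?_, fun i h1 h2 => ?_⟩
      · by_cases hi : i = i₀
        · subst hi
          rw [Function.update_self]
          exact Nat.one_le_iff_ne_zero.2 (by positivity)
        · rw [Function.update_of_ne hi]
          exact hc i
      · have h3 : (fun x => if i < x ∧ x < J then Function.update c i₀ (N * (F₀ + 1)) x else 0) =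
            fun x => if i < x ∧ x < J then c x else 0 := by
          funext x
          by_cases hx : i < x ∧ x < J
          · rw [if_pos hx, if_pos hx, Function.update_of_ne (by omega)]
          · rw [if_neg hx, if_neg hx]
        rw [h3]
        by_cases hi : i = i₀
        · subst hi
          rw [Function.update_self]
          refine ⟨dvd_mul_right _ _, Nat.one_le_iff_ne_zero.2 (by positivity), ?_⟩
          rw [← hF₀]
          nlinarith
        · rw [Function.update_of_ne hi]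
          exact h i (by omega) h2
  obtain ⟨c, hc, h⟩ := key J le_rfl
  exact ⟨c, hc, fun i hi => h i (by omega) hi⟩

/-- The constants exist. -/
theorem exists_par (d e : ℕ) (kap : ℕ → ℝ) (hk : Crit d e kap) (Cs E : ℝ) (hCs : 1 ≤ Cs) (hE : 0 < E) :
    ∃ (eps bet : ℕ → ℝ) (xp xm : ℕ → Finset ℕ → ℚ), ∀ (M : ℕ) (c : ℕ → ℕ),
      (⟨d, e, kap, eps, bet, xp, xm, M, c⟩ : Par).Ok Cs E := by
  have hC0 : 0 < Cs := by linarith
  set eps : ℕ → ℝ := fun j => E * Cs ^ (2 * j) / Cs ^ (2 * (d - e)) with heps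
  set bet : ℕ → ℝ := fun j => Cs * eps (j - 1) with hbet
  have hep : ∀ j, 0 < eps j := fun j => by
    rw [heps]
    positivity
  have hbp : ∀ j, 0 < bet j := fun j => mul_pos hC0 (hep _)
  have hxp : ∀ (x : ℕ) (K : Finset ℕ), ∃ q : ℚ, ∀ i : ℕ, K.max = i →
      kap x * (x.descFactorial K.card : ℕ) + bet (i + 1) / 2 ≤ q ∧
        (q : ℝ) ≤ kap x * (x.descFactorial K.card : ℕ) + bet (i + 1) := by
    intro x K
    induction hm : K.max using WithBot.recBotCoe with
    | bot => exact ⟨0, fun i hi => absurd hi (by simp)⟩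
    | coe i₀ =>
      obtain ⟨q, h1, h2⟩ := exists_rat_btwn (show kap x * (x.descFactorial K.card : ℕ) + bet (i₀ + 1) / 2 <
        kap x * (x.descFactorial K.card : ℕ) + bet (i₀ + 1) by linarith [hbp (i₀ + 1)])
      refine ⟨q, fun i hi => ?_⟩
      have h3 : i₀ = i := WithBot.coe_injective hi
      subst h3
      exact ⟨h1.le, h2.le⟩
  have hxm : ∀ (x : ℕ) (K : Finset ℕ), ∃ q : ℚ, (kap x = 0 → q = 0) ∧ ∀ i : ℕ, K.max = i → kap x ≠ 0 →
      (q : ℝ) ≤ kap x * (x.descFactorial K.card : ℕ) - bet (i + 1) / 2 ∧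
        kap x * (x.descFactorial K.card : ℕ) - bet (i + 1) ≤ q := by
    intro x K
    by_cases hx : kap x = 0
    · exact ⟨0, fun _ => rfl, fun i _ h => absurd hx h⟩
    induction hm : K.max using WithBot.recBotCoe with
    | bot => exact ⟨0, fun _ => rfl, fun i hi => absurd hi (by simp)⟩
    | coe i₀ =>
      obtain ⟨q, h1, h2⟩ := exists_rat_btwn (show kap x * (x.descFactorial K.card : ℕ) - bet (i₀ + 1) <
        kap x * (x.descFactorial K.card : ℕ) - bet (i₀ + 1) / 2 by linarith [hbp (i₀ + 1)])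
      refine ⟨q, fun h => absurd h hx, fun i hi _ => ?_⟩
      have h3 : i₀ = i := WithBot.coe_injective hi
      subst h3
      exact ⟨h2.le, h1.le⟩
  choose xp hxp using hxp
  choose xm hxm0 hxm using hxm
  refine ⟨eps, bet, xp, xm, fun M c => ⟨hk, hep 0, ?_, ?_, ?_, ?_, ?_, ?_⟩⟩
  · intro j _
    exact le_rfl
  · intro j _
    apply le_of_eq
    change Cs * (Cs * (E * Cs ^ (2 * j) / Cs ^ (2 * (d - e)))) = E * Cs ^ (2 * (j + 1)) / Cs ^ (2 * (d - e))
    rw [show 2 * (j + 1) = 2 * j + 2 by ring, pow_add]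
    ring
  · apply le_of_eq
    change E * Cs ^ (2 * (d - e)) / Cs ^ (2 * (d - e)) = E
    field_simp
  · intro x K _ _ _ i hi
    exact hxp x K i hi
  · intro x K _ _ _ i hi hx
    exact hxm x K i hi hx
  · intro x K hx
    exact hxm0 x K hx

/-- On the level `0` the sizes do not matter. -/
theorem HL_zero (d : ℕ) (c c' : ℕ → ℕ) (n : ℕ) (ms : Multiset Kd) (h : ∀ k ∈ ms, ∃ x, k = .ord x ∅) :
    HL d d c n 0 ms = HL d d c' n 0 ms := by
  refine HI_equiv (J := 0) le_rfl (Equiv.refl _) (fun s i hi => absurd hi (Nat.not_lt_zero _)) subset_rfl ms ?_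
  intro k hk
  obtain ⟨x, rfl⟩ := h k hk
  exact empty_subset _

private theorem eps_pos {P : Par} {Cs E : ℝ} (h : P.Ok Cs E) (hCs : 1 ≤ Cs) : ∀ j ≤ P.J, 0 < P.eps j := by
  intro j
  induction j with
  | zero => exact fun _ => h.eps0
  | succ j ih =>
    intro hj
    have h0 := ih (by omega)
    have h1 := h.eb j (by omega)
    have h2 := h.be j (by omega)
    have h3 : 0 < P.bet (j + 1) := lt_of_lt_of_le (mul_pos (by linarith) h0) h1
    exact lt_of_lt_of_le (mul_pos (by linarith) h3) h2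

private theorem bet_pos {P : Par} {Cs E : ℝ} (h : P.Ok Cs E) (hCs : 1 ≤ Cs) {j : ℕ} (hj : j < P.J) : 0 < P.bet (j + 1) :=
  lt_of_lt_of_le (mul_pos (by linarith) (eps_pos h hCs j hj.le)) (h.eb j hj)

private theorem eps_le {P : Par} {Cs E : ℝ} (h : P.Ok Cs E) (hCs : 1 ≤ Cs) {j : ℕ} (hj : j ≤ P.J) : P.eps j ≤ E := by
  have key : ∀ m ≤ P.J, P.eps (P.J - m) ≤ E := by
    intro m
    induction m with
    | zero => exact fun _ => h.epsJ
    | succ m ih =>
      intro hm
      have h0 := ih (by omega)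
      set i := P.J - (m + 1) with hi
      have e1 : P.J - m = i + 1 := by omega
      rw [e1] at h0
      have h1 := h.eb i (by omega)
      have h2 := h.be i (by omega)
      have h3 := eps_pos h hCs i (by omega)
      have h4 := bet_pos h hCs (j := i) (by omega)
      nlinarith
  have h1 := key (P.J - j) (by omega)
  rwa [show P.J - (P.J - j) = j by omega] at h1

private theorem ok_mono {P : Par} {Cs E Cs' E' : ℝ} (h : P.Ok Cs E) (hCs : 1 ≤ Cs) (h1 : Cs' ≤ Cs) (h2 : E ≤ E') : P.Ok Cs' E' := by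
  refine ⟨h.toCrit, h.eps0, fun j hj => ?_, fun j hj => ?_, h.epsJ.trans h2, h.xp, h.xm, h.xm0⟩
  · exact (mul_le_mul_of_nonneg_right h1 (eps_pos h hCs j hj.le).le).trans (h.eb j hj)
  · exact (mul_le_mul_of_nonneg_right h1 (bet_pos h hCs hj).le).trans (h.be j hj)

private theorem hier_mono {N N' : ℕ} {F F' : (ℕ → ℕ) → ℕ} {J : ℕ} {c : ℕ → ℕ} (h : Hier N F J c) (h1 : N' ∣ N) (h2 : ∀ x, F' x ≤ F x) : Hier N' F' J c :=
  fun i hi => ⟨h1.trans (h i hi).1, (h i hi).2.1, (h2 _).trans (h i hi).2.2⟩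

private theorem npt_ord (ms : Multiset Kd) (h : ∀ k ∈ ms, ∃ x, k = .ord x ∅) (x : ℕ) : npt ms x ∅ = ms.count (.ord x ∅) := by
  unfold npt
  induction ms using Multiset.induction_on with
  | empty => simp
  | cons k s ih =>
    obtain ⟨y, rfl⟩ := h k (Multiset.mem_cons_self _ _)
    rw [Multiset.cons_bind, Multiset.count_add, ih fun k hk => h k (Multiset.mem_cons_of_mem hk), Multiset.count_cons]
    have h1 : (Kd.ord y ∅).pts = {(y, ∅)} := rfl
    rw [h1, Multiset.count_singleton, add_comm]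
    congr 1
    by_cases hxy : x = y
    · subst hxy
      simp
    · rw [if_neg, if_neg]
      · intro h2
        exact hxy (by injection h2)
      · intro h2
        exact hxy (congrArg Prod.fst h2)

private theorem sub_mono {P : Par} {j : ℕ} {η ρ ρ' : ℝ} (h : SUB P j η ρ) (hρ : ρ' ≤ ρ) : SUB P j η ρ' := by
  obtain ⟨n₀, h⟩ := h
  refine ⟨n₀, fun n hn ms hms h1 h2 => h n hn ms hms (h1.trans ?_) h2⟩
  exact mul_le_mul_of_nonneg_right (by linarith) (by positivity)

/-- The result. -/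
theorem targetZero (h1 : ∀ d, STEP d) (h2 : ∀ d, ADD d) (h3 : ∀ d, SMP d) (hS : TargetSub) (hT : TargetTop)
    (hN : TargetNum) (hW : TargetWin) : TargetZero := by
  intro d e kap hk
  obtain ⟨Cs2, E2, ρS, hCs2, hE2, hρS, hS'⟩ := hS d e kap hk
  obtain ⟨ρW, hρW, hW⟩ := hW d e kap hk
  obtain ⟨ρ, hρ, hρ1, hρ2, hρ3⟩ : ∃ ρ : ℝ, 0 < ρ ∧ ρ ≤ ρS ∧ ρ ≤ ρW ∧ ρ ≤ kap e :=
    ⟨min (min ρS ρW) (kap e), lt_min (lt_min hρS hρW) hk.pos, (min_le_left _ _).trans (min_le_left _ _),
      (min_le_left _ _).trans (min_le_right _ _), min_le_right _ _⟩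
  obtain ⟨Cw, Cs1, E1, hCw, hCs1, hE1, hW'⟩ := hW ρ hρ hρ2
  obtain ⟨Cs3, E3, ηT, hCs3, hE3, hηT, hT'⟩ := hT d e kap hk
  obtain ⟨Cs4, E4, hCs4, hE4, M₀, hN'⟩ := hN d e kap hk Cw ρ hCw hρ
  -- the constants
  obtain ⟨Cs, hCs, c1, c2, c3, c4⟩ : ∃ Cs : ℝ, 1 ≤ Cs ∧ Cs1 ≤ Cs ∧ Cs2 ≤ Cs ∧ Cs3 ≤ Cs ∧ Cs4 ≤ Cs :=
    ⟨Cs1 + Cs2 + Cs3 + Cs4, by linarith, by linarith, by linarith, by linarith, by linarith⟩
  obtain ⟨E, hE, e1, e2, e3, e4, e5⟩ : ∃ E : ℝ, 0 < E ∧ E ≤ E1 ∧ E ≤ E2 ∧ E ≤ E3 ∧ E ≤ E4 ∧ E ≤ ρ / (2 * Cw) := by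
    refine ⟨min (min E1 E2) (min (min E3 E4) (ρ / (2 * Cw))), ?_, ?_, ?_, ?_, ?_, ?_⟩
    · exact lt_min (lt_min hE1 hE2) (lt_min (lt_min hE3 hE4) (by positivity))
    · exact (min_le_left _ _).trans (min_le_left _ _)
    · exact (min_le_left _ _).trans (min_le_right _ _)
    · exact (min_le_right _ _).trans ((min_le_left _ _).trans (min_le_left _ _))
    · exact (min_le_right _ _).trans ((min_le_left _ _).trans (min_le_right _ _))
    · exact (min_le_right _ _).trans (min_le_right _ _)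
  obtain ⟨eps, bet, xp, xm, hP⟩ := exists_par d e kap hk Cs E hCs hE
  set P₀ : Par := ⟨d, e, kap, eps, bet, xp, xm, M₀, fun _ => 1⟩ with hP₀
  have hok₀ : P₀.Ok Cs E := hP M₀ fun _ => 1
  obtain ⟨N1, F1, hN1, hS1⟩ := hS' P₀ rfl rfl rfl (ok_mono hok₀ hCs c2 e2) (eps 0) hok₀.eps0
  obtain ⟨N2, F2, hN2, hS2⟩ := hS' P₀ rfl rfl rfl (ok_mono hok₀ hCs c2 e2) ηT hηT
  obtain ⟨N3, F3, hN3, hT3⟩ := hT' P₀ rfl rfl rfl (ok_mono hok₀ hCs c3 e3)
  obtain ⟨N4, F4, hN4, hN4'⟩ := hN' P₀ rfl rfl rfl (ok_mono hok₀ hCs c4 e4) le_rfl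
  obtain ⟨c, hc, hH⟩ := exists_hier (N1 * N2 * N3 * N4) (by positivity) (fun x => F1 x + F2 x + F3 x + F4 x) P₀.J
  have hH1 : Hier N1 F1 P₀.J c := hier_mono hH ⟨N2 * N3 * N4, by ring⟩ fun x => by omega
  have hH2 : Hier N2 F2 P₀.J c := hier_mono hH ⟨N1 * N3 * N4, by ring⟩ fun x => by omega
  have hH3 : Hier N3 F3 P₀.J c := hier_mono hH ⟨N1 * N2 * N4, by ring⟩ fun x => by omega
  have hH4 : Hier N4 F4 P₀.J c := hier_mono hH ⟨N1 * N2 * N3, by ring⟩ fun x => by omega
  set P : Par := P₀.wc c with hPdef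
  have hok : P.Ok Cs E := hP M₀ c
  have hJ : P.J = P₀.J := rfl
  have htop : PROP P P.J := hT3 c hH3 (sub_mono (hS2 c hH2 P₀.J le_rfl) hρS.le)
  have hall : ∀ m ≤ P.J, PROP P (P.J - m) := by
    intro m
    induction m with
    | zero => exact fun _ => htop
    | succ m ih =>
      intro hm
      have h0 := ih (by omega)
      set j := P.J - (m + 1) with hj
      rw [show P.J - m = j + 1 by omega] at h0
      have hjJ : j < P.J := by omega
      have hCw' : Cw * P.eps j < ρ := by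
        have h4 := (eps_le hok hCs hjJ.le).trans e5
        have h5 : Cw * P.eps j ≤ Cw * (ρ / (2 * Cw)) := mul_le_mul_of_nonneg_left h4 (by linarith)
        have h6 : Cw * (ρ / (2 * Cw)) = ρ / 2 := by
          have : Cw ≠ 0 := by linarith
          field_simp
        linarith
      exact close P Cs E hok hc j hjJ (h1 _) (h2 _) (h3 _) (eps 0) Cw ρ hok₀.eps0 hρ hρ3 hCw'
        (sub_mono (hS1 c hH1 j hjJ.le) hρ1) (hN4' c hH4 j hjJ (eps 0) hok₀.eps0 le_rfl)
        (hW' P rfl rfl rfl (ok_mono hok hCs c1 e1) hc j hjJ.le (eps 0) hok₀.eps0 le_rfl) h0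
  have hzero : PROP P 0 := by
    have h0 := hall P.J le_rfl
    rwa [Nat.sub_self] at h0
  obtain ⟨n₀, hn₀⟩ := hzero
  refine ⟨eps 0, n₀, hok₀.eps0, fun n hn ms hms hcnt c' => ?_⟩
  have hord : ∀ k ∈ ms, ∃ x, k = .ord x ∅ := fun k hk => by
    obtain ⟨x, hx, -⟩ := hms k hk
    exact ⟨x, hx⟩
  have hcls : Cls P 0 n ms := by
    refine ⟨?_, ?_, ?_, ?_⟩
    · intro k hk
      obtain ⟨x, rfl, hx1, hx2⟩ := hms k hk
      refine Or.inl ⟨x, ∅, rfl, hx1, hx2, empty_subset _, ?_⟩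
      simp
    · intro x A hx1 hx2 hA _ _
      have hA0 : A = ∅ := by
        rw [range_zero] at hA
        exact subset_empty.1 hA
      subst hA0
      have hr : range 0 \ (∅ : Finset ℕ) = ∅ := by simp
      rw [hr, npt_ord ms hord]
      have h4 := hcnt x
      have h5 : P.nat x ∅ = kap x := by
        unfold Par.nat
        rw [card_empty, Nat.descFactorial_zero, Nat.cast_one, mul_one]
        rfl
      have h6 : P.cc ∅ = 1 := by
        unfold Par.cc
        rw [prod_empty]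
      rw [h5, h6, card_empty, Nat.sub_zero, Nat.cast_one, mul_one, mul_one]
      exact h4
    · intro x A hx1 _ hA hcard
      exfalso
      have : (range 0 \ A).card = 0 := by simp
      omega
    · intro i hi
      exact absurd hi (Nat.not_lt_zero _)
  have h4 := hn₀ n hn ms hcls
  have h5 : P.H 0 n ms = HL d d c' n 0 ms := HL_zero d c c' n ms hord
  have h6 : P.v 0 n ms = vd d ∅ c' n ms := by
    change vd d (range 0) c n ms = vd d ∅ c' n ms
    rw [range_zero]
    unfold vd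
    simp only [powerset_empty, sum_singleton, sum_empty]
  rwa [h5, h6] at h4

end Pool.Agent.GD
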