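import Pool.Agent.GD.N.Vd
import Pool.Agent.GD.N.Kd

/-!
# General d: the closing

The proof is the one of `Pool/Agent/KZ/Cl0.lean`, `Bx0.down` and below.  For `n ≥ n₁` let `E T n` be: all
`ms` with `Cls P j n ms`, `ms.count (P.u j) ≤ (kap e + ρ) n ^ e` and `T ≤ v` have `H ≤ v`.  `E T n` holds for
`T ≥ η cc n ^ (d - j)` (`SUB`).  `E T (n - c j) → E (T - 1) n`: for `0 ≤ v = g < η cc n ^ (d - j)` take `NUM` with
`g = v` (the hypothesis on the number of main points is `WIN` (b)); add `g` points `ord d {j}` to `ms'`: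
trace `A + (g + r) sm`, `v A = g + r ≥ T`, so `H A = g + r` at most and the trace is `0` (`simple`); the residual has
`v = 0` (`vd_add`), so it is `0` by `PROP (j + 1)`; `STEP` gives `H (ms + g sm) = 0`, `simple` gives `H ms ≤ g`.
`v < 0`, or more than `(kap e + ρ) n ^ e` main points: remove main points down to the first negative value
(`WIN` (a), (c), (d)), then `NUM` with `g = 0`.
-/

set_option autoImplicit false

namespace Pool.Agent.GD

open Finset Pool.Agent.V7.ST

/-- The geometric step (`Pool/Agent/GD/ST/Step.lean`). -/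
def STEP (d : ℕ) : Prop := ∀ (j : ℕ) (c : ℕ → ℕ) (n : ℕ) (ms : Multiset Kd), (∀ k ∈ ms, k.Ok d (j + 1)) →
  (∀ i, 1 ≤ c i) → ∑ i ∈ range (j + 1), c i ≤ n → HL d d c (n - c j) j (ms.bind (tr j)) = 0 →
    HL d d c n j (ms.bind (un j)) ≤ HL d d c n (j + 1) ms

/-- Additivity (`Pool/Agent/GD/ST/Add.lean`). -/
def ADD (d : ℕ) : Prop := ∀ (j : ℕ) (c : ℕ → ℕ) (n : ℕ) (ms : Multiset Kd), (∀ k ∈ ms, k.Ok d (j + 1)) →
  vd d (range j) c n (ms.bind (un j)) =
    vd d (range j) c (n - c j) (ms.bind (tr j)) + vd d (range (j + 1)) c n ms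

/-- Simple points (`Pool/Agent/GD/ST/Ctr.lean`). -/
def SMP (d : ℕ) : Prop := ∀ (j : ℕ) (c : ℕ → ℕ) (n r : ℕ) (ms : Multiset Kd),
  HL d d c n j (ms + Multiset.replicate r (sm d)) = HL d d c n j ms - r

/-- The kinds of a class are admissible for the geometric step. -/
theorem Cls.ok {P : Par} {j n : ℕ} {ms : Multiset Kd} (he : 2 ≤ P.e) (hj : j ≤ P.J) (h : Cls P j n ms) :
    ∀ k ∈ ms, k.Ok P.d j := by
  intro k hk
  have hJ : j ≤ P.d - P.e := hj
  rcases h.mem k hk with ⟨x, A, rfl, h2, hxd, hA, -⟩ | ⟨i, hi, τ, hτ, rfl⟩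
  · exact ⟨by omega, hxd.le, hA⟩
  · have h1 := nm_kd he hJ hi hτ
    have h2 := pts_kd he hi hτ
    have hm : ∀ k S, 1 ≤ k → (mbs i j k S).length = k := by
      intro k S hk
      unfold mbs
      split_ifs with h3
      · rw [h3]; rfl
      · rw [List.length_cons, List.length_replicate]; omega
    cases τ with
    | pl k S =>
      refine ⟨he, h1.1, ?_, hi, fun A hA =>
        (h2 (P.e, A) (Multiset.mem_coe.2 (List.mem_map.2 ⟨A, hA, rfl⟩))).2.1⟩
      obtain ⟨h3, h4, -, -⟩ := hτ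
      rw [hm k S (by omega)]
      have h5 := Nat.mul_le_of_le_div _ _ _ h4
      unfold trx
      omega
    | b0 S =>
      refine ⟨he, h1.1, ?_, hi, fun A hA =>
        (h2 (P.e, A) (Multiset.mem_coe.2 (List.mem_map.2 ⟨A, hA, rfl⟩))).2.1⟩
      have h3 : 1 ≤ (P.d - i - 1) / (P.e - 1) := by
        rw [Nat.one_le_div_iff (by omega)]
        omega
      rw [hm _ S h3]
      have h5 := Nat.div_add_mod' (P.d - i - 1) (P.e - 1)
      unfold trx
      omega
    | br r =>
      refine ⟨he, h1.1, ?_, hi, fun A hA =>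
        (h2 (P.e, A) (Multiset.mem_coe.2 (List.mem_map.2 ⟨A, hA, rfl⟩))).2.1⟩
      obtain ⟨h3, h4⟩ := hτ
      have h5 := Nat.div_add_mod' (P.d - i + r - 1) (P.e - 1)
      have h6 : (mbr i j ((P.d - i + r - 1) / (P.e - 1)) P.e r).length =
          (P.d - i + r - 1) / (P.e - 1) := by
        unfold mbr
        rw [List.length_map, List.length_range]
      rw [h6]
      unfold trx
      omega

/-- More objects. -/
theorem HL_mono (d D : ℕ) (c : ℕ → ℕ) (n j : ℕ) (ms ms' : Multiset Kd) :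
    HL d D c n j (ms + ms') ≤ HL d D c n j ms := by
  induction ms' using Multiset.induction with
  | empty => rw [add_zero]
  | cons k ms' ih =>
    rw [Multiset.add_cons]
    exact (gM_cons_le (LS d D (blk c n) (range j)) (ms + ms') k).trans ih

private theorem npt_cons_u {P : Par} {j : ℕ} {ms : Multiset Kd} {x : ℕ} {A : Finset ℕ}
    (h : x ≠ P.e ∨ A ≠ range j) : npt (P.u j ::ₘ ms) x A = npt ms x A := by
  unfold npt
  rw [Multiset.cons_bind, Multiset.count_add]
  have h1 : Multiset.count (x, A) (Kd.pts (P.u j)) = 0 := by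
    show Multiset.count (x, A) {(P.e, range j)} = 0
    rw [Multiset.count_singleton, if_neg]
    intro h2
    rw [Prod.mk.injEq] at h2
    rcases h with h | h
    · exact h h2.1
    · exact h h2.2
  omega

/-- The classes do not depend on the number of the main points. -/
theorem cls_cons_u {P : Par} {j n : ℕ} {ms : Multiset Kd} (he : 2 ≤ P.e) (hed : P.e < P.d) :
    Cls P j n (P.u j ::ₘ ms) ↔ Cls P j n ms := by
  have h0 : ∀ x A, 2 ≤ x → (range j \ A).card = x → (x ≠ P.e ∨ A ≠ range j) := by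
    intro x A hx hc
    right
    rintro rfl
    rw [Finset.sdiff_self, card_empty] at hc
    omega
  have h1 : ∀ i (τ : CT), (P.u j ::ₘ ms).count (τ.kd P.d P.e i j) = ms.count (τ.kd P.d P.e i j) := by
    intro i τ
    refine Multiset.count_cons_of_ne ?_ _
    cases τ <;> exact fun h => Kd.noConfusion h
  constructor
  · intro h
    refine ⟨fun k hk => h.mem k (Multiset.mem_cons_of_mem hk), ?_, ?_, ?_⟩
    · intro x A hx hxd hA hc hne
      have := h.win x A hx hxd hA hc hne
      rwa [npt_cons_u hne] at this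
    · intro x A hx hxd hA hc
      have := h.zero x A hx hxd hA hc
      rwa [npt_cons_u (h0 x A hx hc)] at this
    · intro i hi τ hτ
      have := h.cnt i hi τ hτ
      rwa [h1] at this
  · intro h
    refine ⟨fun k hk => ?_, ?_, ?_, ?_⟩
    · rcases Multiset.mem_cons.1 hk with rfl | hk
      · left
        exact ⟨P.e, range j, rfl, he, hed, Subset.refl _, by rw [Finset.sdiff_self, card_empty]; omega⟩
      · exact h.mem k hk
    · intro x A hx hxd hA hc hne
      rw [npt_cons_u hne]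
      exact h.win x A hx hxd hA hc hne
    · intro x A hx hxd hA hc
      rw [npt_cons_u (h0 x A hx hc)]
      exact h.zero x A hx hxd hA hc
    · intro i hi τ hτ
      rw [h1]
      exact h.cnt i hi τ hτ

theorem cls_add_u {P : Par} {j n : ℕ} {ms : Multiset Kd} (he : 2 ≤ P.e) (hed : P.e < P.d) (k : ℕ) :
    Cls P j n (ms + Multiset.replicate k (P.u j)) ↔ Cls P j n ms := by
  induction k with
  | zero => rw [Multiset.replicate_zero, add_zero]
  | succ k ih => rw [Multiset.replicate_succ, Multiset.add_cons, cls_cons_u he hed, ih]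

private theorem ex_pos {d j : ℕ} {k : Kd} (h : k.Ok d j) : 1 ≤ k.ex := by
  cases k with
  | ord e A => exact h.1
  | cl e dl i As => exact le_trans (by norm_num) h.1

/-- One step. -/
private theorem core {P : Par} (he : 2 ≤ P.e) (hed : P.e < P.d) (hc : ∀ i, 1 ≤ P.c i) {j : ℕ}
    (hj : j < P.J) (h1 : STEP P.d) (h2 : ADD P.d) (h3 : SMP P.d) {n : ℕ}
    (hn : ∑ i ∈ range (j + 1), P.c i ≤ n) {ms ms' A : Multiset Kd} {g r : ℕ}
    (hv : P.v j n ms ≤ g) (hms' : Cls P (j + 1) n ms') (hA : Cls P j (n - P.c j) A)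
    (hvA : P.v j (n - P.c j) A = g + r) (hun : ms'.bind (un j) = ms)
    (htr : ms'.bind (tr j) = A + Multiset.replicate r (sm P.d))
    (hHA : (P.H j (n - P.c j) A : ℤ) ≤ P.v j (n - P.c j) A)
    (hR : (P.H (j + 1) n ms' : ℤ) ≤ max 0 (P.v (j + 1) n ms')) : P.H j n ms ≤ g := by
  have hok' := hms'.ok he (Nat.succ_le_of_lt hj)
  have hokA := hA.ok he hj.le
  -- the residual
  have e1 := h2 j P.c n ms' hok'
  rw [hun, htr, vd_sm P.d (range j) P.c (n - P.c j) A (fun k hk => ex_pos (hokA k hk)) (by omega) r] at e1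
  have e2 : P.v (j + 1) n ms' = P.v j n ms - g := by
    have e3 : P.v j n ms = P.v j (n - P.c j) A - r + P.v (j + 1) n ms' := e1
    linarith
  have e4 : P.H (j + 1) n ms' = 0 := by
    rw [e2, max_eq_left (by linarith)] at hR
    omega
  -- the specialised configuration with `g` simple points on `L_j`
  have e5 : (ms' + Multiset.replicate g (Kd.ord P.d {j})).bind (un j) =
      ms + Multiset.replicate g (sm P.d) := by
    rw [Multiset.add_bind, hun]
    congr 1
    induction g with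
    | zero => rfl
    | succ g ih =>
      rw [Multiset.replicate_succ, Multiset.cons_bind, Multiset.replicate_succ]
      have h5 : un j (Kd.ord P.d {j}) = {sm P.d} := by
        show ({Kd.ord P.d (({j} : Finset ℕ).erase j)} : Multiset Kd) = _
        rw [erase_singleton]
      rw [h5, Multiset.singleton_add]
      congr 1
      have : ∀ g : ℕ, (Multiset.replicate g (Kd.ord P.d {j})).bind (un j) =
          Multiset.replicate g (sm P.d) := by
        intro g
        induction g with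
        | zero => rfl
        | succ g ih => rw [Multiset.replicate_succ, Multiset.cons_bind, Multiset.replicate_succ, h5,
            Multiset.singleton_add, ih]
      exact this g
  have e6 : (ms' + Multiset.replicate g (Kd.ord P.d {j})).bind (tr j) =
      A + Multiset.replicate (r + g) (sm P.d) := by
    rw [Multiset.add_bind, htr, Multiset.replicate_add, add_assoc]
    congr 2
    have h5 : tr j (Kd.ord P.d {j}) = {sm P.d} := by
      show (if j ∈ ({j} : Finset ℕ) then ({Kd.ord P.d (({j} : Finset ℕ).erase j)} : Multiset Kd)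
        else 0) = _
      rw [if_pos (mem_singleton_self j), erase_singleton]
    have : ∀ g : ℕ, (Multiset.replicate g (Kd.ord P.d {j})).bind (tr j) =
        Multiset.replicate g (sm P.d) := by
      intro g
      induction g with
      | zero => rfl
      | succ g ih => rw [Multiset.replicate_succ, Multiset.cons_bind, Multiset.replicate_succ, h5,
          Multiset.singleton_add, ih]
    exact this g
  have e7 := h1 j P.c n (ms' + Multiset.replicate g (Kd.ord P.d {j})) (by
    intro k hk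
    rcases Multiset.mem_add.1 hk with hk | hk
    · exact hok' k hk
    · rw [Multiset.eq_of_mem_replicate hk]
      exact ⟨by omega, le_rfl, by
        rw [singleton_subset_iff, mem_range]
        omega⟩) hc hn (by
    rw [e6, h3]
    have : HL P.d P.d P.c (n - P.c j) j A ≤ r + g := by
      have h5 : ((HL P.d P.d P.c (n - P.c j) j A : ℕ) : ℤ) ≤ P.v j (n - P.c j) A := hHA
      rw [hvA] at h5
      omega
    omega)
  rw [e5, h3] at e7
  have e8 := HL_mono P.d P.d P.c n (j + 1) ms' (Multiset.replicate g (Kd.ord P.d {j}))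
  have e9 : HL P.d P.d P.c n (j + 1) ms' = 0 := e4
  show HL P.d P.d P.c n j ms ≤ g
  omega

/-- All configurations with few main points and `v ≥ T` are exact. -/
private def EE (P : Par) (j : ℕ) (ρ : ℝ) (n T : ℕ) : Prop := ∀ ms, Cls P j n ms →
  (ms.count (P.u j) : ℝ) ≤ (P.kap P.e + ρ) * (n : ℝ) ^ P.e → (T : ℤ) ≤ P.v j n ms →
    (P.H j n ms : ℤ) ≤ P.v j n ms

/-- The closing. -/
theorem close (P : Par) (Cs E : ℝ) (hP : P.Ok Cs E) (hc : ∀ i, 1 ≤ P.c i) (j : ℕ) (hj : j < P.J)
    (h1 : STEP P.d) (h2 : ADD P.d) (h3 : SMP P.d) (η Cw ρ : ℝ) (hη : 0 < η) (hρ : 0 < ρ)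
    (hρk : ρ ≤ P.kap P.e) (_ : Cw * P.eps j < ρ) (hS : SUB P j η ρ) (hN : NUM P j η Cw ρ) (hW : WIN P j η Cw ρ)
    (hP' : PROP P (j + 1)) : PROP P j := by
  have he : 2 ≤ P.e := hP.two
  have hed : P.e < P.d := hP.lt
  obtain ⟨nS, hS⟩ := hS
  obtain ⟨nN, hN⟩ := hN
  obtain ⟨nW, hW⟩ := hW
  obtain ⟨nP, hP'⟩ := hP'
  set c := P.c j with hcdef
  have hcj : 1 ≤ c := hc j
  set n₁ := nS + nN + nW + nP + ∑ i ∈ range (j + 1), P.c i + 1 with hn₁
  have hcc : (0 : ℝ) ≤ (P.cc (range j) : ℝ) := Nat.cast_nonneg _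
  -- one step down
  have down : ∀ n, n₁ ≤ n → ∀ T, EE P j ρ (n - c) T → EE P j ρ n (T - 1) := by
    intro n hn T hT ms hms hcnt hv
    have hv0 : (0 : ℤ) ≤ P.v j n ms := le_trans (Int.natCast_nonneg _) hv
    by_cases hl : η * P.cc (range j) * (n : ℝ) ^ (P.d - j) ≤ (P.v j n ms : ℝ)
    · exact hS n (by omega) ms hms hcnt hl
    push Not at hl
    obtain ⟨g, hg⟩ := Int.eq_ofNat_of_zero_le hv0
    have hgr : ((P.v j n ms : ℤ) : ℝ) = (g : ℝ) := by rw [hg]; norm_cast
    have hw := (hW n (by omega) ms hms hcnt).2.1 (by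
      rw [hgr, abs_of_nonneg (Nat.cast_nonneg g), ← hgr]
      exact hl.le)
    obtain ⟨ms', A, r, hm', hA, hr, hAc, hvA, hun, htr⟩ := hN n (by omega) ms hms g
      (by rw [← hgr]; exact hl.le) (by
        rw [hgr, sub_self, abs_zero]
        positivity) hw
    have hk := core he hed hc hj h1 h2 h3 (by omega) hg.le hm' hA hvA hun htr
      (hT A hA hAc (by
        rw [hvA]
        omega)) (hP' n (by omega) ms' hm')
    rw [hg]
    exact_mod_cast hk
  -- nonnegative values
  have hzero : ∃ n₃ : ℕ, n₁ ≤ n₃ ∧ ∀ n, n₃ ≤ n → EE P j ρ n 0 := by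
    have hall : ∀ n, n₁ ≤ n → ∀ i T : ℕ, EE P j ρ n T → EE P j ρ (n + i * c) (T - i) := by
      intro n hn i
      induction i with
      | zero =>
        intro T hT
        simpa using hT
      | succ i ih =>
        intro T hT
        have h4 := ih T hT
        have h5 : (i + 1) * c = i * c + c := by ring
        have h6 := down (n + (i + 1) * c) (by omega) (T - i)
        have h7 : n + (i + 1) * c - c = n + i * c := by omega
        rw [h7] at h6
        have h8 : T - i - 1 = T - (i + 1) := by omega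
        rw [h8] at h6
        exact h6 h4
    obtain ⟨T₀, hT₀⟩ : ∃ T₀ : ℕ, η * P.cc (range j) * ((n₁ + c : ℕ) : ℝ) ^ (P.d - j) ≤ T₀ :=
      exists_nat_ge _
    refine ⟨n₁ + c + T₀ * c, by omega, fun n hn => ?_⟩
    obtain ⟨m, i, hm1, hm2, hi, hmi⟩ : ∃ m i : ℕ, n₁ ≤ m ∧ m < n₁ + c ∧ T₀ ≤ i ∧
        n = m + i * c := by
      refine ⟨n₁ + (n - n₁) % c, (n - n₁) / c, by omega, ?_, ?_, ?_⟩
      · have := Nat.mod_lt (n - n₁) (by omega : 0 < c)
        omega
      · rw [Nat.le_div_iff_mul_le (by omega)]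
        omega
      · have := Nat.mod_add_div (n - n₁) c
        have h4 : c * ((n - n₁) / c) = (n - n₁) / c * c := mul_comm _ _
        omega
    have h4 := hall m hm1 i T₀ (fun ms hms hcnt hv => by
      refine hS m (by omega) ms hms hcnt ?_
      have h5 : (T₀ : ℝ) ≤ (P.v j m ms : ℝ) := by exact_mod_cast hv
      refine le_trans ?_ (hT₀.trans h5)
      have h6 : (m : ℝ) ≤ ((n₁ + c : ℕ) : ℝ) := by exact_mod_cast hm2.le
      have h7 : (0 : ℝ) ≤ η * P.cc (range j) := by positivity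
      exact mul_le_mul_of_nonneg_left (pow_le_pow_left₀ (Nat.cast_nonneg m) h6 _) h7)
    rw [← hmi] at h4
    have h5 : T₀ - i = 0 := by omega
    rwa [h5] at h4
  obtain ⟨n₃, hn₃, hzero⟩ := hzero
  obtain ⟨n₅, hn₅⟩ : ∃ n₅ : ℕ, 2 / ρ ≤ n₅ := exists_nat_ge _
  refine ⟨n₃ + c + n₅, fun n hn ms hms => ?_⟩
  have hn1 : 1 ≤ n := by omega
  have hnr : (1 : ℝ) ≤ n := by exact_mod_cast hn1
  have hne : (n : ℝ) ≤ (n : ℝ) ^ P.e := le_self_pow₀ hnr (by omega)
  have hnρ : 1 ≤ ρ / 2 * (n : ℝ) ^ P.e := by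
    have h4 : (n₅ : ℝ) ≤ n := by exact_mod_cast (by omega : n₅ ≤ n)
    have h5 : 2 / ρ ≤ (n : ℝ) ^ P.e := (hn₅.trans h4).trans hne
    rw [div_le_iff₀ hρ] at h5
    linarith
  have hne0 : (0 : ℝ) ≤ (n : ℝ) ^ P.e := by linarith
  by_cases hv : 0 ≤ P.v j n ms ∧ (ms.count (P.u j) : ℝ) ≤ (P.kap P.e + ρ) * (n : ℝ) ^ P.e
  · rw [max_eq_right hv.1]
    exact hzero n (by omega) ms hms hv.2 hv.1
  -- remove the main points
  obtain ⟨ms₀, hms₀, h0⟩ : ∃ ms₀, ms = ms₀ + Multiset.replicate (ms.count (P.u j)) (P.u j) ∧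
      ms₀.count (P.u j) = 0 := by
    refine ⟨ms.filter (fun k => P.u j ≠ k), ?_, ?_⟩
    · have h4 := Multiset.filter_add_not (fun k => P.u j = k) ms
      rw [Multiset.filter_eq, add_comm] at h4
      exact h4.symm
    · exact Multiset.count_filter_of_neg (by simp)
  have hms₀c : Cls P j n ms₀ := by
    rw [hms₀] at hms
    exact (cls_add_u he hed _).1 hms
  set m := ms.count (P.u j) with hm
  set f : ℕ → Multiset Kd := fun k => ms₀ + Multiset.replicate k (P.u j) with hf
  have hfc : ∀ k, Cls P j n (f k) := fun k => (cls_add_u he hed k).2 hms₀c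
  have hfn : ∀ k, (f k).count (P.u j) = k := by
    intro k
    rw [hf]
    show Multiset.count (P.u j) (ms₀ + Multiset.replicate k (P.u j)) = k
    rw [Multiset.count_add, h0, Multiset.count_replicate_self, zero_add]
  have hnW : nW ≤ n := by omega
  -- a negative value with few main points
  have hex : ∃ k, k ≤ m ∧ (k : ℝ) ≤ (P.kap P.e + ρ) * (n : ℝ) ^ P.e ∧ P.v j n (f k) < 0 := by
    by_cases h4 : (m : ℝ) ≤ (P.kap P.e + ρ) * (n : ℝ) ^ P.e
    · refine ⟨m, le_rfl, h4, ?_⟩
      have h5 : f m = ms := hms₀.symm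
      rw [h5]
      by_contra hcon
      exact hv ⟨not_lt.1 hcon, h4⟩
    · push Not at h4
      have h5 : (0 : ℝ) ≤ (P.kap P.e + ρ) * (n : ℝ) ^ P.e :=
        mul_nonneg (by linarith [hP.nonneg P.e]) hne0
      refine ⟨⌊(P.kap P.e + ρ) * (n : ℝ) ^ P.e⌋₊, ?_, Nat.floor_le h5, ?_⟩
      · have h6 := Nat.floor_le h5
        exact_mod_cast h6.trans h4.le
      · refine (hW n hnW _ (hfc _) (by rw [hfn]; exact Nat.floor_le h5)).2.2.1 ?_
        rw [hfn]
        have h6 := Nat.lt_floor_add_one ((P.kap P.e + ρ) * (n : ℝ) ^ P.e)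
        have h7 : (P.kap P.e + ρ) * (n : ℝ) ^ P.e = (P.kap P.e + ρ / 2) * (n : ℝ) ^ P.e +
          ρ / 2 * (n : ℝ) ^ P.e := by ring
        linarith
  classical
  obtain ⟨k, ⟨hkm, hkc, hkv⟩, hkmin⟩ : ∃ k, (k ≤ m ∧ (k : ℝ) ≤ (P.kap P.e + ρ) * (n : ℝ) ^ P.e ∧
      P.v j n (f k) < 0) ∧ ∀ k' < k, ¬ (k' ≤ m ∧ (k' : ℝ) ≤ (P.kap P.e + ρ) * (n : ℝ) ^ P.e ∧
      P.v j n (f k') < 0) := ⟨Nat.find hex, Nat.find_spec hex, fun k' hk' => Nat.find_min hex hk'⟩
  have hk0 : k ≠ 0 := by
    rintro rfl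
    have h4 := (hW n hnW (f 0) (hfc 0) (by rw [hfn]; exact hkc)).2.2.2 (by
      rw [hfn, Nat.cast_zero]
      exact mul_nonneg (by linarith) hne0)
    omega
  obtain ⟨l, rfl⟩ := Nat.exists_eq_succ_of_ne_zero hk0
  have hlc : (l : ℝ) ≤ (P.kap P.e + ρ) * (n : ℝ) ^ P.e := by
    refine le_trans ?_ hkc
    exact_mod_cast Nat.le_succ l
  have hl0 : 0 ≤ P.v j n (f l) := by
    have h4 := hkmin l (Nat.lt_succ_self l)
    by_contra hcon
    exact h4 ⟨by omega, hlc, not_le.1 hcon⟩
  have hfs : f (l + 1) = P.u j ::ₘ f l := by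
    rw [hf]
    show ms₀ + Multiset.replicate (l + 1) (P.u j) = P.u j ::ₘ (ms₀ + Multiset.replicate l (P.u j))
    rw [Multiset.replicate_succ, Multiset.add_cons]
  have hstep := (hW n hnW (f l) (hfc l) (by rw [hfn]; exact hlc)).1.2
  rw [← hfs] at hstep
  have hsmall : |(P.v j n (f (l + 1)) : ℝ)| ≤ η * P.cc (range j) * (n : ℝ) ^ (P.d - j - 1) := by
    have h4 : (0 : ℝ) ≤ (P.v j n (f l) : ℝ) := by exact_mod_cast hl0
    have h5 : (P.v j n (f (l + 1)) : ℝ) < 0 := by exact_mod_cast hkv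
    rw [abs_of_neg h5]
    push_cast at hstep
    linarith
  have hsmall2 : |(P.v j n (f (l + 1)) : ℝ)| ≤ η * P.cc (range j) * (n : ℝ) ^ (P.d - j) := by
    refine hsmall.trans (mul_le_mul_of_nonneg_left (pow_le_pow_right₀ hnr (Nat.sub_le _ _)) ?_)
    positivity
  have hw := (hW n hnW (f (l + 1)) (hfc _) (by rw [hfn]; exact hkc)).2.1 hsmall2
  obtain ⟨ms', A, r, hm', hA, hr, hAc, hvA, hun, htr⟩ := hN n (by omega) (f (l + 1)) (hfc _) 0
    (by rw [Nat.cast_zero]; positivity) (by
      rw [Nat.cast_zero, sub_zero]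
      exact hsmall) hw
  have hk := core he hed hc hj h1 h2 h3 (n := n) (ms := f (l + 1)) (g := 0) (by omega)
    (by rw [Nat.cast_zero]; exact hkv.le) hm' hA hvA hun htr
    (hzero (n - c) (by omega) A hA hAc (by
      have : P.v j (n - c) A = ((0 : ℕ) : ℤ) + r := hvA
      rw [this]
      omega)) (hP' n (by omega) ms' hm')
  have h4 : f m = f (l + 1) + Multiset.replicate (m - (l + 1)) (P.u j) := by
    rw [hf]
    show ms₀ + Multiset.replicate m (P.u j) = ms₀ + Multiset.replicate (l + 1) (P.u j) +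
      Multiset.replicate (m - (l + 1)) (P.u j)
    rw [add_assoc, ← Multiset.replicate_add]
    congr 2
    omega
  have h5 : P.H j n ms ≤ P.H j n (f (l + 1)) := by
    have h6 : ms = f m := hms₀
    rw [h6, h4]
    exact HL_mono P.d P.d P.c n j _ _
  have h6 : P.H j n ms = 0 := by omega
  rw [h6]
  exact le_max_left _ _

end Pool.Agent.GD
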