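import Pool.Agent.GD.N.Dat

/-!
# General d, numerical block: the configurations of the step are in the classes

PROOF.  `ms'` (level `j + 1`, the same `n`), kind `(x, A)`, `K = range (j + 1) \ A`:
* `j ∈ A`, `B = A.erase j`: `K = range j \ B`, `npt ms' x A = npt ms x B - T x B` (`Res.on`): `win` by `GT.res` (`bet (j + 1) ≤
  eps (j + 1)`), `zero` by `GT.zero` (`T = 0`) and `Cls.zero`;
* `j ∉ A`: `K = insert j (range j \ A)`, `npt ms' x A = T x A` (`Res.off`): `win` by `GT.off` resp. `Dat.tuw` for `(e, range j)`,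
  `zero` by `GT.one`.
`mem`: `Res.mem'`; an ordinary point `(x, A)` with `j ∉ A` has `T x A ≠ 0`, so `w ≥ 1` (`GT.zero`).
`cnt`: `i = j`: `Res.cNew`, `Dat.nw`, `M₀ ≤ M` (only `S = ∅`); `i < j`: `j ∉ S`: `Res.cOn`; `j ∈ S`: `Res.cPl`, `Res.cB0`,
`mv_cl` (`oc ≤ mm * d * c j * n ^ (w - 1)`), `mm` of `insert j S` is `mm * d * c j`.
`A` (level `j`, `n - c j`): `npt A x B = npt ms x B - T x B + np x B` (`Res.nA`), `np x B ≤ ∑ nw ≤ θ n ^ (w - 1)` for `n` large and
`np = 0` unless `|K| + e < x` (`E_new`: so `kap x = 0`, `w ≥ e + 1`): `GT.win`, `GT.room`; `zero`: `T = 0`, `np = 0`.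
`mem`: `Res.memA`, `pts_kd`, `E_new`.  `cnt`: `Res.cA` and the formula for `oc`.
-/

set_option autoImplicit false

namespace Pool.Agent.GD

open Finset

private lemma ord_mem {P : Par} {j n : ℕ} {ms : Multiset Kd} (h : Cls P j n ms) {x : ℕ}
    {B : Finset ℕ} (hB : Kd.ord x B ∈ ms) :
    2 ≤ x ∧ x < P.d ∧ B ⊆ range j ∧ (range j \ B).card ≤ x := by
  rcases h.mem _ hB with ⟨x', A', he, h1, h2, h3, h4⟩ | ⟨i, _, τ, _, he⟩
  · injection he with e1 e2
    subst e1 e2
    exact ⟨h1, h2, h3, h4⟩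
  · cases τ <;> simp [CT.kd] at he

private lemma npt_of_mem {ms : Multiset Kd} {x : ℕ} {B : Finset ℕ} (hB : Kd.ord x B ∈ ms) :
    npt ms x B ≠ 0 := by
  unfold npt
  rw [Multiset.count_ne_zero, Multiset.mem_bind]
  exact ⟨_, hB, Multiset.mem_singleton_self _⟩

private lemma npt_mem {P : Par} (h2 : 2 ≤ P.e) (hed : P.e < P.d) {j n : ℕ} {ms : Multiset Kd}
    (h : Cls P j n ms) {x : ℕ} {B : Finset ℕ} (hx : npt ms x B ≠ 0) :
    2 ≤ x ∧ x < P.d ∧ B ⊆ range j ∧ (range j \ B).card ≤ x := by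
  unfold npt at hx
  rw [Multiset.count_ne_zero, Multiset.mem_bind] at hx
  obtain ⟨k, hk, hk'⟩ := hx
  rcases h.mem k hk with ⟨x', A', rfl, h3, h4, h5, h6⟩ | ⟨i, hi, τ, hτ, rfl⟩
  · have h7 : (x, B) = (x', A') := Multiset.mem_singleton.1 hk'
    obtain ⟨rfl, rfl⟩ := Prod.mk.inj h7
    exact ⟨h3, h4, h5, h6⟩
  · obtain ⟨h3, h4, h5⟩ := pts_kd h2 hi hτ _ hk'
    simp only at h3 h4 h5
    subst h3
    exact ⟨h2, hed, h4.trans (erase_subset _ _), h5⟩

/-! Sets. -/

private lemma sd_on {j : ℕ} {A : Finset ℕ} (hA : A ⊆ range (j + 1)) (hj : j ∈ A) :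
    A = insert j (A.erase j) ∧ A.erase j ⊆ range j ∧ range (j + 1) \ A = range j \ A.erase j := by
  refine ⟨(insert_erase hj).symm, ?_, ?_⟩
  · intro x hx
    obtain ⟨h1, h2⟩ := mem_erase.1 hx
    have := mem_range.1 (hA h2)
    exact mem_range.2 (by omega)
  · ext x
    rw [mem_sdiff, mem_sdiff, mem_range, mem_range, mem_erase]
    constructor
    · rintro ⟨h1, h2⟩
      have h3 : x ≠ j := by rintro rfl; exact h2 hj
      exact ⟨by omega, fun h => h2 h.2⟩
    · rintro ⟨h1, h2⟩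
      exact ⟨by omega, fun h => h2 ⟨by omega, h⟩⟩

private lemma sd_off {j : ℕ} {A : Finset ℕ} (hA : A ⊆ range (j + 1)) (hj : j ∉ A) :
    A ⊆ range j ∧ range (j + 1) \ A = insert j (range j \ A) ∧
      (insert j (range j \ A)).card = (range j \ A).card + 1 := by
  refine ⟨?_, ?_, ?_⟩
  · intro x hx
    have h1 := mem_range.1 (hA hx)
    have h3 : x ≠ j := by rintro rfl; exact hj hx
    exact mem_range.2 (by omega)
  · ext x
    rw [mem_sdiff, mem_insert, mem_sdiff, mem_range, mem_range]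
    constructor
    · rintro ⟨h1, h2⟩
      by_cases h3 : x = j
      · exact Or.inl h3
      · exact Or.inr ⟨by omega, h2⟩
    · rintro (rfl | ⟨h1, h2⟩)
      · exact ⟨by omega, hj⟩
      · exact ⟨by omega, h2⟩
  · rw [card_insert_of_notMem]
    rw [mem_sdiff, mem_range]
    omega

/-- The numbers of the clusters. -/
private lemma pow_le (n c w : ℕ) : n ^ (w + 1) ≤ (n - c) ^ (w + 1) + (w + 1) * c * n ^ w := by
  induction w with
  | zero =>
    simp only [zero_add, pow_one, pow_zero, mul_one, one_mul]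
    omega
  | succ w ih =>
    have h1 : n ≤ (n - c) + c := by omega
    have h2 : n - c ≤ n := Nat.sub_le _ _
    calc n ^ (w + 1 + 1) = n * n ^ (w + 1) := by ring
      _ ≤ ((n - c) + c) * n ^ (w + 1) := Nat.mul_le_mul_right _ h1
      _ = (n - c) * n ^ (w + 1) + c * n ^ (w + 1) := by ring
      _ ≤ (n - c) * ((n - c) ^ (w + 1) + (w + 1) * c * n ^ w) + c * n ^ (w + 1) :=
        Nat.add_le_add_right (Nat.mul_le_mul_left _ ih) _
      _ = (n - c) ^ (w + 1 + 1) + (n - c) * ((w + 1) * c * n ^ w) + c * n ^ (w + 1) := by ring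
      _ ≤ (n - c) ^ (w + 1 + 1) + n * ((w + 1) * c * n ^ w) + c * n ^ (w + 1) :=
        Nat.add_le_add_right (Nat.add_le_add_left (Nat.mul_le_mul_right _ h2) _) _
      _ = (n - c) ^ (w + 1 + 1) + (w + 1 + 1) * c * n ^ (w + 1) := by ring

private lemma oc_le {m n c w d N : ℕ} (hw : w + 1 ≤ d) (hN : N ≤ m * n ^ (w + 1)) :
    N - m * (n - c) ^ (w + 1) ≤ m * (d * c) * n ^ w := by
  have h1 := Nat.mul_le_mul_left m (pow_le n c w)
  have h2 : m * ((n - c) ^ (w + 1) + (w + 1) * c * n ^ w) =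
      m * (n - c) ^ (w + 1) + m * ((w + 1) * c) * n ^ w := by ring
  have h3 : m * ((w + 1) * c) * n ^ w ≤ m * (d * c) * n ^ w :=
    Nat.mul_le_mul_right _ (Nat.mul_le_mul_left _ (Nat.mul_le_mul_right _ hw))
  omega

section up

variable {P : Par} {M₀ j n : ℕ} {θ : ℝ} {ms ms' A₀ : Multiset Kd} {s : Stp}

private lemma mem_up (h2 : 2 ≤ P.e) (h : Cls P j n ms) (D : P.Dat j n θ M₀ ms s)
    (R : s.Res P.d P.e j ms ms' A₀) :
    ∀ k ∈ ms', (∃ x A, k = .ord x A ∧ 2 ≤ x ∧ x < P.d ∧ A ⊆ range (j + 1) ∧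
      (range (j + 1) \ A).card ≤ x) ∨
      ∃ i < j + 1, ∃ τ : CT, τ.Ok P.d P.e i (j + 1) ∧ k = τ.kd P.d P.e i (j + 1) := by
  intro k hk
  rcases R.mem' k hk with ⟨x, B, rfl, hB⟩ | hcl
  · left
    obtain ⟨hx2, hxd, hBs, hc⟩ := ord_mem h hB
    have hBB : B ⊆ range (j + 1) := by
      intro y hy
      by_cases hyj : y = j
      · rw [hyj]
        exact self_mem_range_succ j
      · have h3 := mem_range.1 (hBs (mem_erase.2 ⟨hyj, hy⟩))
        exact mem_range.2 (by omega)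
    refine ⟨x, B, rfl, hx2, hxd, hBB, ?_⟩
    by_cases hjB : j ∈ B
    · rw [(sd_on hBB hjB).2.2]
      exact hc
    · obtain ⟨h3, h4, h5⟩ := sd_off hBB hjB
      rw [h4, h5]
      rw [erase_eq_of_notMem hjB] at hc
      by_contra hlt
      have hcx : (range j \ B).card = x := by omega
      have hT : s.T x B = 0 := by
        refine (D.gt x B hx2 hxd h3 hc ?_).zero hcx
        by_contra hcon
        push Not at hcon
        rw [hcon.2, sdiff_self] at hcx
        simp at hcx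
        omega
      exact npt_of_mem hk (by rw [R.off x B h3, hT])
  · exact Or.inr hcl

private lemma win_up (h2 : 2 ≤ P.e) (f : ℕ → ℝ) (hf : P.bet (j + 1) ≤ f (j + 1))
    (D : P.Dat j n θ M₀ ms s) (R : s.Res P.d P.e j ms ms' A₀)
    (htu : |(s.T P.e (range j) : ℝ) - P.kap P.e * P.e * P.c j * (n : ℝ) ^ (P.e - 1)| ≤
      f (j + 1) * P.c j * (n : ℝ) ^ (P.e - 1)) :
    ∀ x A, 2 ≤ x → x < P.d → A ⊆ range (j + 1) → (range (j + 1) \ A).card < x →
      (x ≠ P.e ∨ A ≠ range (j + 1)) →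
      |(npt ms' x A : ℝ) - P.nat x (range (j + 1) \ A) * P.cc (range (j + 1) \ A) *
        (n : ℝ) ^ (x - (range (j + 1) \ A).card)| ≤
      f (j + 1) * P.cc (range (j + 1) \ A) * (n : ℝ) ^ (x - (range (j + 1) \ A).card) := by
  intro x A hx2 hxd hA hc hne
  by_cases hjA : j ∈ A
  · obtain ⟨h3, h4, h5⟩ := sd_on hA hjA
    have hne' : x ≠ P.e ∨ A.erase j ≠ range j := by
      rcases hne with h6 | h6
      · exact Or.inl h6
      · right
        intro h7
        apply h6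
        rw [h3, h7, range_add_one]
    rw [h5] at hc ⊢
    have hG := D.gt x (A.erase j) hx2 hxd h4 hc.le hne'
    have h6 := R.on x (A.erase j) h4
    rw [← h3] at h6
    have h7 : npt ms' x A = npt ms x (A.erase j) - s.T x (A.erase j) := by omega
    rw [h7]
    refine (hG.res hc).trans ?_
    refine mul_le_mul_of_nonneg_right (mul_le_mul_of_nonneg_right hf (Nat.cast_nonneg _)) ?_
    positivity
  · obtain ⟨h3, h4, h5⟩ := sd_off hA hjA
    rw [h4] at hc ⊢
    rw [h5] at hc ⊢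
    rw [R.off x A h3]
    by_cases hm : x = P.e ∧ A = range j
    · obtain ⟨rfl, rfl⟩ := hm
      rw [sdiff_self]
      have h6 : P.nat P.e (insert j ∅) = P.kap P.e * P.e := by
        unfold Par.nat
        rw [card_insert_of_notMem (notMem_empty j), card_empty, zero_add, Nat.descFactorial_one]
      have h7 : P.cc (insert j ∅) = P.c j := by
        unfold Par.cc
        rw [insert_empty_eq, prod_singleton]
      have h8 : (⊥ : Finset ℕ) = ∅ := rfl
      rw [h8, h6, h7, card_empty, zero_add]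
      exact htu
    · have hne' : x ≠ P.e ∨ A ≠ range j := by
        by_contra hcon
        push Not at hcon
        exact hm hcon
      have hG := D.gt x A hx2 hxd h3 (by omega) hne'
      have h6 : x - ((range j \ A).card + 1) = x - (range j \ A).card - 1 := by omega
      rw [h6]
      refine (hG.off (by omega)).trans ?_
      refine mul_le_mul_of_nonneg_right (mul_le_mul_of_nonneg_right hf (Nat.cast_nonneg _)) ?_
      positivity

private lemma zero_up (h2 : 2 ≤ P.e) (h : Cls P j n ms) (D : P.Dat j n θ M₀ ms s)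
    (R : s.Res P.d P.e j ms ms' A₀) :
    ∀ x A, 2 ≤ x → x < P.d → A ⊆ range (j + 1) → (range (j + 1) \ A).card = x →
    (npt ms' x A : ℚ) = P.xp x (range (j + 1) \ A) * P.cc (range (j + 1) \ A) ∨
      (npt ms' x A : ℚ) = P.xm x (range (j + 1) \ A) * P.cc (range (j + 1) \ A) := by
  intro x A hx2 hxd hA hc
  by_cases hjA : j ∈ A
  · obtain ⟨h3, h4, h5⟩ := sd_on hA hjA
    rw [h5] at hc ⊢
    have hne' : x ≠ P.e ∨ A.erase j ≠ range j := by
      right
      intro h6
      rw [h6, sdiff_self] at hc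
      simp at hc
      omega
    have hG := D.gt x (A.erase j) hx2 hxd h4 hc.le hne'
    have h6 := R.on x (A.erase j) h4
    rw [← h3, hG.zero hc, add_zero] at h6
    rw [h6]
    exact h.zero x (A.erase j) hx2 hxd h4 hc
  · obtain ⟨h3, h4, h5⟩ := sd_off hA hjA
    rw [h4] at hc ⊢
    rw [h5] at hc
    rw [R.off x A h3]
    have hne' : x ≠ P.e ∨ A ≠ range j := by
      right
      intro h6
      rw [h6, sdiff_self] at hc
      simp at hc
      omega
    exact (D.gt x A hx2 hxd h3 (by omega) hne').one hc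

private lemma nwB_le (h2 : 2 ≤ P.e) (hM : M₀ ≤ P.M) {τ : CT} (hτ : τ.Ok P.d P.e j (j + 1)) :
    nwB P.e P.c M₀ n τ ≤ τ.mm P * n ^ τ.w P.e := by
  cases τ with
  | pl k S =>
    obtain ⟨_, _, h3, _⟩ := hτ
    have hS : S = ∅ := by
      rw [Ico_self] at h3
      exact subset_empty.1 h3
    subst hS
    change M₀ * n ^ (P.e - 1) ≤ P.M * P.d ^ (∅ : Finset ℕ).card * P.cc ∅ *
      n ^ (P.e - 1 - (∅ : Finset ℕ).card)
    have h4 : P.cc ∅ = 1 := by unfold Par.cc; exact prod_empty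
    rw [card_empty, pow_zero, mul_one, h4, mul_one, Nat.sub_zero]
    exact Nat.mul_le_mul_right _ hM
  | b0 S =>
    obtain ⟨_, h3, _⟩ := hτ
    have hS : S = ∅ := by
      rw [Ico_self] at h3
      exact subset_empty.1 h3
    subst hS
    change M₀ * n ^ (P.e - 2) ≤ P.M * P.d ^ (∅ : Finset ℕ).card * P.cc ∅ *
      n ^ (P.e - 2 - (∅ : Finset ℕ).card)
    have h4 : P.cc ∅ = 1 := by unfold Par.cc; exact prod_empty
    rw [card_empty, pow_zero, mul_one, h4, mul_one, Nat.sub_zero]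
    exact Nat.mul_le_mul_right _ hM
  | br r =>
    change M₀ * P.c (r - 1) ≤ P.M * P.c (r - 1) * n ^ 0
    rw [pow_zero, mul_one]
    exact Nat.mul_le_mul_right _ hM

private lemma cc_insert {S : Finset ℕ} {j : ℕ} (hj : j ∉ S) :
    P.cc (insert j S) = P.c j * P.cc S := by
  unfold Par.cc
  exact prod_insert hj

private lemma sub_of {i j : ℕ} {S : Finset ℕ} (hS : S ⊆ Ico (i + 1) (j + 1)) :
    S.erase j ⊆ Ico (i + 1) j := by
  intro x hx
  obtain ⟨h1, h2⟩ := mem_erase.1 hx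
  have := mem_Ico.1 (hS h2)
  exact mem_Ico.2 ⟨this.1, by omega⟩

private lemma cnt_up (h2 : 2 ≤ P.e) (hed : P.e < P.d) (hM : M₀ ≤ P.M) (h : Cls P j n ms)
    (D : P.Dat j n θ M₀ ms s) (R : s.Res P.d P.e j ms ms' A₀) :
    ∀ i < j + 1, ∀ τ : CT, τ.Ok P.d P.e i (j + 1) →
      ms'.count (τ.kd P.d P.e i (j + 1)) ≤ τ.mm P * n ^ τ.w P.e := by
  intro i hi τ hτ
  rcases Nat.lt_succ_iff_lt_or_eq.1 hi with hij | rfl
  swap
  · rw [R.cNew τ hτ]
    exact (D.nw τ ((mem_newT h2).2 hτ)).trans (nwB_le h2 hM hτ)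
  have hon : ∀ τ' : CT, τ'.Ok P.d P.e i j →
      ms'.count (τ'.kd P.d P.e i (j + 1)) ≤ τ'.mm P * n ^ τ'.w P.e := by
    intro τ' hτ'
    have h3 := R.cOn i hij τ' hτ'
    have h4 := h.cnt i hij τ' hτ'
    omega
  cases τ with
  | pl k S =>
    obtain ⟨h3, h4, h5, h6⟩ := hτ
    by_cases hj : j ∈ S
    · have h7 : insert j (S.erase j) = S := insert_erase hj
      have h8 : (S.erase j).card + 1 = S.card := card_erase_add_one hj
      have h9 : (CT.pl k (S.erase j)).Ok P.d P.e i j := ⟨h3, h4, sub_of h5, by omega⟩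
      have h10 := R.cPl i hij k (S.erase j) h9 (by omega)
      rw [h7] at h10
      rw [h10, D.oc i _]
      have h11 := h.cnt i hij _ h9
      have h12 : (CT.pl k (S.erase j)).w P.e = (P.e - 1 - S.card) + 1 := by
        change P.e - 1 - (S.erase j).card = _
        omega
      rw [h12] at h11 ⊢
      refine (oc_le (d := P.d) (c := P.c j) (by omega) h11).trans (le_of_eq ?_)
      change P.M * P.d ^ (S.erase j).card * P.cc (S.erase j) * (P.d * P.c j) *
        n ^ (P.e - 1 - S.card) = P.M * P.d ^ S.card * P.cc S * n ^ (P.e - 1 - S.card)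
      have h13 : P.cc S = P.c j * P.cc (S.erase j) := by
        rw [← cc_insert (notMem_erase j S), h7]
      rw [h13, ← h8, pow_succ]
      ring
    · refine hon _ ⟨h3, h4, ?_, h6⟩
      rw [← erase_eq_of_notMem hj]
      exact sub_of h5
  | b0 S =>
    obtain ⟨h3, h5, h6⟩ := hτ
    by_cases hj : j ∈ S
    · have h7 : insert j (S.erase j) = S := insert_erase hj
      have h8 : (S.erase j).card + 1 = S.card := card_erase_add_one hj
      have h9 : (CT.b0 (S.erase j)).Ok P.d P.e i j := ⟨h3, sub_of h5, by omega⟩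
      have h10 := R.cB0 i hij (S.erase j) h9 (by omega)
      rw [h7] at h10
      rw [h10, D.oc i _]
      have h11 := h.cnt i hij _ h9
      have h12 : (CT.b0 (S.erase j)).w P.e = (P.e - 2 - S.card) + 1 := by
        change P.e - 2 - (S.erase j).card = _
        omega
      rw [h12] at h11 ⊢
      refine (oc_le (d := P.d) (c := P.c j) (by omega) h11).trans (le_of_eq ?_)
      change P.M * P.d ^ (S.erase j).card * P.cc (S.erase j) * (P.d * P.c j) *
        n ^ (P.e - 2 - S.card) = P.M * P.d ^ S.card * P.cc S * n ^ (P.e - 2 - S.card)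
      have h13 : P.cc S = P.c j * P.cc (S.erase j) := by
        rw [← cc_insert (notMem_erase j S), h7]
      rw [h13, ← h8, pow_succ]
      ring
    · refine hon _ ⟨h3, ?_, h6⟩
      rw [← erase_eq_of_notMem hj]
      exact sub_of h5
  | br r => exact hon _ hτ

private lemma cls_up (h2 : 2 ≤ P.e) (hed : P.e < P.d) (hM : M₀ ≤ P.M) (f : ℕ → ℝ)
    (hf : P.bet (j + 1) ≤ f (j + 1)) (h : Cls P j n ms) (D : P.Dat j n θ M₀ ms s)
    (R : s.Res P.d P.e j ms ms' A₀)
    (htu : |(s.T P.e (range j) : ℝ) - P.kap P.e * P.e * P.c j * (n : ℝ) ^ (P.e - 1)| ≤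
      f (j + 1) * P.c j * (n : ℝ) ^ (P.e - 1)) : Cls { P with eps := f } (j + 1) n ms' where
  mem := mem_up (P := P) h2 h D R
  win := win_up (P := P) h2 f hf D R htu
  zero := zero_up (P := P) h2 h D R
  cnt := by
    intro i hi τ hτ
    have h3 := cnt_up h2 hed hM h D R i hi τ hτ
    cases τ <;> exact h3

/-! The trace. -/

private lemma np_ne {x : ℕ} {B : Finset ℕ}
    (hx : s.np P.d P.e j x B ≠ 0) :
    x ≠ P.d ∧ ∃ τ ∈ newT P.d P.e j, τ.E P.d P.e j = x ∧ τ.A j = B := by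
  unfold Stp.np at hx
  split_ifs at hx with hxd
  · exact absurd rfl hx
  · refine ⟨hxd, ?_⟩
    by_contra hcon
    push Not at hcon
    apply hx
    refine sum_eq_zero fun τ hτ => ?_
    rw [if_neg]
    rintro ⟨h3, h4⟩
    exact hcon τ hτ h3 h4

private lemma np_bd (h2 : 2 ≤ P.e) (hn : 1 ≤ n) (D : P.Dat j n θ M₀ ms s) (x : ℕ) (B : Finset ℕ) :
    s.np P.d P.e j x B ≤ (newT P.d P.e j).card * (M₀ * (1 + ∑ i ∈ range j, P.c i)) *
      n ^ (P.e - 1) := by
  have hn1 : 1 ≤ n ^ (P.e - 1) := Nat.one_le_pow _ _ hn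
  have h3 : ∀ τ ∈ newT P.d P.e j, s.nw τ ≤ (M₀ * (1 + ∑ i ∈ range j, P.c i)) * n ^ (P.e - 1) := by
    intro τ hτ
    refine (D.nw τ hτ).trans ?_
    have hτ' := (mem_newT h2).1 hτ
    have h4 : M₀ ≤ M₀ * (1 + ∑ i ∈ range j, P.c i) := Nat.le_mul_of_pos_right _ (by omega)
    cases τ with
    | pl k S => exact Nat.mul_le_mul_right _ h4
    | b0 S =>
      refine Nat.mul_le_mul h4 (Nat.pow_le_pow_right hn ?_)
      omega
    | br r =>
      obtain ⟨h5, h6⟩ := hτ'
      have h7 : P.c (r - 1) ≤ ∑ i ∈ range j, P.c i :=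
        single_le_sum (f := P.c) (fun _ _ => Nat.zero_le _) (mem_range.2 (by omega))
      change M₀ * P.c (r - 1) ≤ _
      calc M₀ * P.c (r - 1) ≤ M₀ * (1 + ∑ i ∈ range j, P.c i) := Nat.mul_le_mul_left _ (by omega)
        _ = M₀ * (1 + ∑ i ∈ range j, P.c i) * 1 := (mul_one _).symm
        _ ≤ _ := Nat.mul_le_mul_left _ hn1
  unfold Stp.np
  split_ifs
  · exact Nat.zero_le _
  · calc ∑ τ ∈ newT P.d P.e j, (if τ.E P.d P.e j = x ∧ τ.A j = B then s.nw τ else 0)
        ≤ ∑ τ ∈ newT P.d P.e j, (M₀ * (1 + ∑ i ∈ range j, P.c i)) * n ^ (P.e - 1) := by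
          refine sum_le_sum fun τ hτ => ?_
          split_ifs
          · exact h3 τ hτ
          · exact Nat.zero_le _
      _ = _ := by
          rw [sum_const, smul_eq_mul]
          ring

private lemma cls_tr (hk : Crit P.d P.e P.kap) (hj : j < P.J) (hn : 1 ≤ n) (h : Cls P j n ms)
    (D : P.Dat j n θ M₀ ms s) (R : s.Res P.d P.e j ms ms' A₀)
    (hnθ : (((newT P.d P.e j).card * (M₀ * (1 + ∑ i ∈ range j, P.c i)) : ℕ) : ℝ) ≤ θ * n) :
    Cls P j (n - P.c j) A₀ := by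
  have h2 := hk.two
  have hed := hk.lt
  have hj' : j < P.d - P.e := hj
  have hθ : 0 ≤ θ := by
    have h3 : (0 : ℝ) ≤ θ * n := le_trans (Nat.cast_nonneg _) hnθ
    have h4 : (0 : ℝ) < n := by exact_mod_cast hn
    exact nonneg_of_mul_nonneg_left h3 h4
  have hE : ∀ x B, s.np P.d P.e j x B ≠ 0 → x < P.d ∧ P.e < x ∧ B ⊆ range j ∧
      (range j \ B).card + P.e < x := by
    intro x B hx
    obtain ⟨h3, τ, hτ, rfl, rfl⟩ := np_ne hx
    obtain ⟨h4, h5, h6, h7, _⟩ := E_new h2 hj' ((mem_newT h2).1 hτ)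
    exact ⟨by omega, h4, h6, h7⟩
  refine ⟨?_, ?_, ?_, ?_⟩
  · intro k hk'
    rcases R.memA k hk' with ⟨x, B, rfl, hB⟩ | hcl
    · left
      rcases hB with hB | ⟨h3, τ, hτ, rfl, rfl⟩
      · obtain ⟨h3, h4, h5, h6⟩ := npt_mem h2 hed h hB
        exact ⟨x, B, rfl, h3, h4, h5, h6⟩
      · obtain ⟨h4, h5, h6, h7, _⟩ := E_new h2 hj' ((mem_newT h2).1 hτ)
        exact ⟨_, _, rfl, by omega, by omega, h6, by omega⟩
    · exact Or.inr hcl
  · intro x B hx2 hxd hB hc hne
    have hG := D.gt x B hx2 hxd hB hc.le hne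
    have h3 := R.nA x B hB
    have h4 := hG.le
    have h5 : npt A₀ x B = npt ms x B - s.T x B + s.np P.d P.e j x B := by omega
    rw [h5]
    by_cases hnp : s.np P.d P.e j x B = 0
    · rw [hnp, add_zero]
      exact hG.win hc
    · obtain ⟨_, h7, _, h8⟩ := hE x B hnp
      have hkap : P.kap x = 0 := by
        by_contra h9
        have := (hk.supp x h9).2
        omega
      have hroom := hG.room hkap (by omega) (s.np P.d P.e j x B) (by
        have h9 : (s.np P.d P.e j x B : ℝ) ≤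
            (((newT P.d P.e j).card * (M₀ * (1 + ∑ i ∈ range j, P.c i)) : ℕ) : ℝ) *
              (n : ℝ) ^ (P.e - 1) := by exact_mod_cast np_bd h2 hn D x B
        have hn1 : (1 : ℝ) ≤ n := by exact_mod_cast hn
        refine h9.trans ?_
        calc (((newT P.d P.e j).card * (M₀ * (1 + ∑ i ∈ range j, P.c i)) : ℕ) : ℝ) *
              (n : ℝ) ^ (P.e - 1) ≤ θ * n * (n : ℝ) ^ (P.e - 1) :=
              mul_le_mul_of_nonneg_right hnθ (by positivity)
          _ = θ * (n : ℝ) ^ (P.e - 1 + 1) := by rw [pow_succ]; ring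
          _ ≤ θ * (n : ℝ) ^ (x - (range j \ B).card - 1) :=
              mul_le_mul_of_nonneg_left (pow_le_pow_right₀ hn1 (by omega)) hθ)
      have hnat : P.nat x (range j \ B) = 0 := by
        unfold Par.nat
        rw [hkap, zero_mul]
      rw [hnat, zero_mul, zero_mul, sub_zero, abs_of_nonneg (Nat.cast_nonneg _)]
      exact hroom
  · intro x B hx2 hxd hB hc
    have hne' : x ≠ P.e ∨ B ≠ range j := by
      right
      intro h6
      rw [h6, sdiff_self] at hc
      simp at hc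
      omega
    have hG := D.gt x B hx2 hxd hB hc.le hne'
    have hnp : s.np P.d P.e j x B = 0 := by
      by_contra h4
      have := (hE x B h4).2.2.2
      omega
    have h3 := R.nA x B hB
    rw [hG.zero hc, hnp, add_zero, add_zero] at h3
    rw [h3]
    exact h.zero x B hx2 hxd hB hc
  · intro i hi τ hτ
    have h3 := R.cA i hi τ hτ
    have h4 := D.oc i τ
    omega

end up

theorem dat_cls (d e : ℕ) (kap : ℕ → ℝ) (hk : Crit d e kap) (M₀ : ℕ) :
    ∀ P : Par, P.d = d → P.e = e → P.kap = kap → M₀ ≤ P.M → P.Ok 1 1 → ∀ j < P.J, P.Sz j 1 → ∀ θ : ℝ, 0 < θ →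
      ∃ n₀ : ℕ, ∀ n, n₀ ≤ n → ∀ ms, Cls P j n ms → ∀ s : Stp, P.Dat j n θ M₀ ms s → ∀ ms' A : Multiset Kd,
        s.Res d e j ms ms' A → Cls P (j + 1) n ms' ∧ Cls P j (n - P.c j) A := by
  rintro P rfl rfl rfl hM hOk j hj hSz θ hθ
  refine ⟨⌈(((newT P.d P.e j).card * (M₀ * (1 + ∑ i ∈ range j, P.c i)) : ℕ) : ℝ) / θ⌉₊ + 1, ?_⟩
  intro n hn ms h s D ms' A R
  refine ⟨cls_up (f := P.eps) hk.two hk.lt hM (by simpa using hOk.be j hj) h D R D.tuw,
    cls_tr hk hj (by omega) h D R ?_⟩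
  have h1 := Nat.le_ceil ((((newT P.d P.e j).card * (M₀ * (1 + ∑ i ∈ range j, P.c i)) : ℕ) : ℝ) / θ)
  have h2 : ((⌈(((newT P.d P.e j).card * (M₀ * (1 + ∑ i ∈ range j, P.c i)) : ℕ) : ℝ) / θ⌉₊ : ℕ) : ℝ) ≤
      n := by
    exact_mod_cast (by omega : _ ≤ n)
  have h3 := h1.trans h2
  rw [div_le_iff₀ hθ] at h3
  linarith

/-- The same for the finer windows of the level `j + 1` (`bet (j + 1)` instead of `eps (j + 1)`), if the number of
the main points is closer to the natural one. -/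
theorem dat_cls' (d e : ℕ) (kap : ℕ → ℝ) (hk : Crit d e kap) (M₀ : ℕ) :
    ∀ P : Par, P.d = d → P.e = e → P.kap = kap → M₀ ≤ P.M → P.Ok 1 1 → ∀ j < P.J, P.Sz j 1 → ∀ θ : ℝ, 0 < θ →
      ∃ n₀ : ℕ, ∀ n, n₀ ≤ n → ∀ ms, Cls P j n ms → ∀ s : Stp, P.Dat j n θ M₀ ms s → ∀ ms' A : Multiset Kd,
        s.Res d e j ms ms' A → |(s.T P.e (range j) : ℝ) - P.kap P.e * P.e * P.c j * (n : ℝ) ^ (P.e - 1)| ≤
          P.bet (j + 1) * P.c j * (n : ℝ) ^ (P.e - 1) →
            Cls { P with eps := Function.update P.eps (j + 1) (P.bet (j + 1)) } (j + 1) n ms' := by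
  rintro P rfl rfl rfl hM hOk j hj hSz θ hθ
  refine ⟨0, ?_⟩
  intro n hn ms h s D ms' A R htu
  refine cls_up (f := Function.update P.eps (j + 1) (P.bet (j + 1))) hk.two hk.lt hM ?_ h D R ?_
  · rw [Function.update_self]
  · rw [Function.update_self]
    exact htu

end Pool.Agent.GD
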