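import Pool.Agent.GD.N.Dat

/-!
# General d, numerical block: the conditions for the existence of the step

PROOF.  `oc`, `oc0` from the formula for `oc` (`w = 0`: `Cls.cnt`).  Let `κ = kap e`, `K = range j \ B`, `w = e - |K|`.
`lo`, `hi` for `x ≠ e`: `mo = mn = 0` (all members have the exponent `e`, `pts_kd`), `npt = count`.  For the main
kind `(e, range j)`: `mo = 0`, `mn ≤ d * ∑ nw ≤ d * (d * M₀ n ^ (e - 1) + M₀ n ^ (e - 2) + d * M₀ * c 0) ≤ (κ / 4) c j n ^ (e - 1)`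
(`c j ≥ M₁`, `n` large), and `T ≥ (κ / 2) c j n ^ (e - 1)` by `tuw`.  For `x = e`, `K ≠ ∅`:
* `w = 0`: no moved and no new cluster has a member of this kind off `L_j` (moved: `|K| = 1 + |S| ≤ e - 1` since
  `CT.w ≠ 0`; new: `|K| ≤ e - 1`), `T = 0`;
* `w ≥ 1`: `T ≥ (κ / 2) cc K c j n ^ (w - 1)` (`GT.low`).  `mo`: types `pl k S`, `b0 S` with `K = {i} ∪ S`: `oc ≤ mm * d * c j *
  n ^ (w' - 1)` (`mv_cl`), `w' = CT.w ≤ w`, `mm = M * d ^ |S| * cc S`, so `≤ M d ^ (d + 1) cc S c j n ^ (w - 1)`, and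
  `cc K = c i * cc S`, `c i ≥ M₁`.  `mn`: types `br r` with `K = Ico (s (e - 1)) ((s + 1) (e - 1)) ∩ range r`: at most `d * M₀ * c (r - 1)`
  each; for `w ≥ 2` this is small for `n` large, for `w = 1`: `|K| = e - 1`, so `max K ≤ r - 1`, `cc K ≥ c (max K) ≥ c (r - 1)`
  (`Sz.dec`), and `c j ≥ M₁`;
* `hi`: `2 T ≤ npt`, and the members of this kind of all old clusters are at most `npt / 2`, for `n` large: `npt ≥
  (κ / 2) cc K n ^ w` (`Cls.win`, `eps j ≤ E ≤ κ / 4`); `pl k S` with `K = {i} ∪ S`: `count ≤ M d ^ |S| cc S n ^ w`; first members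
  (`K = {i}`, `w = e - 1`): `count ≤ M d ^ |S| cc S n ^ (e - 1 - |S|)`; `b0`: one power less; `br r`: at most `M c (r - 1)`.
-/

set_option autoImplicit false

namespace Pool.Agent.GD

open Finset

private theorem DOk_card (k : Kd) : k.pts.card = k.nm := by
  cases k with
  | ord e A => rfl
  | cl e dl i As => simp [Kd.pts, Kd.nm]

private theorem DOk_mem_cl {e dl i x : ℕ} {As : List (Finset ℕ)} {A : Finset ℕ} :
    (x, A) ∈ (Kd.cl e dl i As).pts ↔ x = e ∧ A ∈ As := by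
  show (x, A) ∈ ((As.map fun A => (e, A) : List (ℕ × Finset ℕ)) : Multiset (ℕ × Finset ℕ)) ↔ _
  rw [Multiset.mem_coe, List.mem_map]
  constructor
  · rintro ⟨B, hB, h⟩
    obtain ⟨rfl, rfl⟩ := Prod.mk.inj h
    exact ⟨rfl, hB⟩
  · rintro ⟨rfl, h⟩
    exact ⟨A, h, rfl⟩

private theorem DOk_mbs {i j k : ℕ} {S A : Finset ℕ} (h : A ∈ mbs i j k S) :
    A = (range j).erase i ∨ A = (range j).erase i \ S := by
  unfold mbs at h
  split_ifs at h with hk
  · rw [List.mem_singleton] at h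
    exact Or.inr h
  · rcases List.mem_cons.1 h with h | h
    · exact Or.inl h
    · exact Or.inr (List.eq_of_mem_replicate h)

private theorem DOk_mbr {i j k e r : ℕ} {A : Finset ℕ} (h : A ∈ mbr i j k e r) :
    ∃ s, A = (range j).erase i \ (Ico (s * (e - 1)) ((s + 1) * (e - 1)) ∩ range r) := by
  unfold mbr at h
  obtain ⟨s, -, rfl⟩ := List.mem_map.1 h
  exact ⟨s, rfl⟩

private theorem DOk_sd1 {i j : ℕ} (hi : i < j) : range j \ (range j).erase i = insert i ∅ := by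
  ext x
  simp only [mem_sdiff, mem_range, mem_erase, mem_insert, notMem_empty, or_false]
  constructor
  · rintro ⟨h1, h2⟩
    by_contra h3
    exact h2 ⟨h3, h1⟩
  · rintro rfl
    exact ⟨hi, fun h => h.1 rfl⟩

private theorem DOk_sd2 {i j : ℕ} (hi : i < j) {S : Finset ℕ} (hS : S ⊆ range j) :
    range j \ ((range j).erase i \ S) = insert i S := by
  ext x
  simp only [mem_sdiff, mem_range, mem_erase, mem_insert]
  constructor
  · rintro ⟨h1, h2⟩
    by_cases h3 : x = i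
    · exact Or.inl h3
    · right
      by_contra h4
      exact h2 ⟨⟨h3, h1⟩, h4⟩
  · rintro (rfl | h)
    · exact ⟨hi, fun h => h.1.1 rfl⟩
    · exact ⟨mem_range.1 (hS h), fun h' => h'.2 h⟩

private theorem DOk_Ico {i j : ℕ} {S : Finset ℕ} (h : S ⊆ Ico (i + 1) j) :
    S ⊆ range j ∧ i ∉ S := by
  refine ⟨fun x hx => mem_range.2 (mem_Ico.1 (h hx)).2, fun hi => ?_⟩
  have := (mem_Ico.1 (h hi)).1
  omega

private theorem DOk_mm (P : Par) {j : ℕ} (hjd : j ≤ P.d) {S : Finset ℕ} (hS : S ⊆ range j) :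
    P.M * P.d ^ S.card * P.cc S ≤ P.M * (P.d + 1) ^ P.d * P.cc S := by
  have h1 : S.card ≤ P.d := ((card_le_card hS).trans (card_range j).le).trans hjd
  have h2 : P.d ^ S.card ≤ (P.d + 1) ^ P.d :=
    (Nat.pow_le_pow_left (Nat.le_succ _) _).trans (Nat.pow_le_pow_right (Nat.succ_pos _) h1)
  exact Nat.mul_le_mul_right _ (Nat.mul_le_mul_left _ h2)

/-- the members of the old clusters -/
private theorem DOk_old {P : Par} (he : 2 ≤ P.e) {j i : ℕ} (hjd : j ≤ P.d) (hi : i < j) {τ : CT}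
    (hτ : τ.Ok P.d P.e i j) {x : ℕ} {A : Finset ℕ} (hA : (x, A) ∈ (τ.kd P.d P.e i j).pts)
    (hK : (range j \ A).card < P.e) :
    τ.w P.e < P.e - (range j \ A).card ∨ (τ.w P.e = P.e - (range j \ A).card ∧
      ∃ S, i ∉ S ∧ range j \ A = insert i S ∧ τ.mm P ≤ P.M * (P.d + 1) ^ P.d * P.cc S) := by
  cases τ with
  | pl k S =>
    obtain ⟨-, -, hS, hSc⟩ := hτ
    obtain ⟨hS1, hS2⟩ := DOk_Ico hS
    obtain ⟨-, hA⟩ := DOk_mem_cl.1 hA
    show P.e - 1 - S.card < _ ∨ (P.e - 1 - S.card = _ ∧ _)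
    rcases DOk_mbs hA with rfl | rfl
    · rw [DOk_sd1 hi]
      have hc : (insert i (∅ : Finset ℕ)).card = 1 := by simp
      rw [hc]
      rcases S.eq_empty_or_nonempty with rfl | hne
      · right
        refine ⟨by rw [card_empty, Nat.sub_zero], ∅, notMem_empty i, rfl, ?_⟩
        exact DOk_mm P hjd (empty_subset (range j))
      · left
        have := hne.card_pos
        omega
    · rw [DOk_sd2 hi hS1, card_insert_of_notMem hS2]
      right
      refine ⟨by omega, S, hS2, rfl, DOk_mm P hjd hS1⟩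
  | b0 S =>
    obtain ⟨-, hS, hSc⟩ := hτ
    obtain ⟨hS1, hS2⟩ := DOk_Ico hS
    obtain ⟨-, hA⟩ := DOk_mem_cl.1 hA
    show P.e - 2 - S.card < _ ∨ _
    left
    rcases DOk_mbs hA with rfl | rfl
    · rw [DOk_sd1 hi]
      have hc : (insert i (∅ : Finset ℕ)).card = 1 := by simp
      rw [hc]
      omega
    · rw [DOk_sd2 hi hS1, card_insert_of_notMem hS2]
      rw [DOk_sd2 hi hS1, card_insert_of_notMem hS2] at hK
      omega
  | br r =>
    left
    show 0 < _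
    omega

/-- the members of the clusters which can be moved -/
private theorem DOk_lt {P : Par} (he : 2 ≤ P.e) {j i : ℕ} (hi : i < j) {τ : CT}
    (hτ : τ.Ok P.d P.e i j) {x : ℕ} {A : Finset ℕ} (hA : (x, A) ∈ (τ.kd P.d P.e i j).pts)
    (hw : τ.w P.e ≠ 0) : (range j \ A).card < P.e := by
  cases τ with
  | pl k S =>
    obtain ⟨-, -, hS, hSc⟩ := hτ
    obtain ⟨hS1, hS2⟩ := DOk_Ico hS
    obtain ⟨-, hA⟩ := DOk_mem_cl.1 hA
    have hw' : P.e - 1 - S.card ≠ 0 := hw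
    rcases DOk_mbs hA with rfl | rfl
    · rw [DOk_sd1 hi]
      have hc : (insert i (∅ : Finset ℕ)).card = 1 := by simp
      rw [hc]
      omega
    · rw [DOk_sd2 hi hS1, card_insert_of_notMem hS2]
      omega
  | b0 S =>
    obtain ⟨-, hS, hSc⟩ := hτ
    obtain ⟨hS1, hS2⟩ := DOk_Ico hS
    obtain ⟨-, hA⟩ := DOk_mem_cl.1 hA
    rcases DOk_mbs hA with rfl | rfl
    · rw [DOk_sd1 hi]
      have hc : (insert i (∅ : Finset ℕ)).card = 1 := by simp
      rw [hc]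
      omega
    · rw [DOk_sd2 hi hS1, card_insert_of_notMem hS2]
      omega
  | br r => exact absurd rfl hw

/-- the members of the new clusters -/
private theorem DOk_new {d e j : ℕ} {τ : CT} (hτ : τ.Ok d e j (j + 1)) {x : ℕ}
    {A : Finset ℕ} (hA : (x, A) ∈ (τ.kd d e j (j + 1)).pts) :
    range j \ A = ∅ ∨ ∃ r, τ = CT.br r ∧ 1 ≤ r ∧ r ≤ j ∧ range j \ A ⊆ range r ∧
      (range j \ A).card ≤ e - 1 := by
  have hr : (range (j + 1)).erase j = range j := by
    ext x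
    simp only [mem_erase, mem_range]
    omega
  have hS0 : ∀ S : Finset ℕ, S ⊆ Ico (j + 1) (j + 1) → S = ∅ := by
    intro S hS
    rw [Ico_self] at hS
    exact subset_empty.1 hS
  cases τ with
  | pl k S =>
    obtain ⟨-, -, hS, -⟩ := hτ
    obtain rfl := hS0 S hS
    obtain ⟨-, hA⟩ := DOk_mem_cl.1 hA
    left
    rcases DOk_mbs hA with rfl | rfl
    · rw [hr, sdiff_self]
      rfl
    · rw [hr, sdiff_empty, sdiff_self]
      rfl
  | b0 S =>
    obtain ⟨-, hS, -⟩ := hτ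
    obtain rfl := hS0 S hS
    obtain ⟨-, hA⟩ := DOk_mem_cl.1 hA
    left
    rcases DOk_mbs hA with rfl | rfl
    · rw [hr, sdiff_self]
      rfl
    · rw [hr, sdiff_empty, sdiff_self]
      rfl
  | br r =>
    obtain ⟨h1, h2⟩ := hτ
    obtain ⟨-, hA⟩ := DOk_mem_cl.1 hA
    obtain ⟨s, rfl⟩ := DOk_mbr hA
    right
    have hsub : range j \ ((range (j + 1)).erase j \
        (Ico (s * (e - 1)) ((s + 1) * (e - 1)) ∩ range r)) ⊆
        Ico (s * (e - 1)) ((s + 1) * (e - 1)) ∩ range r := by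
      intro y hy
      rw [hr, mem_sdiff] at hy
      by_contra h
      exact hy.2 (mem_sdiff.2 ⟨hy.1, h⟩)
    refine ⟨r, rfl, h1, h2, hsub.trans inter_subset_right, ?_⟩
    refine (card_le_card (hsub.trans inter_subset_left)).trans ?_
    rw [Nat.card_Ico, Nat.add_mul, Nat.add_sub_cancel_left, one_mul]

/-- the moved members are members -/
private theorem DOk_off {d e j i : ℕ} (hi : i < j) {τ : CT} (h : τ.Ok d e i j) {x : ℕ}
    {A : Finset ℕ} (hA : offMem j (τ.kd d e i j) x A ≠ 0) : (x, A) ∈ (τ.kd d e i j).pts := by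
  unfold offMem at hA
  split_ifs at hA with hAr
  · have h1 : (x, A) ∈ (offK j (τ.kd d e i j)).pts := Multiset.count_ne_zero.1 hA
    rw [← pts_offK hi h]
    refine Multiset.mem_map.2 ⟨(x, A), h1, ?_⟩
    have h2 : j ∉ A := fun h => by
      have := mem_range.1 (hAr h)
      omega
    show (x, A.erase j) = (x, A)
    rw [erase_eq_of_notMem h2]
  · exact absurd rfl hA

private theorem DOk_off_le {d e j i : ℕ} (he : 2 ≤ e) (hj : j ≤ d - e) (hi : i < j) {τ : CT}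
    (h : τ.Ok d e i j) (x : ℕ) (A : Finset ℕ) : offMem j (τ.kd d e i j) x A ≤ d := by
  unfold offMem
  split_ifs
  · refine (Multiset.count_le_card _ _).trans ?_
    have h1 := congrArg Multiset.card (pts_offK hi h)
    rw [Multiset.card_map, DOk_card (τ.kd d e i j)] at h1
    rw [h1]
    exact (nm_kd he hj hi h).2
  · exact Nat.zero_le _

private theorem DOk_sum {α : Type} [DecidableEq α] (ms : Multiset α) (a : α) (c : ℕ) :
    (ms.map fun k => if k = a then c else 0).sum = ms.count a * c := by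
  induction ms using Multiset.induction_on with
  | empty => simp
  | cons b ms ih =>
    rw [Multiset.map_cons, Multiset.sum_cons, ih, Multiset.count_cons]
    by_cases h : b = a
    · rw [if_pos h, if_pos h.symm]
      ring
    · rw [if_neg h, if_neg fun h' => h h'.symm]
      ring

private theorem DOk_swap {α β : Type} (ms : Multiset α) (t : Finset β) (f : α → β → ℕ) :
    (ms.map fun k => ∑ p ∈ t, f k p).sum = ∑ p ∈ t, (ms.map fun k => f k p).sum := by
  induction ms using Multiset.induction_on with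
  | empty => simp
  | cons b ms ih =>
    rw [Multiset.map_cons, Multiset.sum_cons, ih, ← sum_add_distrib]
    refine sum_congr rfl fun p _ => ?_
    rw [Multiset.map_cons, Multiset.sum_cons]

/-- the points of a kind are ordinary points and members of the old clusters -/
private theorem DOk_npt {P : Par} {j n : ℕ} (hjd : j ≤ P.d) {ms : Multiset Kd} (hc : Cls P j n ms)
    (x : ℕ) (A : Finset ℕ) : npt ms x A ≤ ms.count (.ord x A) +
      ∑ p ∈ oldT P.d P.e j, ms.count (p.2.kd P.d P.e p.1 j) * (p.2.kd P.d P.e p.1 j).pts.count (x, A) := by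
  have h1 : npt ms x A = (ms.map fun k => k.pts.count (x, A)).sum := by
    unfold npt
    rw [Multiset.count_bind]
  have h2 : ∀ k ∈ ms, k.pts.count (x, A) ≤ (if k = .ord x A then 1 else 0) +
      ∑ p ∈ oldT P.d P.e j, if k = p.2.kd P.d P.e p.1 j then
        (p.2.kd P.d P.e p.1 j).pts.count (x, A) else 0 := by
    intro k hk
    rcases hc.mem k hk with ⟨x', A', rfl, -⟩ | ⟨i, hi, τ, hτ, rfl⟩
    · refine le_add_right ?_
      show Multiset.count (x, A) {(x', A')} ≤ _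
      rw [Multiset.count_singleton]
      by_cases h : (x, A) = (x', A')
      · obtain ⟨rfl, rfl⟩ := Prod.mk.inj h
        rw [if_pos rfl, if_pos rfl]
      · rw [if_neg h]
        exact Nat.zero_le _
    · refine le_add_left ?_
      have h3 : (i, τ) ∈ oldT P.d P.e j := (mem_oldT hjd).2 ⟨hi, hτ⟩
      refine le_trans ?_ (single_le_sum (f := fun p : ℕ × CT =>
        if τ.kd P.d P.e i j = p.2.kd P.d P.e p.1 j then
        (p.2.kd P.d P.e p.1 j).pts.count (x, A) else 0) (fun _ _ => Nat.zero_le _) h3)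
      show _ ≤ (if τ.kd P.d P.e i j = τ.kd P.d P.e i j then _ else _)
      rw [if_pos rfl]
  rw [h1]
  refine (Multiset.sum_map_le_sum_map _ _ h2).trans (le_of_eq ?_)
  rw [Multiset.sum_map_add, DOk_sum, mul_one, DOk_swap]
  congr 1
  exact sum_congr rfl fun p _ => DOk_sum _ _ _

/-! ### Numbers -/

private theorem DOk_pow (n c : ℕ) (hc : c ≤ n) (w : ℕ) :
    n ^ w ≤ (n - c) ^ w + w * c * n ^ (w - 1) := by
  induction w with
  | zero => simp
  | succ w ih =>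
    have h1 : (n - c) ^ w ≤ n ^ w := Nat.pow_le_pow_left (Nat.sub_le _ _) _
    have h2 : n * n ^ (w - 1) * w = n ^ w * w := by
      rcases w with _ | w
      · simp
      · rw [Nat.add_sub_cancel, pow_succ]
        ring
    have h3 : n = (n - c) + c := by omega
    calc n ^ (w + 1) = n * n ^ w := by rw [pow_succ]; ring
      _ ≤ n * ((n - c) ^ w + w * c * n ^ (w - 1)) := Nat.mul_le_mul_left _ ih
      _ = n * (n - c) ^ w + c * (n * n ^ (w - 1) * w) := by ring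
      _ = n * (n - c) ^ w + c * (n ^ w * w) := by rw [h2]
      _ = ((n - c) + c) * (n - c) ^ w + c * (n ^ w * w) := by rw [← h3]
      _ = (n - c) ^ (w + 1) + c * (n - c) ^ w + c * (n ^ w * w) := by rw [pow_succ]; ring
      _ ≤ (n - c) ^ (w + 1) + c * n ^ w + c * (n ^ w * w) := by
        have := Nat.mul_le_mul_left c h1
        omega
      _ = (n - c) ^ (w + 1) + (w + 1) * c * n ^ (w + 1 - 1) := by
        rw [Nat.add_sub_cancel]
        ring

private theorem DOk_eps {P : Par} {E : ℝ} (hP : P.Ok 1 E) {j : ℕ} (hj : j ≤ P.J) : P.eps j ≤ E := by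
  obtain ⟨k, hk⟩ : ∃ k, j + k = P.J := ⟨P.J - j, by omega⟩
  induction k generalizing j with
  | zero =>
    rw [add_zero] at hk
    rw [hk]
    exact hP.epsJ
  | succ k ih =>
    have h1 := hP.eb j (by omega)
    have h2 := hP.be j (by omega)
    have h3 := ih (j := j + 1) (by omega) (by omega)
    linarith

private theorem DOk_cc_pos {P : Par} {j M₁ : ℕ} (hsz : P.Sz j M₁) {K : Finset ℕ}
    (hK : K ⊆ range j) : 1 ≤ P.cc K :=
  Nat.one_le_iff_ne_zero.2 (prod_ne_zero_iff.2 fun i hi => by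
    have := hsz.one i (mem_range.1 (hK hi)).le
    omega)

private theorem DOk_cc_le {P : Par} {j M₁ : ℕ} (hsz : P.Sz j M₁) {K : Finset ℕ}
    (hK : K ⊆ range j) {r : ℕ} (hr : r ≤ j) (hKr : K ⊆ range r) (hne : K.Nonempty) :
    P.c (r - 1) ≤ P.cc K := by
  obtain ⟨x, hx⟩ := hne
  have hxr : x < r := mem_range.1 (hKr hx)
  have h1 : P.c (r - 1) ≤ P.c x := by
    rcases Nat.lt_or_ge x (r - 1) with h | h
    · exact hsz.dec x (r - 1) h (by omega)
    · have : x = r - 1 := by omega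
      rw [this]
  refine h1.trans ?_
  refine Nat.le_of_dvd (DOk_cc_pos hsz hK) (dvd_prod_of_mem P.c hx)

/-- The hypotheses of the estimates. -/
private structure DOkH (P : Par) (j n M₀ M₁ L : ℕ) : Prop where
  ok : P.Ok 1 (P.kap P.e / 2)
  hj : j < P.J
  sz : P.Sz j M₁
  L1 : (oldT P.d P.e j).card ≤ L
  L2 : (newT P.d P.e j).card ≤ L
  Lp : 1 ≤ L
  hM : 8 * (L : ℝ) * ((P.d + 1) ^ 2 * (P.M + 1) * (P.d + 1) ^ P.d * (M₀ + 1)) ≤ P.kap P.e * M₁
  hn : 8 * (L : ℝ) * ((P.d + 1) ^ 2 * (∑ p ∈ oldT P.d P.e j, p.2.mm P + M₀ * P.c 0 + 1 : ℕ)) ≤ P.kap P.e * n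
  cn : P.c j ≤ n
  n1 : 1 ≤ n

variable {P : Par} {j n M₀ M₁ L : ℕ}

private theorem DOkH.jd (h : DOkH P j n M₀ M₁ L) : j < P.d - P.e := h.hj
private theorem DOkH.jd' (h : DOkH P j n M₀ M₁ L) : j ≤ P.d := by
  have := h.jd
  omega
private theorem DOkH.he (h : DOkH P j n M₀ M₁ L) : 2 ≤ P.e := h.ok.two

/-- the comparison of a term of the first type -/
private theorem DOkH.cmpM (h : DOkH P j n M₀ M₁ L) {i : ℕ} (hi : i ≤ j) :
    8 * (L : ℝ) * ((P.d + 1) ^ 2 * (P.M + 1) * (P.d + 1) ^ P.d * (M₀ + 1)) ≤ P.kap P.e * P.c i := by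
  refine h.hM.trans (mul_le_mul_of_nonneg_left ?_ h.ok.pos.le)
  exact_mod_cast h.sz.big i hi

private theorem DOkH.mmle (h : DOkH P j n M₀ M₁ L) {p : ℕ × CT} (hp : p ∈ oldT P.d P.e j) :
    8 * (L : ℝ) * ((P.d + 1) ^ 2 * (p.2.mm P : ℕ)) ≤ P.kap P.e * n := by
  refine le_trans ?_ h.hn
  have h1 : p.2.mm P ≤ ∑ p ∈ oldT P.d P.e j, p.2.mm P :=
    single_le_sum (f := fun p : ℕ × CT => p.2.mm P) (fun _ _ => Nat.zero_le _) hp
  have h2 : ((p.2.mm P : ℕ) : ℝ) ≤ (∑ p ∈ oldT P.d P.e j, p.2.mm P + M₀ * P.c 0 + 1 : ℕ) := by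
    exact_mod_cast h1.trans (by omega)
  have h3 : (0 : ℝ) ≤ (L : ℝ) := Nat.cast_nonneg _
  have h4 : (0 : ℝ) ≤ ((P.d : ℝ) + 1) ^ 2 := by positivity
  exact mul_le_mul_of_nonneg_left (mul_le_mul_of_nonneg_left h2 h4) (by positivity)

/-- the estimate for one old type -/
private theorem DOkH.old (h : DOkH P j n M₀ M₁ L) {p : ℕ × CT} (hp : p ∈ oldT P.d P.e j)
    {x : ℕ} {A : Finset ℕ} (hA : (x, A) ∈ (p.2.kd P.d P.e p.1 j).pts)
    (hK : (range j \ A).card < P.e) :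
    8 * (L : ℝ) * ((P.d + 1) ^ 2 * ((p.2.mm P : ℕ) * (n : ℝ) ^ p.2.w P.e)) ≤
      P.kap P.e * (P.cc (range j \ A) * (n : ℝ) ^ (P.e - (range j \ A).card)) := by
  obtain ⟨hi, hτ⟩ := (mem_oldT h.jd').1 hp
  have hn1 : (1 : ℝ) ≤ n := by exact_mod_cast h.n1
  have hcc : (1 : ℝ) ≤ P.cc (range j \ A) := by
    exact_mod_cast DOk_cc_pos h.sz sdiff_subset
  have hk : 0 < P.kap P.e := h.ok.pos
  rcases DOk_old h.he h.jd' hi hτ hA hK with hw | ⟨hw, S, hiS, hS, hmm⟩
  · have h1 : (n : ℝ) ^ p.2.w P.e * n ≤ (n : ℝ) ^ (P.e - (range j \ A).card) := by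
      rw [← pow_succ]
      exact pow_le_pow_right₀ hn1 (by omega)
    have h2 := h.mmle hp
    have h3 : (0 : ℝ) ≤ (n : ℝ) ^ p.2.w P.e := by positivity
    calc 8 * (L : ℝ) * ((P.d + 1) ^ 2 * ((p.2.mm P : ℕ) * (n : ℝ) ^ p.2.w P.e))
        = (8 * (L : ℝ) * ((P.d + 1) ^ 2 * (p.2.mm P : ℕ))) * (n : ℝ) ^ p.2.w P.e := by ring
      _ ≤ (P.kap P.e * n) * (n : ℝ) ^ p.2.w P.e := mul_le_mul_of_nonneg_right h2 h3
      _ = P.kap P.e * (1 * ((n : ℝ) ^ p.2.w P.e * n)) := by ring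
      _ ≤ P.kap P.e * (P.cc (range j \ A) * (n : ℝ) ^ (P.e - (range j \ A).card)) :=
        mul_le_mul_of_nonneg_left (mul_le_mul hcc h1 (by positivity) (by positivity)) hk.le
  · rw [hw]
    have hcK : P.cc (range j \ A) = P.c p.1 * P.cc S := by
      rw [hS]
      exact prod_insert hiS
    have h2 := h.cmpM hi.le
    have h3 : ((p.2.mm P : ℕ) : ℝ) ≤ P.M * ((P.d : ℝ) + 1) ^ P.d * P.cc S := by exact_mod_cast hmm
    have h4 : (0 : ℝ) ≤ (n : ℝ) ^ (P.e - (range j \ A).card) := by positivity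
    have h5 : (0 : ℝ) ≤ P.cc S := Nat.cast_nonneg _
    have h6 : (P.M : ℝ) * ((P.d : ℝ) + 1) ^ P.d ≤
        (P.M + 1) * ((P.d : ℝ) + 1) ^ P.d * (M₀ + 1) := by
      have h7 : (0 : ℝ) ≤ ((P.d : ℝ) + 1) ^ P.d := by positivity
      have h8 : (0 : ℝ) ≤ (M₀ : ℝ) := Nat.cast_nonneg _
      have h9 : (0 : ℝ) ≤ (P.M : ℝ) := Nat.cast_nonneg _
      nlinarith [mul_nonneg (mul_nonneg h9 h7) h8, mul_nonneg h7 h8]
    rw [hcK]
    push_cast
    have h10 : 8 * (L : ℝ) * ((P.d + 1) ^ 2 * (P.M * ((P.d : ℝ) + 1) ^ P.d)) ≤ P.kap P.e * P.c p.1 := by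
      refine le_trans ?_ h2
      have h11 : (0 : ℝ) ≤ 8 * (L : ℝ) * ((P.d : ℝ) + 1) ^ 2 := by positivity
      have h12 := mul_le_mul_of_nonneg_left h6 h11
      calc _ = 8 * (L : ℝ) * ((P.d : ℝ) + 1) ^ 2 * (P.M * ((P.d : ℝ) + 1) ^ P.d) := by ring
        _ ≤ _ := h12
        _ = _ := by ring
    calc 8 * (L : ℝ) * ((P.d + 1) ^ 2 * ((p.2.mm P : ℕ) * (n : ℝ) ^ (P.e - (range j \ A).card)))
        ≤ 8 * (L : ℝ) * ((P.d + 1) ^ 2 * ((P.M * ((P.d : ℝ) + 1) ^ P.d * P.cc S) *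
          (n : ℝ) ^ (P.e - (range j \ A).card))) := by
          gcongr
      _ = (8 * (L : ℝ) * ((P.d + 1) ^ 2 * (P.M * ((P.d : ℝ) + 1) ^ P.d))) *
          (P.cc S * (n : ℝ) ^ (P.e - (range j \ A).card)) := by ring
      _ ≤ (P.kap P.e * P.c p.1) * (P.cc S * (n : ℝ) ^ (P.e - (range j \ A).card)) :=
        mul_le_mul_of_nonneg_right h10 (mul_nonneg h5 h4)
      _ = _ := by ring

private theorem DOk_w_le {e : ℕ} (τ : CT) : τ.w e ≤ e := by
  cases τ with
  | pl k S =>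
    show e - 1 - S.card ≤ e
    omega
  | b0 S =>
    show e - 2 - S.card ≤ e
    omega
  | br r => exact Nat.zero_le _

/-- sums over the types -/
private theorem DOk_avg {α : Type} {t : Finset α} {L : ℕ} (hL : 1 ≤ L) (ht : t.card ≤ L)
    (f : α → ℕ) (R : ℝ) (hR : 0 ≤ R) (h : ∀ p ∈ t, 8 * (L : ℝ) * (f p : ℕ) ≤ R) :
    8 * ((∑ p ∈ t, f p : ℕ) : ℝ) ≤ R := by
  have hL' : (0 : ℝ) < L := by exact_mod_cast hL
  have h1 : ∑ p ∈ t, 8 * (L : ℝ) * (f p : ℕ) ≤ t.card • R := sum_le_card_nsmul _ _ _ h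
  rw [← mul_sum, nsmul_eq_mul] at h1
  have h2 : (t.card : ℝ) * R ≤ L * R := mul_le_mul_of_nonneg_right (by exact_mod_cast ht) hR
  have h3 : (L : ℝ) * (8 * ∑ p ∈ t, ((f p : ℕ) : ℝ)) ≤ L * R := by
    calc _ = 8 * (L : ℝ) * ∑ p ∈ t, ((f p : ℕ) : ℝ) := by ring
      _ ≤ _ := h1
      _ ≤ _ := h2
  push_cast
  exact le_of_mul_le_mul_left h3 hL'

private theorem DOkH.R_nonneg (h : DOkH P j n M₀ M₁ L) (a b w : ℕ) :
    0 ≤ P.kap P.e * ((a : ℝ) * b * (n : ℝ) ^ w) :=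
  mul_nonneg h.ok.pos.le (by positivity)

/-- one term of `mo` -/
private theorem DOkH.moT (h : DOkH P j n M₀ M₁ L) {ms : Multiset Kd} (hc : Cls P j n ms) {θ : ℝ}
    {s : Stp} (hs : P.Dat j n θ M₀ ms s) {p : ℕ × CT} (hp : p ∈ oldT P.d P.e j) (x : ℕ)
    (A : Finset ℕ) (hK : (range j \ A).card < P.e) :
    8 * (L : ℝ) * (s.oc p.1 p.2 * offMem j (p.2.kd P.d P.e p.1 j) x A : ℕ) ≤
      P.kap P.e * ((P.cc (range j \ A) : ℝ) * P.c j * (n : ℝ) ^ (P.e - (range j \ A).card - 1)) := by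
  obtain ⟨hi, hτ⟩ := (mem_oldT h.jd').1 hp
  have hR := h.R_nonneg (P.cc (range j \ A)) (P.c j) (P.e - (range j \ A).card - 1)
  by_cases h0 : offMem j (p.2.kd P.d P.e p.1 j) x A = 0
  · rw [h0, mul_zero, Nat.cast_zero, mul_zero]
    exact hR
  have hA := DOk_off hi hτ h0
  have hoc := hs.oc p.1 p.2
  have hcnt := hc.cnt p.1 hi p.2 hτ
  by_cases hw : p.2.w P.e = 0
  · have h1 : s.oc p.1 p.2 = 0 := by
      rw [hoc, hw, pow_zero]
      rw [hw, pow_zero] at hcnt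
      omega
    rw [h1, zero_mul, Nat.cast_zero, mul_zero]
    exact hR
  have h1 := DOk_pow n (P.c j) h.cn (p.2.w P.e)
  have h2 : s.oc p.1 p.2 ≤ p.2.mm P * (P.d * P.c j * n ^ (p.2.w P.e - 1)) := by
    have h3 := Nat.mul_le_mul_left (p.2.mm P) h1
    rw [Nat.mul_add] at h3
    have h4 : p.2.mm P * (p.2.w P.e * P.c j * n ^ (p.2.w P.e - 1)) ≤
        p.2.mm P * (P.d * P.c j * n ^ (p.2.w P.e - 1)) := by
      refine Nat.mul_le_mul_left _ (Nat.mul_le_mul_right _ (Nat.mul_le_mul_right _ ?_))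
      have := DOk_w_le (e := P.e) p.2
      have := h.ok.lt
      omega
    rw [hoc]
    omega
  have h3 := DOk_off_le h.he h.jd.le hi hτ x A
  have h4 := h.old hp hA hK
  have hn : (0 : ℝ) < n := by exact_mod_cast h.n1
  have h5 : 8 * (L : ℝ) * ((P.d + 1) ^ 2 * ((p.2.mm P : ℕ) * (n : ℝ) ^ (p.2.w P.e - 1))) ≤
      P.kap P.e * (P.cc (range j \ A) * (n : ℝ) ^ (P.e - (range j \ A).card - 1)) := by
    have e1 : (n : ℝ) ^ p.2.w P.e = (n : ℝ) ^ (p.2.w P.e - 1) * n := by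
      rw [← pow_succ]
      congr 1
      omega
    have e2 : (n : ℝ) ^ (P.e - (range j \ A).card) = (n : ℝ) ^ (P.e - (range j \ A).card - 1) * n := by
      rw [← pow_succ]
      congr 1
      omega
    rw [e1, e2] at h4
    refine le_of_mul_le_mul_right ?_ hn
    calc _ = 8 * (L : ℝ) * ((P.d + 1) ^ 2 * ((p.2.mm P : ℕ) * ((n : ℝ) ^ (p.2.w P.e - 1) * n))) := by ring
      _ ≤ _ := h4
      _ = _ := by ring
  have h6 : ((s.oc p.1 p.2 * offMem j (p.2.kd P.d P.e p.1 j) x A : ℕ) : ℝ) ≤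
      (P.d + 1) ^ 2 * ((p.2.mm P : ℕ) * (n : ℝ) ^ (p.2.w P.e - 1)) * P.c j := by
    have h7 : s.oc p.1 p.2 * offMem j (p.2.kd P.d P.e p.1 j) x A ≤
        (P.d + 1) ^ 2 * (p.2.mm P * n ^ (p.2.w P.e - 1)) * P.c j := by
      calc _ ≤ (p.2.mm P * (P.d * P.c j * n ^ (p.2.w P.e - 1))) * P.d := Nat.mul_le_mul h2 h3
        _ = (P.d * P.d) * (p.2.mm P * n ^ (p.2.w P.e - 1)) * P.c j := by ring
        _ ≤ _ := by
          refine Nat.mul_le_mul_right _ (Nat.mul_le_mul_right _ ?_)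
          rw [pow_two]
          exact Nat.mul_le_mul (Nat.le_succ _) (Nat.le_succ _)
    exact_mod_cast h7
  calc 8 * (L : ℝ) * (s.oc p.1 p.2 * offMem j (p.2.kd P.d P.e p.1 j) x A : ℕ)
      ≤ 8 * (L : ℝ) * ((P.d + 1) ^ 2 * ((p.2.mm P : ℕ) * (n : ℝ) ^ (p.2.w P.e - 1)) * P.c j) :=
        mul_le_mul_of_nonneg_left h6 (by positivity)
    _ = (8 * (L : ℝ) * ((P.d + 1) ^ 2 * ((p.2.mm P : ℕ) * (n : ℝ) ^ (p.2.w P.e - 1)))) * P.c j := by ring
    _ ≤ (P.kap P.e * (P.cc (range j \ A) * (n : ℝ) ^ (P.e - (range j \ A).card - 1))) * P.c j :=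
        mul_le_mul_of_nonneg_right h5 (Nat.cast_nonneg _)
    _ = _ := by ring

private theorem DOkH.mo (h : DOkH P j n M₀ M₁ L) {ms : Multiset Kd} (hc : Cls P j n ms) {θ : ℝ}
    {s : Stp} (hs : P.Dat j n θ M₀ ms s) (x : ℕ) (A : Finset ℕ) (hK : (range j \ A).card < P.e) :
    8 * (s.mo P.d P.e j x A : ℝ) ≤
      P.kap P.e * ((P.cc (range j \ A) : ℝ) * P.c j * (n : ℝ) ^ (P.e - (range j \ A).card - 1)) :=
  DOk_avg h.Lp h.L1 _ _ (h.R_nonneg _ _ _) fun _ hp => h.moT hc hs hp x A hK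

/-- no member of a moved cluster -/
private theorem DOkH.mo_zero (h : DOkH P j n M₀ M₁ L) {ms : Multiset Kd} (hc : Cls P j n ms) {θ : ℝ}
    {s : Stp} (hs : P.Dat j n θ M₀ ms s) {x : ℕ} {A : Finset ℕ}
    (hx : x ≠ P.e ∨ A = range j ∨ P.e ≤ (range j \ A).card) : s.mo P.d P.e j x A = 0 := by
  refine sum_eq_zero fun p hp => ?_
  obtain ⟨hi, hτ⟩ := (mem_oldT h.jd').1 hp
  by_cases h0 : offMem j (p.2.kd P.d P.e p.1 j) x A = 0
  · rw [h0, mul_zero]
  have hA := DOk_off hi hτ h0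
  have hk := pts_kd h.he hi hτ _ hA
  by_cases hw : p.2.w P.e = 0
  · have hoc := hs.oc p.1 p.2
    have hcnt := hc.cnt p.1 hi p.2 hτ
    have h1 : s.oc p.1 p.2 = 0 := by
      rw [hoc, hw, pow_zero]
      rw [hw, pow_zero] at hcnt
      omega
    rw [h1, zero_mul]
  exfalso
  rcases hx with hx | hx | hx
  · exact hx hk.1
  · have h2 := hk.2.1
    rw [hx] at h2
    exact notMem_erase p.1 (range j) (h2 (mem_range.2 hi))
  · have h2 := DOk_lt h.he hi hτ hA hw
    omega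

private theorem DOkH.cnt_new (h : DOkH P j n M₀ M₁ L) {τ : CT} (hτ : τ ∈ newT P.d P.e j) (x : ℕ)
    (A : Finset ℕ) : ((τ.kd P.d P.e j (j + 1)).pts).count (x, A) ≤ P.d := by
  refine (Multiset.count_le_card _ _).trans ?_
  rw [DOk_card]
  exact (nm_kd h.he (by have := h.jd; omega) (Nat.lt_succ_self j) ((mem_newT h.he).1 hτ)).2

private theorem DOkH.mn_zero (h : DOkH P j n M₀ M₁ L) {s : Stp} {x : ℕ} {A : Finset ℕ}
    (hx : x ≠ P.e ∨ (P.e ≤ (range j \ A).card)) : s.mn P.d P.e j x A = 0 := by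
  refine sum_eq_zero fun τ hτ => ?_
  have hτ' := (mem_newT h.he).1 hτ
  by_cases h0 : ((τ.kd P.d P.e j (j + 1)).pts).count (x, A) = 0
  · rw [h0, mul_zero]
  exfalso
  have hA : (x, A) ∈ (τ.kd P.d P.e j (j + 1)).pts := Multiset.count_ne_zero.1 h0
  have he := h.he
  rcases hx with hx | hx
  · exact hx (pts_kd h.he (Nat.lt_succ_self j) hτ' _ hA).1
  · rcases DOk_new hτ' hA with h1 | ⟨r, -, -, -, -, h1⟩
    · rw [h1, card_empty] at hx
      omega
    · omega

private theorem DOkH.mn (h : DOkH P j n M₀ M₁ L) {ms : Multiset Kd} {θ : ℝ}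
    {s : Stp} (hs : P.Dat j n θ M₀ ms s) (x : ℕ) (A : Finset ℕ) (hK : (range j \ A).Nonempty) :
    8 * (s.mn P.d P.e j x A : ℝ) ≤
      P.kap P.e * ((P.cc (range j \ A) : ℝ) * P.c j * (n : ℝ) ^ (P.e - (range j \ A).card - 1)) := by
  refine DOk_avg h.Lp h.L2 _ _ (h.R_nonneg _ _ _) fun τ hτ => ?_
  have hτ' := (mem_newT h.he).1 hτ
  by_cases h0 : ((τ.kd P.d P.e j (j + 1)).pts).count (x, A) = 0
  · rw [h0, mul_zero, Nat.cast_zero, mul_zero]
    exact h.R_nonneg _ _ _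
  have hA : (x, A) ∈ (τ.kd P.d P.e j (j + 1)).pts := Multiset.count_ne_zero.1 h0
  rcases DOk_new hτ' hA with h1 | ⟨r, rfl, -, hr, hKr, -⟩
  · exact absurd h1 hK.ne_empty
  have h2 := hs.nw _ hτ
  have h3 : nwB P.e P.c M₀ n (.br r) = M₀ * P.c (r - 1) := rfl
  rw [h3] at h2
  have h4 := DOk_cc_le h.sz sdiff_subset hr hKr hK
  have h5 := h.cnt_new hτ x A
  have h6 : s.nw (.br r) * (((CT.br r).kd P.d P.e j (j + 1)).pts).count (x, A) ≤
      (P.d * M₀) * P.cc (range j \ A) := by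
    calc _ ≤ (M₀ * P.cc (range j \ A)) * P.d := Nat.mul_le_mul (h2.trans (Nat.mul_le_mul_left _ h4)) h5
      _ = _ := by ring
  have h7 := h.cmpM (le_refl j)
  have h8 : 8 * (L : ℝ) * (P.d * M₀) ≤ P.kap P.e * P.c j := by
    refine le_trans (mul_le_mul_of_nonneg_left ?_ (by positivity)) h7
    have h9 : P.d * M₀ ≤ (P.d + 1) ^ 2 * (P.M + 1) * (P.d + 1) ^ P.d * (M₀ + 1) := by
      have h10 : P.d ≤ (P.d + 1) ^ 2 * (P.M + 1) * (P.d + 1) ^ P.d := by
        calc P.d ≤ (P.d + 1) ^ 2 := by rw [pow_two]; nlinarith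
          _ = (P.d + 1) ^ 2 * 1 * 1 := by ring
          _ ≤ _ := Nat.mul_le_mul (Nat.mul_le_mul_left _ (by omega)) (Nat.one_le_pow _ _ (Nat.succ_pos _))
      exact Nat.mul_le_mul h10 (Nat.le_succ _)
    exact_mod_cast h9
  have hn1 : (1 : ℝ) ≤ (n : ℝ) ^ (P.e - (range j \ A).card - 1) :=
    one_le_pow₀ (by exact_mod_cast h.n1)
  calc 8 * (L : ℝ) * (s.nw (.br r) * (((CT.br r).kd P.d P.e j (j + 1)).pts).count (x, A) : ℕ)
      ≤ 8 * (L : ℝ) * ((P.d * M₀) * P.cc (range j \ A)) :=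
        mul_le_mul_of_nonneg_left (by exact_mod_cast h6) (by positivity)
    _ = (8 * (L : ℝ) * (P.d * M₀)) * (P.cc (range j \ A) * 1) := by ring
    _ ≤ (P.kap P.e * P.c j) * (P.cc (range j \ A) * (n : ℝ) ^ (P.e - (range j \ A).card - 1)) := by
        refine mul_le_mul h8 (mul_le_mul_of_nonneg_left hn1 (Nat.cast_nonneg _)) (by positivity) ?_
        exact mul_nonneg h.ok.pos.le (Nat.cast_nonneg _)
    _ = _ := by ring

/-- the members of the new clusters of the main kind -/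
private theorem DOkH.mn_main (h : DOkH P j n M₀ M₁ L) {ms : Multiset Kd} {θ : ℝ}
    {s : Stp} (hs : P.Dat j n θ M₀ ms s) (x : ℕ) (A : Finset ℕ) :
    8 * (s.mn P.d P.e j x A : ℝ) ≤ 2 * (P.kap P.e * (P.c j * (n : ℝ) ^ (P.e - 1))) := by
  have hn1 : (1 : ℝ) ≤ n := by exact_mod_cast h.n1
  have hcj : (1 : ℝ) ≤ P.c j := by exact_mod_cast h.sz.one j (le_refl j)
  have hk := h.ok.pos
  have he := h.he
  refine DOk_avg h.Lp h.L2 _ _ (by positivity) fun τ hτ => ?_
  have h2 : s.nw τ ≤ M₀ * n ^ (P.e - 1) + M₀ * P.c 0 := by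
    refine (hs.nw _ hτ).trans ?_
    have hτ' := (mem_newT h.he).1 hτ
    cases τ with
    | pl k S => exact Nat.le_add_right _ _
    | b0 S =>
      refine le_trans (Nat.mul_le_mul_left _ ?_) (Nat.le_add_right _ _)
      exact Nat.pow_le_pow_right h.n1 (by omega)
    | br r =>
      refine le_trans (Nat.mul_le_mul_left _ ?_) (Nat.le_add_left _ _)
      obtain ⟨h3, h4⟩ := hτ'
      rcases Nat.eq_zero_or_pos (r - 1) with h5 | h5
      · rw [h5]
      · exact h.sz.dec 0 (r - 1) h5 (by omega)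
  have h5 := h.cnt_new hτ x A
  have h6 : s.nw τ * ((τ.kd P.d P.e j (j + 1)).pts).count (x, A) ≤
      (P.d * M₀) * n ^ (P.e - 1) + P.d * (M₀ * P.c 0) := by
    calc _ ≤ (M₀ * n ^ (P.e - 1) + M₀ * P.c 0) * P.d := Nat.mul_le_mul h2 h5
      _ = _ := by ring
  have h7 := h.cmpM (le_refl j)
  have h8 : 8 * (L : ℝ) * (P.d * M₀) ≤ P.kap P.e * P.c j := by
    refine le_trans (mul_le_mul_of_nonneg_left ?_ (by positivity)) h7
    have h9 : P.d * M₀ ≤ (P.d + 1) ^ 2 * (P.M + 1) * (P.d + 1) ^ P.d * (M₀ + 1) := by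
      have h10 : P.d ≤ (P.d + 1) ^ 2 * (P.M + 1) * (P.d + 1) ^ P.d := by
        calc P.d ≤ (P.d + 1) ^ 2 := by rw [pow_two]; nlinarith
          _ = (P.d + 1) ^ 2 * 1 * 1 := by ring
          _ ≤ _ := Nat.mul_le_mul (Nat.mul_le_mul_left _ (by omega)) (Nat.one_le_pow _ _ (Nat.succ_pos _))
      exact Nat.mul_le_mul h10 (Nat.le_succ _)
    exact_mod_cast h9
  have h11 : 8 * (L : ℝ) * (P.d * (M₀ * P.c 0)) ≤ P.kap P.e * n := by
    refine le_trans (mul_le_mul_of_nonneg_left ?_ (by positivity)) h.hn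
    have h12 : P.d * (M₀ * P.c 0) ≤ (P.d + 1) ^ 2 * (∑ p ∈ oldT P.d P.e j, p.2.mm P + M₀ * P.c 0 + 1) := by
      refine Nat.mul_le_mul ?_ (by omega)
      rw [pow_two]
      nlinarith
    exact_mod_cast h12
  have h13 : (n : ℝ) ≤ P.c j * (n : ℝ) ^ (P.e - 1) := by
    calc (n : ℝ) = 1 * (n : ℝ) ^ 1 := by rw [pow_one, one_mul]
      _ ≤ _ := mul_le_mul hcj (pow_le_pow_right₀ hn1 (by omega)) (by positivity) (by positivity)
  have h14 : (0 : ℝ) ≤ (n : ℝ) ^ (P.e - 1) := by positivity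
  calc 8 * (L : ℝ) * (s.nw τ * ((τ.kd P.d P.e j (j + 1)).pts).count (x, A) : ℕ)
      ≤ 8 * (L : ℝ) * ((P.d * M₀) * (n : ℝ) ^ (P.e - 1) + P.d * (M₀ * P.c 0)) :=
        mul_le_mul_of_nonneg_left (by exact_mod_cast h6) (by positivity)
    _ = (8 * (L : ℝ) * (P.d * M₀)) * (n : ℝ) ^ (P.e - 1) + 8 * (L : ℝ) * (P.d * (M₀ * P.c 0)) := by ring
    _ ≤ (P.kap P.e * P.c j) * (n : ℝ) ^ (P.e - 1) + P.kap P.e * n :=
        add_le_add (mul_le_mul_of_nonneg_right h8 h14) h11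
    _ ≤ (P.kap P.e * P.c j) * (n : ℝ) ^ (P.e - 1) + P.kap P.e * (P.c j * (n : ℝ) ^ (P.e - 1)) :=
        add_le_add le_rfl (mul_le_mul_of_nonneg_left h13 hk.le)
    _ = _ := by ring

/-- the members of all old clusters -/
private theorem DOkH.mem (h : DOkH P j n M₀ M₁ L) {ms : Multiset Kd} (hc : Cls P j n ms)
    (x : ℕ) (A : Finset ℕ) (hK : (range j \ A).card < P.e) :
    8 * ((∑ p ∈ oldT P.d P.e j, ms.count (p.2.kd P.d P.e p.1 j) *
      (p.2.kd P.d P.e p.1 j).pts.count (x, A) : ℕ) : ℝ) ≤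
      P.kap P.e * (P.cc (range j \ A) * (n : ℝ) ^ (P.e - (range j \ A).card)) := by
  have hk := h.ok.pos
  refine DOk_avg h.Lp h.L1 _ _ (by positivity) fun p hp => ?_
  obtain ⟨hi, hτ⟩ := (mem_oldT h.jd').1 hp
  by_cases h0 : (p.2.kd P.d P.e p.1 j).pts.count (x, A) = 0
  · rw [h0, mul_zero, Nat.cast_zero, mul_zero]
    positivity
  have hA : (x, A) ∈ (p.2.kd P.d P.e p.1 j).pts := Multiset.count_ne_zero.1 h0
  have h4 := h.old hp hA hK
  have h5 : (p.2.kd P.d P.e p.1 j).pts.count (x, A) ≤ P.d := by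
    refine (Multiset.count_le_card _ _).trans ?_
    rw [DOk_card]
    exact (nm_kd h.he h.jd.le hi hτ).2
  have h6 : ms.count (p.2.kd P.d P.e p.1 j) * (p.2.kd P.d P.e p.1 j).pts.count (x, A) ≤
      (P.d + 1) ^ 2 * (p.2.mm P * n ^ p.2.w P.e) := by
    calc _ ≤ (p.2.mm P * n ^ p.2.w P.e) * P.d := Nat.mul_le_mul (hc.cnt p.1 hi p.2 hτ) h5
      _ = P.d * (p.2.mm P * n ^ p.2.w P.e) := by ring
      _ ≤ _ := by
        refine Nat.mul_le_mul_right _ ?_
        rw [pow_two]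
        nlinarith
  refine le_trans (mul_le_mul_of_nonneg_left ?_ (by positivity)) h4
  exact_mod_cast h6

private theorem DOkH.lo (h : DOkH P j n M₀ M₁ L) {ms : Multiset Kd} (hc : Cls P j n ms) {θ : ℝ}
    {s : Stp} (hs : P.Dat j n θ M₀ ms s) (x : ℕ) (A : Finset ℕ) (hA : A ⊆ range j) :
    s.mo P.d P.e j x A + s.mn P.d P.e j x A ≤ s.T x A := by
  have hk := h.ok.pos
  have he := h.he
  by_cases hx : x = P.e
  · subst hx
    by_cases hAr : A = range j
    · rw [h.mo_zero hc hs (Or.inr (Or.inl hAr)), zero_add]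
      have h1 := h.mn_main hs P.e A
      have h2 := (abs_le.1 hs.tuw).1
      have h3 := DOk_eps h.ok (j := j + 1) h.hj
      rw [hAr] at h1 ⊢
      have hB : (0 : ℝ) ≤ P.c j * (n : ℝ) ^ (P.e - 1) := by positivity
      have h4 : P.eps (j + 1) * P.c j * (n : ℝ) ^ (P.e - 1) ≤
          P.kap P.e / 2 * (P.c j * (n : ℝ) ^ (P.e - 1)) := by
        rw [mul_assoc]
        exact mul_le_mul_of_nonneg_right h3 hB
      have h5 : 2 * (P.kap P.e * (P.c j * (n : ℝ) ^ (P.e - 1))) ≤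
          P.kap P.e * P.e * P.c j * (n : ℝ) ^ (P.e - 1) := by
        have h6 : (2 : ℝ) ≤ P.e := by exact_mod_cast he
        have h7 := mul_le_mul_of_nonneg_right h6 (mul_nonneg hk.le hB)
        calc _ ≤ (P.e : ℝ) * (P.kap P.e * (P.c j * (n : ℝ) ^ (P.e - 1))) := h7
          _ = _ := by ring
      have h8 : 0 ≤ P.kap P.e * (P.c j * (n : ℝ) ^ (P.e - 1)) := mul_nonneg hk.le hB
      have h9 : (s.mn P.d P.e j P.e (range j) : ℝ) ≤ s.T P.e (range j) := by linarith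
      exact_mod_cast h9
    · have hne : (range j \ A).Nonempty := by
        rw [nonempty_iff_ne_empty]
        intro h0
        exact hAr (hA.antisymm (sdiff_eq_empty_iff_subset.1 h0))
      rcases Nat.lt_or_ge (range j \ A).card P.e with hK | hK
      · have h1 := h.mo hc hs P.e A hK
        have h2 := h.mn hs P.e A hne
        have h3 := (hs.gt P.e A he h.ok.lt hA hK.le (Or.inr hAr)).low hk.ne' hK
        have h4 := h.R_nonneg (P.cc (range j \ A)) (P.c j) (P.e - (range j \ A).card - 1)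
        have h5 : ((s.mo P.d P.e j P.e A + s.mn P.d P.e j P.e A : ℕ) : ℝ) ≤ s.T P.e A := by
          push_cast
          refine le_trans ?_ h3
          have h6 : P.kap P.e / 2 * ((P.cc (range j \ A) : ℝ) * P.c j) *
              (n : ℝ) ^ (P.e - (range j \ A).card - 1) =
              (P.kap P.e * ((P.cc (range j \ A) : ℝ) * P.c j *
                (n : ℝ) ^ (P.e - (range j \ A).card - 1))) / 2 := by ring
          rw [h6]
          linarith
        exact_mod_cast h5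
      · rw [h.mo_zero hc hs (Or.inr (Or.inr hK)), h.mn_zero (Or.inr hK)]
        exact Nat.zero_le _
  · rw [h.mo_zero hc hs (Or.inl hx), h.mn_zero (Or.inl hx)]
    exact Nat.zero_le _

private theorem DOkH.T_le (h : DOkH P j n M₀ M₁ L) {ms : Multiset Kd} {θ : ℝ}
    {s : Stp} (hs : P.Dat j n θ M₀ ms s) (x : ℕ) (A : Finset ℕ) (hA : A ⊆ range j)
    (hx : x ≠ P.e ∨ A ≠ range j) : s.T x A ≤ npt ms x A := by
  by_cases h1 : 2 ≤ x ∧ x < P.d ∧ (range j \ A).card ≤ x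
  · exact (hs.gt x A h1.1 h1.2.1 hA h1.2.2 hx).le
  · rw [hs.out x A hA h1]
    exact Nat.zero_le _

private theorem DOkH.hi (h : DOkH P j n M₀ M₁ L) {ms : Multiset Kd} (hc : Cls P j n ms) {θ : ℝ}
    {s : Stp} (hs : P.Dat j n θ M₀ ms s) (x : ℕ) (A : Finset ℕ) (hA : A ⊆ range j) :
    s.T x A ≤ s.mo P.d P.e j x A + ms.count (.ord x A) := by
  have hk := h.ok.pos
  have he := h.he
  have hnp := DOk_npt h.jd' hc x A
  by_cases hx : x = P.e
  · subst hx
    by_cases hAr : A = range j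
    · rw [hAr]
      exact hs.tu.trans (Nat.le_add_left _ _)
    · rcases lt_trichotomy (range j \ A).card P.e with hK | hK | hK
      · have hG := hs.gt P.e A he h.ok.lt hA hK.le (Or.inr hAr)
        have h1 := hG.half hk.ne'
        have h2 := h.mem hc P.e A hK
        have h3 := (abs_le.1 (hc.win P.e A he h.ok.lt hA hK (Or.inr hAr))).1
        have h4 := DOk_eps h.ok (j := j) h.hj.le
        have hB : (0 : ℝ) ≤ P.cc (range j \ A) * (n : ℝ) ^ (P.e - (range j \ A).card) := by positivity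
        have h5 : P.eps j * P.cc (range j \ A) * (n : ℝ) ^ (P.e - (range j \ A).card) ≤
            P.kap P.e / 2 * (P.cc (range j \ A) * (n : ℝ) ^ (P.e - (range j \ A).card)) := by
          rw [mul_assoc]
          exact mul_le_mul_of_nonneg_right h4 hB
        have h6 : P.kap P.e * (P.cc (range j \ A) * (n : ℝ) ^ (P.e - (range j \ A).card)) ≤
            P.nat P.e (range j \ A) * P.cc (range j \ A) * (n : ℝ) ^ (P.e - (range j \ A).card) := by
          have h7 : (1 : ℝ) ≤ ((P.e.descFactorial (range j \ A).card : ℕ) : ℝ) := by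
            exact_mod_cast Nat.one_le_iff_ne_zero.2 fun h0 => by
              rw [Nat.descFactorial_eq_zero_iff_lt] at h0
              omega
          have h8 := mul_le_mul_of_nonneg_right h7 (mul_nonneg hk.le hB)
          rw [one_mul] at h8
          refine h8.trans (le_of_eq ?_)
          unfold Par.nat
          ring
        have h9 : 0 ≤ P.kap P.e * (P.cc (range j \ A) * (n : ℝ) ^ (P.e - (range j \ A).card)) :=
          mul_nonneg hk.le hB
        have h10 : (2 : ℝ) * ((∑ p ∈ oldT P.d P.e j, ms.count (p.2.kd P.d P.e p.1 j) *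
            (p.2.kd P.d P.e p.1 j).pts.count (P.e, A) : ℕ) : ℝ) ≤ npt ms P.e A := by linarith
        have h11 : 2 * (∑ p ∈ oldT P.d P.e j, ms.count (p.2.kd P.d P.e p.1 j) *
            (p.2.kd P.d P.e p.1 j).pts.count (P.e, A)) ≤ npt ms P.e A := by exact_mod_cast h10
        omega
      · rw [(hs.gt P.e A he h.ok.lt hA hK.le (Or.inr hAr)).zero hK]
        exact Nat.zero_le _
      · rw [hs.out P.e A hA fun h0 => by omega]
        exact Nat.zero_le _
  · have h1 := h.T_le hs x A hA (Or.inl hx)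
    have h2 : ∑ p ∈ oldT P.d P.e j, ms.count (p.2.kd P.d P.e p.1 j) *
        (p.2.kd P.d P.e p.1 j).pts.count (x, A) = 0 := by
      refine sum_eq_zero fun p hp => ?_
      obtain ⟨hi, hτ⟩ := (mem_oldT h.jd').1 hp
      have h4 : (p.2.kd P.d P.e p.1 j).pts.count (x, A) = 0 :=
        Multiset.count_eq_zero.2 fun h3 => hx (pts_kd he hi hτ _ h3).1
      rw [h4, mul_zero]
    omega

private theorem DOkH.final (h : DOkH P j n M₀ M₁ L) {ms : Multiset Kd} (hc : Cls P j n ms) {θ : ℝ}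
    {s : Stp} (hs : P.Dat j n θ M₀ ms s) : s.Ok P.d P.e j ms where
  oc := by
    intro i _ τ _
    rw [hs.oc]
    exact Nat.sub_le _ _
  oc0 := by
    intro i hi τ hτ hw
    have hcnt := hc.cnt i hi τ hτ
    rw [hs.oc, hw, pow_zero]
    rw [hw, pow_zero] at hcnt
    omega
  lo := h.lo hc hs
  hi := h.hi hc hs

theorem dat_ok (d e : ℕ) (kap : ℕ → ℝ) (hk : Crit d e kap) (M₀ : ℕ) : ∃ E : ℝ, 0 < E ∧ ∀ M : ℕ, ∃ M₁ : ℕ,
    ∀ P : Par, P.d = d → P.e = e → P.kap = kap → P.M = M → P.Ok 1 E → ∀ j < P.J, P.Sz j M₁ → ∀ θ : ℝ, 0 < θ →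
      ∃ n₀ : ℕ, ∀ n, n₀ ≤ n → ∀ ms, Cls P j n ms → ∀ s : Stp, P.Dat j n θ M₀ ms s → s.Ok d e j ms := by
  have hpos := hk.pos
  refine ⟨kap e / 2, by positivity, fun M => ?_⟩
  obtain ⟨L, hL⟩ : ∃ L, L = ∑ j ∈ range (d + 1), ((oldT d e j).card + (newT d e j).card) + 1 := ⟨_, rfl⟩
  have hLj : ∀ j, j ≤ d → (oldT d e j).card + (newT d e j).card ≤ L := by
    intro j hj
    rw [hL]
    have h1 := single_le_sum (f := fun j => (oldT d e j).card + (newT d e j).card)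
      (fun _ _ => Nat.zero_le _) (mem_range.2 (Nat.lt_succ_of_le hj))
    exact h1.trans (Nat.le_succ _)
  obtain ⟨M₁, hM₁⟩ := exists_nat_ge
    (8 * (L : ℝ) * (((d : ℝ) + 1) ^ 2 * (M + 1) * ((d : ℝ) + 1) ^ d * (M₀ + 1)) / kap e)
  rw [div_le_iff₀ hpos] at hM₁
  refine ⟨M₁, ?_⟩
  intro P hd he hkap hM hP j hj hsz θ _
  subst hd he hkap hM
  obtain ⟨n₁, hn₁⟩ := exists_nat_ge
    (8 * (L : ℝ) * (((P.d : ℝ) + 1) ^ 2 * (∑ p ∈ oldT P.d P.e j, p.2.mm P + M₀ * P.c 0 + 1 : ℕ)) / P.kap P.e)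
  rw [div_le_iff₀ hpos] at hn₁
  refine ⟨max n₁ (max (P.c j) 1), ?_⟩
  intro n hn ms hc s hs
  have hjd : j ≤ P.d := by
    have : j < P.d - P.e := hj
    omega
  have h1 := hLj j hjd
  have h : DOkH P j n M₀ M₁ L :=
    { ok := hP
      hj := hj
      sz := hsz
      L1 := by omega
      L2 := by omega
      Lp := by omega
      hM := by linarith
      hn := by
        refine hn₁.trans ?_
        rw [mul_comm]
        refine mul_le_mul_of_nonneg_left ?_ hpos.le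
        exact_mod_cast (le_max_left _ _).trans hn
      cn := ((le_max_left _ _).trans (le_max_right _ _)).trans hn
      n1 := ((le_max_right _ _).trans (le_max_right _ _)).trans hn }
  exact h.final hc hs

end Pool.Agent.GD
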