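import Pool.Agent.GD.Cls

/-!
# General d, numerical block: definitions
-/

set_option autoImplicit false

namespace Pool.Agent.GD

open Finset

/-- The object is put on `L_j`. -/
def onK (j : ℕ) : Kd → Kd
  | .ord x A => .ord x (insert j A)
  | .cl e dl i As => .cl e dl i (As.map (insert j))

/-- The object is put off `L_j`: of a cluster with at least two members the first one stays on `L_j`. -/
def offK (j : ℕ) : Kd → Kd
  | .ord x A => .ord x A
  | .cl e dl i (A :: B :: As) => .cl e dl i (insert j A :: B :: As)
  | .cl e dl i As => .cl e dl i As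

/-- The types of the new clusters of the level `j`. -/
def newT (d e j : ℕ) : Finset CT :=
  (Icc 2 ((d - j - 1) / (e - 1))).image (fun k => CT.pl k ∅) ∪
    (if (d - j - 1) % (e - 1) = 0 then ∅ else {CT.b0 ∅}) ∪ (Icc 1 j).image CT.br

/-- The configuration of the level `j + 1`: `On` is put on `L_j`, `Off` off `L_j`, `nw τ` new clusters. -/
def bld (d e j : ℕ) (On Off : Multiset Kd) (nw : CT → ℕ) : Multiset Kd :=
  On.map (onK j) + Off.map (offK j) + ∑ τ ∈ newT d e j, nw τ • {τ.kd d e j (j + 1)}

/-- The exponent of the trace of a new cluster. -/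
def CT.E (d e j : ℕ) : CT → ℕ
  | .pl k _ => k * (e - 1) + 1
  | .b0 _ => d - j
  | .br r => d - j + r

/-- The set of the blocks on which the trace of a new cluster vanishes. -/
def CT.A (j : ℕ) : CT → Finset ℕ
  | .pl _ _ => range j
  | .b0 _ => range j
  | .br r => Ico r j

end Pool.Agent.GD
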