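import Pool.Agent.GD.N.Cost
import Pool.Agent.GD.N.Defs

/-!
# General d, numerical block: the ladder

The digits of the level `j` in decreasing order of the cost: `pl k ∅` (`k = 2, …`), `b0 ∅` (if it exists),
`br 1, …, br j`; the last one has the exponent `d` and the support `range j`: a simple point.  Adding a trace
point `(E, A)` to `X` lowers `v` by `vd (d - E) (range j ∩ A) c n X` (`vd_cons`), which is in `[lo, hi] * cc A *
n ^ (d - E - |A|)` by `cost` (`A = range j`, `d - E ≥ j`, or `A = Ico r j`, `d - E = j - r`), if `E < d`.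
Start: `0 < v - g ≤ B cc n ^ (d - e - j)`.  `greedy` for every digit: the number of the points of the digit is at
most the ratio of the previous bound and the new cost: `pl k`: `(max B hi / lo) * n ^ (e - 1)`; `b0`: `(max B hi / lo) *
n ^ (e - 2)`; `br r`: `(hi / lo) * c (r - 1)` (for `r = 1` the previous cost is that of `E = d - j`, the last `pl` or
`b0`).  The last digit (`E = d`; `j = 0`: `b0` or the last `pl`; `j ≥ 1`: `br j`) is the number of the simple points:
`newR` = what remains, exactly.  All partial configurations are in the class by hypothesis (`nw ≤` bound).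
-/

set_option autoImplicit false

namespace Pool.Agent.GD

open Finset

/-- One digit. -/
theorem greedy (f : ℕ → ℤ) (h lo hi : ℝ) (B : ℕ) (hlo : 0 < lo) (h0 : 0 < f 0) (h1 : (f 0 : ℝ) ≤ h)
    (hB : h ≤ lo * B) (hs : ∀ m < B, lo ≤ ((f m - f (m + 1) : ℤ) : ℝ) ∧ ((f m - f (m + 1) : ℤ) : ℝ) ≤ hi) :
    ∃ m < B, 0 < f m ∧ (f m : ℝ) ≤ hi ∧ (m : ℝ) * lo < h := by
  classical
  have hlin : ∀ m ≤ B, (f m : ℝ) ≤ f 0 - m * lo := by
    intro m
    induction m with
    | zero =>
      intro _
      simp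
    | succ m ih =>
      intro hm
      have h2 := ih (by omega)
      have h3 := (hs m (by omega)).1
      push_cast at h3 ⊢
      linarith
  have hB0 : f B ≤ 0 := by
    have h2 := hlin B le_rfl
    have h3 : (f B : ℝ) ≤ 0 := by linarith
    exact_mod_cast h3
  have hex : ∃ m, f m ≤ 0 := ⟨B, hB0⟩
  have hfB : Nat.find hex ≤ B := Nat.find_min' hex hB0
  have hsp := Nat.find_spec hex
  have hmin : ∀ m < Nat.find hex, ¬ f m ≤ 0 := fun m hm => Nat.find_min hex hm
  obtain ⟨k, hk⟩ : ∃ k, Nat.find hex = k + 1 := Nat.exists_eq_succ_of_ne_zero (fun h2 => by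
    rw [h2] at hsp
    omega)
  rw [hk] at hfB hsp hmin
  have h5 : 0 < f k := not_le.1 (hmin k (by omega))
  have h6 := (hs k (by omega)).2
  have h7 := hlin k (by omega)
  have h8 : (f (k + 1) : ℝ) ≤ 0 := by exact_mod_cast hsp
  have h9 : (0 : ℝ) < f k := by exact_mod_cast h5
  refine ⟨k, by omega, h5, ?_, by linarith⟩
  push_cast at h6
  linarith

/-- The trace points of the new clusters, without the simple points. -/
def newP (d e j : ℕ) (nw : CT → ℕ) : Multiset Kd :=
  ∑ τ ∈ newT d e j, if τ.E d e j = d then 0 else nw τ • {Kd.ord (τ.E d e j) (τ.A j)}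

/-- The number of the simple points. -/
def newR (d e j : ℕ) (nw : CT → ℕ) : ℕ := ∑ τ ∈ newT d e j, if τ.E d e j = d then nw τ else 0

/-- The bound for the number of the new clusters. -/
def nwB (e : ℕ) (c : ℕ → ℕ) (M n : ℕ) : CT → ℕ
  | .pl _ _ => M * n ^ (e - 1)
  | .b0 _ => M * n ^ (e - 2)
  | .br r => M * c (r - 1)

/-! ### Auxiliary facts -/

private theorem gr_mem {d e j : ℕ} {τ : CT} : τ ∈ newT d e j ↔
    (∃ k, 2 ≤ k ∧ k ≤ (d - j - 1) / (e - 1) ∧ τ = .pl k ∅) ∨
      ((d - j - 1) % (e - 1) ≠ 0 ∧ τ = .b0 ∅) ∨ ∃ r, 1 ≤ r ∧ r ≤ j ∧ τ = .br r := by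
  unfold newT
  rw [mem_union, mem_union, mem_image, mem_image]
  constructor
  · rintro ((⟨k, hk, rfl⟩ | h) | ⟨r, hr, rfl⟩)
    · rw [mem_Icc] at hk
      exact Or.inl ⟨k, hk.1, hk.2, rfl⟩
    · split_ifs at h with h0
      · exact absurd h (notMem_empty _)
      · exact Or.inr (Or.inl ⟨h0, mem_singleton.1 h⟩)
    · rw [mem_Icc] at hr
      exact Or.inr (Or.inr ⟨r, hr.1, hr.2, rfl⟩)
  · rintro (⟨k, h1, h2, rfl⟩ | ⟨h0, rfl⟩ | ⟨r, h1, h2, rfl⟩)
    · exact Or.inl (Or.inl ⟨k, mem_Icc.2 ⟨h1, h2⟩, rfl⟩)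
    · refine Or.inl (Or.inr ?_)
      rw [if_neg h0]
      exact mem_singleton_self _
    · exact Or.inr ⟨r, mem_Icc.2 ⟨h1, h2⟩, rfl⟩

private theorem gr_E {d e j : ℕ} (he : 2 ≤ e) (hj : j < d - e) {τ : CT} (h : τ ∈ newT d e j) :
    e < τ.E d e j ∧ τ.E d e j ≤ d := by
  rcases gr_mem.1 h with ⟨k, h1, h2, rfl⟩ | ⟨h0, rfl⟩ | ⟨r, h1, h2, rfl⟩
  · show e < k * (e - 1) + 1 ∧ k * (e - 1) + 1 ≤ d
    have h3 : k * (e - 1) ≤ d - j - 1 := (Nat.mul_le_mul_right _ h2).trans (Nat.div_mul_le_self _ _)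
    have h4 : 2 * (e - 1) ≤ k * (e - 1) := Nat.mul_le_mul_right _ h1
    omega
  · show e < d - j ∧ d - j ≤ d
    omega
  · show e < d - j + r ∧ d - j + r ≤ d
    omega

private theorem gr_update (d e j : ℕ) (nw : CT → ℕ) {τ : CT} (h : τ ∈ newT d e j) (m : ℕ) :
    newP d e j (Function.update nw τ m) = (if τ.E d e j = d then 0 else m • {Kd.ord (τ.E d e j) (τ.A j)}) +
      ∑ τ' ∈ (newT d e j).erase τ,
        if τ'.E d e j = d then 0 else nw τ' • {Kd.ord (τ'.E d e j) (τ'.A j)} := by
  unfold newP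
  rw [← Finset.add_sum_erase _ _ h, Function.update_self]
  congr 1
  refine Finset.sum_congr rfl fun τ' hτ' => ?_
  rw [Function.update_of_ne (Finset.ne_of_mem_erase hτ')]

private theorem gr_succ (d e j : ℕ) (nw : CT → ℕ) {τ : CT} (h : τ ∈ newT d e j) (hE : τ.E d e j ≠ d) :
    newP d e j (Function.update nw τ (nw τ + 1)) =
      Kd.ord (τ.E d e j) (τ.A j) ::ₘ newP d e j nw := by
  have h1 := gr_update d e j nw h (nw τ + 1)
  have h2 := gr_update d e j nw h (nw τ)
  rw [Function.update_eq_self] at h2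
  rw [h1, h2, if_neg hE, if_neg hE, succ_nsmul, ← Multiset.singleton_add, ← add_assoc, add_comm
    (nw τ • _) _]

private theorem gr_count {d e j : ℕ} (he : 2 ≤ e) (hj : j < d - e) (nw : CT → ℕ) (A : Finset ℕ) :
    (newP d e j nw).count (Kd.ord e A) = 0 := by
  unfold newP
  rw [Multiset.count_sum']
  refine Finset.sum_eq_zero fun τ hτ => ?_
  split_ifs
  · exact Multiset.count_zero _
  · rw [Multiset.count_nsmul, Multiset.count_singleton, if_neg, mul_zero]
    intro h
    injection h with h1 h2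
    have := (gr_E he hj hτ).1
    omega

private theorem gr_zero (d e j : ℕ) : newP d e j (fun _ => 0) = 0 := by
  unfold newP
  refine Finset.sum_eq_zero fun τ _ => ?_
  split_ifs
  · rfl
  · exact zero_nsmul _

/-- The state of the ladder: the digits of `L` are chosen. -/
private def St (V : (CT → ℕ) → ℤ) (T : Finset CT) (b : CT → ℕ) (L : Set CT) (h : ℝ) : Prop :=
  ∃ nw : CT → ℕ, (∀ τ ∈ T, nw τ ≤ b τ) ∧ (∀ τ, τ ∉ L → nw τ = 0) ∧ 0 < V nw ∧ (V nw : ℝ) ≤ h

private theorem St.mono {V : (CT → ℕ) → ℤ} {T : Finset CT} {b : CT → ℕ} {L L' : Set CT} {h h' : ℝ}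
    (hS : St V T b L h) (hL : L ⊆ L') (hh : h ≤ h') : St V T b L' h' := by
  obtain ⟨nw, h1, h2, h3, h4⟩ := hS
  exact ⟨nw, h1, fun τ hτ => h2 τ fun h5 => hτ (hL h5), h3, h4.trans hh⟩

private theorem St.digit {V : (CT → ℕ) → ℤ} {T : Finset CT} {b : CT → ℕ} {L : Set CT} {h : ℝ}
    (hS : St V T b L h) {τ : CT} (hL : τ ∉ L) {lo hi : ℝ} (hlo : 0 < lo)
    (hb : h ≤ lo * b τ) (hs : ∀ nw : CT → ℕ, (∀ τ' ∈ T, nw τ' ≤ b τ') →
      lo ≤ ((V nw - V (Function.update nw τ (nw τ + 1)) : ℤ) : ℝ) ∧
        ((V nw - V (Function.update nw τ (nw τ + 1)) : ℤ) : ℝ) ≤ hi) {L' : Set CT} {h' : ℝ}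
    (hL' : insert τ L ⊆ L') (hh : hi ≤ h') : St V T b L' h' := by
  classical
  obtain ⟨nw, h1, h2, h3, h4⟩ := hS
  have h5 : Function.update nw τ 0 = nw := by
    rw [← h2 τ hL]
    exact Function.update_eq_self τ nw
  have hbd : ∀ m ≤ b τ, ∀ τ' ∈ T, Function.update nw τ m τ' ≤ b τ' := by
    intro m hm τ' hτ'
    by_cases h6 : τ' = τ
    · subst h6
      rw [Function.update_self]
      exact hm
    · rw [Function.update_of_ne h6]
      exact h1 τ' hτ'
  obtain ⟨m, hm, h6, h7, -⟩ := greedy (fun m => V (Function.update nw τ m)) h lo hi (b τ) hlo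
    (by rw [h5]; exact h3) (by rw [h5]; exact h4) hb (fun m hm => by
      have h8 := hs (Function.update nw τ m) (hbd m hm.le)
      rw [Function.update_idem, Function.update_self] at h8
      exact h8)
  refine ⟨Function.update nw τ m, hbd m hm.le, fun τ' hτ' => ?_, h6, h7.trans hh⟩
  have h8 : τ' ≠ τ := by
    rintro rfl
    exact hτ' (hL' (Set.mem_insert _ _))
  rw [Function.update_of_ne h8]
  exact h2 τ' fun h9 => hτ' (hL' (Set.mem_insert_of_mem _ h9))

private theorem St.last {d e j : ℕ} {w : Multiset Kd → ℤ} {X : Multiset Kd} {g : ℤ} {b : CT → ℕ}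
    {L : Set CT} {h : ℝ}
    (hS : St (fun nw => w (X + newP d e j nw) - g) (newT d e j) b L h) {τ : CT}
    (hτ : τ ∈ newT d e j) (hE : τ.E d e j = d)
    (hu : ∀ τ' ∈ newT d e j, τ'.E d e j = d → τ' = τ) (hb : h ≤ b τ) :
    ∃ nw : CT → ℕ, (∀ τ ∈ newT d e j, nw τ ≤ b τ) ∧
      w (X + newP d e j nw) = g + newR d e j nw ∧ 1 ≤ newR d e j nw := by
  classical
  obtain ⟨nw, h1, -, h3, h4⟩ := hS
  set z : ℤ := w (X + newP d e j nw) - g with hz
  have h3' : 0 < z := h3
  have h4' : (z : ℝ) ≤ h := h4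
  have h5 : ((z.toNat : ℕ) : ℤ) = z := Int.toNat_of_nonneg h3'.le
  have hP : newP d e j (Function.update nw τ z.toNat) = newP d e j nw := by
    unfold newP
    refine Finset.sum_congr rfl fun τ' hτ' => ?_
    by_cases h6 : τ'.E d e j = d
    · rw [if_pos h6, if_pos h6]
    · have h7 : τ' ≠ τ := by
        rintro rfl
        exact h6 hE
      rw [Function.update_of_ne h7]
  have hR : newR d e j (Function.update nw τ z.toNat) = z.toNat := by
    unfold newR
    rw [Finset.sum_eq_single τ]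
    · rw [if_pos hE, Function.update_self]
    · intro τ' hτ' h6
      exact if_neg fun h7 => h6 (hu τ' hτ' h7)
    · intro h6
      exact absurd hτ h6
  refine ⟨Function.update nw τ z.toNat, fun τ' hτ' => ?_, ?_, ?_⟩
  · by_cases h6 : τ' = τ
    · subst h6
      rw [Function.update_self]
      have h7 : ((z.toNat : ℕ) : ℝ) = (z : ℝ) := by exact_mod_cast congrArg (Int.cast : ℤ → ℝ) h5
      have h8 : ((z.toNat : ℕ) : ℝ) ≤ (b τ' : ℝ) := by
        rw [h7]
        exact h4'.trans hb
      exact_mod_cast h8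
    · rw [Function.update_of_ne h6]
      exact h1 τ' hτ'
  · rw [hP, hR, h5, hz]
    ring
  · rw [hR]
    omega

/-- The ladder. -/
theorem ladder (d e : ℕ) (kap : ℕ → ℝ) (hk : Crit d e kap) (B : ℝ) : ∃ (ρ E : ℝ) (M₀ : ℕ), 0 < ρ ∧ 0 < E ∧
    ∀ P : Par, P.d = d → P.e = e → P.kap = kap → P.Ok 1 E → (∀ i < P.J, 1 ≤ P.c i) → ∀ j < P.J, ∃ n₀ : ℕ, ∀ n, n₀ ≤ n →
      ∀ X : Multiset Kd, (X.count (P.u j) : ℝ) ≤ (kap e + ρ) * (n : ℝ) ^ e →
        (∀ nw : CT → ℕ, (∀ τ ∈ newT d e j, nw τ ≤ nwB e P.c M₀ n τ) → Cls P j n (X + newP d e j nw)) →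
          ∀ g : ℤ, 0 < P.v j n X - g → ((P.v j n X - g : ℤ) : ℝ) ≤ B * P.cc (range j) * (n : ℝ) ^ (d - e - j) →
            ∃ nw : CT → ℕ, (∀ τ ∈ newT d e j, nw τ ≤ nwB e P.c M₀ n τ) ∧
              P.v j n (X + newP d e j nw) = g + newR d e j nw ∧ 1 ≤ newR d e j nw := by
  obtain ⟨lo, hi, ρ, E, hlo, hhi, hρ, hE, hcost⟩ := cost d e kap hk
  set C : ℝ := max B hi with hC
  have hCB : B ≤ C := le_max_left _ _
  have hCh : hi ≤ C := le_max_right _ _
  have hC1 : 1 ≤ C := hhi.trans hCh
  set M₀ : ℕ := ⌈max (C / lo) C⌉₊ with hM₀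
  have hM1 : C ≤ lo * M₀ := by
    have h1 : C / lo ≤ M₀ := (le_max_left _ _).trans (Nat.le_ceil _)
    rw [div_le_iff₀ hlo] at h1
    linarith
  have hM2 : C ≤ M₀ := (le_max_right _ _).trans (Nat.le_ceil _)
  refine ⟨ρ, E, M₀, hρ, hE, fun P hd he hkap hOk hc j hj => ?_⟩
  obtain ⟨n₁, hn₁⟩ := hcost P hd he hkap hOk hc j hj.le
  refine ⟨max n₁ 1, fun n hn X hX hcls g hg0 hg1 => ?_⟩
  have hn1 : n₁ ≤ n := (le_max_left _ _).trans hn
  have hn0 : 1 ≤ n := (le_max_right _ _).trans hn
  have hnR : (1 : ℝ) ≤ n := by exact_mod_cast hn0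
  have hJ : P.J = d - e := by unfold Par.J; rw [hd, he]
  have he2 : 2 ≤ e := hk.two
  have hed : e < d := hk.lt
  have hjd : j < d - e := hJ ▸ hj
  have hccpos : ∀ I ⊆ range j, (0 : ℝ) < P.cc I := by
    intro I hI
    have h1 : 0 < P.cc I := Finset.prod_pos fun i hi => hc i ((mem_range.1 (hI hi)).trans hj)
    exact_mod_cast h1
  have hcc0 : (0 : ℝ) < P.cc (range j) := hccpos _ (Subset.refl _)
  let T := newT d e j
  let b := nwB e P.c M₀ n
  let V : (CT → ℕ) → ℤ := fun nw => P.v j n (X + newP d e j nw) - g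
  -- the costs
  have key : ∀ τ ∈ T, τ.E d e j ≠ d → (range j ∩ τ.A j).card ≤ d - τ.E d e j →
      ∀ nw : CT → ℕ, (∀ τ' ∈ T, nw τ' ≤ b τ') →
        lo * P.cc (range j ∩ τ.A j) * (n : ℝ) ^ (d - τ.E d e j - (range j ∩ τ.A j).card) ≤
          ((V nw - V (Function.update nw τ (nw τ + 1)) : ℤ) : ℝ) ∧
        ((V nw - V (Function.update nw τ (nw τ + 1)) : ℤ) : ℝ) ≤
          hi * P.cc (range j ∩ τ.A j) * (n : ℝ) ^ (d - τ.E d e j - (range j ∩ τ.A j).card) := by
    intro τ hτ hEd hcard nw hnw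
    obtain ⟨hE1, hE2⟩ := gr_E he2 hjd hτ
    have h1 : V nw - V (Function.update nw τ (nw τ + 1)) =
        vd (d - τ.E d e j) (range j ∩ τ.A j) P.c n (X + newP d e j nw) := by
      show (P.v j n (X + newP d e j nw) - g) -
        (P.v j n (X + newP d e j (Function.update nw τ (nw τ + 1))) - g) = _
      rw [gr_succ d e j nw hτ hEd, Multiset.add_cons]
      unfold Par.v
      rw [vd_cons _ _ _ _ _ _ _ (by rw [hd]; exact hE2), hd]
      ring
    rw [h1]
    refine hn₁ n hn1 _ (hcls nw hnw) ?_ (d - τ.E d e j) (by omega) _ inter_subset_left hcard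
    have h2 : (X + newP d e j nw).count (P.u j) = X.count (P.u j) := by
      rw [Multiset.count_add]
      have h3 : (newP d e j nw).count (P.u j) = 0 := by
        show (newP d e j nw).count (Kd.ord P.e (range j)) = 0
        rw [he]
        exact gr_count he2 hjd nw _
      rw [h3, add_zero]
    rw [h2]
    exact hX
  -- the exponents
  let W : ℕ → ℕ := fun i => (d - j - 1) - (i + 1) * (e - 1)
  set K : ℕ := (d - j - 1) / (e - 1) with hK
  set R : ℕ := (d - j - 1) % (e - 1) with hR
  have hKR : K * (e - 1) + R = d - j - 1 := by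
    rw [hK, hR, mul_comm]
    exact Nat.div_add_mod _ _
  have hRlt : R < e - 1 := Nat.mod_lt _ (by omega)
  have hK1 : 1 ≤ K := Nat.div_pos (by omega) (by omega)
  let PL : ℕ → Set CT := fun i => {τ | ∃ k < i + 2, τ = CT.pl k ∅}
  have hpow : ∀ a a' m : ℕ, a ≤ a' + m → (n : ℝ) ^ a ≤ (n : ℝ) ^ a' * (n : ℝ) ^ m := by
    intro a a' m h
    rw [← pow_add]
    exact pow_le_pow_right₀ hnR h
  have stageA : ∀ i, (∀ i' < i, i' + 2 ≤ K ∧ (i' + 2) * (e - 1) + 1 < d) →
      St V T b (PL i) (C * P.cc (range j) * (n : ℝ) ^ W i) := by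
    intro i
    induction i with
    | zero =>
      intro _
      refine ⟨fun _ => 0, fun _ _ => Nat.zero_le _, fun _ _ => rfl, ?_, ?_⟩
      · show 0 < P.v j n (X + newP d e j fun _ => 0) - g
        rw [gr_zero, add_zero]
        exact hg0
      · show ((P.v j n (X + newP d e j fun _ => 0) - g : ℤ) : ℝ) ≤ _
        rw [gr_zero, add_zero]
        refine hg1.trans ?_
        have h1 : W 0 = d - e - j := by
          show (d - j - 1) - (0 + 1) * (e - 1) = d - e - j
          rw [zero_add, one_mul]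
          omega
        rw [h1]
        have h2 : 0 < (n : ℝ) ^ (d - e - j) := by positivity
        have h3 : 0 < (P.cc (range j) : ℝ) * (n : ℝ) ^ (d - e - j) := mul_pos hcc0 h2
        rw [mul_assoc, mul_assoc]
        exact mul_le_mul_of_nonneg_right hCB h3.le
    | succ i ih =>
      intro h
      have hS := ih fun i' hi' => h i' (by omega)
      obtain ⟨hiK, hid⟩ := h i (Nat.lt_succ_self i)
      have hτ : CT.pl (i + 2) ∅ ∈ T := gr_mem.2 (Or.inl ⟨i + 2, by omega, hiK, rfl⟩)
      have hEt : (CT.pl (i + 2) ∅).E d e j = (i + 2) * (e - 1) + 1 := rfl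
      have hI : range j ∩ (CT.pl (i + 2) ∅).A j = range j := inter_self _
      have h5 : (i + 2) * (e - 1) ≤ K * (e - 1) := Nat.mul_le_mul_right _ hiK
      have h6 : W (i + 1) = (d - j - 1) - (i + 2) * (e - 1) := rfl
      have h7 : d - ((i + 2) * (e - 1) + 1) - j = W (i + 1) := by
        rw [h6]
        omega
      have hk1 := key _ hτ (by rw [hEt]; omega) (by
        rw [hI, card_range, hEt]
        omega)
      rw [hI, card_range, hEt, h7] at hk1
      refine hS.digit (τ := CT.pl (i + 2) ∅) ?_ (mul_pos (mul_pos hlo hcc0) (by positivity)) ?_ hk1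
        ?_ ?_
      · rintro ⟨k, hk, h8⟩
        injection h8 with h9 h10
        omega
      · show _ ≤ lo * P.cc (range j) * (n : ℝ) ^ W (i + 1) * ((M₀ * n ^ (e - 1) : ℕ) : ℝ)
        have h8 := hpow (W i) (W (i + 1)) (e - 1) (by
          show (d - j - 1) - (i + 1) * (e - 1) ≤ (d - j - 1) - (i + 1 + 1) * (e - 1) + (e - 1)
          have h9 : (i + 1 + 1) * (e - 1) = (i + 1) * (e - 1) + (e - 1) := by ring
          omega)
        push_cast
        calc C * P.cc (range j) * (n : ℝ) ^ W i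
            ≤ (lo * M₀) * P.cc (range j) * ((n : ℝ) ^ W (i + 1) * (n : ℝ) ^ (e - 1)) := by
              refine mul_le_mul (mul_le_mul_of_nonneg_right hM1 hcc0.le) h8 (by positivity) ?_
              have := hcc0.le
              have := hlo.le
              positivity
          _ = _ := by ring
      · intro τ hτ'
        rcases hτ' with rfl | ⟨k, hk, rfl⟩
        · exact ⟨i + 2, by omega, rfl⟩
        · exact ⟨k, by omega, rfl⟩
      · rw [mul_assoc, mul_assoc]
        refine mul_le_mul_of_nonneg_right hCh ?_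
        have := hcc0.le
        positivity
  rcases Nat.eq_zero_or_pos j with hj0 | hj0
  · -- the level `0`
    subst hj0
    have hcc1 : (P.cc (range 0) : ℝ) = 1 := by
      unfold Par.cc
      simp
    by_cases hR0 : R = 0
    · -- the last digit is the last `pl`
      have hK2 : 2 ≤ K := by
        by_contra h
        have h1 : K = 1 := by omega
        rw [h1] at hKR
        omega
      obtain ⟨K', hK'⟩ : ∃ K', K = K' + 2 := ⟨K - 2, by omega⟩
      have h2 : K * (e - 1) = (K' + 1) * (e - 1) + (e - 1) := by rw [hK']; ring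
      have hS := stageA K' fun i' hi' => ⟨by omega, by
        have h3 : (i' + 2) * (e - 1) ≤ (K' + 1) * (e - 1) := Nat.mul_le_mul_right _ (by omega)
        omega⟩
      have hW : W K' = e - 1 := by
        show (d - 0 - 1) - (K' + 1) * (e - 1) = e - 1
        omega
      refine St.last (w := P.v 0 n) hS (τ := CT.pl K ∅)
        (gr_mem.2 (Or.inl ⟨K, hK2, le_rfl, rfl⟩)) ?_ ?_ ?_
      · show K * (e - 1) + 1 = d
        omega
      · intro τ' hτ' hE'
        rcases gr_mem.1 hτ' with ⟨k, h3, h4, rfl⟩ | ⟨h3, -⟩ | ⟨r, h3, h4, -⟩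
        · have h5 : k * (e - 1) + 1 = d := hE'
          have h6 : k = K := by
            have h7 : k * (e - 1) = K * (e - 1) := by omega
            exact Nat.eq_of_mul_eq_mul_right (by omega) h7
          rw [h6]
        · exact absurd hR0 h3
        · omega
      · rw [hW, hcc1, mul_one]
        show _ ≤ ((M₀ * n ^ (e - 1) : ℕ) : ℝ)
        push_cast
        exact mul_le_mul_of_nonneg_right hM2 (by positivity)
    · -- the last digit is `b0`
      obtain ⟨K', hK'⟩ : ∃ K', K = K' + 1 := ⟨K - 1, by omega⟩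
      have hS := stageA K' fun i' hi' => ⟨by omega, by
        have h3 : (i' + 2) * (e - 1) ≤ K * (e - 1) := Nat.mul_le_mul_right _ (by omega)
        omega⟩
      have hW : W K' = R := by
        show (d - 0 - 1) - (K' + 1) * (e - 1) = R
        rw [← hK']
        omega
      refine St.last (w := P.v 0 n) hS (τ := CT.b0 ∅)
        (gr_mem.2 (Or.inr (Or.inl ⟨hR0, rfl⟩))) ?_ ?_ ?_
      · show d - 0 = d
        omega
      · intro τ' hτ' hE'
        rcases gr_mem.1 hτ' with ⟨k, h3, h4, rfl⟩ | ⟨h3, rfl⟩ | ⟨r, h3, h4, -⟩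
        · have h5 : k * (e - 1) + 1 = d := hE'
          have h6 : k * (e - 1) ≤ K * (e - 1) := Nat.mul_le_mul_right _ h4
          omega
        · rfl
        · omega
      · rw [hW, hcc1, mul_one]
        show _ ≤ ((M₀ * n ^ (e - 2) : ℕ) : ℝ)
        push_cast
        exact mul_le_mul hM2 (pow_le_pow_right₀ hnR (by omega)) (by positivity) (by positivity)
  · -- the higher levels
    obtain ⟨K', hK'⟩ : ∃ K', K = K' + 1 := ⟨K - 1, by omega⟩
    have hS := stageA K' fun i' hi' => ⟨by omega, by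
      have h3 : (i' + 2) * (e - 1) ≤ K * (e - 1) := Nat.mul_le_mul_right _ (by omega)
      omega⟩
    have hW : W K' = R := by
      show (d - j - 1) - (K' + 1) * (e - 1) = R
      rw [← hK']
      omega
    rw [hW] at hS
    let LB : Set CT := insert (CT.b0 ∅) (PL K')
    have stageB : St V T b LB (C * P.cc (range j)) := by
      by_cases hR0 : R = 0
      · refine hS.mono (Set.subset_insert _ _) ?_
        rw [hR0, pow_zero, mul_one]
      · have hτ : CT.b0 ∅ ∈ T := gr_mem.2 (Or.inr (Or.inl ⟨hR0, rfl⟩))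
        have hEt : (CT.b0 ∅).E d e j = d - j := rfl
        have hI : range j ∩ (CT.b0 ∅).A j = range j := inter_self _
        have hk1 := key _ hτ (by rw [hEt]; omega) (by
          rw [hI, card_range, hEt]
          omega)
        have h7 : d - (d - j) - j = 0 := by omega
        rw [hI, card_range, hEt, h7, pow_zero, mul_one, mul_one] at hk1
        refine hS.digit (τ := CT.b0 ∅) ?_ (mul_pos hlo hcc0) ?_ hk1 (Set.Subset.refl _) ?_
        · rintro ⟨k, hk, h8⟩
          injection h8
        · show _ ≤ lo * P.cc (range j) * ((M₀ * n ^ (e - 2) : ℕ) : ℝ)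
          push_cast
          have h8 : (n : ℝ) ^ R ≤ (n : ℝ) ^ (e - 2) := pow_le_pow_right₀ hnR (by omega)
          calc C * P.cc (range j) * (n : ℝ) ^ R
              ≤ (lo * M₀) * P.cc (range j) * (n : ℝ) ^ (e - 2) := by
                refine mul_le_mul (mul_le_mul_of_nonneg_right hM1 hcc0.le) h8 (by positivity) ?_
                have := hcc0.le
                have := hlo.le
                positivity
            _ = _ := by ring
        · exact mul_le_mul_of_nonneg_right hCh hcc0.le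
    have stageC : ∀ r, r < j → St V T b (LB ∪ {τ | ∃ r' ≤ r, τ = CT.br r'})
        (C * P.cc (Ico r j)) := by
      intro r
      induction r with
      | zero =>
        intro _
        refine stageB.mono Set.subset_union_left (le_of_eq ?_)
        rw [Finset.range_eq_Ico]
      | succ r ih =>
        intro hr
        have hS' := ih (by omega)
        have hτ : CT.br (r + 1) ∈ T := gr_mem.2 (Or.inr (Or.inr ⟨r + 1, by omega, by omega, rfl⟩))
        have hEt : (CT.br (r + 1)).E d e j = d - j + (r + 1) := rfl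
        have hsub : Ico (r + 1) j ⊆ range j := fun x hx => mem_range.2 (mem_Ico.1 hx).2
        have hI : range j ∩ (CT.br (r + 1)).A j = Ico (r + 1) j := inter_eq_right.2 hsub
        have hk1 := key _ hτ (by rw [hEt]; omega) (by
          rw [hI, Nat.card_Ico, hEt]
          omega)
        have h7 : d - (d - j + (r + 1)) - (j - (r + 1)) = 0 := by omega
        rw [hI, Nat.card_Ico, hEt, h7, pow_zero, mul_one, mul_one] at hk1
        have hcc2 := hccpos _ hsub
        have hprod : (P.cc (Ico r j) : ℝ) = P.c r * P.cc (Ico (r + 1) j) := by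
          have h8 : P.cc (Ico r j) = P.c r * P.cc (Ico (r + 1) j) := by
            unfold Par.cc
            exact Finset.prod_eq_prod_Ico_succ_bot (by omega) _
          rw [h8]
          push_cast
          rfl
        refine hS'.digit (τ := CT.br (r + 1)) ?_ (mul_pos hlo hcc2) ?_ hk1 ?_ ?_
        · rintro ((h8 | ⟨k, -, h8⟩) | ⟨r', hr', h8⟩)
          · injection h8
          · injection h8
          · injection h8 with h9
            omega
        · show _ ≤ lo * P.cc (Ico (r + 1) j) * ((M₀ * P.c (r + 1 - 1) : ℕ) : ℝ)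
          rw [Nat.add_sub_cancel, hprod]
          push_cast
          have h9 : (0 : ℝ) ≤ P.c r * P.cc (Ico (r + 1) j) := by positivity
          calc C * (P.c r * P.cc (Ico (r + 1) j)) ≤ (lo * M₀) * (P.c r * P.cc (Ico (r + 1) j)) :=
                mul_le_mul_of_nonneg_right hM1 h9
            _ = _ := by ring
        · intro τ hτ'
          rcases hτ' with rfl | h8 | ⟨r', hr', rfl⟩
          · exact Or.inr ⟨r + 1, le_rfl, rfl⟩
          · exact Or.inl h8
          · exact Or.inr ⟨r', by omega, rfl⟩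
        · exact mul_le_mul_of_nonneg_right hCh hcc2.le
    have hS' := stageC (j - 1) (by omega)
    refine St.last (w := P.v j n) hS' (τ := CT.br j)
      (gr_mem.2 (Or.inr (Or.inr ⟨j, hj0, le_rfl, rfl⟩))) ?_ ?_ ?_
    · show d - j + j = d
      omega
    · intro τ' hτ' hE'
      rcases gr_mem.1 hτ' with ⟨k, h3, h4, rfl⟩ | ⟨h3, rfl⟩ | ⟨r, h3, h4, rfl⟩
      · have h5 : k * (e - 1) + 1 = d := hE'
        have h6 : k * (e - 1) ≤ K * (e - 1) := Nat.mul_le_mul_right _ h4
        omega
      · have h5 : d - j = d := hE'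
        omega
      · have h5 : d - j + r = d := hE'
        have h6 : r = j := by omega
        rw [h6]
    · have h1 : P.cc (Ico (j - 1) j) = P.c (j - 1) := by
        unfold Par.cc
        have h2 : Ico (j - 1) j = {j - 1} := by
          ext x
          rw [mem_Ico, mem_singleton]
          omega
        rw [h2, Finset.prod_singleton]
      rw [h1]
      show _ ≤ ((M₀ * P.c (j - 1) : ℕ) : ℝ)
      push_cast
      exact mul_le_mul_of_nonneg_right hM2 (by positivity)

end Pool.Agent.GD
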