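import Pool.Agent.GD.Cls

/-!
# General d, numerical block: the numbers of the points off the next subspace (real inequalities)

`N` points of a kind with natural number `a C n^w`, window `ε C n^w`; `T` of them are put off `L_j`
(`c = c_j`); the windows for the remaining ones are `ε C (n - c)^w` (trace) and `ε' C n^w` (residual), the
window for `T` is `ε' C c n^(w - 1)` around `a w C c n^(w - 1)`.
-/

set_option autoImplicit false

namespace Pool.Agent.GD

private theorem mv_ev (K δ : ℝ) (hδ : 0 < δ) : ∃ n₀ : ℕ, ∀ n : ℕ, n₀ ≤ n → K ≤ δ * n := by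
  obtain ⟨n₀, h⟩ := exists_nat_ge (K / δ)
  refine ⟨n₀, fun n hn => ?_⟩
  have h1 : (n₀ : ℝ) ≤ n := by exact_mod_cast hn
  rw [div_le_iff₀ hδ] at h
  nlinarith

/-- upper bound for the difference of the powers -/
private theorem mv_up (x c : ℝ) (hc : 0 ≤ c) (hcx : c ≤ x) (w : ℕ) :
    x ^ (w + 1) - (x - c) ^ (w + 1) ≤ (w + 1) * c * x ^ w := by
  induction w with
  | zero => simp
  | succ w ih =>
    have hx : 0 ≤ x := hc.trans hcx
    have h1 : x ^ (w + 1 + 1) - (x - c) ^ (w + 1 + 1) =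
        x * (x ^ (w + 1) - (x - c) ^ (w + 1)) + c * (x - c) ^ (w + 1) := by ring
    have h2 : (x - c) ^ (w + 1) ≤ x ^ (w + 1) :=
      pow_le_pow_left₀ (by linarith) (by linarith) _
    have h3 := mul_le_mul_of_nonneg_left ih hx
    have h4 := mul_le_mul_of_nonneg_left h2 hc
    rw [h1]
    have h5 : x * ((w + 1) * c * x ^ w) = (w + 1) * c * x ^ (w + 1) := by ring
    push_cast
    linarith

/-- lower bound for the difference of the powers -/
private theorem mv_lo (x c : ℝ) (hc : 0 ≤ c) (hcx : c ≤ x) (w : ℕ) :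
    (w + 1 : ℝ) * c * (x - c) ^ w ≤ x ^ (w + 1) - (x - c) ^ (w + 1) := by
  induction w with
  | zero => simp
  | succ w ih =>
    have hx : 0 ≤ x := hc.trans hcx
    have h1 : x ^ (w + 1 + 1) - (x - c) ^ (w + 1 + 1) =
        x * (x ^ (w + 1) - (x - c) ^ (w + 1)) + c * (x - c) ^ (w + 1) := by ring
    have h0 : 0 ≤ (x - c) ^ w := pow_nonneg (by linarith) _
    have h3 := mul_le_mul_of_nonneg_left ih hx
    rw [h1]
    have h5 : (x - c) * ((w + 1) * c * (x - c) ^ w) ≤ x * ((w + 1) * c * (x - c) ^ w) :=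
      mul_le_mul_of_nonneg_right (by linarith) (by positivity)
    have h6 : (x - c) * ((w + 1) * c * (x - c) ^ w) = (w + 1) * c * (x - c) ^ (w + 1) := by ring
    push_cast
    linarith

/-- `w ≥ 2`, no new points. -/
theorem mv_two (w : ℕ) (hw : 2 ≤ w) (a ε ε' : ℝ) (ha : 0 ≤ a) (hε : 0 < ε) (h : 2 * (w + 1) * ε ≤ ε')
    (C c : ℕ) (hC : 1 ≤ C) (hc : 1 ≤ c) : ∃ n₀ : ℕ, ∀ n, n₀ ≤ n → ∀ N : ℕ,
      |(N : ℝ) - a * C * (n : ℝ) ^ w| ≤ ε * C * (n : ℝ) ^ w →
      ∃ T : ℕ, 2 * T ≤ N ∧ |((N - T : ℕ) : ℝ) - a * C * ((n - c : ℕ) : ℝ) ^ w| ≤ ε * C * ((n - c : ℕ) : ℝ) ^ w ∧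
        |((N - T : ℕ) : ℝ) - a * C * (n : ℝ) ^ w| ≤ ε' * C * (n : ℝ) ^ w ∧
        |(T : ℝ) - a * w * (C * c) * (n : ℝ) ^ (w - 1)| ≤ ε' * (C * c) * (n : ℝ) ^ (w - 1) := by
  obtain ⟨v, rfl⟩ : ∃ v, w = v + 2 := ⟨w - 2, by omega⟩
  have hC' : (1 : ℝ) ≤ C := by exact_mod_cast hC
  have hc' : (1 : ℝ) ≤ c := by exact_mod_cast hc
  have hv0 : (0 : ℝ) ≤ v := Nat.cast_nonneg v
  -- the bounds for n
  obtain ⟨n₁, hn₁⟩ := mv_ev (4 * (v + 2) * c) 1 one_pos
  obtain ⟨n₂, hn₂⟩ := mv_ev (ε * c + 4) ε hε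
  obtain ⟨n₃, hn₃⟩ : ∃ n₃ : ℕ, ∀ n : ℕ, n₃ ≤ n → a ≤ ε ∨ 4 ≤ (a - ε) * n := by
    by_cases hae : a ≤ ε
    · exact ⟨0, fun _ _ => Or.inl hae⟩
    · obtain ⟨m, hm⟩ := mv_ev 4 (a - ε) (by linarith)
      exact ⟨m, fun n hn => Or.inr (hm n hn)⟩
  obtain ⟨n₄, hn₄⟩ := mv_ev ((a + ε) * (v + 2) * c + 1) ε hε
  obtain ⟨n₅, hn₅⟩ := mv_ev (a * (v + 2) * (v + 1) * c) ε hε
  refine ⟨max n₁ (max n₂ (max n₃ (max n₄ n₅))), fun n hn N hN => ?_⟩
  simp only [max_le_iff] at hn
  have b1 := hn₁ n hn.1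
  have b2 := hn₂ n hn.2.1
  have b3 := hn₃ n hn.2.2.1
  have b4 := hn₄ n hn.2.2.2.1
  have b5 := hn₅ n hn.2.2.2.2
  rw [one_mul] at b1
  have hcx : (c : ℝ) ≤ n := by nlinarith
  have hcn : c ≤ n := by exact_mod_cast hcx
  set x : ℝ := (n : ℝ) with hx
  have hx1 : 1 ≤ x := hc'.trans hcx
  have hx0 : 0 < x := by linarith
  rw [Nat.cast_sub hcn, ← hx]
  have hw1 : v + 2 - 1 = v + 1 := rfl
  rw [hw1]
  -- the powers
  set P : ℝ := x ^ (v + 1) with hP
  have hP1 : 1 ≤ P := one_le_pow₀ hx1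
  have hPw : x ^ (v + 2) = x * P := by rw [hP]; ring
  have hy0 : 0 ≤ x - c := by linarith
  set Y : ℝ := (x - c) ^ (v + 2) with hY
  have hY0 : 0 ≤ Y := pow_nonneg hy0 _
  set R : ℝ := x * P - Y with hR
  have hRup : R ≤ (v + 2) * c * P := by
    have := mv_up x c (by linarith) hcx (v + 1)
    push_cast at this
    have e : (v + 1 + 1 : ℝ) = v + 2 := by ring
    rw [e] at this
    rw [hR, ← hPw]
    exact this
  have hR0 : 0 ≤ R := by
    rw [hR, ← hPw, hY, sub_nonneg]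
    exact pow_le_pow_left₀ hy0 (by linarith) _
  have hRlo : (v + 2) * c * P - (v + 2) * (v + 1) * c ^ 2 * x ^ v ≤ R := by
    have h1 := mv_lo x c (by linarith) hcx (v + 1)
    have h2 := mv_up x c (by linarith) hcx v
    push_cast at h1
    have e : (v + 1 + 1 : ℝ) = v + 2 := by ring
    rw [e] at h1
    have h3 : (v + 2) * c * (x ^ (v + 1) - (x - c) ^ (v + 1)) ≤
        (v + 2) * c * ((v + 1) * c * x ^ v) := mul_le_mul_of_nonneg_left h2 (by positivity)
    have h4 : R = x ^ (v + 1 + 1) - (x - c) ^ (v + 1 + 1) := by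
      rw [hR, ← hPw, hY]
    rw [h4, hP]
    linarith
  -- a C E ≤ ε C c P
  have hE : a * C * ((v + 2) * (v + 1) * c ^ 2 * x ^ v) ≤ ε * (C * c) * P := by
    have h1 : P = x * x ^ v := by rw [hP]; ring
    have h2 : 0 ≤ (C : ℝ) * c * x ^ v := by positivity
    have h3 := mul_le_mul_of_nonneg_left b5 h2
    rw [h1]
    calc a * C * ((v + 2) * (v + 1) * c ^ 2 * x ^ v) = C * c * x ^ v * (a * (v + 2) * (v + 1) * c) := by
          ring
      _ ≤ C * c * x ^ v * (ε * x) := h3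
      _ = _ := by ring
  have hy1 : 1 ≤ x - c := by nlinarith
  have hεY : 1 ≤ ε * C * Y := by
    have h1 : x - c ≤ Y := by
      rw [hY, pow_succ]
      exact le_mul_of_one_le_left hy0 (one_le_pow₀ hy1)
    have h2 : ε * (x - c) ≤ ε * Y := mul_le_mul_of_nonneg_left h1 hε.le
    have h3 : ε * Y ≤ ε * C * Y := by
      have : 0 ≤ ε * Y := by positivity
      nlinarith
    linarith
  have hεP : 1 ≤ ε * (C * c) * P := by
    have h1 : x ≤ P := by
      rw [hP, pow_succ]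
      exact le_mul_of_one_le_left hx0.le (one_le_pow₀ hx1)
    have h2 : ε * x ≤ ε * P := mul_le_mul_of_nonneg_left h1 hε.le
    have h3 : ε * P ≤ ε * (C * c) * P := by
      have h4 : (1 : ℝ) ≤ C * c := by nlinarith
      have h5 : 0 ≤ ε * P := by positivity
      nlinarith
    nlinarith
  rw [hPw] at hN ⊢
  have hε' : 2 * ε ≤ ε' := by
    push_cast at h
    nlinarith
  have hxP : 0 < x * P := by positivity
  obtain ⟨hN1, hN2⟩ := abs_le.1 hN
  by_cases hA : a ≤ ε ∧ (N : ℝ) ≤ (a + ε) * C * Y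
  · obtain ⟨hA1, hA2⟩ := hA
    refine ⟨0, by omega, ?_, ?_, ?_⟩
    · rw [Nat.sub_zero, abs_le]
      have h1 : (0 : ℝ) ≤ N := Nat.cast_nonneg N
      have h2 : a * (C * Y) ≤ ε * (C * Y) := mul_le_mul_of_nonneg_right hA1 (by positivity)
      constructor <;> linarith
    · rw [Nat.sub_zero]
      refine hN.trans ?_
      have h2 : ε * (C * (x * P)) ≤ ε' * (C * (x * P)) :=
        mul_le_mul_of_nonneg_right (by linarith) (by positivity)
      linarith
    · rw [Nat.cast_zero, zero_sub, abs_neg, abs_of_nonneg (by positivity)]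
      have h2 : a * (v + 2) ≤ ε' := by
        push_cast at h
        nlinarith
      have h3 := mul_le_mul_of_nonneg_right h2 (show (0 : ℝ) ≤ C * c * P by positivity)
      push_cast
      linarith
  · have hN4 : (4 : ℝ) ≤ N := by
      rcases b3 with b3 | b3
      · have h1 : (a + ε) * C * Y < N := by
          by_contra hcon
          exact hA ⟨b3, not_lt.1 hcon⟩
        have h2 : 0 ≤ a * C * Y := by positivity
        have h3 : ε * (x - c) ≤ ε * C * Y := by
          have h4 : x - c ≤ Y := by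
            rw [hY, pow_succ]
            exact le_mul_of_one_le_left hy0 (one_le_pow₀ hy1)
          have h5 : ε * (x - c) ≤ ε * Y := mul_le_mul_of_nonneg_left h4 hε.le
          have h6 : 0 ≤ ε * Y := by positivity
          nlinarith
        nlinarith
      · have h1 : (a - ε) * x ≤ (a - ε) * (C * (x * P)) := by
          have h2 : 0 < a - ε := by
            by_contra hcon
            nlinarith
          refine mul_le_mul_of_nonneg_left ?_ h2.le
          have h3 : x ≤ x * P := le_mul_of_one_le_right hx0.le hP1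
          have h4 : 0 ≤ x * P := hxP.le
          nlinarith
        nlinarith
    -- the real number
    set u : ℝ := N / (x * P) with hu
    have huN : u * (x * P) = N := div_mul_cancel₀ _ hxP.ne'
    have hu0 : 0 ≤ u := by positivity
    have hu1 : u ≤ a * C + ε * C := by
      rw [hu, div_le_iff₀ hxP]
      linarith
    have hu2 : a * C - ε * C ≤ u := by
      rw [hu, le_div_iff₀ hxP]
      linarith
    have hS : N - u * R = u * Y := by
      rw [hR]
      linear_combination -huN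
    have hS0 : 0 ≤ u * R := mul_nonneg hu0 hR0
    have hSN : 4 * (u * R) ≤ N := by
      have h1 : 4 * R ≤ x * P := by
        have h2 := mul_le_mul_of_nonneg_right b1 (by linarith : (0 : ℝ) ≤ P)
        linarith
      have h3 := mul_le_mul_of_nonneg_left h1 hu0
      linarith
    -- the bound for the number T
    have key : ∀ T : ℕ, |(T : ℝ) - u * R| ≤ 1 → 2 * T ≤ N ∧
        |((N - T : ℕ) : ℝ) - a * C * (x * P)| ≤ ε' * C * (x * P) ∧
        |(T : ℝ) - a * ((v + 2 : ℕ) : ℝ) * (C * c) * P| ≤ ε' * (C * c) * P := by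
      intro T hT
      obtain ⟨hT1, hT2⟩ := abs_le.1 hT
      have h2T : (2 : ℝ) * T ≤ N := by linarith
      have h2T' : 2 * T ≤ N := by exact_mod_cast h2T
      refine ⟨h2T', ?_, ?_⟩
      · rw [Nat.cast_sub (by omega), abs_le]
        have h1 : (T : ℝ) ≤ ε * C * (x * P) := by
          have h3 : u * R ≤ (a * C + ε * C) * ((v + 2) * c * P) :=
            mul_le_mul hu1 hRup hR0 (by positivity)
          have h4 : (1 : ℝ) ≤ C * P := by nlinarith
          have h5 := mul_le_mul_of_nonneg_left b4 (show (0 : ℝ) ≤ C * P by positivity)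
          linarith
        have h2 : ε * (C * (x * P)) * 2 ≤ ε' * (C * (x * P)) := by
          have := mul_le_mul_of_nonneg_right hε' (show (0 : ℝ) ≤ C * (x * P) by positivity)
          linarith
        have h3 : (0 : ℝ) ≤ T := Nat.cast_nonneg T
        constructor <;> linarith
      · have e1 : (T : ℝ) - a * ((v + 2 : ℕ) : ℝ) * (C * c) * P = (T - u * R) + (u - a * C) * R +
            a * C * (R - (v + 2) * c * P) := by
          push_cast
          ring
        have h1 : |(u - a * C) * R| ≤ ε * C * ((v + 2) * c * P) := by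
          rw [abs_mul, abs_of_nonneg hR0]
          refine mul_le_mul ?_ hRup hR0 (by positivity)
          rw [abs_le]
          constructor <;> linarith
        have h2 : |a * C * (R - (v + 2) * c * P)| ≤ ε * (C * c) * P := by
          rw [abs_mul, abs_of_nonneg (show (0 : ℝ) ≤ a * C by positivity), abs_of_nonpos (by linarith)]
          have h3 := mul_le_mul_of_nonneg_left hRlo (show (0 : ℝ) ≤ a * C by positivity)
          linarith
        rw [e1]
        refine (abs_add_three _ _ _).trans ?_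
        have h3 : (v + 4) * ε ≤ ε' := by
          push_cast at h
          linarith
        have h4 := mul_le_mul_of_nonneg_right h3 (show (0 : ℝ) ≤ C * c * P by positivity)
        linarith
    rcases le_or_gt (a * C) u with hcase | hcase
    · have hT1 : u * R ≤ ⌈u * R⌉₊ := Nat.le_ceil _
      have hT2 : (⌈u * R⌉₊ : ℝ) < u * R + 1 := Nat.ceil_lt_add_one hS0
      obtain ⟨k1, k2, k3⟩ := key ⌈u * R⌉₊ (by rw [abs_le]; constructor <;> linarith)
      refine ⟨⌈u * R⌉₊, k1, ?_, k2, k3⟩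
      rw [Nat.cast_sub (by omega), abs_le]
      have h1 : (u - a * C) * Y ≤ ε * C * Y := mul_le_mul_of_nonneg_right (by linarith) hY0
      have h2 : 0 ≤ (u - a * C) * Y := mul_nonneg (by linarith) hY0
      constructor <;> linarith
    · have hT1 : (⌊u * R⌋₊ : ℝ) ≤ u * R := Nat.floor_le hS0
      have hT2 : u * R < ⌊u * R⌋₊ + 1 := Nat.lt_floor_add_one _
      obtain ⟨k1, k2, k3⟩ := key ⌊u * R⌋₊ (by rw [abs_le]; constructor <;> linarith)
      refine ⟨⌊u * R⌋₊, k1, ?_, k2, k3⟩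
      rw [Nat.cast_sub (by omega), abs_le]
      have h1 : -(ε * C * Y) ≤ (u - a * C) * Y := by
        have := mul_le_mul_of_nonneg_right (show -(ε * C) ≤ u - a * C by linarith) hY0
        linarith
      have h2 : (u - a * C) * Y ≤ 0 := mul_nonpos_of_nonpos_of_nonneg (by linarith) hY0
      constructor <;> linarith

/-- `w ≥ 2`, `a = 0`, with room for new points. -/
theorem mv_room (w : ℕ) (hw : 2 ≤ w) (β ε ε' : ℝ) (hβ : 0 < β) (hβ1 : β ≤ 1) (hε : 0 < ε)
    (h : 4 * (w + 1) * ε ≤ ε') (C c : ℕ) (hC : 1 ≤ C) (hc : 1 ≤ c) : ∃ (ρ : ℝ) (n₀ : ℕ), 0 < ρ ∧ ∀ n, n₀ ≤ n →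
      ∀ N : ℕ, (N : ℝ) ≤ ε * C * (n : ℝ) ^ w →
      ∃ T : ℕ, T ≤ N ∧ (∀ X : ℕ, (X : ℝ) ≤ ρ * (n : ℝ) ^ (w - 1) →
          ((N - T + X : ℕ) : ℝ) ≤ ε * C * ((n - c : ℕ) : ℝ) ^ w) ∧
        (T : ℝ) ≤ ε' * (C * c) * (n : ℝ) ^ (w - 1) := by
  obtain ⟨v, rfl⟩ : ∃ v, w = v + 2 := ⟨w - 2, by omega⟩
  have hC' : (1 : ℝ) ≤ C := by exact_mod_cast hC
  have hc' : (1 : ℝ) ≤ c := by exact_mod_cast hc
  have hv0 : (0 : ℝ) ≤ v := Nat.cast_nonneg v
  obtain ⟨n₁, hn₁⟩ := mv_ev ((v + 3) * c) 1 one_pos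
  obtain ⟨n₂, hn₂⟩ := mv_ev 1 ε hε
  refine ⟨ε * (C * c), max n₁ n₂, by positivity, fun n hn N hN => ?_⟩
  simp only [max_le_iff] at hn
  have b1 := hn₁ n hn.1
  have b2 := hn₂ n hn.2
  rw [one_mul] at b1
  have hcx : (c : ℝ) ≤ n := by nlinarith
  have hcn : c ≤ n := by exact_mod_cast hcx
  set x : ℝ := (n : ℝ) with hx
  have hx1 : 1 ≤ x := hc'.trans hcx
  have hx0 : 0 < x := by linarith
  rw [Nat.cast_sub hcn, ← hx]
  have hw1 : v + 2 - 1 = v + 1 := rfl
  rw [hw1]
  set P : ℝ := x ^ (v + 1) with hP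
  have hP1 : 1 ≤ P := one_le_pow₀ hx1
  have hPw : x ^ (v + 2) = x * P := by rw [hP]; ring
  set Y : ℝ := (x - c) ^ (v + 2) with hY
  rw [hPw] at hN
  have hRup : x * P - Y ≤ (v + 2) * c * P := by
    have := mv_up x c (by linarith) hcx (v + 1)
    push_cast at this
    have e : (v + 1 + 1 : ℝ) = v + 2 := by ring
    rw [e] at this
    rw [← hPw]
    exact this
  have hεP : 1 ≤ ε * (C * c) * P := by
    have h1 : x ≤ P := by
      rw [hP, pow_succ]
      exact le_mul_of_one_le_left hx0.le (one_le_pow₀ hx1)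
    have h2 : ε * x ≤ ε * P := mul_le_mul_of_nonneg_left h1 hε.le
    have h3 : ε * P ≤ ε * (C * c) * P := by
      have h4 : (1 : ℝ) ≤ C * c := by nlinarith
      have h5 : 0 ≤ ε * P := by positivity
      nlinarith
    nlinarith
  set Z : ℝ := ε * (C * c) * P with hZ
  have hYZ : Z ≤ ε * C * Y := by
    have h1 : (c : ℝ) * P ≤ Y := by
      have := mul_le_mul_of_nonneg_right b1 (show 0 ≤ P by linarith)
      linarith
    have h2 := mul_le_mul_of_nonneg_left h1 (show (0 : ℝ) ≤ ε * C by positivity)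
    rw [hZ]
    linarith
  have hNY : (N : ℝ) ≤ ε * C * Y + (v + 2) * Z := by
    have h2 := mul_le_mul_of_nonneg_left hRup (show (0 : ℝ) ≤ ε * C by positivity)
    rw [hZ]
    linarith
  have hε' : (v + 4) * Z ≤ ε' * (C * c) * P := by
    have h3 : (v + 4) * ε ≤ ε' := by
      push_cast at h
      nlinarith
    have h4 := mul_le_mul_of_nonneg_right h3 (show (0 : ℝ) ≤ C * c * P by positivity)
    rw [hZ]
    linarith
  have hT1 : (v + 3) * Z ≤ ⌈(v + 3) * Z⌉₊ := Nat.le_ceil _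
  have hT2 : (⌈(v + 3) * Z⌉₊ : ℝ) < (v + 3) * Z + 1 := Nat.ceil_lt_add_one (by positivity)
  rcases le_total N ⌈(v + 3) * Z⌉₊ with hcase | hcase
  · refine ⟨N, le_rfl, fun X hX => ?_, ?_⟩
    · rw [Nat.sub_self, zero_add]
      exact hX.trans hYZ
    · have h1 : (N : ℝ) ≤ ⌈(v + 3) * Z⌉₊ := by exact_mod_cast hcase
      linarith
  · refine ⟨⌈(v + 3) * Z⌉₊, hcase, fun X hX => ?_, ?_⟩
    · rw [Nat.cast_add, Nat.cast_sub hcase]
      have hX' : (X : ℝ) ≤ Z := hX
      linarith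
    · linarith

/-- `w = 1`: one of two values `p > a > m` (times `C c`) is put off. -/
theorem mv_one (a ε ε' β p m : ℝ) (ha : 0 ≤ a) (hε : 0 < ε) (hβ : 2 * ε ≤ β) (h : 2 * ε ≤ ε')
    (hp : a + β / 2 ≤ p ∧ p ≤ a + β) (hm : a ≠ 0 → m ≤ a - β / 2 ∧ a - β ≤ m) (hm0 : a = 0 → m = 0)
    (C c Tp Tm : ℕ) (hC : 1 ≤ C) (hc : 1 ≤ c) (hTp : (Tp : ℝ) = p * (C * c)) (hTm : (Tm : ℝ) = m * (C * c)) :
    ∃ n₀ : ℕ, ∀ n, n₀ ≤ n → ∀ N : ℕ, |(N : ℝ) - a * C * (n : ℝ)| ≤ ε * C * (n : ℝ) →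
      ∃ T : ℕ, (T = Tp ∨ T = Tm) ∧ T ≤ N ∧ (a ≠ 0 → 2 * T ≤ N) ∧
        |((N - T : ℕ) : ℝ) - a * C * ((n - c : ℕ) : ℝ)| ≤ ε * C * ((n - c : ℕ) : ℝ) ∧
        |((N - T : ℕ) : ℝ) - a * C * (n : ℝ)| ≤ ε' * C * (n : ℝ) := by
  have hC' : (1 : ℝ) ≤ C := by exact_mod_cast hC
  have hc' : (1 : ℝ) ≤ c := by exact_mod_cast hc
  have hCc : (0 : ℝ) < C * c := by positivity
  obtain ⟨n₁, hn₁⟩ := mv_ev (2 * c) 1 one_pos
  obtain ⟨n₂, hn₂⟩ := mv_ev (ε * c + β * c + Tp + Tm) ε hε
  obtain ⟨n₃, hn₃⟩ : ∃ n₃ : ℕ, ∀ n : ℕ, n₃ ≤ n → a = 0 ∨ (0 < a ∧ 2 * (Tp : ℝ) ≤ a * n) := by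
    rcases eq_or_lt_of_le ha with h0 | h0
    · exact ⟨0, fun _ _ => Or.inl h0.symm⟩
    · obtain ⟨k, hk⟩ := mv_ev (2 * Tp) a h0
      exact ⟨k, fun n hn => Or.inr ⟨h0, hk n hn⟩⟩
  refine ⟨max n₁ (max n₂ n₃), fun n hn N hN => ?_⟩
  simp only [max_le_iff] at hn
  have b1 := hn₁ n hn.1
  have b2 := hn₂ n hn.2.1
  have b3 := hn₃ n hn.2.2
  rw [one_mul] at b1
  have hcx : (c : ℝ) ≤ n := by linarith
  have hcn : c ≤ n := by exact_mod_cast hcx
  rw [Nat.cast_sub hcn]
  set x : ℝ := (n : ℝ) with hx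
  have hx0 : 0 ≤ x := by linarith
  have hTp0 : (0 : ℝ) ≤ Tp := Nat.cast_nonneg _
  have hTm0 : (0 : ℝ) ≤ Tm := Nat.cast_nonneg _
  have hN0 : (0 : ℝ) ≤ N := Nat.cast_nonneg _
  obtain ⟨hN1, hN2⟩ := abs_le.1 hN
  -- C times the bounds
  have hβ0 : 0 < β := by linarith
  have b2' : C * (β * c) ≤ ε * C * (x - c) := by
    have h1 : β * c ≤ ε * (x - c) := by linarith
    have := mul_le_mul_of_nonneg_left h1 (show (0 : ℝ) ≤ C by positivity)
    linarith
  have b2p : (Tp : ℝ) ≤ ε * C * (x - c) := by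
    have h1 : (Tp : ℝ) ≤ ε * (x - c) := by
      have : 0 ≤ β * c := by positivity
      linarith
    have h2 : ε * (x - c) ≤ ε * C * (x - c) := by
      have h3 : 0 ≤ ε * (x - c) := mul_nonneg hε.le (by linarith)
      nlinarith
    linarith
  have b2m : (Tm : ℝ) ≤ ε * C * x := by
    have h0 : 0 ≤ β * c := by positivity
    have h4 : 0 ≤ ε * c := by positivity
    have h1 : (Tm : ℝ) ≤ ε * x := by linarith
    have h2 : ε * x ≤ ε * C * x := by
      have h3 : 0 ≤ ε * x := by positivity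
      nlinarith
    linarith
  have hεc : ε * C * (x - c) ≤ ε * C * x := mul_le_mul_of_nonneg_left (by linarith) (by positivity)
  have hε' : 2 * (ε * C * x) ≤ ε' * C * x := by
    have := mul_le_mul_of_nonneg_right h (show (0 : ℝ) ≤ C * x by positivity)
    linarith
  by_cases hcase : a * C * x ≤ N ∧ Tp ≤ N
  · obtain ⟨h1, h2⟩ := hcase
    refine ⟨Tp, Or.inl rfl, h2, fun ha0 => ?_, ?_, ?_⟩
    · rcases b3 with b3 | ⟨_, b3⟩
      · exact absurd b3 ha0
      · have h3 : a * x ≤ a * C * x := by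
          have : 0 ≤ a * x := by positivity
          nlinarith
        have h4 : (2 : ℝ) * Tp ≤ N := by linarith
        exact_mod_cast h4
    · rw [Nat.cast_sub h2, abs_le]
      have h3 : (a + β / 2) * (C * c) ≤ Tp := by
        rw [hTp]
        exact mul_le_mul_of_nonneg_right hp.1 hCc.le
      have h4 : (Tp : ℝ) ≤ (a + β) * (C * c) := by
        rw [hTp]
        exact mul_le_mul_of_nonneg_right hp.2 hCc.le
      have h5 : ε * (C * c) ≤ β / 2 * (C * c) := mul_le_mul_of_nonneg_right (by linarith) hCc.le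
      constructor <;> linarith
    · rw [Nat.cast_sub h2, abs_le]
      constructor <;> linarith
  · rcases b3 with b3 | ⟨ha0, b3⟩
    · -- a = 0
      have hTm' : Tm = 0 := by
        have : (Tm : ℝ) = 0 := by rw [hTm, hm0 b3, zero_mul]
        exact_mod_cast this
      have hlt : N < Tp := by
        by_contra hcon
        refine hcase ⟨?_, not_lt.1 hcon⟩
        rw [b3]
        simpa using hN0
      have hlt' : (N : ℝ) ≤ Tp := by exact_mod_cast hlt.le
      refine ⟨Tm, Or.inr rfl, by omega, fun ha0 => absurd b3 ha0, ?_, ?_⟩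
      · rw [hTm', Nat.sub_zero, b3, abs_le]
        constructor <;> linarith
      · rw [hTm', Nat.sub_zero, b3, abs_le]
        constructor <;> linarith
    · have hlt : (N : ℝ) < a * C * x := by
        by_contra hcon
        have h1 : a * C * x ≤ N := not_lt.1 hcon
        refine hcase ⟨h1, ?_⟩
        have h3 : a * x ≤ a * C * x := by
          have : 0 ≤ a * x := by positivity
          nlinarith
        have h4 : (Tp : ℝ) ≤ N := by linarith
        exact_mod_cast h4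
      obtain ⟨hm1, hm2⟩ := hm ha0.ne'
      have h3 : (Tm : ℝ) ≤ (a - β / 2) * (C * c) := by
        rw [hTm]
        exact mul_le_mul_of_nonneg_right hm1 hCc.le
      have h4 : (a - β) * (C * c) ≤ Tm := by
        rw [hTm]
        exact mul_le_mul_of_nonneg_right hm2 hCc.le
      have h5 : ε * (C * c) ≤ β / 2 * (C * c) := mul_le_mul_of_nonneg_right (by linarith) hCc.le
      have h6 : 0 ≤ a - β / 2 := by
        by_contra hcon
        have : (a - β / 2) * (C * c) < 0 := mul_neg_of_neg_of_pos (not_le.1 hcon) hCc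
        linarith
      have h7 : 2 * (Tm : ℝ) ≤ N := by
        have h8 : (a - β / 2) * C * (2 * c) ≤ (a - β / 2) * C * x :=
          mul_le_mul_of_nonneg_left b1 (by positivity)
        have h9 : ε * (C * x) ≤ β / 2 * (C * x) := mul_le_mul_of_nonneg_right (by linarith)
          (by positivity)
        linarith
      have h7' : 2 * Tm ≤ N := by exact_mod_cast h7
      refine ⟨Tm, Or.inr rfl, by omega, fun _ => h7', ?_, ?_⟩
      · rw [Nat.cast_sub (by omega), abs_le]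
        constructor <;> linarith
      · rw [Nat.cast_sub (by omega), abs_le]
        constructor <;> linarith

/-- Clusters: the number `T` of the clusters which are moved off. -/
theorem mv_cl (m c w d n N : ℕ) (hw : w + 1 ≤ d) (hcn : c ≤ n) (hc : 1 ≤ c) (hm : 1 ≤ m) (hn : 1 ≤ n)
    (hN : N ≤ m * n ^ w) : ∃ T : ℕ, T ≤ N ∧ N - T ≤ m * (n - c) ^ w ∧ (w = 0 → T = 0) ∧
      (1 ≤ w → T ≤ m * d * c * n ^ (w - 1)) := by
  refine ⟨N - m * (n - c) ^ w, Nat.sub_le _ _, by omega, ?_, ?_⟩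
  · rintro rfl
    rw [pow_zero] at hN ⊢
    omega
  · intro hw1
    obtain ⟨v, rfl⟩ : ∃ v, w = v + 1 := ⟨w - 1, by omega⟩
    have h1 : n ^ (v + 1) ≤ (n - c) ^ (v + 1) + (v + 1) * c * n ^ v := by
      have h2 := mv_up (n : ℝ) c (Nat.cast_nonneg c) (by exact_mod_cast hcn) v
      have h3 : ((n ^ (v + 1) : ℕ) : ℝ) ≤ (((n - c) ^ (v + 1) + (v + 1) * c * n ^ v : ℕ) : ℝ) := by
        push_cast [Nat.cast_sub hcn]
        linarith
      exact_mod_cast h3
    have h4 : (v + 1) * c * n ^ v ≤ d * c * n ^ v :=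
      Nat.mul_le_mul_right _ (Nat.mul_le_mul_right _ (by omega))
    have h5 : N ≤ m * (n - c) ^ (v + 1) + m * (d * c * n ^ v) := by
      rw [← mul_add]
      exact hN.trans (Nat.mul_le_mul_left _ (h1.trans (by omega)))
    have h6 : m * d * c * n ^ (v + 1 - 1) = m * (d * c * n ^ v) := by
      rw [Nat.add_sub_cancel]
      ring
    rw [h6]
    omega

end Pool.Agent.GD
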