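import Pool.Agent.GD.N.Cmb
import Pool.Agent.GD.N.Mv
import Pool.Agent.GD.N.Greedy

/-!
# General d, numerical block: the data of the step `NUM` (definitions)
-/

set_option autoImplicit false

namespace Pool.Agent.GD

open Finset

/-- The conditions on the sizes of the blocks `0, …, j`. -/
structure Par.Sz (P : Par) (j M₁ : ℕ) : Prop where
  one : ∀ i ≤ j, 1 ≤ P.c i
  big : ∀ i ≤ j, M₁ ≤ P.c i
  dec : ∀ i x, i < x → x ≤ j → P.c x ≤ P.c i
  int : ∀ x K, 2 ≤ x → K ⊆ range (j + 1) → j ∈ K → K.card = x →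
    ∃ p m : ℕ, (p : ℚ) = P.xp x K * P.cc K ∧ (m : ℚ) = P.xm x K * P.cc K

/-- `T` of the `N` points of the kind `(x, B)` are put off `L_j` (`K = range j \ B`, `w = x - |K|`). -/
structure GT (P : Par) (j n : ℕ) (θ : ℝ) (x : ℕ) (B : Finset ℕ) (N T : ℕ) : Prop where
  le : T ≤ N
  zero : (range j \ B).card = x → T = 0
  half : P.kap x ≠ 0 → 2 * T ≤ N
  low : P.kap x ≠ 0 → (range j \ B).card < x →
    P.kap x / 2 * (P.cc (range j \ B) * P.c j) * (n : ℝ) ^ (x - (range j \ B).card - 1) ≤ T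
  win : (range j \ B).card < x →
    |((N - T : ℕ) : ℝ) - P.nat x (range j \ B) * P.cc (range j \ B) *
        ((n - P.c j : ℕ) : ℝ) ^ (x - (range j \ B).card)| ≤
      P.eps j * P.cc (range j \ B) * ((n - P.c j : ℕ) : ℝ) ^ (x - (range j \ B).card)
  room : P.kap x = 0 → (range j \ B).card + 2 ≤ x → ∀ X : ℕ,
    (X : ℝ) ≤ θ * (n : ℝ) ^ (x - (range j \ B).card - 1) →
      ((N - T + X : ℕ) : ℝ) ≤ P.eps j * P.cc (range j \ B) * ((n - P.c j : ℕ) : ℝ) ^ (x - (range j \ B).card)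
  res : (range j \ B).card < x →
    |((N - T : ℕ) : ℝ) - P.nat x (range j \ B) * P.cc (range j \ B) * (n : ℝ) ^ (x - (range j \ B).card)| ≤
      P.bet (j + 1) * P.cc (range j \ B) * (n : ℝ) ^ (x - (range j \ B).card)
  off : (range j \ B).card + 2 ≤ x →
    |(T : ℝ) - P.nat x (insert j (range j \ B)) * P.cc (insert j (range j \ B)) *
        (n : ℝ) ^ (x - (range j \ B).card - 1)| ≤
      P.bet (j + 1) * P.cc (insert j (range j \ B)) * (n : ℝ) ^ (x - (range j \ B).card - 1)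
  one : (range j \ B).card + 1 = x →
    (T : ℚ) = P.xp x (insert j (range j \ B)) * P.cc (insert j (range j \ B)) ∨
      (T : ℚ) = P.xm x (insert j (range j \ B)) * P.cc (insert j (range j \ B))

/-- The numbers of all kinds except the main one. -/
structure Par.GTs (P : Par) (j n : ℕ) (θ : ℝ) (ms : Multiset Kd) (T : ℕ → Finset ℕ → ℕ) : Prop where
  out : ∀ x B, B ⊆ range j → ¬ (2 ≤ x ∧ x < P.d ∧ (range j \ B).card ≤ x) → T x B = 0
  gt : ∀ x B, 2 ≤ x → x < P.d → B ⊆ range j → (range j \ B).card ≤ x → (x ≠ P.e ∨ B ≠ range j) →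
    GT P j n θ x B (npt ms x B) (T x B)

/-- The data of a step. -/
structure Par.Dat (P : Par) (j n : ℕ) (θ : ℝ) (M₀ : ℕ) (ms : Multiset Kd) (s : Stp) : Prop
    extends P.GTs j n θ ms s.T where
  tu : s.T P.e (range j) ≤ ms.count (P.u j)
  tuw : |(s.T P.e (range j) : ℝ) - P.kap P.e * P.e * P.c j * (n : ℝ) ^ (P.e - 1)| ≤
    P.eps (j + 1) * P.c j * (n : ℝ) ^ (P.e - 1)
  oc : ∀ i τ, s.oc i τ = ms.count (τ.kd P.d P.e i j) - τ.mm P * (n - P.c j) ^ τ.w P.e
  nw : ∀ τ ∈ newT P.d P.e j, s.nw τ ≤ nwB P.e P.c M₀ n τ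

end Pool.Agent.GD
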