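import Pool.Agent.GD.N.Dat

/-!
# General d, numerical block: the numbers of the points which are put off `L_j`

PROOF.  `Cls.win` gives `|npt - a C n ^ w| ≤ eps j C n ^ w` with `K = range j \ B`, `w = x - |K|`, `C = cc K`,
`a = nat x K = kap x * (x)_|K|`; `nat x (insert j K) = a * w` (`j ∉ K`), `cc (insert j K) = C * c j`.  `w = 0`: `T = 0`.
`w ≥ 2`, `kap x ≠ 0`: `mv_two` with `ε = eps j`, `ε' = bet (j + 1)`; `w ≥ 2`, `kap x = 0` (`a = 0`): `mv_room`;
`w = 1`: `mv_one` with `β = bet (j + 1)`, `p = xp x (insert j K)`, `m = xm …` (`Par.Ok.xp`, `xm`, `xm0` for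
`insert j K`, whose largest element is `j`; the natural density there is `a * 1 = a * w`).  `low`: `E` is smaller than
`kap x / 4` for all `x ≤ e` with `kap x ≠ 0`, `a * w ≥ kap x`, and `bet (j + 1) ≤ eps J ≤ E`.  Take the maximum of
the `n₀` and the minimum of the `ρ` over the finitely many `(x, B)`; `T = 0` for the other kinds.
-/

set_option autoImplicit false

namespace Pool.Agent.GD

open Finset

private theorem eps_pos {P : Par} {Cs E : ℝ} (hCs : 1 ≤ Cs) (h : P.Ok Cs E) :
    ∀ j ≤ P.J, 0 < P.eps j := by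
  intro j
  induction j with
  | zero => exact fun _ => h.eps0
  | succ j ih =>
    intro hj
    have h1 := ih (by omega)
    have h2 := h.eb j (by omega)
    have h3 := h.be j (by omega)
    have h4 : 0 < P.bet (j + 1) := by nlinarith
    nlinarith

private theorem bet_pos {P : Par} {Cs E : ℝ} (hCs : 1 ≤ Cs) (h : P.Ok Cs E) {j : ℕ} (hj : j < P.J) :
    0 < P.bet (j + 1) := by
  have h1 := eps_pos hCs h j hj.le
  have h2 := h.eb j hj
  nlinarith

private theorem eps_le {P : Par} {Cs E : ℝ} (hCs : 1 ≤ Cs) (h : P.Ok Cs E) :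
    ∀ k j, j + k = P.J → P.eps j ≤ P.eps P.J := by
  intro k
  induction k with
  | zero =>
    intro j hj
    rw [← hj, add_zero]
  | succ k ih =>
    intro j hj
    have h1 := eps_pos hCs h j (by omega)
    have h2 := h.eb j (by omega)
    have h3 := h.be j (by omega)
    have h4 := bet_pos hCs h (j := j) (by omega)
    have h5 := ih (j + 1) (by omega)
    nlinarith

private theorem bet_le {P : Par} {Cs E : ℝ} (hCs : 1 ≤ Cs) (h : P.Ok Cs E) {j : ℕ} (hj : j < P.J) :
    P.bet (j + 1) ≤ E := by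
  have h3 := h.be j hj
  have h4 := bet_pos hCs h hj
  have h5 := eps_le hCs h (P.J - (j + 1)) (j + 1) (by omega)
  have h6 := h.epsJ
  nlinarith

private theorem cc_insert (P : Par) {j : ℕ} {K : Finset ℕ} (hj : j ∉ K) :
    P.cc (insert j K) = P.cc K * P.c j := by
  unfold Par.cc
  rw [prod_insert hj, mul_comm]

private theorem nat_insert (P : Par) {j x : ℕ} {K : Finset ℕ} (hj : j ∉ K) :
    P.nat x (insert j K) = P.nat x K * ((x - K.card : ℕ) : ℝ) := by
  unfold Par.nat
  rw [card_insert_of_notMem hj, Nat.descFactorial_succ]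
  push_cast
  ring

private theorem cc_pos (P : Par) {j : ℕ} (h : ∀ i ≤ j, 1 ≤ P.c i) {K : Finset ℕ}
    (hK : K ⊆ range j) : 1 ≤ P.cc K := by
  unfold Par.cc
  exact Nat.one_le_iff_ne_zero.2 (prod_ne_zero_iff.2 fun i hi => by
    have := h i (mem_range.1 (hK hi)).le
    omega)

private theorem max_ins {j : ℕ} {K : Finset ℕ} (hK : K ⊆ range j) :
    (insert j K).max = (j : WithBot ℕ) := by
  rw [Finset.max_insert]
  refine max_eq_left ?_
  refine Finset.max_le fun a ha => ?_
  exact WithBot.coe_le_coe.2 (mem_range.1 (hK ha)).le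

private theorem exists_gt {P : Par} {Cs E : ℝ} (hCs : 4 * ((P.d : ℝ) + 1) ≤ Cs) (h : P.Ok Cs E)
    (hE : ∀ x, P.kap x ≠ 0 → E ≤ P.kap x / 4) {j : ℕ} (hj : j < P.J) (hS : P.Sz j 1) (x : ℕ)
    (B : Finset ℕ) (hx2 : 2 ≤ x) (hxd : x < P.d) (hB : B ⊆ range j)
    (hK : (range j \ B).card ≤ x) : ∃ (θ : ℝ) (n₀ : ℕ), 0 < θ ∧ ∀ n, n₀ ≤ n → ∀ N : ℕ,
      ((range j \ B).card < x →
        |(N : ℝ) - P.nat x (range j \ B) * P.cc (range j \ B) * (n : ℝ) ^ (x - (range j \ B).card)| ≤
          P.eps j * P.cc (range j \ B) * (n : ℝ) ^ (x - (range j \ B).card)) →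
      ∃ T, GT P j n θ x B N T := by
  have hd0 : (0 : ℝ) ≤ P.d := Nat.cast_nonneg _
  have hCs1 : 1 ≤ Cs := by linarith
  have hCs2 : 2 ≤ Cs := by linarith
  obtain ⟨K, hKdef⟩ : ∃ K, K = range j \ B := ⟨_, rfl⟩
  have hKj : K ⊆ range j := by rw [hKdef]; exact sdiff_subset
  have hjK : j ∉ K := fun h => absurd (mem_range.1 (hKj h)) (lt_irrefl j)
  have hεp := eps_pos hCs1 h j hj.le
  have hβp := bet_pos hCs1 h hj
  have hβE := bet_le hCs1 h hj
  have heb := h.eb j hj
  have hC : 1 ≤ P.cc K := cc_pos P hS.one hKj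
  have hc : 1 ≤ P.c j := hS.one j le_rfl
  have hCr : (1 : ℝ) ≤ P.cc K := by exact_mod_cast hC
  have hcr : (1 : ℝ) ≤ P.c j := by exact_mod_cast hc
  have hkap := h.nonneg x
  have hdf : 1 ≤ x.descFactorial K.card := Nat.succ_le_of_lt (Nat.descFactorial_pos.2 (by
    rw [hKdef]; exact hK))
  have hdfr : (1 : ℝ) ≤ (x.descFactorial K.card : ℕ) := by exact_mod_cast hdf
  have ha : 0 ≤ P.nat x K := mul_nonneg hkap (by linarith)
  have hak : P.kap x ≤ P.nat x K := by
    unfold Par.nat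
    nlinarith
  have ha0 : P.nat x K = 0 → P.kap x = 0 := fun h0 => le_antisymm (h0 ▸ hak) hkap
  have hk0 : P.kap x = 0 → P.nat x K = 0 := fun h0 => by
    unfold Par.nat
    rw [h0, zero_mul]
  rw [← hKdef] at hK ⊢
  rcases Nat.lt_or_ge K.card x with hlt | hge
  swap
  · -- no points are moved
    have hKx : K.card = x := le_antisymm hK hge
    refine ⟨1, 0, one_pos, fun n _ N _ => ⟨0, ?_⟩⟩
    constructor
    · exact Nat.zero_le _
    · exact fun _ => rfl
    · exact fun _ => Nat.zero_le _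
    · rw [← hKdef]; exact fun _ h1 => by omega
    · rw [← hKdef]; exact fun h1 => by omega
    · rw [← hKdef]; exact fun _ h1 => by omega
    · rw [← hKdef]; exact fun h1 => by omega
    · rw [← hKdef]; exact fun h1 => by omega
    · rw [← hKdef]; exact fun h1 => by omega
  obtain ⟨w, hw⟩ : ∃ w, x - K.card = w := ⟨_, rfl⟩
  have hnat' : P.nat x (insert j K) = P.nat x K * (w : ℝ) := by
    rw [nat_insert P hjK, hw]
  have hcc' : P.cc (insert j K) = P.cc K * P.c j := cc_insert P hjK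
  rw [hw]
  rcases Nat.lt_or_ge w 2 with hw2 | hw2
  · -- one point
    have hw1 : w = 1 := by omega
    subst hw1
    have hcard : (insert j K).card = x := by
      rw [card_insert_of_notMem hjK]
      omega
    have hsub : insert j K ⊆ range (j + 1) := by
      intro i hi
      rw [mem_insert] at hi
      rw [mem_range]
      rcases hi with rfl | hi
      · omega
      · have := mem_range.1 (hKj hi)
        omega
    have hsubJ : insert j K ⊆ range P.J := fun i hi => by
      have := mem_range.1 (hsub hi)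
      rw [mem_range]
      omega
    obtain ⟨Tp, Tm, hTp, hTm⟩ := hS.int x (insert j K) hx2 hsub (mem_insert_self _ _) hcard
    have hxp := h.xp x (insert j K) hx2 hsubJ hcard j (max_ins hKj)
    have hxm := h.xm x (insert j K) hx2 hsubJ hcard j (max_ins hKj)
    rw [hnat', Nat.cast_one, mul_one] at hxp hxm
    have hTp' : (Tp : ℝ) = (P.xp x (insert j K) : ℝ) * ((P.cc K : ℝ) * P.c j) := by
      have : ((Tp : ℚ) : ℝ) = ((P.xp x (insert j K) * (P.cc (insert j K) : ℚ) : ℚ) : ℝ) := by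
        rw [hTp]
      rw [hcc'] at this
      push_cast at this
      exact this
    have hTm' : (Tm : ℝ) = (P.xm x (insert j K) : ℝ) * ((P.cc K : ℝ) * P.c j) := by
      have : ((Tm : ℚ) : ℝ) = ((P.xm x (insert j K) * (P.cc (insert j K) : ℚ) : ℚ) : ℝ) := by
        rw [hTm]
      rw [hcc'] at this
      push_cast at this
      exact this
    have h2 : 2 * P.eps j ≤ P.bet (j + 1) := by nlinarith
    obtain ⟨n₀, hn₀⟩ := mv_one (P.nat x K) (P.eps j) (P.bet (j + 1)) (P.bet (j + 1))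
      (P.xp x (insert j K)) (P.xm x (insert j K)) ha hεp h2 h2 hxp
      (fun h0 => hxm fun hk => h0 (hk0 hk))
      (fun h0 => by rw [h.xm0 x _ (ha0 h0)]; simp) (P.cc K) (P.c j) Tp Tm hC hc hTp' hTm'
    refine ⟨1, n₀, one_pos, fun n hn N hN => ?_⟩
    obtain ⟨T, hT, hTN, hT2, hT3, hT4⟩ := hn₀ n hn N (by
      have := hN hlt
      rw [pow_one] at this
      exact this)
    refine ⟨T, ?_⟩
    constructor
    · exact hTN
    · rw [← hKdef]; exact fun h1 => by omega
    · exact fun hk => hT2 fun h0 => hk (ha0 h0)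
    · rw [← hKdef]
      intro hk _
      have h3 : x - K.card - 1 = 0 := by omega
      rw [h3, pow_zero, mul_one]
      have h4 := hE x hk
      have h5 : (0 : ℝ) < (P.cc K : ℝ) * P.c j := by positivity
      have hkp : 0 < P.kap x := lt_of_le_of_ne hkap (Ne.symm hk)
      rcases hT with rfl | rfl
      · rw [hTp']
        exact mul_le_mul_of_nonneg_right (by linarith [hxp.1]) h5.le
      · rw [hTm']
        exact mul_le_mul_of_nonneg_right (by linarith [(hxm hk).2]) h5.le
    · rw [← hKdef, hw, pow_one]; exact fun _ => hT3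
    · rw [← hKdef]; exact fun _ h1 => by omega
    · rw [← hKdef, hw, pow_one]; exact fun _ => hT4
    · rw [← hKdef]; exact fun h1 => by omega
    · rw [← hKdef]
      intro _
      rcases hT with rfl | rfl
      · exact Or.inl hTp
      · exact Or.inr hTm
  · have hwd : (w : ℝ) ≤ P.d := by
      have : w ≤ P.d := by omega
      exact_mod_cast this
    have hw0 : (0 : ℝ) ≤ w := Nat.cast_nonneg _
    have hw1r : (1 : ℝ) ≤ w := by
      have : 1 ≤ w := by omega
      exact_mod_cast this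
    by_cases hk : P.kap x = 0
    · have hnat0 := hk0 hk
      obtain ⟨ρ, n₀, hρ, hn₀⟩ := mv_room w hw2 1 (P.eps j) (P.bet (j + 1)) one_pos le_rfl hεp
        (by
          refine le_trans ?_ heb
          exact mul_le_mul_of_nonneg_right (by nlinarith) hεp.le) (P.cc K) (P.c j) hC hc
      refine ⟨ρ, n₀, hρ, fun n hn N hN => ?_⟩
      have hN' := hN hlt
      rw [hnat0, zero_mul, zero_mul, sub_zero, abs_of_nonneg (Nat.cast_nonneg N)] at hN'
      obtain ⟨T, hTN, hT1, hT2⟩ := hn₀ n hn N hN'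
      have hn0 : (0 : ℝ) ≤ n := Nat.cast_nonneg _
      refine ⟨T, ?_⟩
      constructor
      · exact hTN
      · rw [← hKdef]; exact fun h1 => by omega
      · exact fun h1 => absurd hk h1
      · exact fun h1 => absurd hk h1
      · rw [← hKdef, hw, hnat0]
        intro _
        rw [zero_mul, zero_mul, sub_zero, abs_of_nonneg (Nat.cast_nonneg _)]
        have h3 := hT1 0 (by
          rw [Nat.cast_zero]
          positivity)
        rw [add_zero] at h3
        exact h3
      · rw [← hKdef, hw]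
        exact fun _ _ X hX => hT1 X hX
      · rw [← hKdef, hw, hnat0]
        intro _
        rw [zero_mul, zero_mul, sub_zero, abs_of_nonneg (Nat.cast_nonneg _)]
        have h3 : ((N - T : ℕ) : ℝ) ≤ N := by exact_mod_cast Nat.sub_le N T
        refine h3.trans (hN'.trans ?_)
        refine mul_le_mul_of_nonneg_right (mul_le_mul_of_nonneg_right ?_ (by linarith))
          (by positivity)
        nlinarith
      · rw [← hKdef, hw, hnat', hnat0, hcc']
        intro _
        rw [zero_mul, zero_mul, zero_mul, sub_zero, abs_of_nonneg (Nat.cast_nonneg _)]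
        push_cast
        exact hT2
      · rw [← hKdef]; exact fun h1 => by omega
    · obtain ⟨n₀, hn₀⟩ := mv_two w hw2 (P.nat x K) (P.eps j) (P.bet (j + 1)) ha hεp
        (by
          refine le_trans ?_ heb
          exact mul_le_mul_of_nonneg_right (by nlinarith) hεp.le) (P.cc K) (P.c j) hC hc
      refine ⟨1, n₀, one_pos, fun n hn N hN => ?_⟩
      obtain ⟨T, hT2, hT3, hT4, hT5⟩ := hn₀ n hn N (hN hlt)
      have hn0 : (0 : ℝ) ≤ n := Nat.cast_nonneg _
      refine ⟨T, ?_⟩
      constructor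
      · omega
      · rw [← hKdef]; exact fun h1 => by omega
      · exact fun _ => hT2
      · rw [← hKdef, hw]
        intro _ _
        have h4 := hE x hk
        have hkp : 0 < P.kap x := lt_of_le_of_ne hkap (Ne.symm hk)
        have h5 : (0 : ℝ) ≤ ((P.cc K : ℝ) * P.c j) * (n : ℝ) ^ (w - 1) := by positivity
        have h6 := (abs_le.1 hT5).1
        have h7 : P.kap x / 2 ≤ P.nat x K * w - P.bet (j + 1) := by nlinarith
        have h8 := mul_le_mul_of_nonneg_right h7 h5
        nlinarith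
      · rw [← hKdef, hw]; exact fun _ => hT3
      · exact fun h1 => absurd h1 hk
      · rw [← hKdef, hw]; exact fun _ => hT4
      · rw [← hKdef, hw, hnat', hcc']
        intro _
        push_cast
        exact hT5
      · rw [← hKdef]; exact fun h1 => by omega

private theorem GT.mono {P : Par} {j n : ℕ} {θ θ' : ℝ} {x : ℕ} {B : Finset ℕ} {N T : ℕ}
    (hθ : θ' ≤ θ) (h : GT P j n θ x B N T) : GT P j n θ' x B N T :=
  { h with
    room := fun hk hx X hX => h.room hk hx X (hX.trans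
      (mul_le_mul_of_nonneg_right hθ (pow_nonneg (Nat.cast_nonneg _) _))) }

theorem exists_T (d e : ℕ) (kap : ℕ → ℝ) (hk : Crit d e kap) : ∃ Cs E : ℝ, 1 ≤ Cs ∧ 0 < E ∧
    ∀ P : Par, P.d = d → P.e = e → P.kap = kap → P.Ok Cs E → ∀ j < P.J, P.Sz j 1 →
      ∃ (θ : ℝ) (n₀ : ℕ), 0 < θ ∧ ∀ n, n₀ ≤ n → ∀ ms, Cls P j n ms →
        ∃ T : ℕ → Finset ℕ → ℕ, P.GTs j n θ ms T := by
  classical
  -- the constants
  obtain ⟨S, hSdef⟩ : ∃ S, S = (range (e + 1)).filter fun x => kap x ≠ 0 := ⟨_, rfl⟩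
  have hSne : S.Nonempty := ⟨e, by
    rw [hSdef, mem_filter, mem_range]
    exact ⟨by omega, hk.pos.ne'⟩⟩
  refine ⟨4 * ((d : ℝ) + 1), S.inf' hSne kap / 4, ?_, ?_, ?_⟩
  · have : (0 : ℝ) ≤ d := Nat.cast_nonneg _
    linarith
  · have : 0 < S.inf' hSne kap := by
      rw [lt_inf'_iff]
      intro x hx
      rw [hSdef, mem_filter] at hx
      exact lt_of_le_of_ne (hk.nonneg x) (Ne.symm hx.2)
    linarith
  rintro P rfl rfl rfl hP j hj hS
  have hE : ∀ x, P.kap x ≠ 0 → S.inf' hSne P.kap / 4 ≤ P.kap x / 4 := by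
    intro x hx
    have h1 : x ∈ S := by
      rw [hSdef, mem_filter, mem_range]
      have := (hk.supp x hx).2
      exact ⟨by omega, hx⟩
    have h2 := inf'_le P.kap h1
    linarith
  -- the choice for all kinds
  have key : ∀ q : ℕ × Finset ℕ, ∃ (θ : ℝ) (n₀ : ℕ), 0 < θ ∧ ((2 ≤ q.1 ∧ q.1 < P.d ∧
      (range j \ q.2).card ≤ q.1) ∧ q.2 ⊆ range j → ∀ n, n₀ ≤ n → ∀ N : ℕ,
      ((range j \ q.2).card < q.1 →
        |(N : ℝ) - P.nat q.1 (range j \ q.2) * P.cc (range j \ q.2) *
          (n : ℝ) ^ (q.1 - (range j \ q.2).card)| ≤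
          P.eps j * P.cc (range j \ q.2) * (n : ℝ) ^ (q.1 - (range j \ q.2).card)) →
      ∃ T, GT P j n θ q.1 q.2 N T) := by
    rintro ⟨x, B⟩
    by_cases h : (2 ≤ x ∧ x < P.d ∧ (range j \ B).card ≤ x) ∧ B ⊆ range j
    · obtain ⟨θ, n₀, h1, h2⟩ := exists_gt le_rfl hP hE hj hS x B h.1.1 h.1.2.1 h.2 h.1.2.2
      exact ⟨θ, n₀, h1, fun _ => h2⟩
    · exact ⟨1, 0, one_pos, fun h' => absurd h' h⟩
  choose θ n₀ hθ hkey using key
  obtain ⟨F, hF⟩ : ∃ F, F = range (P.d + 1) ×ˢ (range j).powerset := ⟨_, rfl⟩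
  have hFne : F.Nonempty := ⟨(0, ∅), by
    rw [hF, mem_product, mem_range, mem_powerset]
    exact ⟨by omega, empty_subset _⟩⟩
  refine ⟨F.inf' hFne θ, F.sup n₀, ?_, ?_⟩
  · rw [lt_inf'_iff]
    exact fun q _ => hθ q
  intro n hn ms hms
  have hT : ∀ (x : ℕ) (B : Finset ℕ), ∃ T, (¬ (2 ≤ x ∧ x < P.d ∧ (range j \ B).card ≤ x) → T = 0) ∧
      (2 ≤ x → x < P.d → B ⊆ range j → (range j \ B).card ≤ x → (x ≠ P.e ∨ B ≠ range j) →
        GT P j n (F.inf' hFne θ) x B (npt ms x B) T) := by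
    intro x B
    by_cases h : ((2 ≤ x ∧ x < P.d ∧ (range j \ B).card ≤ x) ∧ B ⊆ range j) ∧
        (x ≠ P.e ∨ B ≠ range j)
    · have hmem : (x, B) ∈ F := by
        rw [hF, mem_product, mem_range, mem_powerset]
        exact ⟨by show x < P.d + 1; omega, h.1.2⟩
      obtain ⟨T, hT⟩ := hkey (x, B) h.1 n ((le_sup (f := n₀) hmem).trans hn) (npt ms x B)
        (fun h1 => hms.win x B h.1.1.1 h.1.1.2.1 h.1.2 h1 h.2)
      exact ⟨T, fun h' => absurd h.1.1 h', fun _ _ _ _ _ => hT.mono (inf'_le θ hmem)⟩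
    · exact ⟨0, fun _ => rfl, fun h1 h2 h3 h4 h5 => absurd ⟨⟨⟨h1, h2, h4⟩, h3⟩, h5⟩ h⟩
  choose T hT0 hT1 using hT
  exact ⟨T, fun x B _ h => hT0 x B h, fun x B h1 h2 h3 h4 h5 => hT1 x B h1 h2 h3 h4 h5⟩

end Pool.Agent.GD
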