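import Pool.Agent.GD.N.Pack
import Pool.Agent.GD.N.Close

/-!
# General d, numerical block: the step `NUM`
-/

set_option autoImplicit false

namespace Pool.Agent.GD

open Finset Filter NU

theorem NU.cc_succ (P : Par) (j : ℕ) : P.cc (range (j + 1)) = P.cc (range j) * P.c j := by
  unfold Par.cc
  rw [prod_range_succ]

/-- Linear growth along a window. -/
theorem NU.grow_line (f : ℕ → ℝ) (a b : ℕ) (l : ℝ) (h : ∀ t, a ≤ t → t < b → f t + l ≤ f (t + 1)) :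
    ∀ k, a + k ≤ b → f a + k * l ≤ f (a + k) := by
  intro k
  induction k with
  | zero => intro _; simp
  | succ k ih =>
    intro hk
    have h1 := ih (by omega)
    have h2 := h (a + k) (by omega) (by omega)
    rw [← add_assoc]
    push_cast
    linarith

private theorem ar2 {ε c X : ℝ} (h : 4 ≤ ε * X) (hc : 1 ≤ c) : 1 ≤ ε / 4 * (c * X) := by
  have h1 : ε / 4 * (c * X) = ε * X / 4 * c := by ring
  rw [h1]
  nlinarith

private theorem ar3 {ε κ c X W t0 K1 : ℝ} (hWa : W ≤ ε / 2 * c * X) (hεκ : ε ≤ κ / 4) (hcX : 0 < c * X)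
    (h2 : κ * c * X ≤ K1 * X) (h3 : K1 * X < t0 + 1) (h4 : 4 ≤ κ * (c * X)) : W ≤ t0 := by
  have h1 : ε / 2 * (c * X) ≤ κ / 8 * (c * X) := by
    apply mul_le_mul_of_nonneg_right _ hcX.le
    linarith
  nlinarith

private theorem ar6 {ε c X W t0 K1 t : ℝ} (hWa : W ≤ ε / 2 * c * X) (hε : ε ≤ 1) (hcX : 0 < c * X)
    (h3 : t0 ≤ K1 * X) (h4 : t ≤ t0 + W) : t ≤ (K1 + c) * X := by
  nlinarith

private theorem ar6' {κ kap K1 c X Z Nu t Cw eps : ℝ} (h1 : t ≤ (K1 + c) * X) (h2 : (K1 + c) * X ≤ κ / 4 * Z)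
    (h3 : -(Cw * eps * Z) ≤ Nu - kap * Z) (h4 : Cw * eps ≤ κ / 4) (h5 : κ ≤ kap) (hZ : 0 < Z) (hκ : 0 < κ) :
    t ≤ Nu := by
  have h6 : Cw * eps * Z ≤ κ / 4 * Z := mul_le_mul_of_nonneg_right h4 hZ.le
  have h7 : κ * Z ≤ kap * Z := mul_le_mul_of_nonneg_right h5 hZ.le
  have h8 : 0 < κ * Z := by positivity
  linarith

private theorem ar7 {ε c X W t0 K1 t : ℝ} (hWa : W ≤ ε / 2 * c * X) (hq : 1 ≤ ε / 4 * (c * X))
    (h3 : t0 ≤ K1 * X) (h3' : K1 * X < t0 + 1) (h4 : t ≤ t0 + W) (h5 : t0 ≤ t + W) :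
    |t - K1 * X| ≤ ε * c * X := by
  rw [abs_le]
  constructor <;> linarith

private theorem ar8 {kap ρm Z Nu Cw eps : ℝ} (h2 : Nu - kap * Z ≤ Cw * eps * Z) (h4 : Cw * eps ≤ ρm / 4)
    (hZ : 0 < Z) : Nu ≤ (kap + ρm / 4) * Z := by
  have h6 : Cw * eps * Z ≤ ρm / 4 * Z := mul_le_mul_of_nonneg_right h4 hZ.le
  linarith

private theorem ar9 {kap ρm ρ' z Nu a : ℝ} (h1 : a ≤ Nu) (h2 : Nu ≤ (kap + ρm) * z) (h3 : ρm ≤ ρ') (h4 : 0 ≤ z) :
    a ≤ (kap + ρ') * z := by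
  have h5 : ρm * z ≤ ρ' * z := mul_le_mul_of_nonneg_right h3 h4
  linarith

private theorem ar10 {b c X t0 K1 : ℝ} (q1 : 1 ≤ b * X) (hc : 1 ≤ c) (h3 : t0 ≤ K1 * X)
    (h3' : K1 * X < t0 + 1) : |t0 - K1 * X| ≤ b * c * X := by
  have h1 : b * X ≤ b * c * X := by
    have h2 : b * c * X = b * X * c := by ring
    rw [h2]
    nlinarith
  rw [abs_le]
  constructor <;> linarith

private theorem ar11 {b c X t0 K1 Z Nu kap Cw eps : ℝ} (h1 : t0 ≤ K1 * X) (h0 : 0 ≤ t0) (hcX : 0 < c * X)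
    (h2 : (K1 + c) * X ≤ b / 2 * Z) (h3 : -(Cw * eps * Z) ≤ Nu - kap * Z)
    (h4 : Nu - kap * Z ≤ Cw * eps * Z) (h5 : Cw * eps ≤ b / 2) (hZ : 0 < Z) (hb : 0 < b) :
    |Nu - t0 - kap * Z| ≤ b * Z := by
  have h6 : Cw * eps * Z ≤ b / 2 * Z := mul_le_mul_of_nonneg_right h5 hZ.le
  have h7 : 0 < b * Z := by positivity
  rw [abs_le]
  constructor <;> linarith

private theorem ar12 {ε c X W : ℝ} (hWb : ε / 2 * c * X < W + 1) (hq : 1 ≤ ε / 4 * (c * X)) :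
    ε / 4 * (c * X) ≤ W := by
  linarith

private theorem ar13 {Cs Cw eps b : ℝ} (h1 : 2 * Cw ≤ Cs) (h2 : Cs * eps ≤ b) (h3 : 0 < eps) :
    Cw * eps ≤ b / 2 := by
  have := mul_le_mul_of_nonneg_right h1 h3.le
  linarith

theorem num_aux (h2 : ∀ d, ADD d) (d e : ℕ) (kap : ℕ → ℝ) (hk : Crit d e kap) (Cw ρ : ℝ) (hCw : 1 ≤ Cw)
    (hρ : 0 < ρ) (κ : ℝ) (hκ : 0 < κ) (hκm : ∀ x, kap x ≠ 0 → κ ≤ kap x) :
    ∃ Cs E : ℝ, 1 ≤ Cs ∧ 0 < E ∧ E ≤ κ ∧ ∃ M₀ : ℕ, ∀ M : ℕ, M₀ ≤ M → ∃ M₁ : ℕ,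
      ∀ P : Par, P.d = d → P.e = e → P.kap = kap → P.M = M → P.Ok Cs E → ∀ j < P.J, P.Sz j M₁ →
        (∀ i < P.J, 1 ≤ P.c i) → ∀ η : ℝ, 0 < η → η ≤ P.eps 0 → NUM P j η Cw ρ := by
  obtain ⟨lo, hi, ρ1, E1, hlo, hhi, hρ1, hE1, hcost⟩ := cost d e kap hk
  obtain ⟨ρ2, E2, M₀, hρ2, hE2, hlad⟩ := ladder d e kap hk hi
  obtain ⟨C, hC, hva⟩ := va d e kap hk
  obtain ⟨Cs3, E3, hCs3, hE3, hE31, hpack⟩ := pack d e kap hk M₀
  obtain ⟨ρm, hρm0, hρmρ, hρm1, hρm2⟩ : ∃ ρm : ℝ, 0 < ρm ∧ ρm ≤ ρ ∧ ρm ≤ ρ1 ∧ ρm ≤ ρ2 :=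
    ⟨min ρ (min ρ1 ρ2), lt_min hρ (lt_min hρ1 hρ2), min_le_left _ _,
      (min_le_right _ _).trans (min_le_left _ _), (min_le_right _ _).trans (min_le_right _ _)⟩
  obtain ⟨Cs, hCsA, hCsB, hCsC⟩ : ∃ Cs : ℝ, Cs3 ≤ Cs ∧ 2 * Cw ≤ Cs ∧ 16 * (C + 1) / lo ≤ Cs :=
    ⟨max Cs3 (max (2 * Cw) (16 * (C + 1) / lo)), le_max_left _ _,
      (le_max_left _ _).trans (le_max_right _ _), (le_max_right _ _).trans (le_max_right _ _)⟩
  obtain ⟨E, hE0, hEA, hEB, hEC, hED, hEE⟩ : ∃ E : ℝ, 0 < E ∧ E ≤ E1 ∧ E ≤ E2 ∧ E ≤ E3 ∧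
      Cw * E ≤ ρm / 4 ∧ Cw * E ≤ κ / 4 := by
    refine ⟨min (min E1 (min E2 E3)) (min (ρm / (4 * Cw)) (κ / (4 * Cw))), ?_, ?_, ?_, ?_, ?_, ?_⟩
    · refine lt_min (lt_min hE1 (lt_min hE2 hE3)) (lt_min ?_ ?_) <;> positivity
    · exact (min_le_left _ _).trans (min_le_left _ _)
    · exact (min_le_left _ _).trans ((min_le_right _ _).trans (min_le_left _ _))
    · exact (min_le_left _ _).trans ((min_le_right _ _).trans (min_le_right _ _))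
    · have h1 : min (min E1 (min E2 E3)) (min (ρm / (4 * Cw)) (κ / (4 * Cw))) ≤ ρm / (4 * Cw) :=
        (min_le_right _ _).trans (min_le_left _ _)
      calc _ ≤ Cw * (ρm / (4 * Cw)) := by gcongr
        _ = ρm / 4 := by field_simp
    · have h1 : min (min E1 (min E2 E3)) (min (ρm / (4 * Cw)) (κ / (4 * Cw))) ≤ κ / (4 * Cw) :=
        (min_le_right _ _).trans (min_le_right _ _)
      calc _ ≤ Cw * (κ / (4 * Cw)) := by gcongr
        _ = κ / 4 := by field_simp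
  have hE1' : E ≤ κ / 4 := by nlinarith
  refine ⟨Cs, E, by linarith, hE0, by linarith, M₀, fun M hM => ?_⟩
  obtain ⟨M₁, hM₁⟩ := hpack M hM
  refine ⟨M₁, fun P hd he hkap hPM hP j hj hs hc1 η hη hη0 => ?_⟩
  have hP3 : P.Ok Cs3 E3 := hP.mono hCsA (by linarith) hEC
  have hP1 : P.Ok 1 E1 := hP.mono (by linarith) (by norm_num) hEA
  have hP2 : P.Ok 1 E2 := hP.mono (by linarith) (by norm_num) hEB
  have hP11 : P.Ok 1 1 := hP.mono (by linarith) (by norm_num) (hEC.trans hE31)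
  have hPf : (P.fin j).Ok 1 1 := hP11.upd hj
  have hpk := hM₁ P hd he hkap hPM hP3 j hj hs
  obtain ⟨n5, h5⟩ := hcost P hd he hkap hP1 hc1 j hj.le
  obtain ⟨n6, h6⟩ := hlad P hd he hkap hP2 hc1 j hj
  -- the windows
  obtain ⟨he0, he1, he2⟩ := hP11.eps_mono (i := 0) (j := j) (by omega) hj.le
  obtain ⟨he3, he4, he5⟩ := hP11.eps_mono (i := j) (j := j + 1) (by omega) hj
  obtain ⟨he5, hb0⟩ := he5 (by omega)
  have hεJ : P.eps (j + 1) ≤ E := by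
    have h1 := (hP11.eps_mono (i := j + 1) (j := P.J) hj le_rfl).2.1
    linarith [hP.epsJ]
  have hεJ' : P.eps j ≤ E := by linarith
  have hceb := hP.eb j hj
  have hcbe := hP.be j hj
  obtain ⟨b, hbdef⟩ : ∃ b, b = P.bet (j + 1) := ⟨_, rfl⟩
  obtain ⟨ε, hεdef⟩ : ∃ ε, ε = P.eps (j + 1) := ⟨_, rfl⟩
  have hva' := hva (P.fin j) hd he hkap hPf (fun i hi => hc1 i hi) (j + 1) hj (P.bet (j + 1))
    (by
      show Function.update P.eps (j + 1) (P.bet (j + 1)) (j + 1) ≤ P.bet (j + 1)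
      rw [Function.update_self]) (by linarith)
  obtain ⟨n7, h7⟩ := hva'
  have hcj : (1 : ℝ) ≤ P.c j := by exact_mod_cast hc1 j hj
  have hcj' : 1 ≤ P.c j := hc1 j hj
  have hcc1 : (1 : ℝ) ≤ P.cc (range j) := by
    have h1 : 1 ≤ P.cc (range j) := Finset.one_le_prod' fun i hi => hc1 i (by
      have := mem_range.1 hi
      omega)
    exact_mod_cast h1
  have hcc2 : ((P.cc (range (j + 1)) : ℕ) : ℝ) = P.cc (range j) * P.c j := by
    rw [cc_succ]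
    push_cast
    ring
  subst hd he hkap
  have hκe : κ ≤ P.kap P.e := hκm _ hk.pos.ne'
  have hkp : 0 < P.kap P.e := hk.pos
  have hJ : j < P.d - P.e := hj
  have he2 := hk.two
  have hed := hk.lt
  obtain ⟨D, hD⟩ : ∃ D, D = P.d - P.e - j := ⟨_, rfl⟩
  have hsub : Tendsto (fun n : ℕ => n - P.c j) atTop atTop := tendsto_sub_atTop_nat _
  obtain ⟨δ, hδ, hδ1⟩ : ∃ δ : ℝ, 0 < δ ∧ (P.kap P.e + ρm / 4) * (1 + δ) ≤ P.kap P.e + ρm := by
    refine ⟨ρm / 2 / (P.kap P.e + ρm / 4), by positivity, ?_⟩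
    have h1 : (P.kap P.e + ρm / 4) * (1 + ρm / 2 / (P.kap P.e + ρm / 4)) =
        P.kap P.e + ρm / 4 + ρm / 2 := by
      have : P.kap P.e + ρm / 4 ≠ 0 := by positivity
      field_simp
    rw [h1]
    linarith
  suffices hmain : ∀ᶠ n : ℕ in atTop, ∀ ms, Cls P j n ms → ∀ g : ℕ,
      (g : ℝ) ≤ η * P.cc (range j) * (n : ℝ) ^ (P.d - j) →
      |(P.v j n ms : ℝ) - g| ≤ η * P.cc (range j) * (n : ℝ) ^ (P.d - j - 1) →
      |(ms.count (P.u j) : ℝ) - P.kap P.e * (n : ℝ) ^ P.e| ≤ Cw * P.eps j * (n : ℝ) ^ P.e →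
        ∃ (ms' A : Multiset Kd) (r : ℕ), Cls P (j + 1) n ms' ∧ Cls P j (n - P.c j) A ∧ 1 ≤ r ∧
          (A.count (P.u j) : ℝ) ≤ (P.kap P.e + ρ) * ((n - P.c j : ℕ) : ℝ) ^ P.e ∧
          P.v j (n - P.c j) A = g + r ∧ ms'.bind (un j) = ms ∧
          ms'.bind (tr j) = A + Multiset.replicate r (sm P.d) by
    obtain ⟨n₀, h⟩ := eventually_atTop.1 hmain
    exact ⟨n₀, h⟩
  have hXe : P.e - 1 + 1 = P.e := by omega
  filter_upwards [hpk, hsub.eventually_ge_atTop n5, hsub.eventually_ge_atTop n6,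
    eventually_ge_atTop n7, ev_le 1 b (hbdef ▸ hb0) (P.e - 1) (by omega),
    ev_pow (P.kap P.e * P.e * P.c j + P.c j) (b / 2) (by rw [hbdef]; linarith) (P.e - 1),
    ev_pow (P.kap P.e * P.e * P.c j + P.c j) (κ / 4) (by linarith) (P.e - 1),
    ev_ratio (P.c j) P.e δ hδ, ev_ratio (P.c j) D 1 one_pos,
    ev_le 4 ε (by rw [hεdef]; linarith) (P.e - 1) (by omega),
    ev_le 4 κ hκ (P.e - 1) (by omega), eventually_ge_atTop 1] with n hpk hn5 hn6 hn7 q1 q2 q2' q3 q4 q5 q6 hn1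
    ms hms g hg hvg hNu
  rw [hXe] at q2 q2'
  rw [← hbdef] at hb0 he5 hceb hcbe h7
  rw [← hεdef] at hεJ he5 hcbe he4
  obtain ⟨n', hn'⟩ : ∃ n', n' = n - P.c j := ⟨_, rfl⟩
  rw [← hn'] at hn5 hn6 q3 q4
  obtain ⟨X, hX⟩ : ∃ X, X = (n : ℝ) ^ (P.e - 1) := ⟨_, rfl⟩
  obtain ⟨Z, hZ⟩ : ∃ Z, Z = (n : ℝ) ^ P.e := ⟨_, rfl⟩
  obtain ⟨Nu, hNudef⟩ : ∃ Nu, Nu = ms.count (P.u j) := ⟨_, rfl⟩
  obtain ⟨X₀, hX₀⟩ := hpk ms hms
  rw [← hNudef, ← hεdef, ← hbdef, ← hX, ← hn'] at hX₀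
  rw [← hX] at q1 q2 q2' q5 q6
  rw [← hZ] at q2 q2' q3
  rw [← hNudef, ← hZ] at hNu
  have hn0 : (0 : ℝ) < n := by exact_mod_cast hn1
  have hX0 : 0 < X := by rw [hX]; positivity
  have hZ0 : 0 < Z := by rw [hZ]; positivity
  have hb0' : 0 < b := hb0
  have hε1 : ε ≤ 1 := by linarith
  have hε0' : 0 < ε := by linarith
  -- constants
  obtain ⟨K1, hK1⟩ : ∃ K1, K1 = P.kap P.e * P.e * P.c j := ⟨_, rfl⟩
  rw [← hK1] at hX₀ q2 q2'
  have hee : (1 : ℝ) ≤ P.e := by exact_mod_cast (show 1 ≤ P.e by omega)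
  have hK1κ : κ * P.c j ≤ K1 := by
    rw [hK1]
    have h1 : κ ≤ P.kap P.e * P.e := hκe.trans (le_mul_of_one_le_right hkp.le hee)
    exact mul_le_mul_of_nonneg_right h1 (by linarith)
  have hK10 : 0 < K1 := by
    rw [hK1]
    have : (0 : ℝ) < P.e := by linarith
    have : (0 : ℝ) < P.c j := by linarith
    positivity
  have ht0a : (⌊K1 * X⌋₊ : ℝ) ≤ K1 * X := Nat.floor_le (by positivity)
  have ht0b : K1 * X < ⌊K1 * X⌋₊ + 1 := Nat.lt_floor_add_one _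
  have hWa : (⌊ε / 2 * P.c j * X⌋₊ : ℝ) ≤ ε / 2 * P.c j * X := Nat.floor_le (by positivity)
  have hWb : ε / 2 * P.c j * X < ⌊ε / 2 * P.c j * X⌋₊ + 1 := Nat.lt_floor_add_one _
  obtain ⟨t0, ht0⟩ : ∃ t0, t0 = ⌊K1 * X⌋₊ := ⟨_, rfl⟩
  obtain ⟨W, hW⟩ : ∃ W, W = ⌊ε / 2 * P.c j * X⌋₊ := ⟨_, rfl⟩
  rw [← ht0] at ht0a ht0b
  rw [← hW] at hWa hWb
  have hcX : X ≤ P.c j * X := le_mul_of_one_le_left hX0.le hcj
  have hcX0 : 0 < P.c j * X := lt_of_lt_of_le hX0 hcX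
  have q5' : 1 ≤ ε / 4 * (P.c j * X) := ar2 q5 hcj
  have hWt : (W : ℝ) ≤ t0 := by
    refine ar3 hWa (by linarith) hcX0 (mul_le_mul_of_nonneg_right hK1κ hX0.le) ht0b ?_
    have h1 : κ * X ≤ κ * (P.c j * X) := mul_le_mul_of_nonneg_left hcX hκ.le
    linarith
  have hWt' : W ≤ t0 := by exact_mod_cast hWt
  have hNu1 := (abs_le.1 hNu).1
  have hNu2 := (abs_le.1 hNu).2
  have hCwE : Cw * P.eps j ≤ Cw * E := mul_le_mul_of_nonneg_left hεJ' (by linarith)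
  have hCwε : Cw * P.eps j ≤ κ / 4 := hCwE.trans hEE
  have hCwε' : Cw * P.eps j ≤ ρm / 4 := hCwE.trans hED
  have hCwb : Cw * P.eps j ≤ b / 2 := ar13 hCsB hceb he3
  have hWn : ∀ t : ℕ, t0 - W ≤ t → t ≤ t0 + W → t ≤ Nu ∧ |(t : ℝ) - K1 * X| ≤ ε * P.c j * X := by
    intro t h1 h2'
    have h3 : (t0 : ℝ) ≤ t + W := by exact_mod_cast (show t0 ≤ t + W by omega)
    have h4 : (t : ℝ) ≤ t0 + W := by exact_mod_cast h2'
    refine ⟨?_, ?_⟩
    · have h5 : (t : ℝ) ≤ (K1 + P.c j) * X := ar6 hWa hε1 hcX0 ht0a h4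
      have h6 : (t : ℝ) ≤ Nu := ar6' h5 q2' hNu1 hCwε hκe hZ0 hκ
      exact_mod_cast h6
    · exact ar7 hWa q5' ht0a ht0b h4 h3
  have hZn' : Z ≤ (1 + δ) * (n' : ℝ) ^ P.e := q3
  have hcnt : (Nu : ℝ) ≤ (P.kap P.e + ρm) * (n' : ℝ) ^ P.e := by
    have h1 : (Nu : ℝ) ≤ (P.kap P.e + ρm / 4) * Z := ar8 hNu2 hCwε' hZ0
    calc (Nu : ℝ) ≤ (P.kap P.e + ρm / 4) * Z := h1
      _ ≤ (P.kap P.e + ρm / 4) * ((1 + δ) * (n' : ℝ) ^ P.e) :=
          mul_le_mul_of_nonneg_left hZn' (by positivity)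
      _ = ((P.kap P.e + ρm / 4) * (1 + δ)) * (n' : ℝ) ^ P.e := by ring
      _ ≤ _ := mul_le_mul_of_nonneg_right hδ1 (by positivity)
  have hcnt' : ∀ (ρ' : ℝ) (t : ℕ), ρm ≤ ρ' →
      ((Nu - t : ℕ) : ℝ) ≤ (P.kap P.e + ρ') * (n' : ℝ) ^ P.e := by
    intro ρ' t h1
    have h3 : ((Nu - t : ℕ) : ℝ) ≤ Nu := by exact_mod_cast Nat.sub_le _ _
    exact ar9 h3 hcnt h1 (by positivity)
  -- the configurations without new clusters
  obtain ⟨Y, hY⟩ : ∃ Y : ℕ → Multiset Kd, Y = fun t => X₀ + Multiset.replicate (Nu - t) (P.u j) :=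
    ⟨_, rfl⟩
  have hYt : ∀ t, X₀ + Multiset.replicate (Nu - t) (P.u j) = Y t := fun t => by rw [hY]
  simp only [hYt] at hX₀
  have hY0 : ∀ t, t0 - W ≤ t → t ≤ t0 + W → Cls P j n' (Y t) ∧ (Y t).count (P.u j) = Nu - t := by
    intro t h1 h2'
    obtain ⟨h3, h4⟩ := hWn t h1 h2'
    obtain ⟨h5, h6, _⟩ := hX₀ t h3 h4 (fun _ => 0) (fun _ _ => Nat.zero_le _)
    rw [newP_zero, add_zero] at h5 h6
    exact ⟨h5, h6⟩
  have hcst : ∀ t, t0 - W ≤ t → t < t0 + W →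
      P.v j n' (Y (t + 1)) = P.v j n' (Y t) + vd (P.d - P.e) (range j) P.c n' (Y (t + 1)) ∧
      lo * P.cc (range j) * (n' : ℝ) ^ D ≤ (vd (P.d - P.e) (range j) P.c n' (Y (t + 1)) : ℝ) ∧
      (vd (P.d - P.e) (range j) P.c n' (Y (t + 1)) : ℝ) ≤ hi * P.cc (range j) * (n' : ℝ) ^ D := by
    intro t h1 h2'
    obtain ⟨h3, h4⟩ := hY0 (t + 1) (by omega) (by omega)
    have h5' := h5 n' hn5 (Y (t + 1)) h3 (by rw [h4]; exact hcnt' ρ1 (t + 1) hρm1) (P.d - P.e)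
      (by omega) (range j) Subset.rfl (by rw [card_range]; omega)
    rw [card_range, ← hD] at h5'
    refine ⟨?_, h5'⟩
    have h6 : Y t = P.u j ::ₘ Y (t + 1) := by
      have h7 := (hWn (t + 1) (by omega) (by omega)).1
      rw [← hYt, ← hYt, show Nu - t = Nu - (t + 1) + 1 by omega, Multiset.replicate_succ,
        Multiset.add_cons]
    have h7 := vd_cons P.d (range j) P.c n' (Y (t + 1)) P.e (range j) hed.le
    rw [inter_self] at h7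
    rw [h6]
    unfold Par.v
    rw [h7]
    ring
  -- the value at `t0`
  have hf0 : |(P.v j n' (Y t0) : ℝ) - g| ≤ (C + 1) * b * (P.cc (range j) * P.c j) * (n : ℝ) ^ (P.d - j - 1) := by
    obtain ⟨h3, h4⟩ := hWn t0 (by omega) (by omega)
    obtain ⟨_, _, ms', h5, h6, h7', h8, h9⟩ := hX₀ t0 h3 h4 (fun _ => 0) (fun _ _ => Nat.zero_le _)
    rw [newP_zero, add_zero, newR_zero, Multiset.replicate_zero, add_zero] at h7'
    have h10 : |(t0 : ℝ) - K1 * X| ≤ b * P.c j * X := ar10 q1 hcj ht0a ht0b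
    have h11 := h9 h10
    have h12 := h7 n hn7 ms' h11 (by
      show |((ms'.count (P.u (j + 1)) : ℕ) : ℝ) - P.kap P.e * (n : ℝ) ^ P.e| ≤ b * (n : ℝ) ^ P.e
      rw [h8, ← hZ, Nat.cast_sub h3]
      exact ar11 ht0a (Nat.cast_nonneg _) hcX0 q2 hNu1 hNu2 hCwb hZ0 hb0) P.d le_rfl (range (j + 1)) Subset.rfl (by rw [card_range]; omega)
    rw [hk.crit, card_range, mul_zero, zero_mul, zero_mul, sub_zero] at h12
    have h13 := h2 P.d j P.c n ms' (h5.ok hk.two hj)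
    rw [h6, h7', ← hn'] at h13
    have h14 : (P.v j n ms : ℝ) = P.v j n' (Y t0) + (vd P.d (range (j + 1)) P.c n ms' : ℝ) := by
      unfold Par.v
      rw [h13]
      push_cast
      ring
    have h15 : (P.v j n' (Y t0) : ℝ) - g = (P.v j n ms - g) - (vd P.d (range (j + 1)) P.c n ms' : ℝ) := by
      rw [h14]
      ring
    rw [h15]
    refine (abs_sub _ _).trans ?_
    have h16 : ((P.fin j).cc (range (j + 1)) : ℝ) = P.cc (range j) * P.c j := hcc2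
    rw [h16, show P.d - (j + 1) = P.d - j - 1 by omega] at h12
    have h17 : η * P.cc (range j) * (n : ℝ) ^ (P.d - j - 1) ≤
        b * (P.cc (range j) * P.c j) * (n : ℝ) ^ (P.d - j - 1) := by
      apply mul_le_mul_of_nonneg_right _ (by positivity)
      have h18 : η ≤ b := by
        have h21 : P.eps j ≤ Cs * P.eps j := le_mul_of_one_le_left he3.le (by linarith)
        linarith
      have h19 : (P.cc (range j) : ℝ) ≤ P.cc (range j) * P.c j :=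
        le_mul_of_one_le_right (by positivity) hcj
      exact mul_le_mul h18 h19 (by positivity) hb0.le
    have h20 : |(vd P.d (range (j + 1)) P.c n ms' : ℝ)| ≤
        C * b * (P.cc (range j) * P.c j) * (n : ℝ) ^ (P.d - j - 1) := h12
    calc _ ≤ _ := add_le_add (hvg.trans h17) h20
      _ = _ := by ring
  -- growth over the window
  have hgr : (C + 1) * b * (P.cc (range j) * P.c j) * (n : ℝ) ^ (P.d - j - 1) <
      W * (lo * P.cc (range j) * (n' : ℝ) ^ D) := by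
    have h1 : (n : ℝ) ^ (P.d - j - 1) = X * (n : ℝ) ^ D := by
      rw [hX, ← pow_add]
      congr 1
      omega
    have h3 : (n : ℝ) ^ D ≤ 2 * (n' : ℝ) ^ D := by linarith
    have h4 : ε / 4 * (P.c j * X) ≤ W := ar12 hWb q5'
    have h5 : 2 * ((C + 1) * b) ≤ ε * lo / 8 := by
      have h6 : 16 * (C + 1) / lo * b ≤ ε := (mul_le_mul_of_nonneg_right hCsC hb0.le).trans hcbe
      have h7 : 16 * (C + 1) / lo * b = (16 * (C + 1) * b) / lo := by ring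
      rw [h7, div_le_iff₀ hlo] at h6
      linarith
    have h6 : 0 < (P.cc (range j) : ℝ) * P.c j * (X * (n : ℝ) ^ D) := by positivity
    have h7 : (C + 1) * b < 2 * ((C + 1) * b) := by
      have : 0 < (C + 1) * b := by positivity
      linarith
    calc _ = (C + 1) * b * (P.cc (range j) * P.c j * (X * (n : ℝ) ^ D)) := by rw [h1]; ring
      _ < 2 * ((C + 1) * b) * (P.cc (range j) * P.c j * (X * (n : ℝ) ^ D)) :=
          mul_lt_mul_of_pos_right h7 h6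
      _ ≤ ε * lo / 8 * (P.cc (range j) * P.c j * (X * (n : ℝ) ^ D)) :=
          mul_le_mul_of_nonneg_right h5 h6.le
      _ = ε / 4 * (P.c j * X) * (lo * P.cc (range j) * ((n : ℝ) ^ D / 2)) := by ring
      _ ≤ W * (lo * P.cc (range j) * (n' : ℝ) ^ D) := by
          apply mul_le_mul h4 _ (by positivity) (by positivity)
          apply mul_le_mul_of_nonneg_left _ (by positivity)
          linarith
  have hline := grow_line (fun t => (P.v j n' (Y t) : ℝ)) (t0 - W) (t0 + W)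
    (lo * P.cc (range j) * (n' : ℝ) ^ D) (fun t h1 h2' => by
      obtain ⟨h3, h4, _⟩ := hcst t h1 h2'
      show (P.v j n' (Y t) : ℝ) + _ ≤ (P.v j n' (Y (t + 1)) : ℝ)
      rw [h3]
      push_cast
      linarith)
  have hline' := grow_line (fun t => (P.v j n' (Y t) : ℝ)) t0 (t0 + W)
    (lo * P.cc (range j) * (n' : ℝ) ^ D) (fun t h1 h2' => by
      obtain ⟨h3, h4, _⟩ := hcst t (by omega) h2'
      show (P.v j n' (Y t) : ℝ) + _ ≤ (P.v j n' (Y (t + 1)) : ℝ)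
      rw [h3]
      push_cast
      linarith)
  have hlow := hline W (by omega)
  have hup := hline' W le_rfl
  rw [show t0 - W + W = t0 by omega] at hlow
  obtain ⟨hf1, hf2⟩ := abs_le.1 hf0
  have hneg : P.v j n' (Y (t0 - W)) - (g : ℤ) ≤ 0 := by
    have h1 : (P.v j n' (Y (t0 - W)) : ℝ) - g ≤ 0 := by
      have h3 : (P.v j n' (Y (t0 - W)) : ℝ) + W * (lo * P.cc (range j) * (n' : ℝ) ^ D) ≤
        (P.v j n' (Y t0) : ℝ) := hlow
      linarith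
    exact_mod_cast h1
  have hpos : 0 < P.v j n' (Y (t0 + W)) - (g : ℤ) := by
    have h1 : (0 : ℝ) < (P.v j n' (Y (t0 + W)) : ℝ) - g := by
      have h3 : (P.v j n' (Y t0) : ℝ) + W * (lo * P.cc (range j) * (n' : ℝ) ^ D) ≤
        (P.v j n' (Y (t0 + W)) : ℝ) := hup
      linarith
    exact_mod_cast h1
  obtain ⟨t, ht1, ht2, ht3, ht4⟩ := first_pos (fun t => P.v j n' (Y t) - (g : ℤ)) (t0 - W) (t0 + W)
    (by omega) hneg hpos
  obtain ⟨h8, h9, h10⟩ := hcst t ht1 ht2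
  obtain ⟨h11, h12⟩ := hY0 (t + 1) (by omega) (by omega)
  obtain ⟨h13, h14⟩ := hWn (t + 1) (by omega) (by omega)
  obtain ⟨nw, hnw, hv, hr⟩ := h6 n' hn6 (Y (t + 1)) (by rw [h12]; exact hcnt' ρ2 (t + 1) hρm2)
    (fun nw hnw => (hX₀ (t + 1) h13 h14 nw fun τ hτ => (hnw τ hτ).trans
      (nwB_mono _ _ _ (by omega) τ)).1) g ht4 (by
      have h15 : ((P.v j n' (Y (t + 1)) - g : ℤ) : ℝ) =
          ((P.v j n' (Y t) - g : ℤ) : ℝ) + (vd (P.d - P.e) (range j) P.c n' (Y (t + 1)) : ℝ) := by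
        rw [h8]
        push_cast
        ring
      have h16 : ((P.v j n' (Y t) - g : ℤ) : ℝ) ≤ 0 := by exact_mod_cast ht3
      rw [h15, ← hD]
      linarith)
  obtain ⟨h15, h16, ms', h17, h18, h19, _, _⟩ := hX₀ (t + 1) h13 h14 nw fun τ hτ =>
    (hnw τ hτ).trans (nwB_mono _ _ _ (by omega) τ)
  rw [← hn']
  refine ⟨ms', Y (t + 1) + newP P.d P.e j nw, newR P.d P.e j nw, h17, h15, hr, ?_, hv, h18, h19⟩
  rw [h16]
  exact hcnt' ρ (t + 1) hρmρ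

theorem targetNum (h2 : ∀ d, ADD d) : TargetNum := by
  intro d e kap hk Cw ρ hCw hρ
  obtain ⟨κ, hκ, hκm⟩ := exists_kapm hk
  obtain ⟨Cs, E, hCs, hE, hEκ, M₀, h⟩ := num_aux h2 d e kap hk Cw ρ hCw hρ κ hκ hκm
  refine ⟨Cs, E, hCs, hE, M₀, fun P hd he hkap hP hM => ?_⟩
  obtain ⟨M₁, hM₁⟩ := h P.M hM
  obtain ⟨N, F, hN, hsz⟩ := exists_sz P hP hCs (fun x hx => by rw [hkap] at hx ⊢; exact hκm x hx) hEκ M₁
  refine ⟨N, F, hN, fun c hc j hj η hη hη0 => ?_⟩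
  exact hM₁ (P.wc c) hd he hkap rfl (hP.wc c) j hj (hsz c hc j hj) (fun i hi => (hc i hi).2.1) η hη hη0

end Pool.Agent.GD
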