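import Pool.Agent.GD.N.Dat

/-!
# General d, numerical block: auxiliary statements for the step `NUM`
-/

set_option autoImplicit false

namespace Pool.Agent.GD

open Finset Filter

theorem Par.Ok.wc {P : Par} {Cs E : ℝ} (h : P.Ok Cs E) (c : ℕ → ℕ) : (P.wc c).Ok Cs E where
  toCrit := h.toCrit
  eps0 := h.eps0
  eb := h.eb
  be := h.be
  epsJ := h.epsJ
  xp := h.xp
  xm := h.xm
  xm0 := h.xm0

theorem Par.Ok.upd {P : Par} (h : P.Ok 1 1) {j : ℕ} (hj : j < P.J) :
    ({ P with eps := Function.update P.eps (j + 1) (P.bet (j + 1)) } : Par).Ok 1 1 where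
  toCrit := h.toCrit
  eps0 := by
    show 0 < Function.update P.eps (j + 1) (P.bet (j + 1)) 0
    rw [Function.update_of_ne (by omega)]
    exact h.eps0
  eb := by
    intro i hi
    show (1 : ℝ) * Function.update P.eps (j + 1) (P.bet (j + 1)) i ≤ P.bet (i + 1)
    by_cases h1 : i = j + 1
    · subst h1
      rw [Function.update_self, one_mul]
      have h2 := h.be j hj
      have h3 := h.eb (j + 1) hi
      linarith
    · rw [Function.update_of_ne h1]
      exact h.eb i hi
  be := by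
    intro i hi
    show (1 : ℝ) * P.bet (i + 1) ≤ Function.update P.eps (j + 1) (P.bet (j + 1)) (i + 1)
    by_cases h1 : i + 1 = j + 1
    · rw [h1, Function.update_self, one_mul]
    · rw [Function.update_of_ne h1]
      exact h.be i hi
  epsJ := by
    show Function.update P.eps (j + 1) (P.bet (j + 1)) P.J ≤ 1
    by_cases h1 : P.J = j + 1
    · rw [h1, Function.update_self]
      have h2 := h.be j hj
      have h3 := h.epsJ
      rw [h1] at h3
      linarith
    · rw [Function.update_of_ne h1]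
      exact h.epsJ
  xp := h.xp
  xm := h.xm
  xm0 := h.xm0

namespace NU

theorem exists_kapm {d e : ℕ} {kap : ℕ → ℝ} (hk : Crit d e kap) :
    ∃ κ : ℝ, 0 < κ ∧ ∀ x, kap x ≠ 0 → κ ≤ kap x := by
  classical
  set S := (range (e + 1)).filter fun x => kap x ≠ 0
  have hS : S.Nonempty := ⟨e, by
    rw [mem_filter]
    exact ⟨mem_range.2 (by omega), hk.pos.ne'⟩⟩
  obtain ⟨x₀, hx₀, h⟩ := S.exists_min_image kap hS
  rw [mem_filter] at hx₀
  refine ⟨kap x₀, lt_of_le_of_ne (hk.nonneg _) (Ne.symm hx₀.2), fun x hx => h x ?_⟩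
  rw [mem_filter]
  exact ⟨mem_range.2 (by have := (hk.supp x hx).2; omega), hx⟩

/-- `q * K` is a natural number if the denominator divides. -/
theorem exists_nat_mul (q : ℚ) (K : ℕ) (hq : 0 ≤ q) (h : q.den ∣ K) : ∃ p : ℕ, (p : ℚ) = q * K := by
  obtain ⟨m, rfl⟩ := h
  refine ⟨q.num.toNat * m, ?_⟩
  have h1 : ((q.num.toNat : ℕ) : ℚ) = (q.num : ℚ) := by
    have h2 : ((q.num.toNat : ℕ) : ℤ) = q.num := Int.toNat_of_nonneg (Rat.num_nonneg.2 hq)
    exact_mod_cast congrArg (Int.cast : ℤ → ℚ) h2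
  have h3 : q * (q.den : ℚ) = q.num := Rat.mul_den_eq_num q
  push_cast
  rw [h1, ← h3]
  ring

/-- The numbers for the choice of the sizes. -/
theorem exists_sz (P : Par) {Cs E κ : ℝ} (hP : P.Ok Cs E) (hCs : 1 ≤ Cs) (hκ : ∀ x, P.kap x ≠ 0 → κ ≤ P.kap x)
    (hE : E ≤ κ) (M₁ : ℕ) : ∃ (N : ℕ) (F : (ℕ → ℕ) → ℕ), 0 < N ∧ ∀ c, Hier N F P.J c → ∀ j < P.J,
      (P.wc c).Sz j M₁ := by
  classical
  set S := (range (P.J + 1)) ×ˢ (range P.J).powerset
  refine ⟨∏ p ∈ S, (P.xp p.1 p.2).den * (P.xm p.1 p.2).den,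
    fun c => M₁ + ∑ x ∈ range P.J, c x, ?_, ?_⟩
  · exact prod_pos fun p _ => Nat.mul_pos (P.xp p.1 p.2).den_pos (P.xm p.1 p.2).den_pos
  · intro c hc j hj
    have hep : ∀ i, i < P.J → 0 < P.eps i ∧ 0 < P.bet (i + 1) ∧ P.bet (i + 1) ≤ P.eps (i + 1) := by
      intro i
      induction i with
      | zero =>
        intro hi
        have h1 := hP.eb 0 hi
        have h2 := hP.be 0 hi
        have h3 := hP.eps0
        have h4 : 0 < P.bet (0 + 1) := by nlinarith
        exact ⟨h3, h4, by nlinarith⟩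
      | succ i ih =>
        intro hi
        have h0 := ih (by omega)
        have h1 := hP.eb (i + 1) hi
        have h2 := hP.be (i + 1) hi
        have h3 : 0 < P.eps (i + 1) := by linarith [h0.2.1, h0.2.2]
        have h4 : 0 < P.bet (i + 1 + 1) := by nlinarith
        exact ⟨h3, h4, by nlinarith⟩
    have hmono : ∀ k, ∀ i, i + k = P.J → 0 < P.eps i → P.eps i ≤ P.eps P.J := by
      intro k
      induction k with
      | zero =>
        intro i hi _
        rw [show i = P.J by omega]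
      | succ k ih =>
        intro i hi h0
        have h1 := hep i (by omega)
        have h2 := hP.eb i (by omega)
        have h3 : P.eps i ≤ P.eps (i + 1) := by nlinarith [h1.1, h1.2.1, h1.2.2]
        exact h3.trans (ih (i + 1) (by omega) (by linarith [h1.2.1, h1.2.2]))
    have hJ := hep j hj
    have hbE : P.bet (j + 1) ≤ E := by
      have h1 := hmono (P.J - (j + 1)) (j + 1) (by omega) (by linarith [hJ.2.1, hJ.2.2])
      linarith [hJ.2.2, hP.epsJ]
    refine ⟨fun i hi => (hc i (by omega)).2.1, fun i hi => ?_, fun i x hix hx => ?_,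
      fun x K hx hK hjK hKx => ?_⟩
    · exact le_trans (Nat.le_add_right _ _) (hc i (by omega)).2.2
    · refine le_trans ?_ (hc i (by omega)).2.2
      refine le_trans ?_ (Nat.le_add_left _ _)
      have h1 := single_le_sum (f := fun y => if i < y ∧ y < P.J then c y else 0)
        (fun _ _ => Nat.zero_le _) (mem_range.2 (show x < P.J by omega))
      simp only [hix, show x < P.J by omega, and_self, if_true] at h1
      exact h1
    · have hKJ : K ⊆ range P.J := hK.trans (range_subset_range.2 (by omega))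
      have hmax : K.max = (j : WithBot ℕ) := by
        apply le_antisymm
        · refine Finset.max_le fun a ha => ?_
          have h1 := mem_range.1 (hK ha)
          exact WithBot.coe_le_coe.2 (show a ≤ j by omega)
        · exact Finset.le_max hjK
      have hxS : (x, K) ∈ S := by
        rw [mem_product, mem_powerset, mem_range]
        refine ⟨?_, hKJ⟩
        have h1 := card_le_card hKJ
        rw [card_range, hKx] at h1
        show x < P.J + 1
        omega
      have hdv : (P.xp x K).den * (P.xm x K).den ∣ (P.wc c).cc K := by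
        refine (dvd_prod_of_mem (fun p : ℕ × Finset ℕ => (P.xp p.1 p.2).den * (P.xm p.1 p.2).den) hxS).trans ?_
        exact (hc j hj).1.trans (dvd_prod_of_mem c hjK)
      have hnat : 0 ≤ P.nat x K := mul_nonneg (hP.nonneg x) (Nat.cast_nonneg _)
      have hxp := hP.xp x K hx hKJ hKx j hmax
      have hp0 : (0 : ℚ) ≤ P.xp x K := by
        have h1 : (0 : ℝ) ≤ ((P.xp x K : ℚ) : ℝ) := by linarith [hxp.1, hJ.2.1]
        exact_mod_cast h1
      have hm0 : (0 : ℚ) ≤ P.xm x K := by
        by_cases hk0 : P.kap x = 0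
        · rw [hP.xm0 x K hk0]
        · have h2 := hP.xm x K hx hKJ hKx j hmax hk0
          have h3 : P.kap x ≤ P.nat x K := by
            unfold Par.nat
            have h4 : (1 : ℝ) ≤ (x.descFactorial K.card : ℕ) := by
              rw [hKx]
              exact_mod_cast Nat.descFactorial_self x ▸ Nat.factorial_pos x
            nlinarith [hP.nonneg x]
          have h5 := hκ x hk0
          have h1 : (0 : ℝ) ≤ ((P.xm x K : ℚ) : ℝ) := by linarith [h2.2]
          exact_mod_cast h1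
      obtain ⟨p, hp⟩ := exists_nat_mul _ _ hp0 (dvd_trans (Dvd.intro _ rfl) hdv)
      obtain ⟨m, hm⟩ := exists_nat_mul _ _ hm0 (dvd_trans (Dvd.intro_left _ rfl) hdv)
      exact ⟨p, m, hp, hm⟩

/-! ### Large numbers -/

theorem ev_le (K a : ℝ) (ha : 0 < a) (m : ℕ) (hm : 1 ≤ m) : ∀ᶠ n : ℕ in atTop, K ≤ a * (n : ℝ) ^ m := by
  have h1 : Tendsto (fun n : ℕ => (n : ℝ) ^ m) atTop atTop :=
    (tendsto_pow_atTop (by omega)).comp tendsto_natCast_atTop_atTop
  filter_upwards [h1.eventually_ge_atTop (K / a)] with n hn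
  rw [div_le_iff₀ ha] at hn
  linarith

theorem ev_pow (K a : ℝ) (ha : 0 < a) (m : ℕ) : ∀ᶠ n : ℕ in atTop,
    K * (n : ℝ) ^ m ≤ a * (n : ℝ) ^ (m + 1) := by
  filter_upwards [ev_le K a ha 1 le_rfl] with n hn
  rw [pow_succ]
  have h1 : (0 : ℝ) ≤ (n : ℝ) ^ m := by positivity
  nlinarith

theorem ev_ratio (c m : ℕ) (δ : ℝ) (hδ : 0 < δ) : ∀ᶠ n : ℕ in atTop,
    (n : ℝ) ^ m ≤ (1 + δ) * ((n - c : ℕ) : ℝ) ^ m := by
  have h1 : Tendsto (fun n : ℕ => (1 - (c : ℝ) / n)) atTop (nhds (1 - 0)) :=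
    tendsto_const_nhds.sub (tendsto_const_div_atTop_nhds_zero_nat (c : ℝ))
  have h2 : Tendsto (fun n : ℕ => (1 + δ) * (1 - (c : ℝ) / n) ^ m) atTop (nhds ((1 + δ) * (1 - 0) ^ m)) :=
    (h1.pow m).const_mul _
  have h3 : (1 : ℝ) < (1 + δ) * (1 - 0) ^ m := by
    rw [sub_zero, one_pow]
    linarith
  filter_upwards [h2.eventually_const_lt h3, eventually_ge_atTop (c + 1)] with n hn hc
  have h4 : (0 : ℝ) < n := by exact_mod_cast (show 0 < n by omega)
  have h5 : ((n - c : ℕ) : ℝ) = n * (1 - (c : ℝ) / n) := by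
    rw [Nat.cast_sub (by omega)]
    field_simp
  rw [h5, mul_pow]
  have h6 : (0 : ℝ) < (n : ℝ) ^ m := by positivity
  nlinarith

/-- The first positive value. -/
theorem first_pos (f : ℕ → ℤ) (a b : ℕ) (hab : a ≤ b) (h0 : f a ≤ 0) (h1 : 0 < f b) :
    ∃ t, a ≤ t ∧ t < b ∧ f t ≤ 0 ∧ 0 < f (t + 1) := by
  classical
  have h2 : ∃ t, a ≤ t ∧ 0 < f t := ⟨b, hab, h1⟩
  set t := Nat.find h2
  obtain ⟨h3, h4⟩ : a ≤ t ∧ 0 < f t := Nat.find_spec h2
  have h5 : a < t := lt_of_le_of_ne h3 (by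
    rintro h
    rw [← h] at h4
    omega)
  refine ⟨t - 1, by omega, ?_, ?_, ?_⟩
  · have h6 : t ≤ b := Nat.find_min' h2 ⟨hab, h1⟩
    omega
  · by_contra h6
    have h7 := Nat.find_min h2 (m := t - 1) (by omega)
    exact h7 ⟨by omega, by omega⟩
  · rw [show t - 1 + 1 = t by omega]
    exact h4

end NU

end Pool.Agent.GD
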