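import Pool.Agent.GD.N.NumA
import Pool.Agent.GD.N.ExT
import Pool.Agent.GD.N.DOk
import Pool.Agent.GD.N.DCls

/-!
# General d, numerical block: all steps with a given number of main points off `L_j`
-/

set_option autoImplicit false

namespace Pool.Agent.GD

open Finset Filter NU

/-- The numbers with `t` main points off `L_j`. -/
def setT (e j t : ℕ) (T : ℕ → Finset ℕ → ℕ) (x : ℕ) (B : Finset ℕ) : ℕ :=
  if x = e ∧ B = range j then t else T x B

/-- The numbers of the clusters which are moved off `L_j`. -/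
def ocF (P : Par) (j n : ℕ) (ms : Multiset Kd) (i : ℕ) (τ : CT) : ℕ :=
  ms.count (τ.kd P.d P.e i j) - τ.mm P * (n - P.c j) ^ τ.w P.e

/-- The same constants with finer windows on the level `j + 1`. -/
def Par.fin (P : Par) (j : ℕ) : Par := { P with eps := Function.update P.eps (j + 1) (P.bet (j + 1)) }

theorem NU.newP_zero (d e j : ℕ) : newP d e j (fun _ => 0) = 0 := by
  unfold newP
  exact sum_eq_zero fun τ _ => by
    split_ifs
    · rfl
    · exact zero_nsmul _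

theorem NU.newR_zero (d e j : ℕ) : newR d e j (fun _ => 0) = 0 := by
  unfold newR
  exact sum_eq_zero fun τ _ => by simp

theorem NU.nwB_mono (e : ℕ) (c : ℕ → ℕ) (M : ℕ) {n n' : ℕ} (h : n' ≤ n) (τ : CT) :
    nwB e c M n' τ ≤ nwB e c M n τ := by
  cases τ with
  | pl k S => exact Nat.mul_le_mul_left _ (Nat.pow_le_pow_left h _)
  | b0 S => exact Nat.mul_le_mul_left _ (Nat.pow_le_pow_left h _)
  | br r => exact le_rfl

/-- The steps. -/
theorem pack (d e : ℕ) (kap : ℕ → ℝ) (hk : Crit d e kap) (M₀ : ℕ) : ∃ Cs E : ℝ, 1 ≤ Cs ∧ 0 < E ∧ E ≤ 1 ∧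
    ∀ M : ℕ, M₀ ≤ M → ∃ M₁ : ℕ, ∀ P : Par, P.d = d → P.e = e → P.kap = kap → P.M = M → P.Ok Cs E →
      ∀ j < P.J, P.Sz j M₁ → ∀ᶠ n : ℕ in atTop, ∀ ms, Cls P j n ms →
        ∃ X₀ : Multiset Kd, ∀ t : ℕ, t ≤ ms.count (P.u j) →
          |(t : ℝ) - P.kap P.e * P.e * P.c j * (n : ℝ) ^ (P.e - 1)| ≤
            P.eps (j + 1) * P.c j * (n : ℝ) ^ (P.e - 1) →
          ∀ nw : CT → ℕ, (∀ τ ∈ newT d e j, nw τ ≤ nwB e P.c M₀ n τ) →
            Cls P j (n - P.c j) (X₀ + Multiset.replicate (ms.count (P.u j) - t) (P.u j) + newP d e j nw) ∧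
            (X₀ + Multiset.replicate (ms.count (P.u j) - t) (P.u j) + newP d e j nw).count (P.u j) =
              ms.count (P.u j) - t ∧
            ∃ ms' : Multiset Kd, Cls P (j + 1) n ms' ∧ ms'.bind (un j) = ms ∧
              ms'.bind (tr j) = X₀ + Multiset.replicate (ms.count (P.u j) - t) (P.u j) + newP d e j nw +
                Multiset.replicate (newR d e j nw) (sm P.d) ∧
              ms'.count (P.u (j + 1)) = ms.count (P.u j) - t ∧
              (|(t : ℝ) - P.kap P.e * P.e * P.c j * (n : ℝ) ^ (P.e - 1)| ≤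
                P.bet (j + 1) * P.c j * (n : ℝ) ^ (P.e - 1) → Cls (P.fin j) (j + 1) n ms') := by
  obtain ⟨Cs, E3, hCs, hE3, hT⟩ := exists_T d e kap hk
  obtain ⟨E4, hE4, hok⟩ := dat_ok d e kap hk M₀
  refine ⟨Cs, min 1 (min E3 E4), hCs, lt_min one_pos (lt_min hE3 hE4), min_le_left _ _, fun M hM => ?_⟩
  obtain ⟨M₁, hM₁⟩ := hok M
  refine ⟨M₁, fun P hd he hkap hPM hP j hj hs => ?_⟩
  have hs1 : P.Sz j 1 := ⟨hs.one, hs.one, hs.dec, hs.int⟩
  have hP3 : P.Ok Cs E3 := hP.mono le_rfl (by linarith) ((min_le_right _ _).trans (min_le_left _ _))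
  have hP4 : P.Ok 1 E4 := hP.mono hCs (by norm_num) ((min_le_right _ _).trans (min_le_right _ _))
  have hP1 : P.Ok 1 1 := hP.mono hCs (by norm_num) (min_le_left _ _)
  obtain ⟨θ, n1, hθ, h1⟩ := hT P hd he hkap hP3 j hj hs1
  obtain ⟨n2, h2⟩ := hM₁ P hd he hkap hPM hP4 j hj hs θ hθ
  obtain ⟨n3, h3⟩ := dat_cls d e kap hk M₀ P hd he hkap (hPM ▸ hM) hP1 j hj hs1 θ hθ
  obtain ⟨n4, h4⟩ := dat_cls' d e kap hk M₀ P hd he hkap (hPM ▸ hM) hP1 j hj hs1 θ hθ
  subst hd he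
  filter_upwards [eventually_ge_atTop n1, eventually_ge_atTop n2, eventually_ge_atTop n3,
    eventually_ge_atTop n4] with n hn1 hn2 hn3 hn4 ms hms
  obtain ⟨T, hT⟩ := h1 n hn1 ms hms
  obtain ⟨A₀, hA₀, hst⟩ := exists_step P.d P.e j hk.two hj ms (fun k hk => by
    rcases hms.mem k hk with ⟨x, A, h5, h6, h7, h8, _⟩ | h5
    · exact Or.inl ⟨x, A, h5, h6, h7, h8⟩
    · exact Or.inr h5)
  refine ⟨A₀ T (ocF P j n ms), fun t ht1 ht2 nw hnw => ?_⟩
  obtain ⟨s, hs⟩ : ∃ s : Stp, s = ⟨setT P.e j t T, ocF P j n ms, nw⟩ := ⟨_, rfl⟩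
  have hsT : s.T = setT P.e j t T := by rw [hs]
  have hso : s.oc = ocF P j n ms := by rw [hs]
  have hsn : s.nw = nw := by rw [hs]
  have hst' : s.T P.e (range j) = t := by
    rw [hsT]
    unfold setT
    rw [if_pos ⟨rfl, rfl⟩]
  have hne : ∀ x B, (x ≠ P.e ∨ B ≠ range j) → s.T x B = T x B := by
    intro x B h5
    rw [hsT]
    unfold setT
    rw [if_neg]
    rintro ⟨h6, h7⟩
    rcases h5 with h5 | h5
    · exact h5 h6
    · exact h5 h7
  have hD : P.Dat j n θ M₀ ms s := by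
    refine ⟨⟨fun x B hB h5 => ?_, fun x B hx hxd hB hc h5 => ?_⟩, ?_, ?_, ?_, ?_⟩
    · by_cases h6 : x ≠ P.e ∨ B ≠ range j
      · rw [hne x B h6]
        exact hT.out x B hB h5
      · push Not at h6
        obtain ⟨rfl, rfl⟩ := h6
        exact absurd ⟨hk.two, hk.lt, by rw [sdiff_self]; simp⟩ h5
    · rw [hne x B h5]
      exact hT.gt x B hx hxd hB hc h5
    · rw [hst']
      exact ht1
    · rw [hst']
      exact ht2
    · intro i τ
      rw [hso]
      rfl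
    · rw [hsn]
      exact hnw
  obtain ⟨ms', hR⟩ := hst s (h2 n hn2 ms hms s hD)
  have e1 : A₀ s.T s.oc = A₀ T (ocF P j n ms) := by
    rw [hso]
    exact hA₀ s.T _ T fun x B _ h5 => hne x B h5
  rw [e1, hst', hsn] at hR
  have hu : P.u j = Kd.ord P.e (range j) := rfl
  rw [← hu] at hR
  have hR' : s.Res P.d P.e j ms ms' (A₀ T (ocF P j n ms) +
      Multiset.replicate (ms.count (P.u j) - t) (P.u j) + newP P.d P.e j nw) := hR
  obtain ⟨h5, h6⟩ := h3 n hn3 ms hms s hD ms' _ hR'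
  refine ⟨h6, ?_, ms', h5, hR'.un, ?_, ?_, fun h7 => ?_⟩
  · have h7 := hR'.uA
    rw [hst', ← hu] at h7
    omega
  · rw [hR'.tr]
    congr 2
    unfold Stp.r newR
    rw [hsn]
  · have h7 := hR'.on P.e (range j) Subset.rfl
    rw [← range_add_one, hst', npt_u h5, npt_u hms] at h7
    omega
  · refine h4 n hn4 ms hms s hD ms' _ hR' ?_
    rw [hst']
    exact h7

end Pool.Agent.GD
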